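import Pool.Agent.helper81.SBX.VMain
import Pool.Agent.helper43.SBI.Inv
import Pool.Agent.helper43.SBI.Stab3
import Pool.Agent.helper43.SBI.Generic

set_option autoImplicit false

/-!
# Five: superbridge index at least five from one coloured diagram
-/

namespace Pool.Agent.helper81.SBX

open Module Matrix
open Pool.Agent.helper82.SB (PolyKnot edge maxima superbridge Equivalent maxima_le)
open Pool.Agent.helper43.SBI (xpos alt Under cnt View IsColoring Full)

variable {D V : Type} [DivisionRing D] [StarRing D] [AddCommGroup V] [Module D V]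
variable {Hm : Herm D V} {t : D} (ht : Six D t) (Λ : Lat Hm t)

/-- If a polygonal knot has a full colouring by the quandle of integral roots and the order has no unit
`U` with `star U = m * U * star g`, then its superbridge index is at least `5`. -/
theorem five_le (hV : finrank D V = 3) (Q : PolyKnot)
    (hcol : ∃ e, View Q e ∧ ∃ T, IsColoring (rootAQ ht Λ) Q e T ∧ Full (rootFam ht Λ) Q e T)
    (hA : ∀ U : Dˣ, (U : D) ∈ Λ.O → ((U⁻¹ : Dˣ) : D) ∈ Λ.O →
      ∀ m ∈ Six.mu t, star (U : D) ≠ m * U * star Λ.g) :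
    5 ≤ superbridge Q := by
  by_contra hlt
  have hne : {m : ℕ | ∃ L : PolyKnot, Equivalent Q L ∧ ∀ v, maxima L.n L.P v ≤ m}.Nonempty :=
    ⟨Q.n, Q, Pool.Agent.helper82.SB.Equivalent.refl Q, fun v => maxima_le _ _ v⟩
  obtain ⟨L, hL, hm⟩ := Nat.sInf_mem hne
  have h4 : ∀ v, maxima L.n L.P v ≤ 4 := fun v => (hm v).trans (by
    change superbridge Q ≤ 4
    omega)
  obtain ⟨U, h1, h2, m, hmu, hrel⟩ := unit_of_coloring ht Λ hV L h4
    (fun e he => by
      obtain ⟨s, hs, h⟩ := Pool.Agent.helper43.SBI.view_open L e he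
      exact ⟨s, hs, h⟩)
    (fun b ε hε => Pool.Agent.helper43.SBI.view_dense L b ε hε)
    (fun e he => Pool.Agent.helper43.SBI.inv (rootFam_closed ht Λ) hL hcol e he)
  exact hA U h1 h2 m hmu hrel

end Pool.Agent.helper81.SBX
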