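import Pool.Agent.helper81.SBX.GHt

set_option autoImplicit false

/-!
# GAdm: the heights in the directions of the hemisphere are admissible (G1); the solutions `H(v, X_j)`

PROOFS.
* `ht_adm`: `c j ≠ 0` implies `M.und j`. `str`: by `straight`, `d j = c • d (j - 1)` with `c > 0`, so
  `(H (j + 1) - H j) * (H j - H (j - 1)) = c * (u ⬝ d (j - 1)) ^ 2`. `ov`: by `over_eq`,
  `(1 - lam) H (o j) + lam H (o j + 1) = H j + al (u ⬝ᵥ e) ≥ H j` with `0 < lam < 1`. If the maximum is `≤ H j`, both are equal to `H j` and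
  `u ⬝ᵥ e = 0` (`al > 0`). Then `u` is orthogonal to `e` and `d (o j)`; `det3 e (d (o j)) (d j) ≠ 0` (`transv`) gives `u ⬝ᵥ d j ≠ 0`
  (`det_eq_zero`), and `(H (j - 1) - H j) * (H (j + 1) - H j) = - c⁻¹ (u ⬝ d j) ^ 2 < 0`.
* `V0_ge`: `f v j = H v (X j)`. Linear in `v` (`add_left`, `smul_left`). `H v (a • x) = H v x * star a` (from `herm`, `smul_left`). Quasi-periodic:
  `H v (g • X j) = H v (X j) * star g`, `τ = star g`. Relation at a plain node: `c j = 0`, `X j = X (j - 1)`. At an under node with
  `s = M.sgn t j`, `X j = X (j - 1) + ((s - 1) * H (X (j - 1)) (X (o j))) • X (o j)`, so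
  `H v (X j) = H v (X (j - 1)) + H v (X (o j)) * star ((s - 1) * H (X (j - 1)) (X (o j)))
   = H v (X (j - 1)) + H v (X (o j)) * (H (X (o j)) (X (j - 1)) * (star s - 1))`, and `star s` is central (`Six.central`; `s` is `t` or
  `star t`), so this is `H v (X (j - 1)) + H v (X (o j)) * c j`. Injective: `C.span`.
-/

namespace Pool.Agent.helper81.SBX

open Module Matrix

variable {D V : Type*} [DivisionRing D] [StarRing D] [AddCommGroup V] [Module D V]
variable {M : Marked} {Hm : Herm D V} {t : D} (C : Col M Hm t) (ht : Six D t)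

theorem Herm.smul_right (Hm : Herm D V) (a : D) (x y : V) : Hm.H x (a • y) = Hm.H x y * star a := by
  rw [← Hm.herm, Hm.smul_left, star_mul, Hm.herm]

theorem Herm.add_right (Hm : Herm D V) (x y z : V) : Hm.H x (y + z) = Hm.H x y + Hm.H x z := by
  rw [← Hm.herm, Hm.add_left, star_add, Hm.herm, Hm.herm]

theorem und_of_c {j : ℤ} (hc : (C.rs ht).c j ≠ 0) : M.und j := by
  by_contra h
  apply hc
  simp only [Col.rs, h, if_false]

/-- the height steps at an under node -/
theorem ht_step (u : E3) {j : ℤ} (hj : M.und j) : ∃ c : ℝ, 0 < c ∧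
    M.ht u (j + 1) - M.ht u j = c * (M.ht u j - M.ht u (j - 1)) := by
  obtain ⟨c, hc, h⟩ := M.straight j hj
  refine ⟨c, hc, ?_⟩
  have h2 : u ⬝ᵥ (M.q (j + 1) - M.q j) = u ⬝ᵥ (c • (M.q j - M.q (j - 1))) := by rw [h]
  rw [dotProduct_sub, dotProduct_smul, dotProduct_sub, smul_eq_mul] at h2
  exact h2

theorem ht_adm {u : E3} (hu : u ∈ M.hemi) : (C.rs ht).Adm (M.ht u) := by
  refine ⟨?_, ?_, ?_⟩
  · intro j
    exact ht_per M u j
  · intro j hc
    have hj := und_of_c C ht hc
    obtain ⟨c, hc0, hstep⟩ := ht_step u hj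
    change M.ht u j < max (M.ht u (M.o j)) (M.ht u (M.o j + 1)) ∨
      (M.ht u (M.o j) = M.ht u j ∧ M.ht u (M.o j + 1) = M.ht u j ∧
        (M.ht u (j - 1) - M.ht u j) * (M.ht u (j + 1) - M.ht u j) < 0)
    have hov : (1 - M.lam j) * M.ht u (M.o j) + M.lam j * M.ht u (M.o j + 1)
        = M.ht u j + M.al j * (u ⬝ᵥ M.e) := by
      have h := congrArg (fun x => u ⬝ᵥ x) (M.over_eq j hj)
      simp only [dotProduct_add, dotProduct_smul, smul_eq_mul] at h
      exact h
    have l0 := M.lam_pos j hj
    have l1 := M.lam_lt j hj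
    have a0 := M.al_pos j hj
    have hue := hu.2
    have hae : 0 ≤ M.al j * (u ⬝ᵥ M.e) := mul_nonneg a0.le hue
    by_cases hmax : M.ht u j < max (M.ht u (M.o j)) (M.ht u (M.o j + 1))
    · exact Or.inl hmax
    · right
      rw [not_lt, max_le_iff] at hmax
      obtain ⟨m1, m2⟩ := hmax
      have k1 : 0 ≤ (1 - M.lam j) * (M.ht u j - M.ht u (M.o j)) :=
        mul_nonneg (by linarith) (by linarith)
      have k2 : 0 ≤ M.lam j * (M.ht u j - M.ht u (M.o j + 1)) :=
        mul_nonneg l0.le (by linarith)
      have k3 : (1 - M.lam j) * (M.ht u j - M.ht u (M.o j)) +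
          M.lam j * (M.ht u j - M.ht u (M.o j + 1)) = - (M.al j * (u ⬝ᵥ M.e)) := by
        linear_combination - hov
      have k4 : (1 - M.lam j) * (M.ht u j - M.ht u (M.o j)) = 0 := by linarith
      have k5 : M.lam j * (M.ht u j - M.ht u (M.o j + 1)) = 0 := by linarith
      have k6 : M.al j * (u ⬝ᵥ M.e) = 0 := by linarith
      have e1 : M.ht u (M.o j) = M.ht u j := by
        rcases mul_eq_zero.1 k4 with h | h
        · linarith
        · linarith
      have e2 : M.ht u (M.o j + 1) = M.ht u j := by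
        rcases mul_eq_zero.1 k5 with h | h
        · linarith
        · linarith
      have e3 : u ⬝ᵥ M.e = 0 := by
        rcases mul_eq_zero.1 k6 with h | h
        · linarith
        · exact h
      refine ⟨e1, e2, ?_⟩
      have e4 : u ⬝ᵥ M.d (M.o j) = 0 := by
        rw [← ht_succ, e1, e2, sub_self]
      have hne : M.ht u j - M.ht u (j - 1) ≠ 0 := by
        intro h0
        rw [h0, mul_zero] at hstep
        have e5 : u ⬝ᵥ M.d j = 0 := by rw [← ht_succ, hstep]
        exact M.transv j hj (det_eq_zero hu.1 e3 e4 e5)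
      have hsq : 0 < (M.ht u j - M.ht u (j - 1)) ^ 2 := by positivity
      rw [hstep]
      have : (M.ht u (j - 1) - M.ht u j) * (c * (M.ht u j - M.ht u (j - 1)))
          = - (c * (M.ht u j - M.ht u (j - 1)) ^ 2) := by ring
      rw [this]
      have := mul_pos hc0 hsq
      linarith
  · intro j hc
    have hj := und_of_c C ht hc
    obtain ⟨c, hc0, hstep⟩ := ht_step u hj
    by_cases h0 : M.ht u j - M.ht u (j - 1) = 0
    · right
      rw [h0, mul_zero] at hstep
      constructor <;> linarith
    · left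
      rw [hstep]
      have hsq : 0 < (M.ht u j - M.ht u (j - 1)) ^ 2 := by positivity
      have := mul_pos hc0 hsq
      have e : c * (M.ht u j - M.ht u (j - 1)) * (M.ht u j - M.ht u (j - 1))
          = c * (M.ht u j - M.ht u (j - 1)) ^ 2 := by ring
      rw [e]
      exact this

theorem star_sgn_central (ht : Six D t) (j : ℤ) (x : D) :
    star (M.sgn t j) * x = x * star (M.sgn t j) := by
  simp only [Marked.sgn]
  split_ifs
  · simp only [star_star]; exact ht.central x
  · have := ht.central (star x)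
    have h2 := congrArg star this
    simpa [star_mul] using h2.symm

/-- the solutions `H(v, X_j)` -/
theorem V0_ge : ∃ f : V →ₗ[D] (ℤ → D), Function.Injective f ∧ ∀ v, f v ∈ (C.rs ht).V0 := by
  let f : V →ₗ[D] (ℤ → D) :=
    { toFun := fun v j => Hm.H v (C.X j)
      map_add' := fun x y => by
        funext j
        simp only [Pi.add_apply, Hm.add_left]
      map_smul' := fun a x => by
        funext j
        simp only [Pi.smul_apply, Hm.smul_left, smul_eq_mul, RingHom.id_apply] }
  refine ⟨f, ?_, ?_⟩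
  · rw [injective_iff_map_eq_zero]
    intro v hv
    exact C.span v fun j => congrFun hv j
  · intro v
    refine ⟨?_, ?_, ?_⟩
    · intro j
      change Hm.H v (C.X (j + M.N)) = Hm.H v (C.X j) * star C.g
      rw [C.X_per, Hm.smul_right]
    · intro j hj
      exact absurd (Or.inl (Set.mem_univ _)) hj
    · intro j _
      change Hm.H v (C.X j) = Hm.H v (C.X (j - 1)) + Hm.H v (C.X (M.o j)) * (C.rs ht).c j
      by_cases hj : M.und j
      · have hc : (C.rs ht).c j = (star (M.sgn t j) - 1) * Hm.H (C.X (M.o j)) (C.X (j - 1)) := by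
          simp only [Col.rs, hj, if_true]
        rw [hc]
        conv_lhs => rw [C.under j hj]
        rw [Herm.refl, Hm.add_right, Hm.smul_right, star_mul, Hm.herm, star_sub, star_one,
          sub_mul (star (M.sgn t j)), mul_sub (Hm.H (C.X (M.o j)) (C.X (j - 1))),
          star_sgn_central ht, mul_one, one_mul]
      · have hc : (C.rs ht).c j = 0 := by
          simp only [Col.rs, hj, if_false]
        rw [hc, mul_zero, add_zero, C.plain j hj]

end Pool.Agent.helper81.SBX
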