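import Pool.Agent.helper81.SBX.RC4A

set_option autoImplicit false

/-!
# RC4B: comparison of the top cups of two refinements (C4)

PROOF of `c4`. Apply `c4_level` to `z` and to `z'` : `H0 z` and `H0 z'` are both the minimum of `H0` on `S`, so
`H0 z = H0 z' =: y`; let `Sp = {j | y < H0 j} ⊆ S`. Let `M`, `f` be as in `c3` for `z` (unit function `f ∈ T H`, `f ∉ V0`), `p`, `p'` as in
`c4_pair`. `res S f ∈ Sol S` (`typ1_main` (2)), so there is `g ∈ T H'` with `res S g = res S f` (`typ1_main` (4) for `H'`).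
`g ∉ V0` (else `typ1_main` (3) for `H` gives `f ∈ V0`). `g` vanishes above the level `y`: a piece above the level is in
`Pc Sp ⊆ Pc S`, where `g = f = 0` (`unit_vanish`). `g p = f p = 1`, `g p' = f p' = 0`.
TELESCOPE (`telescope`): for all nodes `j` with `min p p' < j ≤ max p p'`: if `j` is not a cup of `H'` then `g j = g (j - 1)`
(`const_on_run`; the run has at least two nodes: `M` and `z`, so a neighbour of `j` is in the run), and `g j = g (j - 1) - mis j g` always. So
`1 = |g p - g p'|`: precisely `g p - g p' = ∓ ∑ mis j g` over the cups `j` of `H'` in the interval.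
Let `M'`, `f'` be as in `c3` for `z'` (`AdjIn H0 H' M' z'`, `f'` unit function of `M'` for `H'`). Some cup `j0` in the interval has
`mis j0 g ≠ 0`, so it is effective for `H'`, and `H0 j0 = y`; by `c3`, `AdjIn H0 H' M' (j0 + i0 * N)`. Put `M2 = M' - i0 * N`,
`AdjIn H0 H' M2 j0`, `f2` = unit function of `M2`; `z2 = z' - i0 * N`, `AdjIn H0 H' M2 z2`. `M2` is in the run of `j0`, i.e. of `z`, so
`SameRun H0 z2 z`. Every cup `j` in the interval with `mis j g ≠ 0` is adjacent to `M2`: it is effective, `AdjIn H0 H' M' (j + i1 * N)`, and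
`j + i1 * N`, `j0 + i0 * N` are in one run, as are `j`, `j0`; so `i1 = i0` (`run_shift_eq`).
`f2 ∉ V0` (`c3` for `M2`, or: `f2` is `f'` times a power of `τ` on the left; or directly `mis j0 f2 = ± 1`), so `g = a • f2 + v` with
`v ∈ V0` (`one_dim`), and `mis j g = a * mis j f2` for all cups. There are at most two cups adjacent to `M2` (`adj_unique_cup`): one to the right,
with `mis = 1`, and one to the left, with `mis = - 1` (`unit_mis_adj`). So the sum over the cups of the interval is `a * s` with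
`s ∈ {0, 1, -1}`; it is `± 1`, so `a = ± 1`.
Hence `mis z2 g = a * mis z2 f2 = ± 1` and `mis z f = ± 1`: `mis z2 g = ε * mis z f` with a sign `ε`.
General `ξ ∈ T H`, `ξ' ∈ T H'` with `res S ξ = res S ξ'`: `ξ = b • f + v` (`one_dim`), so
`res S (ξ' - b • g - v) = res S ξ - b • res S f - res S v = 0 = res S 0` and `ξ' - b • g - v ∈ V0` (`typ1_main` (3) for `H'`), so
`mis z2 ξ' = b * mis z2 g = ε * (b * mis z f) = ε * mis z ξ` (signs commute). `z2 = z' + (- i0) * N`.
-/

namespace Pool.Agent.helper81.SBX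

open Module

variable {D : Type*} [DivisionRing D] {R : RS D} {H H' H0 H1 : ℤ → ℝ} {S S' : Set ℤ}

/-- a node of a run which has another node has a neighbour in the run -/
theorem run_nbr {j z M : ℤ} (h : SameRun H0 j z) (hM : SameRun H0 M z) (hne : M ≠ z) :
    H0 (j - 1) = H0 j ∨ H0 (j + 1) = H0 j := by
  rcases lt_trichotomy j z with hlt | heq | hgt
  · right
    exact h (j + 1) (by omega) (by omega)
  · subst heq
    rcases lt_or_gt_of_ne hne with hl | hl
    · left
      have h1 := hM (j - 1) (by omega) (by omega)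
      have h2 := hM j (by omega) (by omega)
      rw [h1, h2]
    · right
      have h1 := hM (j + 1) (by omega) (by omega)
      have h2 := hM j (by omega) (by omega)
      rw [h1, h2]
  · left
    exact h (j - 1) (by omega) (by omega)

/-- telescoping sum of mismatches -/
theorem telescope (g : ℤ → D) (lo : ℤ) (n : ℕ) :
    g lo - g (lo + n) = ∑ j ∈ Finset.Ioc lo (lo + n), mis j g := by
  induction n with
  | zero => simp
  | succ n ih =>
    have hI : Finset.Ioc lo (lo + ((n + 1 : ℕ) : ℤ)) =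
        insert (lo + n + 1) (Finset.Ioc lo (lo + n)) := by
      ext j
      simp only [Finset.mem_Ioc, Finset.mem_insert]
      push_cast
      omega
    rw [hI, Finset.sum_insert (by simp), ← ih]
    unfold mis
    push_cast
    rw [show lo + (n : ℤ) + 1 - 1 = lo + n by ring, show lo + ((n : ℤ) + 1) = lo + n + 1 by ring]
    abel

theorem telescope' (g : ℤ → D) {lo hi : ℤ} (h : lo ≤ hi) :
    g lo - g hi = ∑ j ∈ Finset.Ioc lo hi, mis j g := by
  obtain ⟨n, hn⟩ := Int.le.dest h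
  subst hn
  exact telescope g lo n

/-- a sum of signs with at most one term of each sign -/
theorem sign_sum {A : Finset ℤ} {M : ℤ}
    (h1 : ∀ i ∈ A, ∀ j ∈ A, (M < i ↔ M < j) → i = j) :
    (∑ j ∈ A, (if M < j then (1 : D) else -1)) = 0 ∨
      (∑ j ∈ A, (if M < j then (1 : D) else -1)) = 1 ∨
      (∑ j ∈ A, (if M < j then (1 : D) else -1)) = -1 := by
  classical
  have hc1 : (A.filter fun j => M < j).card ≤ 1 := by
    rw [Finset.card_le_one]
    intro i hi j hj
    simp only [Finset.mem_filter] at hi hj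
    exact h1 i hi.1 j hj.1 (by simp [hi.2, hj.2])
  have hc2 : (A.filter fun j => ¬ M < j).card ≤ 1 := by
    rw [Finset.card_le_one]
    intro i hi j hj
    simp only [Finset.mem_filter] at hi hj
    exact h1 i hi.1 j hj.1 (by simp [hi.2, hj.2])
  rw [Finset.sum_ite]
  simp only [Finset.sum_const, smul_neg, nsmul_eq_mul, mul_one]
  generalize (A.filter fun j => M < j).card = c1 at *
  generalize (A.filter fun j => ¬ M < j).card = c2 at *
  interval_cases c1 <;> interval_cases c2 <;> simp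

theorem c4 (hA0 : R.Adm H0) (hn : ∃ i j, H0 i ≠ H0 j) (h2 : ¬ R.Typ1 H0) (hA1 : R.Adm H1)
    (h01 : Ref H0 H1) (hS : Upper H1 S) {ζ : ℤ → D} (hζ : ζ ∈ R.Sol S)
    (hne : ∀ v ∈ R.V0, res S v ≠ ζ) (hg : Good3 R H) (hg' : Good3 R H') (hR : Ref H1 H)
    (hR' : Ref H1 H') {z z' : ℤ} (hz : R.TopCup H z) (hz' : R.TopCup H' z') :
    ∃ i : ℤ, SameRun H0 (z' + i * R.N) z ∧
      ((∀ ξ ∈ R.T H, ∀ ξ' ∈ R.T H', res S ξ = res S ξ' → mis (z' + i * R.N) ξ' = mis z ξ) ∨
       (∀ ξ ∈ R.T H, ∀ ξ' ∈ R.T H', res S ξ = res S ξ' → mis (z' + i * R.N) ξ' = - mis z ξ)) := by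
  classical
  have hR0 : Ref H0 H := ref_trans h01 hR
  have hR0' : Ref H0 H' := ref_trans h01 hR'
  obtain ⟨l1, ⟨jS, hjS, hjz⟩, l3, -⟩ := c4_level hA0 h2 hA1 h01 hS hζ hne hg hR hz
  obtain ⟨-, ⟨jS', hjS', hjz'⟩, l3', -⟩ := c4_level hA0 h2 hA1 h01 hS hζ hne hg' hR' hz'
  have hyy : H0 z' = H0 z := by
    have a1 : H0 z' ≤ H0 jS := l3' hjS
    have a2 : H0 z ≤ H0 jS' := l3 hjS'
    linarith
  obtain ⟨M, hM, -, hMf⟩ := c3 hA0 hn h2 hg hR0 hz
  obtain ⟨f, hf, -⟩ := exists_unit hg.adm hg.gen hM.1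
  obtain ⟨hfV, hspan⟩ := hMf f hf
  obtain ⟨p, p', hp, hp', hfp, hfp', hrun⟩ :=
    c4_pair hA0 hn h2 hA1 h01 hS hζ hne hg hR hz hM hf hfV
  obtain ⟨-, t2, t3, -⟩ := typ1_main hA1 hg hR hS hζ hne
  obtain ⟨-, -, t3', t4'⟩ := typ1_main hA1 hg' hR' hS hζ hne
  obtain ⟨g, hgT, hgr, -⟩ := t4' (res S f) (t2 f hf.mem)
  have hgV : g ∉ R.V0 := fun h => hfV (t3 f hf.mem g h hgr.symm)
  have hMz : H0 M = H0 z := (hM.2.2.2 z (by omega) (by omega)).symm
  have hfvan : VanAb H0 (H0 z) f := unit_vanish hg.adm hg.gen hR0 hMz hf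
  have hgf : ∀ i ∈ Pc S, g i = f i := by
    intro i hi
    have e := congrFun hgr i
    rw [res_apply_of_mem hi, res_apply_of_mem hi] at e
    exact e
  have hgvan : VanAb H0 (H0 z) g := by
    intro i hi
    have hiS : i ∈ Pc S := by
      rcases lt_max_iff.1 hi with h | h
      · exact Or.inl (l1 h)
      · exact Or.inr (l1 h)
    rw [hgf i hiS]
    exact hfvan i hi
  have hgp : g p = 1 := by rw [hgf p hp, hfp]
  have hgp' : g p' = 0 := by rw [hgf p' hp', hfp']
  -- the mismatches in the interval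
  have hMnz : M ≠ z := by
    rcases hM.2.2.1 with h | h
    · exact ne_of_lt h.1
    · exact ne_of_gt h.1
  have hflat : ∀ j, min p p' < j → j ≤ max p p' → ¬ IsCup H' j → mis j g = 0 := by
    intro j h1 h2 hc
    have hjz : SameRun H0 j z := hrun j h1 h2
    have hval : H0 j = H0 z := (hjz z (by omega) (by omega)).symm
    have := const_on_run hA0 hgT (j := j) (by rw [hval]; exact hgvan)
      (run_nbr hjz hM.2.2.2 hMnz) hc
    unfold mis
    rw [this, sub_self]
  set lo := min p p' with hlo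
  set hi := max p p' with hhi
  have htel : g lo - g hi = ∑ j ∈ Finset.Ioc lo hi, mis j g :=
    telescope' g (by omega)
  have hpm : g lo - g hi = 1 ∨ g lo - g hi = -1 := by
    rcases le_total p p' with h | h
    · left
      rw [hlo, hhi, min_eq_left h, max_eq_right h, hgp, hgp', sub_zero]
    · right
      rw [hlo, hhi, min_eq_right h, max_eq_left h, hgp, hgp', zero_sub]
  have hsum_ne : (∑ j ∈ Finset.Ioc lo hi, mis j g) ≠ 0 := by
    rw [← htel]
    rcases hpm with h | h <;> rw [h] <;> simp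
  obtain ⟨j0, hj0, hj0ne⟩ := Finset.exists_ne_zero_of_sum_ne_zero hsum_ne
  have hcupne : ∀ j ∈ Finset.Ioc lo hi, mis j g ≠ 0 → IsCup H' j := by
    intro j hj hne'
    by_contra hc
    rw [Finset.mem_Ioc] at hj
    exact hne' (hflat j hj.1 hj.2 hc)
  have hrunI : ∀ j ∈ Finset.Ioc lo hi, SameRun H0 j z := by
    intro j hj
    rw [Finset.mem_Ioc] at hj
    exact hrun j hj.1 hj.2
  have hval : ∀ j ∈ Finset.Ioc lo hi, H0 j = H0 z := fun j hj =>
    (hrunI j hj z (by omega) (by omega)).symm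
  -- the cap for H'
  obtain ⟨M', hM', hM'z, -⟩ := c3 hA0 hn h2 hg' hR0' hz'
  have heff : ∀ j ∈ Finset.Ioc lo hi, mis j g ≠ 0 → ∃ i : ℤ, AdjIn H0 H' M' (j + i * R.N) := by
    intro j hj hne'
    exact hM'z j ⟨hcupne j hj hne', g, hgT, hne'⟩ (by rw [hval j hj, hyy])
  obtain ⟨i0, hi0⟩ := heff j0 hj0 hj0ne
  have hM2j0 : AdjIn H0 H' (M' + (-i0) * R.N) j0 := by
    have := adjIn_shift hA0 hg'.adm hi0 (-i0)
    rwa [show j0 + i0 * (R.N : ℤ) + -i0 * R.N = j0 by ring] at this
  have hM2z2 : AdjIn H0 H' (M' + (-i0) * R.N) (z' + (-i0) * R.N) :=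
    adjIn_shift hA0 hg'.adm hM' (-i0)
  have hM2adj : ∀ j ∈ Finset.Ioc lo hi, mis j g ≠ 0 → AdjIn H0 H' (M' + (-i0) * R.N) j := by
    intro j hj hne'
    obtain ⟨i1, hi1⟩ := heff j hj hne'
    have r1 : SameRun H0 (j + i1 * R.N) (j0 + i0 * R.N) :=
      sameRun_trans (sameRun_symm hi1.2.2.2) hi0.2.2.2
    have r2 : SameRun H0 (j + i0 * R.N) (j0 + i0 * R.N) :=
      sameRun_shift hA0 (sameRun_trans (hrunI j hj) (sameRun_symm (hrunI j0 hj0))) i0
    have r3 : SameRun H0 (j + i0 * R.N) (j + i1 * R.N) := sameRun_trans r2 (sameRun_symm r1)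
    have r4 : SameRun H0 (j + i0 * R.N) (j + i0 * R.N + (i1 - i0) * R.N) := by
      rwa [show j + i0 * (R.N : ℤ) + (i1 - i0) * R.N = j + i1 * R.N by ring]
    have e := run_shift_eq hA0 hn r4
    have e' : i1 = i0 := by omega
    subst e'
    have := adjIn_shift hA0 hg'.adm hi1 (-i1)
    rwa [show j + i1 * (R.N : ℤ) + -i1 * R.N = j by ring] at this
  set M2 := M' + (-i0) * (R.N : ℤ) with hM2def
  set z2 := z' + (-i0) * (R.N : ℤ) with hz2def
  obtain ⟨f2, hf2, -⟩ := exists_unit hg'.adm hg'.gen hM2j0.1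
  have hmisf2 : ∀ {j}, AdjIn H0 H' M2 j → mis j f2 = if M2 < j then 1 else -1 := fun h =>
    unit_mis_adj hA0 hg'.adm hg'.gen hR0' hn h hf2
  have hf2V : f2 ∉ R.V0 := by
    intro h
    have e1 := mis_V0 hg'.adm hM2j0.2.1 h
    have e2 := hmisf2 hM2j0
    rw [e1] at e2
    split_ifs at e2
    · exact one_ne_zero e2.symm
    · exact one_ne_zero (neg_eq_zero.1 e2.symm)
  obtain ⟨a, ha⟩ := one_dim hg' hf2.mem hgT hf2V
  have hmg : ∀ {j}, IsCup H' j → mis j g = a * mis j f2 := by
    intro j hj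
    have e := mis_V0 hg'.adm hj ha
    rw [mis_sub, mis_smul, sub_eq_zero] at e
    exact e
  have hsum : (∑ j ∈ Finset.Ioc lo hi, mis j g) =
      a * ∑ j ∈ (Finset.Ioc lo hi).filter (fun j => AdjIn H0 H' M2 j),
        (if M2 < j then (1 : D) else -1) := by
    rw [Finset.mul_sum, Finset.sum_filter]
    refine Finset.sum_congr rfl fun j hj => ?_
    by_cases hadj : AdjIn H0 H' M2 j
    · rw [if_pos hadj, hmg hadj.2.1, hmisf2 hadj]
    · rw [if_neg hadj]
      by_contra hne'
      exact hadj (hM2adj j hj hne')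
  have hs := sign_sum (D := D) (A := (Finset.Ioc lo hi).filter (fun j => AdjIn H0 H' M2 j))
    (M := M2) (by
      intro i hi j hj hij
      rw [Finset.mem_filter] at hi hj
      exact adj_unique_cup hi.2 hj.2 hij)
  have hapm : a = 1 ∨ a = -1 := by
    rw [htel, hsum] at hpm
    generalize (∑ j ∈ (Finset.Ioc lo hi).filter (fun j => AdjIn H0 H' M2 j),
      (if M2 < j then (1 : D) else -1)) = s at hs hpm
    rcases hs with h | h | h
    · rw [h, mul_zero] at hpm
      rcases hpm with h' | h'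
      · exact absurd h'.symm one_ne_zero
      · exact absurd (neg_eq_zero.1 h'.symm) one_ne_zero
    · rw [h, mul_one] at hpm
      exact hpm
    · rw [h, mul_neg, mul_one] at hpm
      rcases hpm with h' | h'
      · right
        rw [← h', neg_neg]
      · left
        exact neg_injective h'
  -- comparison at z2 and z
  have hz2cup : IsCup H' z2 := hM2z2.2.1
  have hzcup : IsCup H z := hM.2.1
  have hmz2g : mis z2 g = 1 ∨ mis z2 g = -1 := by
    rw [hmg hz2cup, hmisf2 hM2z2]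
    rcases hapm with h | h <;> rw [h] <;> split_ifs <;> simp
  have hmzf : mis z f = 1 ∨ mis z f = -1 := by
    rw [unit_mis_adj hA0 hg.adm hg.gen hR0 hn hM hf]
    split_ifs <;> simp
  have hcmp : mis z2 g = mis z f ∨ mis z2 g = - mis z f := by
    rcases hmz2g with h | h <;> rcases hmzf with h' | h' <;> rw [h, h'] <;> simp
  have hgen : ∀ ξ ∈ R.T H, ∀ ξ' ∈ R.T H', res S ξ = res S ξ' →
      ∃ b : D, mis z2 ξ' = b * mis z2 g ∧ mis z ξ = b * mis z f := by
    intro ξ hξ ξ' hξ' hres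
    obtain ⟨b, hb⟩ := hspan ξ hξ
    refine ⟨b, ?_, ?_⟩
    · have hmem : ξ' - b • g - (ξ - b • f) ∈ R.T H' :=
        Submodule.sub_mem _ (Submodule.sub_mem _ hξ' (Submodule.smul_mem _ _ hgT))
          (V0_le_T R H' hb)
      have hr0 : res S (ξ' - b • g - (ξ - b • f)) = res S (0 : ℤ → D) := by
        rw [map_sub, map_sub, map_sub, map_smul, map_smul, ← hres, hgr, map_zero]
        abel
      have hV := t3' _ hmem 0 (Submodule.zero_mem _) hr0
      have e := mis_V0 hg'.adm hz2cup hV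
      have e2 := mis_V0 hg'.adm hz2cup hb
      rw [mis_sub, e2, sub_zero, mis_sub, mis_smul, sub_eq_zero] at e
      exact e
    · have e := mis_V0 hg.adm hzcup hb
      rw [mis_sub, mis_smul, sub_eq_zero] at e
      exact e
  have hrunz : SameRun H0 z2 z :=
    sameRun_trans (sameRun_symm hM2z2.2.2.2) (sameRun_trans hM2j0.2.2.2 (hrunI j0 hj0))
  refine ⟨-i0, hrunz, ?_⟩
  rcases hcmp with h | h
  · left
    intro ξ hξ ξ' hξ' hres
    obtain ⟨b, e1, e2⟩ := hgen ξ hξ ξ' hξ' hres
    rw [← hz2def, e1, e2, h]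
  · right
    intro ξ hξ ξ' hξ' hres
    obtain ⟨b, e1, e2⟩ := hgen ξ hξ ξ' hξ' hres
    rw [← hz2def, e1, e2, h, mul_neg]

end Pool.Agent.helper81.SBX
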