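import Pool.Agent.helper81.SBX.GSix
import Pool.Agent.helper81.SBX.RC4B

set_option autoImplicit false

/-!
# GCmp: comparison of mismatches of the chosen top cups

PROOFS.
* `compare_window`: `c4` with `H0 = ht b`, `H1 = ht b'`, `H = ht x`, `H' = ht y`, `z = zs x`, `z' = zs y` (top cups, `numCap = 4` by
  `typ1_main`, `zs_spec`). The integer `i` of `c4` is `0` by `window_shift` (both cups are in the window `[k0, k0 + N)`; `Ref (ht b) (ht x)` by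
  `ref_trans`). `Adm`: `ht_adm`; nonconstant: `ht_nonconst`.
* `compare_typ1`: choose one generic `x0` with `Ref (ht b) (ht x0)` (`ht_ref`, `gen_dense`). `S ⊆ S'` or `S' ⊆ S` (`upper_nested`).
  Case `S ⊆ S'`. Lifts `ξ0`, `ξ0'` of `ζ`, `ζ'` to `T (ht x0)` (`typ1_main` (4)); `ξ0 ∉ V0` (otherwise `ζ ∈ res S V0`), so `ξ0' = a • ξ0 + v`
  (`one_dim`), `a ≠ 0` (otherwise `ζ' = res S' v`). Restricting to `S`: `res S ζ' = a • ζ + res S v`. For any `x`, `ξ`, `ξ'` as in the statement,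
  `res S (ξ' - a • ξ - v) = 0`, so `ξ' - a • ξ - v ∈ V0` (`typ1_main` (3) at `x`), and `mis ξ' = a * mis ξ` (`mis_V0`; `zs x` is a top cup as
  `numCap = 4`).
  Case `S' ⊆ S`: the same with exchanged roles gives `mis ξ = a' * mis ξ'`; put `a = a'⁻¹`.
* `one_dim_typ1`: the same argument with `S = S'`: lifts to one `x0`, `one_dim`, restrict.
-/

namespace Pool.Agent.helper81.SBX

open Module Matrix

variable {D V : Type*} [DivisionRing D] [StarRing D] [AddCommGroup V] [Module D V]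
variable {M : Marked} {Hm : Herm D V} {t : D} (C : Col M Hm t) (ht : Six D t) (Δ : M.Dir)

theorem compare_window (hV : finrank D V = 3)
    (h4 : ∀ u ∈ M.hemi0, (C.rs ht).numCap (M.ht u) ≤ 4) {b b' : E3} (hb : b ∈ M.hemi)
    (h2 : ¬ (C.rs ht).Typ1 (M.ht b)) (hb' : b' ∈ M.hemi) (hbb : Ref (M.ht b) (M.ht b'))
    {S : Set ℤ} (hS : Upper (M.ht b') S) {ζ : ℤ → D} (hζ : ζ ∈ (C.rs ht).Sol S)
    (hne : ∀ v ∈ (C.rs ht).V0, res S v ≠ ζ) {x y : E3} (hx : x ∈ M.hemi0) (hy : y ∈ M.hemi0)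
    (hbx : Ref (M.ht b') (M.ht x)) (hby : Ref (M.ht b') (M.ht y)) :
    (∀ ξ ∈ (C.rs ht).T (M.ht x), ∀ ξ' ∈ (C.rs ht).T (M.ht y), res S ξ = res S ξ' →
      mis (C.zs ht Δ y) ξ' = mis (C.zs ht Δ x) ξ) ∨
    (∀ ξ ∈ (C.rs ht).T (M.ht x), ∀ ξ' ∈ (C.rs ht).T (M.ht y), res S ξ = res S ξ' →
      mis (C.zs ht Δ y) ξ' = - mis (C.zs ht Δ x) ξ) := by
  have hA0 := ht_adm C ht hb
  have hA1 := ht_adm C ht hb'
  have hgx := good3 C ht Δ hV h4 hx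
  have hgy := good3 C ht Δ hV h4 hy
  have cx := (typ1_main hA1 hgx hbx hS hζ hne).1
  have cy := (typ1_main hA1 hgy hby hS hζ hne).1
  obtain ⟨h1, h1', hzx⟩ := zs_spec C ht Δ hV h4 hx cx
  obtain ⟨h3, h3', hzy⟩ := zs_spec C ht Δ hV h4 hy cy
  obtain ⟨i, hrun, hor⟩ := c4 hA0 (ht_nonconst Δ hb.1) h2 hA1 hbb hS hζ hne hgx hgy hbx hby hzx hzy
  have hi : i = 0 := window_shift Δ hb (ref_trans hbb hbx) (ref_trans hbb hby) hzx.1.1 hzy.1.1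
    hrun h1 h1' h3 h3'
  subst hi
  rw [zero_mul, add_zero] at hor
  exact hor

theorem exists_gen_ref {b : E3} (hb : b ∈ M.hemi) :
    ∃ x ∈ M.hemi0, Ref (M.ht b) (M.ht x) := by
  obtain ⟨s, hs, h⟩ := ht_ref M b
  obtain ⟨x, hx, hxb⟩ := gen_dense M hb s hs
  exact ⟨x, hx, h x hxb⟩

theorem compare_aux (hV : finrank D V = 3)
    (h4 : ∀ u ∈ M.hemi0, (C.rs ht).numCap (M.ht u) ≤ 4) {b : E3} (hb : b ∈ M.hemi)
    {S S' : Set ℤ} (hS : Upper (M.ht b) S) (hS' : Upper (M.ht b) S') (hSS : S ⊆ S') {ζ ζ' : ℤ → D}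
    (hζ : ζ ∈ (C.rs ht).Sol S) (hne : ∀ v ∈ (C.rs ht).V0, res S v ≠ ζ)
    (hζ' : ζ' ∈ (C.rs ht).Sol S') (hne' : ∀ v ∈ (C.rs ht).V0, res S' v ≠ ζ') :
    ∃ a : Dˣ, ∀ x ∈ M.hemi0, Ref (M.ht b) (M.ht x) → ∀ ξ ∈ (C.rs ht).T (M.ht x),
      ∀ ξ' ∈ (C.rs ht).T (M.ht x), res S ξ = ζ → res S' ξ' = ζ' →
      mis (C.zs ht Δ x) ξ' = a * mis (C.zs ht Δ x) ξ := by
  have hA0 := ht_adm C ht hb
  obtain ⟨x0, hx0, hR0⟩ := exists_gen_ref hb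
  have hg0 := good3 C ht Δ hV h4 hx0
  obtain ⟨_, _, _, t4⟩ := typ1_main hA0 hg0 hR0 hS hζ hne
  obtain ⟨_, _, _, t4'⟩ := typ1_main hA0 hg0 hR0 hS' hζ' hne'
  obtain ⟨ξ0, hξ0, e0, _⟩ := t4 ζ hζ
  obtain ⟨ξ0', hξ0', e0', _⟩ := t4' ζ' hζ'
  have hn : ξ0 ∉ (C.rs ht).V0 := fun h => hne ξ0 h e0
  have hn' : ξ0' ∉ (C.rs ht).V0 := fun h => hne' ξ0' h e0'
  obtain ⟨a, ha⟩ := one_dim hg0 hξ0 hξ0' hn
  have ha0 : a ≠ 0 := by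
    rintro rfl
    rw [zero_smul, sub_zero] at ha
    exact hn' ha
  refine ⟨Units.mk0 a ha0, ?_⟩
  intro x hx hRx ξ hξ ξ' hξ' e1 e2
  have hAx := ht_adm C ht (u := x) ⟨hx.1, hx.2.1⟩
  have hgx := good3 C ht Δ hV h4 hx
  obtain ⟨cx, _, t3, _⟩ := typ1_main hA0 hgx hRx hS hζ hne
  have hcup : IsCup (M.ht x) (C.zs ht Δ x) := (zs_spec C ht Δ hV h4 hx cx).2.2.1.1
  have hv : res S (ξ0' - a • ξ0) = res S ζ' - a • ζ := by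
    rw [map_sub, map_smul, e0, ← e0', res_res hSS]
  have hmem : ξ' - a • ξ - (ξ0' - a • ξ0) ∈ (C.rs ht).T (M.ht x) :=
    Submodule.sub_mem _ (Submodule.sub_mem _ hξ' (Submodule.smul_mem _ _ hξ)) (V0_le_T _ _ ha)
  have hres : res S (ξ' - a • ξ - (ξ0' - a • ξ0)) = res S (0 : ℤ → D) := by
    rw [map_sub, hv, map_sub, map_smul, e1, ← e2, res_res hSS, map_zero, sub_self]
  have h0 := t3 _ hmem 0 (Submodule.zero_mem _) hres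
  have hm := mis_V0 hAx hcup h0
  rw [mis_sub, mis_sub, mis_smul, mis_V0 hAx hcup ha, sub_zero, sub_eq_zero] at hm
  exact hm

theorem compare_typ1 (hV : finrank D V = 3)
    (h4 : ∀ u ∈ M.hemi0, (C.rs ht).numCap (M.ht u) ≤ 4) {b : E3} (hb : b ∈ M.hemi)
    {S S' : Set ℤ} (hS : Upper (M.ht b) S) (hS' : Upper (M.ht b) S') {ζ ζ' : ℤ → D}
    (hζ : ζ ∈ (C.rs ht).Sol S) (hne : ∀ v ∈ (C.rs ht).V0, res S v ≠ ζ)
    (hζ' : ζ' ∈ (C.rs ht).Sol S') (hne' : ∀ v ∈ (C.rs ht).V0, res S' v ≠ ζ') :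
    ∃ a : Dˣ, ∀ x ∈ M.hemi0, Ref (M.ht b) (M.ht x) → ∀ ξ ∈ (C.rs ht).T (M.ht x),
      ∀ ξ' ∈ (C.rs ht).T (M.ht x), res S ξ = ζ → res S' ξ' = ζ' →
      mis (C.zs ht Δ x) ξ' = a * mis (C.zs ht Δ x) ξ := by
  rcases upper_nested hS hS' with hSS | hSS
  · exact compare_aux C ht Δ hV h4 hb hS hS' hSS hζ hne hζ' hne'
  · obtain ⟨a, ha⟩ := compare_aux C ht Δ hV h4 hb hS' hS hSS hζ' hne' hζ hne
    refine ⟨a⁻¹, ?_⟩
    intro x hx hR ξ hξ ξ' hξ' e1 e2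
    rw [ha x hx hR ξ' hξ' ξ hξ e2 e1, ← mul_assoc, Units.inv_mul, one_mul]

include Δ in
/-- `Sol S / res S V0` is at most one-dimensional -/
theorem one_dim_typ1 (hV : finrank D V = 3)
    (h4 : ∀ u ∈ M.hemi0, (C.rs ht).numCap (M.ht u) ≤ 4) {b : E3} (hb : b ∈ M.hemi)
    {S : Set ℤ} (hS : Upper (M.ht b) S) {ζ ζ' : ℤ → D}
    (hζ : ζ ∈ (C.rs ht).Sol S) (hne : ∀ v ∈ (C.rs ht).V0, res S v ≠ ζ)
    (hζ' : ζ' ∈ (C.rs ht).Sol S) :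
    ∃ a : D, ∃ v ∈ (C.rs ht).V0, ζ' = a • ζ + res S v := by
  have hA0 := ht_adm C ht hb
  obtain ⟨x0, hx0, hR0⟩ := exists_gen_ref hb
  have hg0 := good3 C ht Δ hV h4 hx0
  obtain ⟨_, _, _, t4⟩ := typ1_main hA0 hg0 hR0 hS hζ hne
  obtain ⟨ξ0, hξ0, e0, _⟩ := t4 ζ hζ
  obtain ⟨ξ0', hξ0', e0', _⟩ := t4 ζ' hζ'
  have hn : ξ0 ∉ (C.rs ht).V0 := fun h => hne ξ0 h e0
  obtain ⟨a, ha⟩ := one_dim hg0 hξ0 hξ0' hn
  refine ⟨a, _, ha, ?_⟩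
  rw [map_sub, map_smul, e0, e0']
  abel

end Pool.Agent.helper81.SBX
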