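import Pool.Agent.helper81.SBX.GDefs

set_option autoImplicit false

/-!
# GConn: the closed hemisphere (cone) is preconnected; locally constant predicates

PROOFS.
* `hs_preconnected`: for `u ∈ HS e` the segment from `u` to `e` is in `HS e`: for `0 < s ≤ 1`
  `((1 - s) • u + s • e) ⬝ᵥ e = (1 - s) (u ⬝ᵥ e) + s (e ⬝ᵥ e) > 0`. Use `isPreconnected_of_forall` with the point `e`
  (and `convex` / `segment` preconnected), or `StarConvex`.
* `locConst`: let `A = {b | ∃ s > 0, ∀ x ∈ X0, ‖x - b‖ < s → P x}` and `B` the same with `¬ P x`. Both are open in the whole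
  space (triangle inequality), `X ⊆ A ∪ B` by `hP` (if no point of `X0` is near, both; but `hd` gives one), and
  `X ∩ A ∩ B = ∅` because `X0` is dense in `X`. `IsPreconnected` gives `X ⊆ A` or `X ⊆ B` (`IsPreconnected.subset_or_subset`-like
  lemmas, or directly from the definition).
-/

namespace Pool.Agent.helper81.SBX

open Module Matrix

/-- the cone over the closed hemisphere -/
def HS (e : E3) : Set E3 := {u | u ≠ 0 ∧ 0 ≤ u ⬝ᵥ e}

theorem dot_self_pos {e : E3} (he : e ≠ 0) : 0 < e ⬝ᵥ e := by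
  have h1 : 0 ≤ e ⬝ᵥ e := by
    simp only [dotProduct, Fin.sum_univ_three]
    nlinarith [mul_self_nonneg (e 0), mul_self_nonneg (e 1), mul_self_nonneg (e 2)]
  rcases h1.lt_or_eq with h | h
  · exact h
  · exact absurd (dotProduct_self_eq_zero.mp h.symm) he

theorem hs_starConvex {e : E3} (he : e ≠ 0) : StarConvex ℝ e (HS e) := by
  intro y hy a b ha hb hab
  rcases ha.lt_or_eq with h | h
  · have h1 : 0 < (a • e + b • y) ⬝ᵥ e := by
      rw [add_dotProduct, smul_dotProduct, smul_dotProduct, smul_eq_mul, smul_eq_mul]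
      have := mul_pos h (dot_self_pos he)
      have := mul_nonneg hb hy.2
      linarith
    refine ⟨?_, h1.le⟩
    intro h0
    rw [h0, zero_dotProduct] at h1
    exact lt_irrefl _ h1
  · have hb1 : b = 1 := by linarith
    rw [← h, hb1, zero_smul, zero_add, one_smul]
    exact hy

theorem self_mem_hs {e : E3} (he : e ≠ 0) : e ∈ HS e := ⟨he, (dot_self_pos he).le⟩

theorem hs_preconnected {e : E3} (he : e ≠ 0) : IsPreconnected (HS e) :=
  ((hs_starConvex he).isPathConnected (self_mem_hs he)).isConnected.isPreconnected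

theorem locConst {X X0 : Set E3} (hX : IsPreconnected X) (h0 : X0 ⊆ X)
    (hd : ∀ b ∈ X, ∀ ε > 0, ∃ x ∈ X0, ‖x - b‖ < ε) (P : E3 → Prop)
    (hP : ∀ b ∈ X, ∃ s > 0, ∀ x ∈ X0, ∀ y ∈ X0, ‖x - b‖ < s → ‖y - b‖ < s → (P x ↔ P y)) :
    ∀ x ∈ X0, ∀ y ∈ X0, (P x ↔ P y) := by
  have key : ∀ Q : E3 → Prop, IsOpen {b : E3 | ∃ s > 0, ∀ x ∈ X0, ‖x - b‖ < s → Q x} := by
    intro Q
    rw [Metric.isOpen_iff]
    rintro b ⟨s, hs, h⟩
    refine ⟨s / 2, half_pos hs, fun c hc => ⟨s / 2, half_pos hs, fun x hx hxc => h x hx ?_⟩⟩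
    rw [Metric.mem_ball, dist_eq_norm] at hc
    calc ‖x - b‖ = ‖(x - c) + (c - b)‖ := by congr 1; abel
      _ ≤ ‖x - c‖ + ‖c - b‖ := norm_add_le _ _
      _ < s := by linarith
  have cov : X ⊆ {b : E3 | ∃ s > 0, ∀ x ∈ X0, ‖x - b‖ < s → P x} ∪
      {b : E3 | ∃ s > 0, ∀ x ∈ X0, ‖x - b‖ < s → ¬ P x} := by
    intro b hb
    obtain ⟨s, hs, h⟩ := hP b hb
    obtain ⟨x, hx, hxb⟩ := hd b hb s hs
    by_cases hPx : P x
    · left
      exact ⟨s, hs, fun y hy hyb => (h x hx y hy hxb hyb).1 hPx⟩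
    · right
      exact ⟨s, hs, fun y hy hyb hPy => hPx ((h x hx y hy hxb hyb).2 hPy)⟩
  have disj : ∀ b ∈ X, (∃ s > 0, ∀ x ∈ X0, ‖x - b‖ < s → P x) →
      (∃ s > 0, ∀ x ∈ X0, ‖x - b‖ < s → ¬ P x) → False := by
    rintro b hb ⟨s, hs, h⟩ ⟨s', hs', h'⟩
    obtain ⟨x, hx, hxb⟩ := hd b hb (min s s') (lt_min hs hs')
    exact h' x hx (hxb.trans_le (min_le_right _ _)) (h x hx (hxb.trans_le (min_le_left _ _)))
  have one : ∀ x ∈ X0, ∀ y ∈ X0, P x → P y := by
    intro x hx y hy hPx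
    by_contra hPy
    have hxA : x ∈ {b : E3 | ∃ s > 0, ∀ x ∈ X0, ‖x - b‖ < s → P x} := by
      rcases cov (h0 hx) with h | ⟨s, hs, h⟩
      · exact h
      · exact absurd hPx (h x hx (by simpa using hs))
    have hyB : y ∈ {b : E3 | ∃ s > 0, ∀ x ∈ X0, ‖x - b‖ < s → ¬ P x} := by
      rcases cov (h0 hy) with ⟨s, hs, h⟩ | h
      · exact absurd (h y hy (by simpa using hs)) hPy
      · exact h
    obtain ⟨b, hb, hbA, hbB⟩ := hX _ _ (key P) (key fun x => ¬ P x) cov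
      ⟨x, h0 hx, hxA⟩ ⟨y, h0 hy, hyB⟩
    exact disj b hb hbA hbB
  exact fun x hx y hy => ⟨one x hx y hy, one y hy x hx⟩

end Pool.Agent.helper81.SBX
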