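import Pool.Agent.helper81.SBX.RSDefs

set_option autoImplicit false

/-!
# Marked polygons, hermitian spaces, coloured marked polygons (definitions)
-/

namespace Pool.Agent.helper81.SBX

open Module Matrix

/-- Three-dimensional space. -/
abbrev E3 := Fin 3 → ℝ

/-- Determinant of three vectors. -/
def det3 (a b c : E3) : ℝ :=
  a 0 * (b 1 * c 2 - b 2 * c 1) + a 1 * (b 2 * c 0 - b 0 * c 2) + a 2 * (b 0 * c 1 - b 1 * c 0)

/-- Vector product. -/
def cross3 (b c : E3) : E3 :=
  ![b 1 * c 2 - b 2 * c 1, b 2 * c 0 - b 0 * c 2, b 0 * c 1 - b 1 * c 0]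

/-- A simple closed polygon with nodes `q j` (`j : ℤ`, period `N`) which is marked with respect to
the view direction `e`: whenever two points of the polygon are on a line parallel to `e`, the lower
one is a marked node (`und`), straight, and the upper one is an interior point of the piece
`o j`. -/
structure Marked where
  /-- number of nodes -/
  N : ℕ
  /-- nodes -/
  q : ℤ → E3
  /-- view direction -/
  e : E3
  /-- under nodes -/
  und : ℤ → Prop
  /-- over piece -/
  o : ℤ → ℤ
  /-- position on the over piece -/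
  lam : ℤ → ℝ
  /-- height difference -/
  al : ℤ → ℝ
  hN : 0 < N
  q_per : ∀ j, q (j + N) = q j
  und_per : ∀ j, und (j + N) ↔ und j
  o_per : ∀ j, o (j + N) = o j + N
  lam_pos : ∀ j, und j → 0 < lam j
  lam_lt : ∀ j, und j → lam j < 1
  al_pos : ∀ j, und j → 0 < al j
  over_eq : ∀ j, und j →
    (1 - lam j) • q (o j) + lam j • q (o j + 1) = q j + al j • e
  straight : ∀ j, und j → ∃ c : ℝ, 0 < c ∧ q (j + 1) - q j = c • (q j - q (j - 1))
  transv : ∀ j, und j → det3 e (q (o j + 1) - q (o j)) (q (j + 1) - q j) ≠ 0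
  nodir : ∀ j, ∀ c : ℝ, q (j + 1) - q j ≠ c • e
  e_ne : e ≠ 0
  corner : ∀ j, (∃ c : ℝ, 0 < c ∧ q (j + 1) - q j = c • (q j - q (j - 1))) ∨
    det3 e (q j - q (j - 1)) (q (j + 1) - q j) ≠ 0
  simple : ∀ (i j : ℤ) (x y : ℝ), 0 ≤ x → x < 1 → 0 ≤ y → y < 1 →
    (1 - x) • q i + x • q (i + 1) = (1 - y) • q j + y • q (j + 1) →
    (∃ m : ℤ, j = i + m * N) ∧ x = y
  complete : ∀ (i j : ℤ) (x y a : ℝ), 0 ≤ x → x < 1 → 0 ≤ y → y < 1 → 0 < a →
    (1 - y) • q j + y • q (j + 1) = ((1 - x) • q i + x • q (i + 1)) + a • e →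
    x = 0 ∧ und i ∧ 0 < y ∧ ∃ m : ℤ, j = o i + m * N

namespace Marked

variable (M : Marked)

/-- direction of the piece `j` -/
def d (j : ℤ) : E3 := M.q (j + 1) - M.q j

/-- height function in the direction `u` -/
def ht (u : E3) (j : ℤ) : ℝ := u ⬝ᵥ M.q j

/-- the closed hemisphere of directions (as a cone without the origin) -/
def hemi : Set E3 := {u | u ≠ 0 ∧ 0 ≤ u ⬝ᵥ M.e}

/-- generic directions of the hemisphere -/
def hemi0 : Set E3 := {u | u ≠ 0 ∧ 0 ≤ u ⬝ᵥ M.e ∧ Gen (M.ht u)}

/-- A corner structure: three consecutive straight edges `A`, `B`, `C` (the nodes `k1` and `k0` are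
the ends of `B`) with `e = α A + β B + γ C`, `α > 0 > γ`. -/
structure Dir where
  k1 : ℤ
  k0 : ℤ
  α : ℝ
  β : ℝ
  γ : ℝ
  lt : k1 < k0
  lt' : k0 < k1 + M.N
  hB : ∀ j, k1 ≤ j → j < k0 → ∃ c : ℝ, 0 < c ∧ M.d j = c • M.d k1
  he : M.e = α • M.d (k1 - 1) + β • M.d k1 + γ • M.d k0
  α_pos : 0 < α
  γ_neg : γ < 0
  indep : det3 (M.d (k1 - 1)) (M.d k1) (M.d k0) ≠ 0

open Classical in
/-- the special point `x1` -/
noncomputable def Dir.x1 {M : Marked} (Δ : M.Dir) : E3 :=
  if 0 < det3 (M.d (Δ.k1 - 1)) (M.d Δ.k1) (M.d Δ.k0) then - cross3 (M.d Δ.k1) M.e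
  else cross3 (M.d Δ.k1) M.e

end Marked

/-- A hermitian form (linear in the first variable) on a left vector space over a division ring
with involution. -/
structure Herm (D V : Type*) [DivisionRing D] [StarRing D] [AddCommGroup V] [Module D V] where
  /-- the form -/
  H : V → V → D
  add_left : ∀ x y z, H (x + y) z = H x z + H y z
  smul_left : ∀ (a : D) x z, H (a • x) z = a * H x z
  herm : ∀ x y, star (H x y) = H y x
  nondeg : ∀ x, (∀ y, H x y = 0) → x = 0

/-- `t` is a central element with `t² = t - 1` and `t t* = 1` (a primitive sixth root of unity). -/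
structure Six (D : Type*) [DivisionRing D] [StarRing D] (t : D) : Prop where
  central : ∀ x, t * x = x * t
  sq : t * t = t - 1
  unit : t * star t = 1

section

variable {D V : Type*} [DivisionRing D] [StarRing D] [AddCommGroup V] [Module D V]

/-- The complex reflection with root `X` and multiplier `s`. -/
def Herm.refl (Hm : Herm D V) (X : V) (s : D) (v : V) : V := v + ((s - 1) * Hm.H v X) • X

open Classical in
/-- the multiplier at the under node `j` -/
noncomputable def Marked.sgn (M : Marked) (t : D) (j : ℤ) : D :=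
  if 0 < det3 M.e (M.d (M.o j)) (M.d j) then star t else t

/-- A colouring of a marked polygon by roots of norm one. -/
structure Col (M : Marked) (Hm : Herm D V) (t : D) where
  /-- roots -/
  X : ℤ → V
  /-- longitude -/
  g : D
  g_unit : g * star g = 1
  X_per : ∀ j, X (j + M.N) = g • X j
  X_norm : ∀ j, Hm.H (X j) (X j) = 1
  plain : ∀ j, ¬ M.und j → X j = X (j - 1)
  under : ∀ j, M.und j → X j = Hm.refl (X (M.o j)) (M.sgn t j) (X (j - 1))
  span : ∀ v, (∀ j, Hm.H v (X j) = 0) → v = 0

open Classical in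
/-- The relation system of a coloured marked polygon. -/
noncomputable def Col.rs {M : Marked} {Hm : Herm D V} {t : D} (C : Col M Hm t)
    (ht : Six D t) : RS D where
  N := M.N
  hN := M.hN
  o := M.o
  c j := if M.und j then (star (M.sgn t j) - 1) * Hm.H (C.X (M.o j)) (C.X (j - 1)) else 0
  τ := star C.g
  hτ := by
    intro h
    have := C.g_unit
    rw [h, mul_zero] at this
    exact zero_ne_one this
  o_per := M.o_per
  c_per := by
    intro j
    have e1 : M.und (j + M.N) ↔ M.und j := M.und_per j
    by_cases hj : M.und j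
    · have hj' : M.und (j + M.N) := e1.2 hj
      simp only [hj, hj', if_true]
      have hd : M.d (j + M.N) = M.d j := by
        simp only [Marked.d]
        rw [show j + (M.N : ℤ) + 1 = (j + 1) + M.N by ring, M.q_per, M.q_per]
      have hdo : M.d (M.o (j + M.N)) = M.d (M.o j) := by
        rw [M.o_per]
        simp only [Marked.d]
        rw [show M.o j + (M.N : ℤ) + 1 = (M.o j + 1) + M.N by ring, M.q_per, M.q_per]
      have hs : M.sgn t (j + M.N) = M.sgn t j := by
        simp only [Marked.sgn, hd, hdo]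
      have hc : ∀ x : D, star (M.sgn t j) * x = x * star (M.sgn t j) := by
        intro x
        simp only [Marked.sgn]
        split_ifs
        · simp only [star_star]; exact ht.central x
        · have := ht.central (star x)
          have h2 := congrArg star this
          simpa [star_mul] using h2.symm
      rw [hs, M.o_per, show j + (M.N : ℤ) - 1 = (j - 1) + M.N by ring, C.X_per, C.X_per,
        Hm.smul_left]
      have h2 : Hm.H (C.X (M.o j)) (C.g • C.X (j - 1))
          = Hm.H (C.X (M.o j)) (C.X (j - 1)) * star C.g := by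
        rw [← Hm.herm, Hm.smul_left, star_mul, Hm.herm]
      rw [h2]
      have gg : star C.g * C.g = 1 := mul_eq_one_comm.mp C.g_unit
      set a := Hm.H (C.X (M.o j)) (C.X (j - 1))
      have k1 : star C.g * (star (M.sgn t j) - 1) = (star (M.sgn t j) - 1) * star C.g := by
        rw [mul_sub, sub_mul, hc, mul_one, one_mul]
      calc star C.g * ((star (M.sgn t j) - 1) * (C.g * (a * star C.g)))
          = (star C.g * (star (M.sgn t j) - 1)) * C.g * a * star C.g := by
            simp only [mul_assoc]
        _ = (star (M.sgn t j) - 1) * (star C.g * C.g) * a * star C.g := by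
            rw [k1]; simp only [mul_assoc]
        _ = (star (M.sgn t j) - 1) * a * star C.g := by rw [gg]; simp only [mul_one]
    · have hj' : ¬ M.und (j + M.N) := fun h => hj (e1.1 h)
      simp [hj, hj']

/-- the cyclic group generated by `t` (as a subset) -/
def Six.mu (t : D) : Set D := {x | ∃ i : ℕ, x = t ^ i}

open Classical in
/-- the chosen top cup in the window `[k0, k0 + N)` -/
noncomputable def Col.zs {M : Marked} {Hm : Herm D V} {t : D} (C : Col M Hm t) (ht : Six D t)
    (Δ : M.Dir) (u : E3) : ℤ :=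
  if h : ∃ z, Δ.k0 ≤ z ∧ z < Δ.k0 + M.N ∧ (C.rs ht).TopCup (M.ht u) z then h.choose else 0

end

end Pool.Agent.helper81.SBX
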