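import Pool.Agent.helper81.SBX.RUnit

set_option autoImplicit false

/-!
# RRun: behaviour of solutions on a run of `H0` (preliminaries of C3, C4, C6)

A *run* of `H0` is an interval of nodes on which `H0` is constant. `H` is generic and refines `H0`
(it may be a small perturbation). vanishing above the level `y` means: `f i = 0` for all pieces `i`
with `y < max (H0 i) (H0 (i + 1))`.

PROOFS.
* `run_lt`: otherwise `H0` is constant on a whole period, hence constant (`per_mul`).
* `SameRun` lemmas: unfold, `omega` on the intervals.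
* `const_on_run`: the relation at `j` (not a cup) is `f j = f (j - 1) + f (o j) * c j`. If `c j ≠ 0` use
  `hA0.ov`: first alternative `H0 j < max (H0 (o j)) (H0 (o j + 1))`, so `f (o j) = 0` by `h0`; second alternative
  contradicts `hrun` (a factor of the product is zero). So `f j = f (j - 1)`.
* `right_of_cup`: let `b ≥ z` be the largest integer with `H0` constant on `[z, b]` (exists by
  `run_lt`), so `H0 (b + 1) ≠ H0 z`. Let `M > z` be the first cap of `H` to the right of `z` (exists: `H` is
  generic and periodic; starting from the cup `z` the height increases until the first cap). `H` is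
  strictly increasing on `[z, M]`. If `M ≤ b`: all nodes `j` in `(z, M]` are not cups and `j`, `j - 1` are in the run,
  so `const_on_run` gives `f z = f (z + 1) = … = f M`: first alternative. If `M > b`: `H` increases on `[z, b + 1]`, so
  `H b < H (b + 1)` and by `Ref` not `H0 (b + 1) < H0 b`, so `H0 b < H0 (b + 1)`; by `const_on_run` for the nodes `(z, b]`,
  `f z = f b`, and `f b = 0` by `h0` (`H0 (b + 1) > H0 z`): second alternative.
* `left_of_cup`: mirror image (pieces `z - 1, …`; the value on the piece `z - 1` is the one on the piece `M`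
  where `M < z` is the first cap to the left: `f j = f (j - 1)` for `M < j ≤ z - 1`; in the other case
  `a` is the left end of the run, `f (z - 1) = f (a - 1) = 0`).
* `mis_adj`: if `M < z` (so `DownR H M z`): `f (z - 1) = f M` (`left_of_cup`; the cap found there is `M`, because `H` is
  monotone between; or repeat the argument) and `f z = f M''` with a cap `M'' > z` in the same run, or `f z = 0`.
  `M'' = M + i * N` is impossible by `run_lt`, so `f M'' = 0`. Same for `M > z`. It is recommended to
  first prove: two caps `M, M'` with `DownR H M z` and `DownR H M' z` are equal (same for `DownL`).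
* `adj_of_mis`: `f (z - 1) ≠ 0` or `f z ≠ 0`; the first alternative of `left_of_cup` / `right_of_cup` gives a cap
  `M1` adjacent to `z` with `f M1 ≠ 0`, so `M1 = M + i * N`.
* `unit_vanish`: if `H0 z = H0 M < H0 i` then `H M < H i` by `Ref`; use `IsUnitFn.vanish`.
* `adj_neg`: caps of `- H` are cups of `H`.
-/

namespace Pool.Agent.helper81.SBX

open Module

variable {D : Type*} [DivisionRing D] {R : RS D} {H H' H0 H1 : ℤ → ℝ} {S S' : Set ℤ}

/-- `M` is the cap adjacent to the cup `z` inside a run of `H0`. -/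
def AdjIn (H0 H : ℤ → ℝ) (M z : ℤ) : Prop :=
  IsCap H M ∧ IsCup H z ∧ (DownR H M z ∨ DownL H M z) ∧ SameRun H0 M z

/-- `f` vanishes above the level `y` of `H0` -/
def VanAb (H0 : ℤ → ℝ) (y : ℝ) (f : ℤ → D) : Prop := ∀ i, y < max (H0 i) (H0 (i + 1)) → f i = 0

theorem sameRun_symm {a b : ℤ} (h : SameRun H0 a b) : SameRun H0 b a := by
  intro j h1 h2
  have hb : H0 b = H0 a := h b (min_le_right _ _) (le_max_right _ _)
  rw [hb]
  exact h j (by omega) (by omega)

theorem sameRun_trans {a b c : ℤ} (h : SameRun H0 a b) (h' : SameRun H0 b c) :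
    SameRun H0 a c := by
  intro j h1 h2
  have hb : H0 b = H0 a := h b (min_le_right _ _) (le_max_right _ _)
  by_cases h3 : min a b ≤ j ∧ j ≤ max a b
  · exact h j h3.1 h3.2
  · rw [← hb]
    exact h' j (by omega) (by omega)

theorem sameRun_shift (hA0 : R.Adm H0) {a b : ℤ} (h : SameRun H0 a b) (i : ℤ) :
    SameRun H0 (a + i * R.N) (b + i * R.N) := by
  intro j h1 h2
  have e1 : H0 j = H0 (j - i * R.N) := by
    have := per_mul hA0 (j - i * R.N) i
    rw [sub_add_cancel] at this
    exact this
  rw [e1, per_mul hA0]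
  exact h _ (by omega) (by omega)

theorem sameRun_mid {a b c : ℤ} (h : SameRun H0 a b) (h1 : min a b ≤ c) (h2 : c ≤ max a b) :
    SameRun H0 a c := by
  intro j h3 h4
  exact h j (by omega) (by omega)

theorem run_lt (hA0 : R.Adm H0) (hn : ∃ i j, H0 i ≠ H0 j) {a b : ℤ}
    (h : SameRun H0 a b) : b < a + R.N := by
  by_contra hb
  push Not at hb
  have hN : (0 : ℤ) < R.N := by exact_mod_cast R.hN
  have key : ∀ i, H0 i = H0 a := by
    intro i
    have e1 : H0 i = H0 (a + (i - a) % R.N) := by
      have := per_mul hA0 (a + (i - a) % R.N) ((i - a) / R.N)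
      rw [← this]
      congr 1
      have := Int.emod_add_mul_ediv (i - a) R.N
      linarith [mul_comm ((i - a) / (R.N : ℤ)) (R.N : ℤ)]
    rw [e1]
    have h1 := Int.emod_nonneg (i - a) hN.ne'
    have h2 := Int.emod_lt_of_pos (i - a) hN
    exact h _ (by omega) (by omega)
  obtain ⟨i, j, hij⟩ := hn
  exact hij ((key i).trans (key j).symm)

/-- two translates in the same run are equal -/
theorem run_shift_eq (hA0 : R.Adm H0) (hn : ∃ i j, H0 i ≠ H0 j) {a i : ℤ}
    (h : SameRun H0 a (a + i * R.N)) : i = 0 := by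
  have hN : (0 : ℤ) < R.N := by exact_mod_cast R.hN
  have h1 := run_lt hA0 hn h
  have h2 := run_lt hA0 hn (sameRun_symm h)
  have h3 : i < 1 := by
    by_contra hc
    push Not at hc
    nlinarith
  have h4 : -1 < i := by
    by_contra hc
    push Not at hc
    nlinarith
  omega

theorem adjIn_shift (hA0 : R.Adm H0) (hA : R.Adm H) {M z : ℤ} (h : AdjIn H0 H M z) (i : ℤ) :
    AdjIn H0 H (M + i * R.N) (z + i * R.N) := by
  obtain ⟨h1, h2, h3, h4⟩ := h
  refine ⟨(cap_per hA M i).2 h1, (cup_per hA z i).2 h2, ?_, sameRun_shift hA0 h4 i⟩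
  have e1 : ∀ j, H j = H (j - i * R.N) := by
    intro j
    have := per_mul hA (j - i * R.N) i
    rw [sub_add_cancel] at this
    exact this
  rcases h3 with ⟨h3, h5⟩ | ⟨h3, h5⟩
  · left
    refine ⟨by omega, fun j h6 h7 => ?_⟩
    rw [e1 j, e1 (j + 1)]
    have := h5 (j - i * R.N) (by omega) (by omega)
    rwa [show j + 1 - i * (R.N : ℤ) = j - i * R.N + 1 by ring]
  · right
    refine ⟨by omega, fun j h6 h7 => ?_⟩
    rw [e1 j, e1 (j + 1)]
    have := h5 (j - i * R.N) (by omega) (by omega)
    rwa [show j + 1 - i * (R.N : ℤ) = j - i * R.N + 1 by ring]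

theorem adj_neg {M z : ℤ} (h : AdjIn H0 H M z) :
    AdjIn (fun i => - H0 i) (fun i => - H i) z M := by
  obtain ⟨h1, h2, h3, h4⟩ := h
  refine ⟨⟨neg_lt_neg h2.1, neg_lt_neg h2.2⟩, ⟨neg_lt_neg h1.1, neg_lt_neg h1.2⟩, ?_, ?_⟩
  · rcases h3 with ⟨h3, h5⟩ | ⟨h3, h5⟩
    · right
      exact ⟨h3, fun j h6 h7 => neg_lt_neg (h5 j h6 h7)⟩
    · left
      exact ⟨h3, fun j h6 h7 => neg_lt_neg (h5 j h6 h7)⟩
  · intro j h5 h6
    exact congrArg Neg.neg (sameRun_symm h4 j h5 h6)

/-- two cups adjacent to the same cap on the same side are equal; two caps adjacent to the same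
cup on the same side are equal -/
theorem adj_unique_cup {M z z' : ℤ} (h : AdjIn H0 H M z) (h' : AdjIn H0 H M z')
    (hs : M < z ↔ M < z') : z = z' := by
  obtain ⟨-, c1, h3, -⟩ := h
  obtain ⟨-, c2, k3, -⟩ := h'
  rcases h3 with ⟨h3, h5⟩ | ⟨h3, h5⟩
  · have hz' := hs.1 h3
    rcases k3 with ⟨k3, k5⟩ | ⟨k3, k5⟩
    · rcases lt_trichotomy z z' with hlt | heq | hgt
      · have := k5 z (by omega) hlt
        exact absurd c1.2 (not_lt.2 this.le)
      · exact heq
      · have := h5 z' (by omega) hgt
        exact absurd c2.2 (not_lt.2 this.le)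
    · omega
  · have hz' : ¬ M < z' := fun hc => by have := hs.2 hc; omega
    rcases k3 with ⟨k3, k5⟩ | ⟨k3, k5⟩
    · exact absurd k3 hz'
    · rcases lt_trichotomy z z' with hlt | heq | hgt
      · have := h5 (z' - 1) (by omega) (by omega)
        rw [sub_add_cancel] at this
        exact absurd c2.1 (not_lt.2 this.le)
      · exact heq
      · have := k5 (z - 1) (by omega) (by omega)
        rw [sub_add_cancel] at this
        exact absurd c1.1 (not_lt.2 this.le)

theorem adj_unique_cap {M M' z : ℤ} (h : AdjIn H0 H M z) (h' : AdjIn H0 H M' z)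
    (hs : M < z ↔ M' < z) : M = M' := by
  obtain ⟨c1, -, h3, -⟩ := h
  obtain ⟨c2, -, k3, -⟩ := h'
  rcases h3 with ⟨h3, h5⟩ | ⟨h3, h5⟩
  · have hz' := hs.1 h3
    rcases k3 with ⟨k3, k5⟩ | ⟨k3, k5⟩
    · rcases lt_trichotomy M M' with hlt | heq | hgt
      · have := h5 (M' - 1) (by omega) (by omega)
        rw [sub_add_cancel] at this
        exact absurd c2.1 (not_lt.2 this.le)
      · exact heq
      · have := k5 (M - 1) (by omega) (by omega)
        rw [sub_add_cancel] at this
        exact absurd c1.1 (not_lt.2 this.le)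
    · omega
  · have hz' : ¬ M' < z := fun hc => by have := hs.2 hc; omega
    rcases k3 with ⟨k3, k5⟩ | ⟨k3, k5⟩
    · exact absurd k3 hz'
    · rcases lt_trichotomy M M' with hlt | heq | hgt
      · have := k5 M (by omega) hlt
        exact absurd c1.2 (not_lt.2 this.le)
      · exact heq
      · have := h5 M' (by omega) hgt
        exact absurd c2.2 (not_lt.2 this.le)

/-- inside a run with at least two nodes a solution of `T H` vanishing above the run is constant
off the cups -/
theorem const_on_run (hA0 : R.Adm H0) {f : ℤ → D}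
    (hf : f ∈ R.T H) {j : ℤ} (h0 : VanAb H0 (H0 j) f)
    (hrun : H0 (j - 1) = H0 j ∨ H0 (j + 1) = H0 j) (hj : ¬ IsCup H j) : f j = f (j - 1) := by
  have hrel : f j = f (j - 1) + f (R.o j) * R.c j := hf.2.2 j hj
  by_cases hc : R.c j = 0
  · rw [hrel, hc, mul_zero, add_zero]
  · rcases hA0.ov j hc with h1 | ⟨-, -, h1⟩
    · rw [hrel, h0 _ h1, zero_mul, add_zero]
    · exfalso
      rcases hrun with h2 | h2
      · rw [h2, sub_self, zero_mul] at h1
        exact lt_irrefl _ h1
      · rw [h2, sub_self, mul_zero] at h1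
        exact lt_irrefl _ h1

/-- `f` is constant on the pieces to the right of the cup `z`, up to the node `b` -/
theorem chain_right (hA0 : R.Adm H0) {f : ℤ → D} (hf : f ∈ R.T H) {z b : ℤ}
    (hinc : ∀ j, z ≤ j → j < b → H j < H (j + 1)) (hs : SameRun H0 z b) (hzb : z ≤ b)
    (h0 : VanAb H0 (H0 z) f) : f z = f b := by
  have key : ∀ k : ℕ, z + k ≤ b → f (z + k) = f z := by
    intro k
    induction k with
    | zero => intro _; simp
    | succ k ih =>
      intro hk
      push_cast at hk ⊢
      have e1 : H0 (z + k) = H0 z := hs _ (by omega) (by omega)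
      have e2 : H0 (z + k + 1) = H0 z := hs _ (by omega) (by omega)
      have h1 : f (z + k + 1) = f (z + k + 1 - 1) := by
        refine const_on_run hA0 hf (by rw [e2]; exact h0) (Or.inl ?_) ?_
        · rw [add_sub_cancel_right, e1, e2]
        · rintro ⟨hc, -⟩
          rw [add_sub_cancel_right] at hc
          exact absurd hc (not_lt.2 (hinc (z + k) (by omega) (by omega)).le)
      rw [add_sub_cancel_right, ih (by omega)] at h1
      rw [← add_assoc]
      exact h1
  have := key (b - z).toNat (by omega)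
  rw [show z + ((b - z).toNat : ℤ) = b by omega] at this
  exact this.symm

/-- `f` is constant on the pieces to the left of the cup `z`, down to the piece `a`; here the nodes
`a + 1, …, z` are in one run -/
theorem chain_left (hA0 : R.Adm H0) {f : ℤ → D} (hf : f ∈ R.T H) {z a : ℤ}
    (hdec : ∀ j, a < j → j < z → H (j + 1) < H j) (hs : ∀ j, a < j → j ≤ z → H0 j = H0 z)
    (haz : a < z) (h0 : VanAb H0 (H0 z) f) : f (z - 1) = f a := by
  have key : ∀ k : ℕ, a + k ≤ z - 1 → f (a + k) = f a := by
    intro k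
    induction k with
    | zero => intro _; simp
    | succ k ih =>
      intro hk
      push_cast at hk ⊢
      have e1 : H0 (a + k + 1) = H0 z := hs _ (by omega) (by omega)
      have e2 : H0 (a + k + 1 + 1) = H0 z := hs _ (by omega) (by omega)
      have h1 : f (a + k + 1) = f (a + k + 1 - 1) := by
        refine const_on_run hA0 hf (by rw [e1]; exact h0) (Or.inr ?_) ?_
        · rw [e1, e2]
        · rintro ⟨-, hc⟩
          exact absurd hc (not_lt.2 (hdec (a + k + 1) (by omega) (by omega)).le)
      rw [add_sub_cancel_right, ih (by omega)] at h1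
      rw [← add_assoc]
      exact h1
  have := key (z - 1 - a).toNat (by omega)
  rw [show a + ((z - 1 - a).toNat : ℤ) = z - 1 by omega] at this
  exact this

theorem gen_lt (hG : Gen H) {j : ℤ} (h : ¬ H (j + 1) < H j) : H j < H (j + 1) :=
  lt_of_le_of_ne (not_lt.1 h) (hG j)

theorem gen_gt (hG : Gen H) {j : ℤ} (h : ¬ H j < H (j + 1)) : H (j + 1) < H j :=
  lt_of_le_of_ne (not_lt.1 h) (hG j).symm

/-- the side of a cup to the right -/
theorem right_of_cup (hA0 : R.Adm H0) (hA : R.Adm H) (hG : Gen H) (hR : Ref H0 H)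
    (hn : ∃ i j, H0 i ≠ H0 j) {z : ℤ} (hz : IsCup H z) :
    (∃ M, AdjIn H0 H M z ∧ DownL H M z ∧
      ∀ f ∈ R.T H, VanAb H0 (H0 z) f → f z = f M) ∨
    (∃ b, z ≤ b ∧ SameRun H0 z b ∧ H0 b < H0 (b + 1) ∧
      ∀ f ∈ R.T H, VanAb H0 (H0 z) f → f z = 0) := by
  classical
  have hN : (0 : ℤ) < R.N := by exact_mod_cast R.hN
  -- the right end of the run
  have hb : ∃ k : ℕ, H0 (z + k + 1) ≠ H0 z := by
    by_contra hc
    push Not at hc
    have hs : SameRun H0 z (z + R.N) := by
      intro j h1 h2
      rcases eq_or_ne j z with rfl | hj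
      · rfl
      · have := hc (j - z - 1).toNat
        rwa [show z + ((j - z - 1).toNat : ℤ) + 1 = j by omega] at this
    exact lt_irrefl _ (run_lt hA0 hn hs)
  obtain ⟨b, hzb, hsb, hb1⟩ : ∃ b, z ≤ b ∧ SameRun H0 z b ∧ H0 (b + 1) ≠ H0 z := by
    refine ⟨z + Nat.find hb, by omega, ?_, Nat.find_spec hb⟩
    intro j h1 h2
    rcases eq_or_ne j z with rfl | hj
    · rfl
    · have := Nat.find_min hb (m := (j - z - 1).toNat) (by omega)
      push Not at this
      rwa [show z + ((j - z - 1).toNat : ℤ) + 1 = j by omega] at this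
  -- the first cap to the right
  have hM : ∃ k : ℕ, H (z + k + 1 + 1) < H (z + k + 1) := by
    by_contra hc
    push Not at hc
    have hinc : ∀ j, z ≤ j → H j < H (j + 1) := by
      intro j hj
      rcases eq_or_ne j z with rfl | hj'
      · exact hz.2
      · have := hc (j - z - 1).toNat
        rw [show z + ((j - z - 1).toNat : ℤ) + 1 = j by omega] at this
        exact gen_lt hG (not_lt.2 this)
    have hinc2 : ∀ k : ℕ, H z ≤ H (z + k) := by
      intro k
      induction k with
      | zero => simp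
      | succ k ih =>
        have := hinc (z + k) (by omega)
        push_cast
        rw [← add_assoc]
        linarith
    have h1 := hinc2 (R.N - 1)
    have h2 := hinc (z + (R.N - 1 : ℕ)) (by omega)
    have h3 := hA.per z
    rw [show z + ((R.N - 1 : ℕ) : ℤ) + 1 = z + R.N by
      have := R.hN
      omega] at h2
    linarith
  obtain ⟨M, hzM, hinc, hM1⟩ : ∃ M, z < M ∧ (∀ j, z ≤ j → j < M → H j < H (j + 1)) ∧
      H (M + 1) < H M := by
    refine ⟨z + Nat.find hM + 1, by omega, ?_, Nat.find_spec hM⟩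
    intro j h1 h2
    rcases eq_or_ne j z with rfl | hj
    · exact hz.2
    · have := Nat.find_min hM (m := (j - z - 1).toNat) (by omega)
      rw [show z + ((j - z - 1).toNat : ℤ) + 1 = j by omega] at this
      exact gen_lt hG this
  have hcap : IsCap H M := by
    refine ⟨?_, hM1⟩
    have := hinc (M - 1) (by omega) (by omega)
    rwa [sub_add_cancel] at this
  rcases le_or_gt M b with hMb | hMb
  · left
    have hsM : SameRun H0 z M := sameRun_mid hsb (by omega) (by omega)
    refine ⟨M, ⟨hcap, hz, Or.inr ⟨hzM, hinc⟩, sameRun_symm hsM⟩, ⟨hzM, hinc⟩, ?_⟩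
    intro f hf h0
    exact chain_right hA0 hf hinc hsM hzM.le h0
  · right
    have hHb := hinc b hzb hMb
    have hb0 : H0 b = H0 z := hsb b (by omega) (by omega)
    have hlt : H0 b < H0 (b + 1) := by
      rcases lt_trichotomy (H0 b) (H0 (b + 1)) with h | h | h
      · exact h
      · exact absurd (h.symm.trans hb0) hb1
      · exact absurd (hR _ _ h) (not_lt.2 hHb.le)
    refine ⟨b, hzb, hsb, hlt, ?_⟩
    intro f hf h0
    rw [chain_right hA0 hf (fun j h1 h2 => hinc j h1 (by omega)) hsb hzb h0]
    refine h0 b (lt_max_of_lt_right ?_)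
    rw [← hb0]
    exact hlt

/-- the side of a cup to the left -/
theorem left_of_cup (hA0 : R.Adm H0) (hA : R.Adm H) (hG : Gen H) (hR : Ref H0 H)
    (hn : ∃ i j, H0 i ≠ H0 j) {z : ℤ} (hz : IsCup H z) :
    (∃ M, AdjIn H0 H M z ∧ DownR H M z ∧
      ∀ f ∈ R.T H, VanAb H0 (H0 z) f → f (z - 1) = f M) ∨
    (∃ a, a ≤ z ∧ SameRun H0 a z ∧ H0 a < H0 (a - 1) ∧
      ∀ f ∈ R.T H, VanAb H0 (H0 z) f → f (z - 1) = 0) := by
  classical
  have hN : (0 : ℤ) < R.N := by exact_mod_cast R.hN
  -- the left end of the run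
  have hb : ∃ k : ℕ, H0 (z - k - 1) ≠ H0 z := by
    by_contra hc
    push Not at hc
    have hs : SameRun H0 (z - R.N) z := by
      have hall : ∀ j, j ≤ z → H0 j = H0 z := by
        intro j h2
        rcases eq_or_ne j z with rfl | hj
        · rfl
        · have := hc (z - j - 1).toNat
          rwa [show z - ((z - j - 1).toNat : ℤ) - 1 = j by omega] at this
      intro j h1 h2
      rw [hall j (by omega), hall (z - R.N) (by omega)]
    have := run_lt hA0 hn hs
    rw [sub_add_cancel] at this
    exact lt_irrefl _ this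
  obtain ⟨a, haz, hsa, ha1⟩ : ∃ a, a ≤ z ∧ (∀ j, a ≤ j → j ≤ z → H0 j = H0 z) ∧
      H0 (a - 1) ≠ H0 z := by
    refine ⟨z - Nat.find hb, by omega, ?_, Nat.find_spec hb⟩
    intro j h1 h2
    rcases eq_or_ne j z with rfl | hj
    · rfl
    · have := Nat.find_min hb (m := (z - j - 1).toNat) (by omega)
      push Not at this
      rwa [show z - ((z - j - 1).toNat : ℤ) - 1 = j by omega] at this
  have hza : H0 a = H0 z := hsa a le_rfl haz
  have hsa' : SameRun H0 a z := by
    intro j h1 h2
    rw [hza]
    exact hsa j (by omega) (by omega)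
  -- the first cap to the left
  have hz1 : H (z - 1 + 1) < H (z - 1) := by rw [sub_add_cancel]; exact hz.1
  have hM : ∃ k : ℕ, H (z - k - 1 - 1) < H (z - k - 1) := by
    by_contra hc
    push Not at hc
    have hdec : ∀ j, j < z → H (j + 1) < H j := by
      intro j hj
      rcases eq_or_ne j (z - 1) with rfl | hj'
      · exact hz1
      · have := hc (z - j - 2).toNat
        rw [show z - ((z - j - 2).toNat : ℤ) - 1 = j + 1 by omega, add_sub_cancel_right] at this
        exact gen_gt hG (not_lt.2 this)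
    have hdec2 : ∀ k : ℕ, H z ≤ H (z - k) := by
      intro k
      induction k with
      | zero => simp
      | succ k ih =>
        have := hdec (z - k - 1) (by omega)
        rw [sub_add_cancel] at this
        push_cast
        rw [← sub_sub]
        linarith
    have h1 := hdec2 (R.N - 1)
    have h2 := hdec (z - R.N) (by omega)
    have h3 := hA.per (z - R.N)
    rw [sub_add_cancel] at h3
    rw [show z - (R.N : ℤ) + 1 = z - ((R.N - 1 : ℕ) : ℤ) by
      have := R.hN
      omega] at h2
    linarith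
  obtain ⟨M, hzM, hdec, hM1⟩ : ∃ M, M < z ∧ (∀ j, M ≤ j → j < z → H (j + 1) < H j) ∧
      H (M - 1) < H M := by
    refine ⟨z - Nat.find hM - 1, by omega, ?_, Nat.find_spec hM⟩
    intro j h1 h2
    rcases eq_or_ne j (z - 1) with rfl | hj
    · exact hz1
    · have := Nat.find_min hM (m := (z - j - 2).toNat) (by omega)
      rw [show z - ((z - j - 2).toNat : ℤ) - 1 = j + 1 by omega, add_sub_cancel_right] at this
      exact gen_gt hG this
  have hcap : IsCap H M := ⟨hM1, hdec M le_rfl hzM⟩
  rcases le_or_gt a M with hMb | hMb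
  · left
    have hsM : SameRun H0 M z := by
      intro j h1 h2
      rw [hsa M hMb hzM.le]
      exact hsa j (by omega) (by omega)
    refine ⟨M, ⟨hcap, hz, Or.inl ⟨hzM, hdec⟩, hsM⟩, ⟨hzM, hdec⟩, ?_⟩
    intro f hf h0
    exact chain_left hA0 hf (fun j h1 h2 => hdec j h1.le h2)
      (fun j h1 h2 => hsa j (by omega) h2) hzM h0
  · right
    have hHa : H a < H (a - 1) := by
      have := hdec (a - 1) (by omega) (by omega)
      rwa [sub_add_cancel] at this
    have hlt : H0 a < H0 (a - 1) := by
      rcases lt_trichotomy (H0 a) (H0 (a - 1)) with h | h | h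
      · exact h
      · exact absurd (h.symm.trans hza) ha1
      · exact absurd (hR _ _ h) (not_lt.2 hHa.le)
    refine ⟨a, haz, hsa', hlt, ?_⟩
    intro f hf h0
    rw [chain_left (a := a - 1) hA0 hf (fun j h1 h2 => hdec j (by omega) h2)
      (fun j h1 h2 => hsa j (by omega) h2) (by omega) h0]
    refine h0 (a - 1) (lt_max_of_lt_left ?_)
    rw [← hza]
    exact hlt

/-- mismatch of a function supported at the cap `M` (mod `N`) at an adjacent cup -/
theorem mis_adj (hA0 : R.Adm H0) (hA : R.Adm H) (hG : Gen H) (hR : Ref H0 H)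
    (hn : ∃ i j, H0 i ≠ H0 j) {M z : ℤ} (h : AdjIn H0 H M z) {f : ℤ → D} (hf : f ∈ R.T H)
    (h0 : VanAb H0 (H0 z) f)
    (h1 : ∀ M', IsCap H M' → (¬ ∃ i : ℤ, M' = M + i * R.N) → f M' = 0) :
    mis z f = if M < z then f M else - f M := by
  have hz := h.2.1
  have hsM := h.2.2.2
  have hzero : ∀ M', AdjIn H0 H M' z → M' ≠ M → f M' = 0 := by
    intro M' h' hne
    refine h1 M' h'.1 ?_
    rintro ⟨i, hi⟩
    have hs : SameRun H0 M M' := sameRun_trans hsM (sameRun_symm h'.2.2.2)
    rw [hi] at hs
    have := run_shift_eq hA0 hn hs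
    rw [this, zero_mul, add_zero] at hi
    exact hne hi
  rcases h.2.2.1 with ⟨hlt, hdec⟩ | ⟨hlt, hinc⟩
  · rw [if_pos hlt]
    have e1 : f (z - 1) = f M := chain_left hA0 hf (fun j h1 h2 => hdec j h1.le h2)
      (fun j h1 h2 => sameRun_symm hsM j (by omega) (by omega)) hlt h0
    have e2 : f z = 0 := by
      rcases right_of_cup hA0 hA hG hR hn hz with ⟨M', h', hd, he⟩ | ⟨b, -, -, -, he⟩
      · rw [he f hf h0]
        exact hzero M' h' (by have := hd.1; omega)
      · exact he f hf h0
    rw [mis, e1, e2, sub_zero]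
  · rw [if_neg (by omega)]
    have e1 : f z = f M := chain_right hA0 hf hinc (sameRun_symm hsM) hlt.le h0
    have e2 : f (z - 1) = 0 := by
      rcases left_of_cup hA0 hA hG hR hn hz with ⟨M', h', hd, he⟩ | ⟨b, -, -, -, he⟩
      · rw [he f hf h0]
        exact hzero M' h' (by have := hd.1; omega)
      · exact he f hf h0
    rw [mis, e1, e2, zero_sub]

/-- such a function has nonzero mismatch on its level only at cups adjacent to `M` (mod `N`) -/
theorem adj_of_mis (hA0 : R.Adm H0) (hA : R.Adm H) (hG : Gen H) (hR : Ref H0 H)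
    (hn : ∃ i j, H0 i ≠ H0 j) {M z : ℤ} (hz : IsCup H z) {f : ℤ → D}
    (hf : f ∈ R.T H) (h0 : VanAb H0 (H0 z) f)
    (h1 : ∀ M', IsCap H M' → (¬ ∃ i : ℤ, M' = M + i * R.N) → f M' = 0) (hne : mis z f ≠ 0) :
    ∃ i : ℤ, AdjIn H0 H (M + i * R.N) z := by
  have key : ∀ M', AdjIn H0 H M' z → f M' ≠ 0 → ∃ i : ℤ, AdjIn H0 H (M + i * R.N) z := by
    intro M' h' hne'
    by_contra hc
    exact hne' (h1 M' h'.1 (fun ⟨i, hi⟩ => hc ⟨i, hi ▸ h'⟩))
  by_cases hfz : f z = 0
  · have hfz' : f (z - 1) ≠ 0 := by
      intro hc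
      exact hne (by rw [mis, hfz, hc, sub_zero])
    rcases left_of_cup hA0 hA hG hR hn hz with ⟨M', h', -, he⟩ | ⟨b, -, -, -, he⟩
    · exact key M' h' (by rw [← he f hf h0]; exact hfz')
    · exact absurd (he f hf h0) hfz'
  · rcases right_of_cup hA0 hA hG hR hn hz with ⟨M', h', -, he⟩ | ⟨b, -, -, -, he⟩
    · exact key M' h' (by rw [← he f hf h0]; exact hfz)
    · exact absurd (he f hf h0) hfz

/-- a unit function vanishes above its level -/
theorem unit_vanish (hA : R.Adm H) (hG : Gen H) (hR : Ref H0 H) {M : ℤ} {y : ℝ} (hM : H0 M = y)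
    {f : ℤ → D} (hf : IsUnitFn R H M f) : VanAb H0 y f := by
  intro i hi
  rw [← hM] at hi
  refine hf.vanish hA hG i ?_
  rcases lt_max_iff.1 hi with h | h
  · exact lt_max_of_lt_left (hR _ _ h)
  · exact lt_max_of_lt_right (hR _ _ h)

/-- the mismatch of the unit function of `M` at an adjacent cup is `1` or `-1` -/
theorem unit_mis_adj (hA0 : R.Adm H0) (hA : R.Adm H) (hG : Gen H) (hR : Ref H0 H)
    (hn : ∃ i j, H0 i ≠ H0 j) {M z : ℤ} (h : AdjIn H0 H M z) {f : ℤ → D}
    (hf : IsUnitFn R H M f) : mis z f = if M < z then 1 else -1 := by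
  have hM : H0 M = H0 z := (h.2.2.2 z (min_le_right _ _) (le_max_right _ _)).symm
  have := mis_adj hA0 hA hG hR hn h hf.mem (unit_vanish hA hG hR hM hf) hf.zero
  rw [this, hf.one]

end Pool.Agent.helper81.SBX
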