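import Pool.Agent.helper81.SBX.GHt
import Pool.Agent.helper81.SBX.RRun

set_option autoImplicit false

/-!
# GDir: the special point `x1`, the pair at the edge `B`, the window lemma (G4, G5)

Notation: `A = d (k1 - 1)`, `B = d k1`, `C = d k0`; `e = α A + β B + γ C`, `α > 0 > γ`; `det3 A B C ≠ 0`. The pieces `k1 ≤ j < k0` are
positive multiples of `B`.

PROOFS.
* `x1_spec`: `cross3 B e ⬝ᵥ A = det3 A B e = γ det3 A B C`, `cross3 B e ⬝ᵥ C = det3 C B e = α det3 C B A = - α det3 A B C`,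
  `cross3 B e ⬝ᵥ B = cross3 B e ⬝ᵥ e = 0`; the sign in the definition of `x1` makes both positive. (All identities by
  unfolding and `ring`; substitute `e` from `Δ.he` only where needed.)
* `dir_sign`: `0 ≤ b ⬝ e = α (b ⬝ A) + γ (b ⬝ C)`, so `α (b ⬝ A) ≥ - γ (b ⬝ C) > 0`.
* `dir_sign0`: if `b ⬝ B = b ⬝ C = 0`, `b ≠ 0`, `0 ≤ b ⬝ e`: `0 ≤ α (b ⬝ A)` and `b ⬝ A ≠ 0` (`det_eq_zero`), so `0 < b ⬝ A`.
* `pair_x1`: near `x1`: `u ⬝ A > 0`, `u ⬝ C > 0` (continuity); `u ⬝ B < 0`: heights decrease from `k1` to `k0`; so `k1` is a cap, `k0` a cup,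
  `DownR`, and `M.ht x1` is constant on `[k1, k0]`. `pair_x2`: near `- x1`: `u ⬝ A < 0`, `u ⬝ C < 0`, `u ⬝ B > 0`: `k0` is a cap, `k1` is a cup.
* `nopair_x1`, `nopair_x2`: heights are strictly monotone on `[k1 - 1, k0 + 1]`.
* `window`: shifting all indices by `- i * N` we may take `i = 0`: suppose `z' < k0 ≤ z`. The piece `k0 - 1` is `b`-horizontal (nodes `k0 - 1`, `k0` are in
  `[z', z]`), so `b ⬝ B = 0`, all nodes of `[k1, k0]` have the same height.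
  (i) `b ⬝ C = 0` : then `b ⬝ A > 0` (`dir_sign0`). (ii) `b ⬝ C ≠ 0`: then `H_b (k0 + 1) ≠ H_b k0`, so `z = k0` (else `k0 + 1 ∈ [z', z]`), and `z` is a cup of
  `H_u`: `H_u (k0 + 1) > H_u k0`, so by `Ref` not `H_b (k0 + 1) < H_b k0`; hence `b ⬝ C > 0` and `b ⬝ A > 0` (`dir_sign`).
  In both cases `H_b (k1 - 1) < H_b k1`, so `k1 ≤ z'` (else `k1 - 1 ∈ [z', z]`). `z' = k1`: `Ref` gives `H_{u'} (k1 - 1) < H_{u'} k1`, not a cup.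
  `k1 < z' < k0`: `d (z' - 1)` and `d z'` are positive multiples of `B`, so `z'` is not a cup.
* `window_shift`: if `i > 0` then `z < k0 + i * N ≤ z' + i * N`; if `i < 0` then `z' + i * N < k0 ≤ z`; both contradict `window` (for the cups
  `z` and `z' + i * N`, in this or the other order).
-/

namespace Pool.Agent.helper81.SBX

open Module Matrix

variable {M : Marked} (Δ : M.Dir)

theorem dot3 (u v : E3) : u ⬝ᵥ v = u 0 * v 0 + u 1 * v 1 + u 2 * v 2 := by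
  simp [dotProduct, Fin.sum_univ_three]

theorem e_dot (b : E3) : b ⬝ᵥ M.e =
    Δ.α * (b ⬝ᵥ M.d (Δ.k1 - 1)) + Δ.β * (b ⬝ᵥ M.d Δ.k1) + Δ.γ * (b ⬝ᵥ M.d Δ.k0) := by
  rw [show b ⬝ᵥ M.e = b ⬝ᵥ (Δ.α • M.d (Δ.k1 - 1) + Δ.β • M.d Δ.k1 + Δ.γ • M.d Δ.k0) by
    rw [← Δ.he]]
  simp [dotProduct_add, dotProduct_smul]

theorem e_comp (i : Fin 3) : M.e i =
    Δ.α * M.d (Δ.k1 - 1) i + Δ.β * M.d Δ.k1 i + Δ.γ * M.d Δ.k0 i := by
  have h := congrFun Δ.he i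
  simpa using h

theorem cross_A : cross3 (M.d Δ.k1) M.e ⬝ᵥ M.d (Δ.k1 - 1) =
    Δ.γ * det3 (M.d (Δ.k1 - 1)) (M.d Δ.k1) (M.d Δ.k0) := by
  rw [dot3]
  simp only [cross3, det3, Matrix.cons_val_zero, Matrix.cons_val_one, Matrix.cons_val]
  rw [e_comp Δ 0, e_comp Δ 1, e_comp Δ 2]
  ring

theorem cross_C : cross3 (M.d Δ.k1) M.e ⬝ᵥ M.d Δ.k0 =
    - (Δ.α * det3 (M.d (Δ.k1 - 1)) (M.d Δ.k1) (M.d Δ.k0)) := by
  rw [dot3]
  simp only [cross3, det3, Matrix.cons_val_zero, Matrix.cons_val_one, Matrix.cons_val]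
  rw [e_comp Δ 0, e_comp Δ 1, e_comp Δ 2]
  ring

theorem cross_B (b c : E3) : cross3 b c ⬝ᵥ b = 0 := by
  rw [dot3]
  simp only [cross3, Matrix.cons_val_zero, Matrix.cons_val_one, Matrix.cons_val]
  ring

theorem cross_E (b c : E3) : cross3 b c ⬝ᵥ c = 0 := by
  rw [dot3]
  simp only [cross3, Matrix.cons_val_zero, Matrix.cons_val_one, Matrix.cons_val]
  ring

theorem x1_spec : Δ.x1 ≠ 0 ∧ Δ.x1 ⬝ᵥ M.e = 0 ∧ Δ.x1 ⬝ᵥ M.d Δ.k1 = 0 ∧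
    0 < Δ.x1 ⬝ᵥ M.d (Δ.k1 - 1) ∧ 0 < Δ.x1 ⬝ᵥ M.d Δ.k0 := by
  have key : Δ.x1 ⬝ᵥ M.e = 0 ∧ Δ.x1 ⬝ᵥ M.d Δ.k1 = 0 ∧
      0 < Δ.x1 ⬝ᵥ M.d (Δ.k1 - 1) ∧ 0 < Δ.x1 ⬝ᵥ M.d Δ.k0 := by
    have hα := Δ.α_pos
    have hγ := Δ.γ_neg
    have hD := Δ.indep
    unfold Marked.Dir.x1
    split_ifs with h
    · rw [neg_dotProduct, neg_dotProduct, neg_dotProduct, neg_dotProduct, cross_A, cross_C,
        cross_B, cross_E]
      refine ⟨neg_zero, neg_zero, ?_, ?_⟩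
      · nlinarith [mul_pos (neg_pos.2 hγ) h]
      · nlinarith [mul_pos hα h]
    · have h' : det3 (M.d (Δ.k1 - 1)) (M.d Δ.k1) (M.d Δ.k0) < 0 :=
        lt_of_le_of_ne (not_lt.1 h) hD
      rw [cross_A, cross_C, cross_B, cross_E]
      refine ⟨rfl, rfl, ?_, ?_⟩
      · nlinarith [mul_pos (neg_pos.2 hγ) (neg_pos.2 h')]
      · nlinarith [mul_pos hα (neg_pos.2 h')]
  refine ⟨?_, key⟩
  intro h0
  have := key.2.2.1
  rw [h0, zero_dotProduct] at this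
  exact lt_irrefl _ this

theorem dir_sign {b : E3} (hb : 0 ≤ b ⬝ᵥ M.e) (hB : b ⬝ᵥ M.d Δ.k1 = 0)
    (hC : 0 < b ⬝ᵥ M.d Δ.k0) : 0 < b ⬝ᵥ M.d (Δ.k1 - 1) := by
  rw [e_dot Δ b, hB] at hb
  have h1 := mul_pos (neg_pos.2 Δ.γ_neg) hC
  have h2 : 0 < Δ.α * (b ⬝ᵥ M.d (Δ.k1 - 1)) := by nlinarith
  exact (mul_pos_iff_of_pos_left Δ.α_pos).1 h2

theorem dir_sign0 {b : E3} (h0 : b ≠ 0) (hb : 0 ≤ b ⬝ᵥ M.e) (hB : b ⬝ᵥ M.d Δ.k1 = 0)
    (hC : b ⬝ᵥ M.d Δ.k0 = 0) : 0 < b ⬝ᵥ M.d (Δ.k1 - 1) := by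
  rw [e_dot Δ b, hB, hC] at hb
  have hne : b ⬝ᵥ M.d (Δ.k1 - 1) ≠ 0 := fun hA => Δ.indep (det_eq_zero h0 hA hB hC)
  have h2 : 0 ≤ Δ.α * (b ⬝ᵥ M.d (Δ.k1 - 1)) := by linarith
  have h3 : 0 ≤ b ⬝ᵥ M.d (Δ.k1 - 1) := (mul_nonneg_iff_of_pos_left Δ.α_pos).1 h2
  exact lt_of_le_of_ne h3 (Ne.symm hne)

theorem dot_near (x a c : E3) (ha : 0 < x ⬝ᵥ a) (hc : 0 < x ⬝ᵥ c) :
    ∃ s > 0, ∀ u : E3, ‖u - x‖ < s → 0 < u ⬝ᵥ a ∧ 0 < u ⬝ᵥ c := by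
  have h1 : ∀ v : E3, Continuous fun u : E3 => u ⬝ᵥ v := fun v =>
    Continuous.dotProduct continuous_id continuous_const
  have h2 : ∀ᶠ u in nhds x, 0 < u ⬝ᵥ a ∧ 0 < u ⬝ᵥ c :=
    ((h1 a).continuousAt.eventually (lt_mem_nhds ha)).and
      ((h1 c).continuousAt.eventually (lt_mem_nhds hc))
  obtain ⟨s, hs, h⟩ := Metric.eventually_nhds_iff.1 h2
  exact ⟨s, hs, fun u hu => h (by rw [dist_eq_norm]; exact hu)⟩

/-- the pieces between `k1` and `k0` -/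
theorem mid_dot (u : E3) {j : ℤ} (h1 : Δ.k1 ≤ j) (h2 : j < Δ.k0) :
    ∃ c : ℝ, 0 < c ∧ M.ht u (j + 1) - M.ht u j = c * (u ⬝ᵥ M.d Δ.k1) := by
  obtain ⟨c, hc, he⟩ := Δ.hB j h1 h2
  refine ⟨c, hc, ?_⟩
  rw [ht_succ, he, dotProduct_smul, smul_eq_mul]

theorem ht_A (u : E3) : M.ht u Δ.k1 - M.ht u (Δ.k1 - 1) = u ⬝ᵥ M.d (Δ.k1 - 1) := by
  have h := ht_succ M u (Δ.k1 - 1)
  rwa [sub_add_cancel] at h

theorem ht_mid {u : E3} (hB : u ⬝ᵥ M.d Δ.k1 = 0) {j : ℤ} (h1 : Δ.k1 ≤ j) (h2 : j ≤ Δ.k0) :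
    M.ht u j = M.ht u Δ.k1 := by
  induction j, h1 using Int.leInduction with
  | base => rfl
  | succ n hn ih =>
    obtain ⟨c, hc, he⟩ := mid_dot Δ u hn (by omega)
    rw [hB, mul_zero] at he
    have h3 := ih (by omega)
    linarith

theorem sameRun_mid0 {u : E3} (hB : u ⬝ᵥ M.d Δ.k1 = 0) : SameRun (M.ht u) Δ.k1 Δ.k0 := by
  intro j h1 h2
  have hlt := Δ.lt
  rw [min_eq_left hlt.le] at h1
  rw [max_eq_right hlt.le] at h2
  exact ht_mid Δ hB h1 h2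

theorem pair_x1 : ∃ s > 0, ∀ u : E3, ‖u - Δ.x1‖ < s → u ⬝ᵥ M.d Δ.k1 < 0 →
    AdjIn (M.ht Δ.x1) (M.ht u) Δ.k1 Δ.k0 := by
  obtain ⟨-, -, hB, hA, hC⟩ := x1_spec Δ
  obtain ⟨s, hs, h⟩ := dot_near _ _ _ hA hC
  refine ⟨s, hs, fun u hu hneg => ?_⟩
  obtain ⟨uA, uC⟩ := h u hu
  have hlt := Δ.lt
  have mono : ∀ j, Δ.k1 ≤ j → j < Δ.k0 → M.ht u (j + 1) < M.ht u j := by
    intro j h1 h2
    obtain ⟨c, hc, he⟩ := mid_dot Δ u h1 h2
    have := mul_pos hc (neg_pos.2 hneg)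
    nlinarith
  refine ⟨⟨?_, mono _ le_rfl hlt⟩, ⟨?_, ?_⟩, Or.inl ⟨hlt, mono⟩, sameRun_mid0 Δ hB⟩
  · have := ht_A Δ u; linarith
  · have := mono (Δ.k0 - 1) (by omega) (by omega)
    rwa [sub_add_cancel] at this
  · have := ht_succ M u Δ.k0; linarith

theorem sameRun_neg {H : ℤ → ℝ} {a b : ℤ} (h : SameRun H a b) :
    SameRun (fun j => - H j) a b := fun j h1 h2 => by
  have := h j h1 h2
  simp only [this]

theorem pair_x2 : ∃ s > 0, ∀ u : E3, ‖u + Δ.x1‖ < s → 0 < u ⬝ᵥ M.d Δ.k1 →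
    AdjIn (M.ht (- Δ.x1)) (M.ht u) Δ.k0 Δ.k1 := by
  obtain ⟨s, hs, h⟩ := pair_x1 Δ
  refine ⟨s, hs, fun u hu hpos => ?_⟩
  have hn : ‖-u - Δ.x1‖ < s := by
    rw [show -u - Δ.x1 = -(u + Δ.x1) by abel, norm_neg]
    exact hu
  have h1 := h (-u) hn (by rw [neg_dotProduct]; linarith)
  have h2 := adj_neg h1
  rw [ht_neg M u] at h2
  rw [ht_neg M Δ.x1]
  simpa using h2

theorem nopair_x1 : ∃ s > 0, ∀ u : E3, ‖u - Δ.x1‖ < s → 0 < u ⬝ᵥ M.d Δ.k1 →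
    ∀ j, Δ.k1 ≤ j → j ≤ Δ.k0 → ¬ IsCap (M.ht u) j ∧ ¬ IsCup (M.ht u) j := by
  obtain ⟨-, -, hB, hA, hC⟩ := x1_spec Δ
  obtain ⟨s, hs, h⟩ := dot_near _ _ _ hA hC
  refine ⟨s, hs, fun u hu hpos j h1 h2 => ?_⟩
  obtain ⟨uA, uC⟩ := h u hu
  have mono : ∀ j, Δ.k1 ≤ j → j < Δ.k0 → M.ht u j < M.ht u (j + 1) := by
    intro j h1 h2
    obtain ⟨c, hc, he⟩ := mid_dot Δ u h1 h2
    have := mul_pos hc hpos
    linarith
  have hlow : M.ht u (j - 1) < M.ht u j := by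
    rcases h1.lt_or_eq with h | h
    · have := mono (j - 1) (by omega) (by omega)
      rwa [sub_add_cancel] at this
    · have := ht_A Δ u
      rw [← h]; linarith
  have hup : M.ht u j < M.ht u (j + 1) := by
    rcases h2.lt_or_eq with h | h
    · exact mono j h1 h
    · have := ht_succ M u Δ.k0
      rw [h]; linarith
  exact ⟨fun hc => lt_asymm hc.2 hup, fun hc => lt_asymm hc.1 hlow⟩

theorem nopair_x2 : ∃ s > 0, ∀ u : E3, ‖u + Δ.x1‖ < s → u ⬝ᵥ M.d Δ.k1 < 0 →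
    ∀ j, Δ.k1 ≤ j → j ≤ Δ.k0 → ¬ IsCap (M.ht u) j ∧ ¬ IsCup (M.ht u) j := by
  obtain ⟨s, hs, h⟩ := nopair_x1 Δ
  refine ⟨s, hs, fun u hu hneg j h1 h2 => ?_⟩
  have hn : ‖-u - Δ.x1‖ < s := by
    rw [show -u - Δ.x1 = -(u + Δ.x1) by abel, norm_neg]
    exact hu
  obtain ⟨c1, c2⟩ := h (-u) hn (by rw [neg_dotProduct]; linarith) j h1 h2
  rw [ht_neg M u] at c1 c2
  constructor
  · intro hc
    exact c2 ⟨neg_lt_neg hc.1, neg_lt_neg hc.2⟩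
  · intro hc
    exact c1 ⟨neg_lt_neg hc.1, neg_lt_neg hc.2⟩

/-- the corner structure shifted by `i` periods -/
def dirShift (i : ℤ) : M.Dir where
  k1 := Δ.k1 + i * M.N
  k0 := Δ.k0 + i * M.N
  α := Δ.α
  β := Δ.β
  γ := Δ.γ
  lt := by have := Δ.lt; omega
  lt' := by have := Δ.lt'; omega
  hB := by
    intro j h1 h2
    obtain ⟨c, hc, he⟩ := Δ.hB (j - i * M.N) (by omega) (by omega)
    refine ⟨c, hc, ?_⟩
    rw [d_per, ← he, ← d_per M (j - i * M.N) i, sub_add_cancel]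
  he := by
    rw [show Δ.k1 + i * M.N - 1 = (Δ.k1 - 1) + i * M.N by ring, d_per, d_per, d_per]
    exact Δ.he
  α_pos := Δ.α_pos
  γ_neg := Δ.γ_neg
  indep := by
    rw [show Δ.k1 + i * M.N - 1 = (Δ.k1 - 1) + i * M.N by ring, d_per, d_per, d_per]
    exact Δ.indep

theorem window0 {b u u' : E3} (hb : b ∈ M.hemi) (hu : Ref (M.ht b) (M.ht u))
    (hu' : Ref (M.ht b) (M.ht u')) {z z' : ℤ} (hz : IsCup (M.ht u) z)
    (hz' : IsCup (M.ht u') z') (hrun : SameRun (M.ht b) z' z) :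
    ¬ (z' < Δ.k0 ∧ Δ.k0 ≤ z) := by
  rintro ⟨h1, h2⟩
  have hlt := Δ.lt
  have hzz : z' ≤ z := by omega
  have hrun' : ∀ j, z' ≤ j → j ≤ z → M.ht b j = M.ht b z' := by
    intro j a1 a2
    exact hrun j (by rw [min_eq_left hzz]; exact a1) (by rw [max_eq_right hzz]; exact a2)
  have hB : b ⬝ᵥ M.d Δ.k1 = 0 := by
    obtain ⟨c, hc, he⟩ := mid_dot Δ b (j := Δ.k0 - 1) (by omega) (by omega)
    rw [sub_add_cancel, hrun' Δ.k0 (by omega) (by omega), hrun' (Δ.k0 - 1) (by omega) (by omega),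
      sub_self] at he
    rcases mul_eq_zero.1 he.symm with h | h
    · exact absurd h hc.ne'
    · exact h
  have hA : 0 < b ⬝ᵥ M.d (Δ.k1 - 1) := by
    by_cases hC : b ⬝ᵥ M.d Δ.k0 = 0
    · exact dir_sign0 Δ hb.1 hb.2 hB hC
    · have hs := ht_succ M b Δ.k0
      have hzk : z = Δ.k0 := by
        by_contra hne
        apply hC
        rw [← hs, hrun' Δ.k0 (by omega) (by omega), hrun' (Δ.k0 + 1) (by omega) (by omega),
          sub_self]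
      apply dir_sign Δ hb.2 hB
      have hnl : ¬ M.ht b (Δ.k0 + 1) < M.ht b Δ.k0 := by
        intro hl
        have h3 := hu _ _ hl
        rw [hzk] at hz
        exact lt_asymm h3 hz.2
      rcases lt_trichotomy (b ⬝ᵥ M.d Δ.k0) 0 with h | h | h
      · exact absurd (by linarith : M.ht b (Δ.k0 + 1) < M.ht b Δ.k0) hnl
      · exact absurd h hC
      · exact h
  have hA' := ht_A Δ b
  have hk : Δ.k1 ≤ z' := by
    by_contra hne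
    have e1 := hrun' Δ.k1 (by omega) (by omega)
    have e2 := hrun' (Δ.k1 - 1) (by omega) (by omega)
    linarith
  rcases hk.lt_or_eq with h | h
  · obtain ⟨c, hc, he⟩ := mid_dot Δ u' (j := z' - 1) (by omega) (by omega)
    obtain ⟨c', hc', he'⟩ := mid_dot Δ u' (j := z') (by omega) (by omega)
    rw [sub_add_cancel] at he
    have n1 : c * (u' ⬝ᵥ M.d Δ.k1) < 0 := by
      have := hz'.1; linarith
    have n2 : 0 < c' * (u' ⬝ᵥ M.d Δ.k1) := by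
      have := hz'.2; linarith
    have n3 := (mul_pos_iff_of_pos_left hc').1 n2
    have n4 := mul_pos hc n3
    linarith
  · have h3 := hu' (Δ.k1 - 1) Δ.k1 (by linarith)
    rw [h] at h3
    exact lt_asymm h3 hz'.1

/-- window lemma -/
theorem window {b u u' : E3} (hb : b ∈ M.hemi) (hu : Ref (M.ht b) (M.ht u))
    (hu' : Ref (M.ht b) (M.ht u')) {z z' : ℤ} (hz : IsCup (M.ht u) z)
    (hz' : IsCup (M.ht u') z') (hrun : SameRun (M.ht b) z' z) (i : ℤ) :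
    ¬ (z' < Δ.k0 + i * M.N ∧ Δ.k0 + i * M.N ≤ z) :=
  window0 (dirShift Δ i) hb hu hu' hz hz' hrun

theorem window_shift {b u u' : E3} (hb : b ∈ M.hemi) (hu : Ref (M.ht b) (M.ht u))
    (hu' : Ref (M.ht b) (M.ht u')) {z z' i : ℤ} (hz : IsCup (M.ht u) z)
    (hz' : IsCup (M.ht u') z') (hrun : SameRun (M.ht b) (z' + i * M.N) z)
    (h1 : Δ.k0 ≤ z) (h2 : z < Δ.k0 + M.N) (h3 : Δ.k0 ≤ z') (h4 : z' < Δ.k0 + M.N) : i = 0 := by
  have hN : (0 : ℤ) < M.N := by exact_mod_cast M.hN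
  have hz'' : IsCup (M.ht u') (z' + i * M.N) := by
    refine ⟨?_, ?_⟩
    · rw [show z' + i * (M.N : ℤ) - 1 = (z' - 1) + i * M.N by ring, ht_per_mul, ht_per_mul]
      exact hz'.1
    · rw [show z' + i * (M.N : ℤ) + 1 = (z' + 1) + i * M.N by ring, ht_per_mul, ht_per_mul]
      exact hz'.2
  rcases lt_trichotomy i 0 with h | h | h
  · exfalso
    refine window Δ hb hu hu' hz hz'' hrun 0 ⟨?_, ?_⟩
    · nlinarith
    · simpa using h1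
  · exact h
  · exfalso
    refine window Δ hb hu' hu hz'' hz (sameRun_symm hrun) i ⟨?_, ?_⟩
    · nlinarith
    · linarith

end Pool.Agent.helper81.SBX
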