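import Pool.Agent.helper81.SBX.RBasic
import Pool.Agent.helper81.SBX.GConn

set_option autoImplicit false

/-!
# GHt: heights of marked polygons

PROOFS.
* `ht_per`, `ht_per_mul`, `d_per`: periodicity of `q`.
* `det_eq_zero`: if `u ≠ 0` is orthogonal to `a, b, c` then `det3 a b c = 0` (three vectors in the plane `u^⊥`; e.g. solve the linear
  system; Cramer: `det3 a b c • u = (u ⬝ a) • (b × c) + (u ⬝ b) • (c × a) + (u ⬝ c) • (a × b)`).
* `ht_ref`: if `M.ht b i < M.ht b j` for `i, j ∈ [0, N)` then `M.ht u i < M.ht u j` for `u` near `b` (continuity); finitely many pairs; then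
  all pairs by periodicity.
* `gen_dense`: `d j ≠ 0` (`nodir` with `c = 0`). Consider `x s = b + s • e + s ^ 2 • v + s ^ 3 • w` with `v`, `w` such that `e, v, w` is a basis
  (or choose two of the unit vectors). For each `j ∈ [0, N)` the polynomial `s ↦ x s ⬝ᵥ d j` is not zero, so it has finitely many
  zeros; for small `s > 0` all are nonzero, `x s ⬝ᵥ e = b ⬝ᵥ e + s (e ⬝ᵥ e) + O(s²) > 0`, and `‖x s - b‖ < ε`. `Gen` follows by periodicity.
* `gen_dense_perp`: the same with `x s = b + s • v + s ^ 2 • w`, `v, w` a basis of `e^⊥`; the polynomial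
  `x s ⬝ᵥ d j` is not zero, since `v ⬝ᵥ d j = w ⬝ᵥ d j = 0` would make `d j` a multiple of `e` (`nodir`). `x s ≠ 0` for small `s` since `b ≠ 0`.
* `ht_nonconst`: otherwise `b` is orthogonal to `d (k1 - 1)`, `d k1`, `d k0`, contradiction to `Δ.indep` (`det_eq_zero`).
* `ht_neg`: linearity.
-/

namespace Pool.Agent.helper81.SBX

open Module Matrix

variable {M : Marked}

private theorem q_per_mul (M : Marked) (j i : ℤ) : M.q (j + i * M.N) = M.q j := by
  induction i using Int.induction_on with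
  | zero => simp
  | succ i ih =>
    rw [show j + ((i : ℤ) + 1) * (M.N : ℤ) = (j + i * M.N) + M.N by ring, M.q_per, ih]
  | pred i ih =>
    rw [← M.q_per (j + (-(i : ℤ) - 1) * M.N),
      show j + (-(i : ℤ) - 1) * (M.N : ℤ) + M.N = j + -(i : ℤ) * M.N by ring, ih]

theorem ht_per (M : Marked) (u : E3) (j : ℤ) : M.ht u (j + M.N) = M.ht u j := by
  simp only [Marked.ht, M.q_per]

theorem ht_per_mul (M : Marked) (u : E3) (j i : ℤ) : M.ht u (j + i * M.N) = M.ht u j := by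
  simp only [Marked.ht, q_per_mul]

theorem d_per (M : Marked) (j i : ℤ) : M.d (j + i * M.N) = M.d j := by
  simp only [Marked.d]
  rw [q_per_mul, show j + i * (M.N : ℤ) + 1 = (j + 1) + i * M.N by ring, q_per_mul]

theorem und_per_mul (M : Marked) (j i : ℤ) : M.und (j + i * M.N) ↔ M.und j := by
  induction i using Int.induction_on with
  | zero => simp
  | succ i ih =>
    rw [show j + ((i : ℤ) + 1) * (M.N : ℤ) = (j + i * M.N) + M.N by ring, M.und_per, ih]
  | pred i ih =>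
    rw [← M.und_per (j + (-(i : ℤ) - 1) * M.N),
      show j + (-(i : ℤ) - 1) * (M.N : ℤ) + M.N = j + -(i : ℤ) * M.N by ring, ih]

theorem ht_succ (M : Marked) (u : E3) (j : ℤ) : M.ht u (j + 1) - M.ht u j = u ⬝ᵥ M.d j := by
  simp only [Marked.ht, Marked.d, dotProduct_sub]

theorem ht_neg (M : Marked) (u : E3) : M.ht (-u) = fun j => - M.ht u j := by
  funext j
  simp only [Marked.ht, neg_dotProduct]

theorem det_eq_zero {u a b c : E3} (hu : u ≠ 0) (ha : u ⬝ᵥ a = 0) (hb : u ⬝ᵥ b = 0)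
    (hc : u ⬝ᵥ c = 0) : det3 a b c = 0 := by
  simp only [dotProduct, Fin.sum_univ_three] at ha hb hc
  have h0 : det3 a b c * u 0 = 0 := by
    simp only [det3]
    linear_combination (b 1 * c 2 - b 2 * c 1) * ha + (c 1 * a 2 - c 2 * a 1) * hb
      + (a 1 * b 2 - a 2 * b 1) * hc
  have h1 : det3 a b c * u 1 = 0 := by
    simp only [det3]
    linear_combination (b 2 * c 0 - b 0 * c 2) * ha + (c 2 * a 0 - c 0 * a 2) * hb
      + (a 2 * b 0 - a 0 * b 2) * hc
  have h2 : det3 a b c * u 2 = 0 := by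
    simp only [det3]
    linear_combination (b 0 * c 1 - b 1 * c 0) * ha + (c 0 * a 1 - c 1 * a 0) * hb
      + (a 0 * b 1 - a 1 * b 0) * hc
  by_contra hne
  apply hu
  funext k
  fin_cases k
  · simpa [hne] using h0
  · simpa [hne] using h1
  · simpa [hne] using h2

private theorem ht_mod (M : Marked) (u : E3) (j : ℤ) : M.ht u j = M.ht u (j % M.N) := by
  have h := ht_per_mul M u (j % M.N) (j / M.N)
  rwa [Int.emod_add_ediv_mul] at h

private theorem mod_mem (M : Marked) (j : ℤ) : j % M.N ∈ Finset.Ico (0 : ℤ) M.N := by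
  have hN : (0 : ℤ) < M.N := by exact_mod_cast M.hN
  exact Finset.mem_Ico.2 ⟨Int.emod_nonneg _ hN.ne', Int.emod_lt_of_pos _ hN⟩

private theorem cont_dot (v : E3) : Continuous fun u : E3 => u ⬝ᵥ v := by
  simp only [dotProduct]
  fun_prop

theorem ht_ref (M : Marked) (b : E3) : ∃ s > 0, ∀ u : E3, ‖u - b‖ < s → Ref (M.ht b) (M.ht u) := by
  have h : ∀ᶠ u in nhds b, ∀ p ∈ Finset.Ico (0 : ℤ) M.N ×ˢ Finset.Ico (0 : ℤ) M.N,
      M.ht b p.1 < M.ht b p.2 → M.ht u p.1 < M.ht u p.2 := by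
    rw [Filter.eventually_all_finset]
    intro p _
    by_cases hp : M.ht b p.1 < M.ht b p.2
    · have h1 : ∀ᶠ u in nhds b, M.ht u p.1 < M.ht u p.2 :=
        (cont_dot (M.q p.1)).continuousAt.eventually_lt (cont_dot (M.q p.2)).continuousAt hp
      exact h1.mono fun u hu _ => hu
    · exact Filter.Eventually.of_forall fun u hu => absurd hu hp
  obtain ⟨s, hs, H⟩ := Metric.eventually_nhds_iff.1 h
  refine ⟨s, hs, fun u hu i j hij => ?_⟩
  have H' := H (y := u) (by rwa [dist_eq_norm])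
  rw [ht_mod M b i, ht_mod M b j] at hij
  rw [ht_mod M u i, ht_mod M u j]
  exact H' (i % M.N, j % M.N) (Finset.mem_product.2 ⟨mod_mem M i, mod_mem M j⟩) hij

/-- the functional `u ↦ u ⬝ᵥ v` -/
private noncomputable def dotL (v : E3) : Module.Dual ℝ E3 where
  toFun u := u ⬝ᵥ v
  map_add' _ _ := add_dotProduct _ _ _
  map_smul' _ _ := smul_dotProduct _ _ _

private theorem ev_ne {b v w : E3} (h : v ⬝ᵥ w ≠ 0) :
    ∀ᶠ s in nhdsWithin (0 : ℝ) (Set.Ioi 0), (b + s • v) ⬝ᵥ w ≠ 0 := by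
  by_cases hb : b ⬝ᵥ w = 0
  · filter_upwards [self_mem_nhdsWithin] with s hs
    rw [add_dotProduct, hb, zero_add, smul_dotProduct, smul_eq_mul]
    exact mul_ne_zero (ne_of_gt hs) h
  · have hc : ContinuousAt (fun s : ℝ => (b + s • v) ⬝ᵥ w) 0 := by
      have : Continuous fun s : ℝ => (b + s • v) ⬝ᵥ w := (cont_dot w).comp (by fun_prop)
      exact this.continuousAt
    have := hc.eventually_ne (by simpa using hb) (y := 0)
    exact nhdsWithin_le_nhds this

private theorem ev_near (b v : E3) {ε : ℝ} (hε : 0 < ε) :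
    ∀ᶠ s in nhdsWithin (0 : ℝ) (Set.Ioi 0), ‖(b + s • v) - b‖ < ε := by
  have hc : ContinuousAt (fun s : ℝ => ‖(b + s • v) - b‖) 0 := by
    have : Continuous fun s : ℝ => ‖(b + s • v) - b‖ := by fun_prop
    exact this.continuousAt
  have := hc.eventually_lt continuousAt_const (g := fun _ => ε) (by simpa using hε)
  exact nhdsWithin_le_nhds this

private theorem gen_iff (M : Marked) {u : E3}
    (h : ∀ j ∈ Finset.Ico (0 : ℤ) M.N, u ⬝ᵥ M.d j ≠ 0) : Gen (M.ht u) := by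
  intro j hj
  have h1 := h (j % M.N) (mod_mem M j)
  have h2 := d_per M (j % M.N) (j / M.N)
  rw [Int.emod_add_ediv_mul] at h2
  rw [← h2, ← ht_succ, hj, sub_self] at h1
  exact h1 rfl

private theorem self_dot_pos {v : E3} (hv : v ≠ 0) : 0 < v ⬝ᵥ v := by
  have hnn : 0 ≤ v ⬝ᵥ v := Finset.sum_nonneg fun i _ => mul_self_nonneg _
  rcases lt_or_eq_of_le hnn with h | h
  · exact h
  · exact absurd (dotProduct_self_eq_zero.1 h.symm) hv

theorem gen_dense (M : Marked) {b : E3} (hb : b ∈ M.hemi) : ∀ ε > 0, ∃ x ∈ M.hemi0, ‖x - b‖ < ε := by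
  intro ε hε
  -- a good direction
  obtain ⟨v, -, hv⟩ := Module.Dual.exists_forall_mem_ne_zero_of_forall_exists (K := ℝ) (M := E3)
    (ι := Option (Finset.Ico (0 : ℤ) M.N)) ⊤
    (fun i => match i with
      | none => dotL M.e
      | some j => dotL (M.d j.1))
    (by
      intro i
      cases i with
      | none => exact ⟨M.e, trivial, (self_dot_pos M.e_ne).ne'⟩
      | some j =>
        refine ⟨M.d j.1, trivial, (self_dot_pos ?_).ne'⟩
        have := M.nodir j.1 0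
        rwa [zero_smul] at this)
  have hve : v ⬝ᵥ M.e ≠ 0 := hv none
  have hvd : ∀ j ∈ Finset.Ico (0 : ℤ) M.N, v ⬝ᵥ M.d j ≠ 0 := fun j hj => hv (some ⟨j, hj⟩)
  obtain ⟨w, hwe, hwd⟩ : ∃ w : E3, 0 < w ⬝ᵥ M.e ∧
      ∀ j ∈ Finset.Ico (0 : ℤ) M.N, w ⬝ᵥ M.d j ≠ 0 := by
    rcases lt_or_gt_of_ne hve with h | h
    · refine ⟨-v, by rw [neg_dotProduct]; linarith, fun j hj => ?_⟩
      rw [neg_dotProduct]
      exact neg_ne_zero.2 (hvd j hj)
    · exact ⟨v, h, hvd⟩
  have h1 : ∀ᶠ s in nhdsWithin (0 : ℝ) (Set.Ioi 0),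
      ∀ j ∈ Finset.Ico (0 : ℤ) M.N, (b + s • w) ⬝ᵥ M.d j ≠ 0 := by
    rw [Filter.eventually_all_finset]
    exact fun j hj => ev_ne (hwd j hj)
  obtain ⟨s, hs1, hs2, hs3⟩ := (h1.and ((ev_near b w hε).and self_mem_nhdsWithin)).exists
  have hpos : 0 < (b + s • w) ⬝ᵥ M.e := by
    rw [add_dotProduct, smul_dotProduct, smul_eq_mul]
    have := mul_pos (show (0 : ℝ) < s from hs3) hwe
    linarith [hb.2]
  refine ⟨b + s • w, ⟨?_, hpos.le, gen_iff M hs1⟩, hs2⟩
  intro h0
  rw [h0, zero_dotProduct] at hpos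
  exact lt_irrefl _ hpos

/-- density with one more open condition -/
theorem gen_dense_perp (M : Marked) {b : E3} (hb : b ≠ 0) (hb' : b ⬝ᵥ M.e = 0) :
    ∀ ε > 0, ∃ x, x ≠ 0 ∧ x ⬝ᵥ M.e = 0 ∧ Gen (M.ht x) ∧ ‖x - b‖ < ε := by
  intro ε hε
  obtain ⟨v, hvp, hv⟩ := Module.Dual.exists_forall_mem_ne_zero_of_forall_exists (K := ℝ) (M := E3)
    (ι := Finset.Ico (0 : ℤ) M.N) (LinearMap.ker (dotL M.e))
    (fun j => dotL (M.d j.1))
    (by
      intro j
      have hee := self_dot_pos M.e_ne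
      set c := (M.d j.1 ⬝ᵥ M.e) / (M.e ⬝ᵥ M.e) with hc
      have h1 : (M.d j.1 - c • M.e) ⬝ᵥ M.e = 0 := by
        rw [sub_dotProduct, smul_dotProduct, smul_eq_mul, hc, div_mul_cancel₀ _ hee.ne', sub_self]
      refine ⟨M.d j.1 - c • M.e, h1, ?_⟩
      intro h2
      change (M.d j.1 - c • M.e) ⬝ᵥ M.d j.1 = 0 at h2
      have h3 : (M.d j.1 - c • M.e) ⬝ᵥ (M.d j.1 - c • M.e) = 0 := by
        rw [dotProduct_sub, h2, dotProduct_smul, h1, smul_zero, sub_zero]
      have h4 := dotProduct_self_eq_zero.1 h3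
      exact M.nodir j.1 c (sub_eq_zero.1 h4))
  have hvp' : v ⬝ᵥ M.e = 0 := hvp
  have h1 : ∀ᶠ s in nhdsWithin (0 : ℝ) (Set.Ioi 0),
      ∀ j ∈ Finset.Ico (0 : ℤ) M.N, (b + s • v) ⬝ᵥ M.d j ≠ 0 := by
    rw [Filter.eventually_all_finset]
    exact fun j hj => ev_ne (hv ⟨j, hj⟩)
  have h2 : ∀ᶠ s in nhdsWithin (0 : ℝ) (Set.Ioi 0), b + s • v ≠ 0 := by
    have hc : ContinuousAt (fun s : ℝ => b + s • v) 0 := by
      have : Continuous fun s : ℝ => b + s • v := by fun_prop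
      exact this.continuousAt
    have := hc.eventually_ne (by simpa using hb) (y := 0)
    exact nhdsWithin_le_nhds this
  obtain ⟨s, hs1, hs2, hs3⟩ := (h1.and ((ev_near b v hε).and h2)).exists
  refine ⟨b + s • v, hs3, ?_, gen_iff M hs1, hs2⟩
  rw [add_dotProduct, smul_dotProduct, hb', hvp', smul_zero, add_zero]

theorem ht_nonconst (Δ : M.Dir) {b : E3} (hb : b ≠ 0) : ∃ i j, M.ht b i ≠ M.ht b j := by
  by_contra hcon
  push Not at hcon
  apply Δ.indep
  have key : ∀ j, b ⬝ᵥ M.d j = 0 := fun j => by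
    rw [← ht_succ, hcon (j + 1) j, sub_self]
  exact det_eq_zero hb (key _) (key _) (key _)

theorem gen_neg {u : E3} : Gen (M.ht (-u)) ↔ Gen (M.ht u) := by
  simp only [Gen, ht_neg, ne_eq, neg_inj]

end Pool.Agent.helper81.SBX
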