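import Pool.Agent.helper81.SBX.GDefs

set_option autoImplicit false

/-!
# GMu: the group `μ = {1, t, …, t ^ 5}`

PROOFS. `t * t = t - 1` gives `t ^ 3 = - 1`, `t ^ 6 = 1`; `star t = t ^ 5 = t⁻¹ = 1 - t`; `t` is central, so are its powers.
`t - 1 = t ^ 2`, `star t - 1 = - t = t ^ 4`.
-/

namespace Pool.Agent.helper81.SBX

open Module Matrix

variable {D : Type*} [DivisionRing D] [StarRing D] {t : D}

theorem six_ne_zero (ht : Six D t) : t ≠ 0 := by
  intro h
  have := ht.unit
  rw [h, zero_mul] at this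
  exact zero_ne_one this

theorem six_pow_three (ht : Six D t) : t ^ 3 = -1 := by
  have h := ht.sq
  calc t ^ 3 = t * (t * t) := by rw [pow_succ, pow_two, mul_assoc]
    _ = t * (t - 1) := by rw [h]
    _ = t * t - t := by rw [mul_sub, mul_one]
    _ = -1 := by rw [h]; abel

theorem six_pow_six (ht : Six D t) : t ^ 6 = 1 := by
  have h := six_pow_three ht
  calc t ^ 6 = t ^ 3 * t ^ 3 := by rw [← pow_add]
    _ = 1 := by rw [h]; simp

theorem six_star_inv (ht : Six D t) : star t = t⁻¹ :=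
  eq_inv_of_mul_eq_one_right ht.unit

theorem six_inv (ht : Six D t) : t⁻¹ = 1 - t := by
  refine (eq_inv_of_mul_eq_one_right ?_).symm
  rw [mul_sub, mul_one, ht.sq]
  abel

theorem six_star (ht : Six D t) : star t = 1 - t := by
  rw [six_star_inv ht, six_inv ht]

theorem six_inv_pow (ht : Six D t) : t⁻¹ = t ^ 5 := by
  refine (eq_inv_of_mul_eq_one_right ?_).symm
  rw [← pow_succ']
  exact six_pow_six ht

theorem mu_one : (1 : D) ∈ Six.mu t := ⟨0, (pow_zero t).symm⟩
theorem mu_t : t ∈ Six.mu t := ⟨1, (pow_one t).symm⟩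
theorem mu_star_t (ht : Six D t) : star t ∈ Six.mu t :=
  ⟨5, by rw [six_star_inv ht, six_inv_pow ht]⟩
theorem mu_mul {x y : D} (hx : x ∈ Six.mu t) (hy : y ∈ Six.mu t) : x * y ∈ Six.mu t := by
  obtain ⟨i, rfl⟩ := hx
  obtain ⟨j, rfl⟩ := hy
  exact ⟨i + j, (pow_add t i j).symm⟩
theorem mu_inv (ht : Six D t) {x : D} (hx : x ∈ Six.mu t) : x⁻¹ ∈ Six.mu t := by
  obtain ⟨i, rfl⟩ := hx
  exact ⟨5 * i, by rw [← inv_pow, six_inv_pow ht, ← pow_mul]⟩
theorem mu_star (ht : Six D t) {x : D} (hx : x ∈ Six.mu t) : star x ∈ Six.mu t := by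
  obtain ⟨i, rfl⟩ := hx
  exact ⟨5 * i, by rw [star_pow, six_star_inv ht, six_inv_pow ht, ← pow_mul]⟩
theorem mu_neg (ht : Six D t) {x : D} (hx : x ∈ Six.mu t) : -x ∈ Six.mu t := by
  obtain ⟨i, rfl⟩ := hx
  exact ⟨3 + i, by rw [pow_add, six_pow_three ht, neg_one_mul]⟩
theorem mu_central (ht : Six D t) {x : D} (hx : x ∈ Six.mu t) (y : D) : x * y = y * x := by
  obtain ⟨i, rfl⟩ := hx
  exact ((show Commute t y from ht.central y).pow_left i).eq
theorem mu_ne_zero (ht : Six D t) {x : D} (hx : x ∈ Six.mu t) : x ≠ 0 := by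
  obtain ⟨i, rfl⟩ := hx
  exact pow_ne_zero i (six_ne_zero ht)
theorem mu_star_eq_inv (ht : Six D t) {x : D} (hx : x ∈ Six.mu t) : star x = x⁻¹ := by
  obtain ⟨i, rfl⟩ := hx
  rw [star_pow, six_star_inv ht, inv_pow]
theorem mu_mul_star (ht : Six D t) {x : D} (hx : x ∈ Six.mu t) : x * star x = 1 := by
  rw [mu_star_eq_inv ht hx, mul_inv_cancel₀ (mu_ne_zero ht hx)]
theorem mu_star_mul (ht : Six D t) {x : D} (hx : x ∈ Six.mu t) : star x * x = 1 := by
  rw [mu_star_eq_inv ht hx, inv_mul_cancel₀ (mu_ne_zero ht hx)]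
theorem mu_sgn (ht : Six D t) (M : Marked) (j : ℤ) : M.sgn t j ∈ Six.mu t := by
  unfold Marked.sgn
  split_ifs
  · exact mu_star_t ht
  · exact mu_t
/-- `s - 1 = - star s` for `s = t` and `s = star t` -/
theorem sub_one_eq (ht : Six D t) {s : D} (hs : s = t ∨ s = star t) : s - 1 = - star s := by
  rcases hs with rfl | rfl
  · rw [six_star ht]; abel
  · rw [star_star, six_star ht]; abel
theorem sub_one_mu (ht : Six D t) {s : D} (hs : s = t ∨ s = star t) : s - 1 ∈ Six.mu t := by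
  rw [sub_one_eq ht hs]
  refine mu_neg ht (mu_star ht ?_)
  rcases hs with rfl | rfl
  · exact mu_t
  · exact mu_star_t ht
theorem mu_mem (ht : Six D t) {x : D} (hx : x ∈ Six.mu t) {O : Subring D} (h : t ∈ O) : x ∈ O := by
  obtain ⟨i, rfl⟩ := hx
  exact pow_mem h i

/-- `μ` as a (central, normal) subgroup of the group of units -/
def muS (ht : Six D t) : Subgroup Dˣ where
  carrier := {x | (x : D) ∈ Six.mu t}
  mul_mem' := fun hx hy => by
    have := mu_mul hx hy
    simpa using this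
  one_mem' := by simpa using (mu_one (t := t))
  inv_mem' := fun {x} hx => by
    have := mu_inv ht (x := (x : D)) hx
    simpa using this

theorem muS_normal (ht : Six D t) : (muS ht).Normal := by
  refine ⟨fun n hn g => ?_⟩
  have h : g * n * g⁻¹ = n := by
    have h1 : n * g = g * n := Units.ext (by
      have := mu_central ht hn (g : D)
      simpa using this)
    rw [← h1, mul_inv_cancel_right]
  rw [h]
  exact hn

end Pool.Agent.helper81.SBX
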