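import Pool.Agent.helper81.SBX.GConn

set_option autoImplicit false

/-!
# GPL: the potential lemma

`HS e` is star-shaped about `e`. `φ b` is a local potential at `b`; the hypothesis says that `φ b` and `φ b'` differ near
`b'` by a constant of the group, if `b'` is near `b`. Then there is a global potential `Φ`.

The proof is elementary: a potential on a convex neighbourhood of every segment from `e` to a
point `b` is obtained by glueing finitely many local potentials (Lebesgue number), two such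
potentials agree if they agree near `e`, and so the potentials of all the segments can be glued.
-/

namespace Pool.Agent.helper81.SBX

open Module Matrix

/-- `Φ` is a potential on the set `A` -/
def PotOn {G : Type*} [Group G] (e : E3) (X0 : Set E3) (φ : E3 → E3 → G) (A : Set E3)
    (Φ : E3 → G) : Prop :=
  ∀ b ∈ A, b ∈ HS e → ∃ c : G, ∃ s > 0, ∀ x ∈ X0, ‖x - b‖ < s → Φ x = φ b x * c

section

variable {G : Type*} [Group G] {e : E3} {X0 : Set E3} {φ : E3 → E3 → G}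

theorem PotOn.mono {A B : Set E3} {Φ : E3 → G} (h : PotOn e X0 φ B Φ) (hAB : A ⊆ B) :
    PotOn e X0 φ A Φ := fun b hb hbe => h b (hAB hb) hbe

theorem PotOn.mul_right {A : Set E3} {Φ : E3 → G} (h : PotOn e X0 φ A Φ) (g : G) :
    PotOn e X0 φ A (fun x => Φ x * g) := by
  intro b hb hbe
  obtain ⟨c, s, hs, hc⟩ := h b hb hbe
  refine ⟨c * g, s, hs, fun x hx hxb => ?_⟩
  beta_reduce
  rw [hc x hx hxb, mul_assoc]

/-- two potentials on a connected set differ by a constant -/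
theorem PotOn.unique (h0 : X0 ⊆ HS e)
    (hd : ∀ b ∈ HS e, ∀ ε > 0, ∃ x ∈ X0, ‖x - b‖ < ε) {A : Set E3} (hA : IsOpen A)
    (hc : IsPreconnected (A ∩ HS e)) {Φ Ψ : E3 → G} (hΦ : PotOn e X0 φ A Φ)
    (hΨ : PotOn e X0 φ A Ψ) : ∃ g : G, ∀ x ∈ X0, x ∈ A → Φ x = Ψ x * g := by
  by_cases hne : ∃ z ∈ X0, z ∈ A
  · obtain ⟨z, hz0, hzA⟩ := hne
    refine ⟨(Ψ z)⁻¹ * Φ z, ?_⟩
    have key := locConst (X := A ∩ HS e) (X0 := X0 ∩ A) hc
      (fun x hx => ⟨hx.2, h0 hx.1⟩) ?_ (fun x => (Ψ x)⁻¹ * Φ x = (Ψ z)⁻¹ * Φ z) ?_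
    · intro x hx0 hxA
      have := (key z ⟨hz0, hzA⟩ x ⟨hx0, hxA⟩).1 rfl
      rw [← this, mul_inv_cancel_left]
    · rintro b ⟨hbA, hbe⟩ ε hε
      obtain ⟨δ, hδ, hball⟩ := Metric.isOpen_iff.1 hA b hbA
      obtain ⟨x, hx0, hx⟩ := hd b hbe (min ε δ) (lt_min hε hδ)
      refine ⟨x, ⟨hx0, hball ?_⟩, hx.trans_le (min_le_left _ _)⟩
      rw [Metric.mem_ball, dist_eq_norm]
      exact hx.trans_le (min_le_right _ _)
    · rintro b ⟨hbA, hbe⟩
      obtain ⟨c, s, hs, hcs⟩ := hΦ b hbA hbe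
      obtain ⟨c', s', hs', hcs'⟩ := hΨ b hbA hbe
      have val : ∀ x ∈ X0 ∩ A, ‖x - b‖ < min s s' → (Ψ x)⁻¹ * Φ x = c'⁻¹ * c := by
        rintro x ⟨hx0, -⟩ hx
        rw [hcs x hx0 (hx.trans_le (min_le_left _ _)),
          hcs' x hx0 (hx.trans_le (min_le_right _ _))]
        group
      refine ⟨min s s', lt_min hs hs', fun x hx y hy hxb hyb => ?_⟩
      rw [val x hx hxb, val y hy hyb]
  · exact ⟨1, fun x hx0 hxA => absurd ⟨x, hx0, hxA⟩ hne⟩

open Classical in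
/-- glueing of two potentials -/
theorem PotOn.glue (h0 : X0 ⊆ HS e)
    (hd : ∀ b ∈ HS e, ∀ ε > 0, ∃ x ∈ X0, ‖x - b‖ < ε) {A B : Set E3} (hA : IsOpen A)
    (hB : IsOpen B) (hc : IsPreconnected ((A ∩ B) ∩ HS e)) {Φ Ψ : E3 → G}
    (hΦ : PotOn e X0 φ A Φ) (hΨ : PotOn e X0 φ B Ψ) : ∃ Θ : E3 → G, PotOn e X0 φ (A ∪ B) Θ := by
  obtain ⟨g, hg⟩ := PotOn.unique h0 hd (hA.inter hB) hc (hΦ.mono Set.inter_subset_left)
    (hΨ.mono Set.inter_subset_right)
  refine ⟨fun x => if x ∈ A then Φ x else Ψ x * g, ?_⟩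
  have small : ∀ (C : Set E3), IsOpen C → ∀ b ∈ C, ∃ δ > 0, ∀ x : E3, ‖x - b‖ < δ → x ∈ C := by
    intro C hC b hb
    obtain ⟨δ, hδ, hball⟩ := Metric.isOpen_iff.1 hC b hb
    exact ⟨δ, hδ, fun x hx => hball (by rwa [Metric.mem_ball, dist_eq_norm])⟩
  intro b hb hbe
  rcases hb with hbA | hbB
  · obtain ⟨δ, hδ, hball⟩ := small A hA b hbA
    obtain ⟨c, s, hs, hcs⟩ := hΦ b hbA hbe
    refine ⟨c, min s δ, lt_min hs hδ, fun x hx hxb => ?_⟩
    beta_reduce
    rw [if_pos (hball x (hxb.trans_le (min_le_right _ _)))]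
    exact hcs x hx (hxb.trans_le (min_le_left _ _))
  · obtain ⟨δ, hδ, hball⟩ := small B hB b hbB
    obtain ⟨c, s, hs, hcs⟩ := hΨ b hbB hbe
    refine ⟨c * g, min s δ, lt_min hs hδ, fun x hx hxb => ?_⟩
    have hxB : x ∈ B := hball x (hxb.trans_le (min_le_right _ _))
    have h1 : Ψ x * g = φ b x * (c * g) := by
      rw [hcs x hx (hxb.trans_le (min_le_left _ _)), mul_assoc]
    beta_reduce
    by_cases hxA : x ∈ A
    · rw [if_pos hxA, hg x hx ⟨hxA, hxB⟩, h1]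
    · rw [if_neg hxA, h1]

/-- the part of the half space in a convex open set away from `0` is convex -/
theorem conv_inter {A : Set E3} (hA : Convex ℝ A) (h : (0 : E3) ∉ A) :
    Convex ℝ (A ∩ HS e) := by
  intro x hx y hy a b ha hb hab
  have h1 : a • x + b • y ∈ A := hA hx.1 hy.1 ha hb hab
  refine ⟨h1, ?_, ?_⟩
  · intro h2
    rw [h2] at h1
    exact h h1
  · rw [add_dotProduct, smul_dotProduct, smul_dotProduct, smul_eq_mul, smul_eq_mul]
    exact add_nonneg (mul_nonneg ha hx.2.2) (mul_nonneg hb hy.2.2)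

/-- a potential on a convex neighbourhood of the segment from `e` to `b` -/
theorem segPot (he : e ≠ 0) (h0 : X0 ⊆ HS e)
    (hd : ∀ b ∈ HS e, ∀ ε > 0, ∃ x ∈ X0, ‖x - b‖ < ε)
    (hφ : ∀ b ∈ HS e, ∃ r > 0, ∀ b' ∈ HS e, ‖b' - b‖ < r → ∃ c : G, ∃ s > 0, ∀ x ∈ X0,
      ‖x - b'‖ < s → φ b x = φ b' x * c) {b : E3} (hb : b ∈ HS e) :
    ∃ A : Set E3, IsOpen A ∧ Convex ℝ A ∧ e ∈ A ∧ b ∈ A ∧ ∃ Φ : E3 → G, PotOn e X0 φ A Φ ∧
      ∃ s > 0, ∀ x ∈ X0, ‖x - e‖ < s → Φ x = φ e x := by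
  -- good balls
  have hball : ∀ q : HS e, ∃ r > 0, r ≤ ‖(q : E3)‖ ∧ PotOn e X0 φ (Metric.ball (q : E3) r) (φ q) := by
    rintro ⟨q, hq⟩
    obtain ⟨r, hr, h⟩ := hφ q hq
    refine ⟨min r ‖q‖, lt_min hr (norm_pos_iff.2 hq.1), min_le_right _ _, ?_⟩
    intro b' hb' hb'e
    rw [Metric.mem_ball, dist_eq_norm] at hb'
    exact h b' hb'e (hb'.trans_le (min_le_left _ _))
  choose ρ hρ hρn hρp using hball
  have hseg : segment ℝ e b ⊆ HS e := (hs_starConvex he).segment_subset hb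
  have hcomp : IsCompact (segment ℝ e b) := by
    rw [segment_eq_image_lineMap]
    exact isCompact_Icc.image (AffineMap.lineMap_continuous)
  obtain ⟨δ, hδ, hleb⟩ := lebesgue_number_lemma_of_metric hcomp
    (c := fun q : HS e => Metric.ball (q : E3) (ρ q)) (fun q => Metric.isOpen_ball)
    (fun x hx => Set.mem_iUnion.2 ⟨⟨x, hseg hx⟩, Metric.mem_ball_self (hρ _)⟩)
  -- the facts about small balls
  have hsm : ∀ x ∈ segment ℝ e b, (0 : E3) ∉ Metric.ball x δ ∧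
      ∃ Φ : E3 → G, PotOn e X0 φ (Metric.ball x δ) Φ := by
    intro x hx
    obtain ⟨q, hq⟩ := hleb x hx
    refine ⟨fun h => ?_, φ q, (hρp q).mono hq⟩
    have h1 := hq h
    rw [Metric.mem_ball, dist_eq_norm, zero_sub, norm_neg] at h1
    exact absurd (hρn q) (not_le.2 h1)
  -- subdivision
  obtain ⟨n, hn⟩ := exists_nat_gt (‖b - e‖ / (δ / 2))
  have hn0 : (0 : ℝ) < n := lt_of_le_of_lt (by positivity) hn
  set p : ℕ → E3 := fun k => AffineMap.lineMap e b ((k : ℝ) / n) with hp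
  have hpseg : ∀ k : ℕ, k ≤ n → p k ∈ segment ℝ e b := by
    intro k hk
    rw [segment_eq_image_lineMap]
    refine ⟨(k : ℝ) / n, ⟨by positivity, ?_⟩, rfl⟩
    rw [div_le_one hn0]
    exact_mod_cast hk
  have hpstep : ∀ k : ℕ, dist (p (k + 1)) (p k) < δ / 2 := by
    intro k
    have h1 : dist (p (k + 1)) (p k) = 1 / n * ‖b - e‖ := by
      rw [hp]
      simp only
      rw [dist_lineMap_lineMap, dist_eq_norm e b, norm_sub_rev e b, Real.dist_eq]
      have : ((k + 1 : ℕ) : ℝ) / n - (k : ℝ) / n = 1 / n := by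
        push_cast
        ring
      rw [this, abs_of_pos (by positivity)]
    rw [h1, one_div, inv_mul_lt_iff₀ hn0]
    rw [div_lt_iff₀ (by positivity)] at hn
    linarith
  have hind : ∀ k : ℕ, k ≤ n → ∃ Φ : E3 → G,
      PotOn e X0 φ (Metric.thickening (δ / 2) (segment ℝ e (p k))) Φ := by
    intro k
    induction k with
    | zero =>
      intro _
      have hp0 : p 0 = e := by simp [hp]
      obtain ⟨Φ, hΦ⟩ := (hsm e (left_mem_segment ℝ e b)).2
      refine ⟨Φ, hΦ.mono ?_⟩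
      rw [hp0, segment_same]
      intro x hx
      rw [Metric.thickening_singleton] at hx
      exact Metric.ball_subset_ball (by linarith) hx
    | succ k ih =>
      intro hk
      have hk' : k ≤ n := by omega
      obtain ⟨Φ, hΦ⟩ := ih hk'
      obtain ⟨hz, Ψ, hΨ⟩ := hsm (p k) (hpseg k hk')
      have hcv : IsPreconnected ((Metric.thickening (δ / 2) (segment ℝ e (p k)) ∩
          Metric.ball (p k) δ) ∩ HS e) := by
        apply Convex.isPreconnected
        apply conv_inter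
        · exact ((convex_segment _ _).thickening _).inter (convex_ball _ _)
        · exact fun h => hz h.2
      obtain ⟨Θ, hΘ⟩ := PotOn.glue h0 hd Metric.isOpen_thickening Metric.isOpen_ball hcv hΦ hΨ
      refine ⟨Θ, hΘ.mono ?_⟩
      intro x hx
      rw [Metric.mem_thickening_iff] at hx
      obtain ⟨y, hy, hxy⟩ := hx
      have hk1 : (0 : ℝ) ≤ (k : ℝ) / n := by positivity
      have hk2 : (k : ℝ) / n ≤ ((k + 1 : ℕ) : ℝ) / n := by
        push_cast
        gcongr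
        linarith
      have hf0 : (AffineMap.lineMap e b : ℝ →ᵃ[ℝ] E3) 0 = e := AffineMap.lineMap_apply_zero _ _
      have hsplit : y ∈ segment ℝ e (p k) ∨ y ∈ segment ℝ (p k) (p (k + 1)) := by
        have h1 : segment ℝ e (p (k + 1)) =
            (AffineMap.lineMap e b : ℝ →ᵃ[ℝ] E3) '' Set.Icc 0 (((k + 1 : ℕ) : ℝ) / n) := by
          rw [← segment_eq_Icc (hk1.trans hk2), image_segment, hf0]
        have h2 : segment ℝ e (p k) =
            (AffineMap.lineMap e b : ℝ →ᵃ[ℝ] E3) '' Set.Icc 0 ((k : ℝ) / n) := by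
          rw [← segment_eq_Icc hk1, image_segment, hf0]
        have h3 : segment ℝ (p k) (p (k + 1)) =
            (AffineMap.lineMap e b : ℝ →ᵃ[ℝ] E3) ''
              Set.Icc ((k : ℝ) / n) (((k + 1 : ℕ) : ℝ) / n) := by
          rw [← segment_eq_Icc hk2, image_segment]
        rw [h1] at hy
        obtain ⟨t, ht, rfl⟩ := hy
        rw [h2, h3]
        rcases le_total t ((k : ℝ) / n) with h | h
        · exact Or.inl ⟨t, ⟨ht.1, h⟩, rfl⟩
        · exact Or.inr ⟨t, ⟨h, ht.2⟩, rfl⟩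
      rcases hsplit with h | h
      · left
        exact Metric.mem_thickening_iff.2 ⟨y, h, hxy⟩
      · right
        have h1 : y ∈ Metric.ball (p k) (δ / 2) :=
          (convex_ball (p k) (δ / 2)).segment_subset (Metric.mem_ball_self (by positivity))
            (hpstep k) h
        rw [Metric.mem_ball] at h1 ⊢
        calc dist x (p k) ≤ dist x y + dist y (p k) := dist_triangle _ _ _
          _ < δ := by linarith
  obtain ⟨Φ, hΦ⟩ := hind n le_rfl
  have hpn : p n = b := by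
    simp [hp, div_self hn0.ne']
  rw [hpn] at hΦ
  have heA : e ∈ Metric.thickening (δ / 2) (segment ℝ e b) :=
    Metric.self_subset_thickening (by positivity) _ (left_mem_segment ℝ e b)
  obtain ⟨c, s, hs, hcs⟩ := hΦ e heA (self_mem_hs he)
  refine ⟨_, Metric.isOpen_thickening, (convex_segment _ _).thickening _, heA,
    Metric.self_subset_thickening (by positivity) _ (right_mem_segment ℝ e b),
    _, hΦ.mul_right c⁻¹, s, hs, fun x hx hxe => ?_⟩
  rw [hcs x hx hxe, mul_assoc, mul_inv_cancel, mul_one]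

end

theorem potential {G : Type*} [Group G] {e : E3} (he : e ≠ 0) {X0 : Set E3} (h0 : X0 ⊆ HS e)
    (hd : ∀ b ∈ HS e, ∀ ε > 0, ∃ x ∈ X0, ‖x - b‖ < ε) (φ : E3 → E3 → G)
    (hφ : ∀ b ∈ HS e, ∃ r > 0, ∀ b' ∈ HS e, ‖b' - b‖ < r → ∃ c : G, ∃ s > 0, ∀ x ∈ X0,
      ‖x - b'‖ < s → φ b x = φ b' x * c) :
    ∃ Φ : E3 → G, ∀ b ∈ HS e, ∃ c : G, ∃ s > 0, ∀ x ∈ X0, ‖x - b‖ < s → Φ x = φ b x * c := by
  have hex : ∀ b : HS e, ∃ A : Set E3, IsOpen A ∧ Convex ℝ A ∧ e ∈ A ∧ (b : E3) ∈ A ∧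
      ∃ Φ : E3 → G, PotOn e X0 φ A Φ ∧ ∃ s > 0, ∀ x ∈ X0, ‖x - e‖ < s → Φ x = φ e x :=
    fun b => segPot he h0 hd hφ b.2
  choose A hAo hAc hAe hAb Φ hΦ s hs hΦe using hex
  -- two of these potentials agree on the common part
  have agree : ∀ b b' : HS e, ∀ x ∈ X0, x ∈ A b → x ∈ A b' → Φ b x = Φ b' x := by
    intro b b' x hx hxb hxb'
    have hst : StarConvex ℝ e ((A b ∩ A b') ∩ HS e) := by
      have h1 : StarConvex ℝ e (A b ∩ A b') := ((hAc b).inter (hAc b')) ⟨hAe b, hAe b'⟩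
      exact h1.inter (hs_starConvex he)
    have hpc : IsPreconnected ((A b ∩ A b') ∩ HS e) :=
      (hst.isPathConnected ⟨⟨hAe b, hAe b'⟩, self_mem_hs he⟩).isConnected.isPreconnected
    obtain ⟨g, hg⟩ := PotOn.unique h0 hd ((hAo b).inter (hAo b')) hpc
      ((hΦ b).mono Set.inter_subset_left) ((hΦ b').mono Set.inter_subset_right)
    obtain ⟨δ, hδ, hball⟩ := Metric.isOpen_iff.1 ((hAo b).inter (hAo b')) e ⟨hAe b, hAe b'⟩
    obtain ⟨z, hz0, hz⟩ := hd e (self_mem_hs he) (min δ (min (s b) (s b')))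
      (lt_min hδ (lt_min (hs b) (hs b')))
    have hzA : z ∈ A b ∩ A b' := hball (by
      rw [Metric.mem_ball, dist_eq_norm]
      exact hz.trans_le (min_le_left _ _))
    have h1 := hg z hz0 hzA
    rw [hΦe b z hz0 (hz.trans_le ((min_le_right _ _).trans (min_le_left _ _))),
      hΦe b' z hz0 (hz.trans_le ((min_le_right _ _).trans (min_le_right _ _)))] at h1
    have hg1 : g = 1 := by
      have h2 : φ e z * 1 = φ e z * g := by rw [mul_one]; exact h1
      exact (mul_left_cancel h2).symm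
    have := hg x hx ⟨hxb, hxb'⟩
    rw [this, hg1, mul_one]
  classical
  refine ⟨fun x => if h : x ∈ HS e then Φ ⟨x, h⟩ x else 1, fun b hb => ?_⟩
  obtain ⟨c, r, hr, hc⟩ := hΦ ⟨b, hb⟩ b (hAb ⟨b, hb⟩) hb
  obtain ⟨δ, hδ, hball⟩ := Metric.isOpen_iff.1 (hAo ⟨b, hb⟩) b (hAb ⟨b, hb⟩)
  refine ⟨c, min r δ, lt_min hr hδ, fun x hx hxb => ?_⟩
  beta_reduce
  rw [dif_pos (h0 hx)]
  have hxA : x ∈ A ⟨b, hb⟩ := hball (by
    rw [Metric.mem_ball, dist_eq_norm]
    exact hxb.trans_le (min_le_right _ _))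
  rw [agree ⟨x, h0 hx⟩ ⟨b, hb⟩ x hx (hAb ⟨x, h0 hx⟩) hxA]
  exact hc x hx (hxb.trans_le (min_le_left _ _))

end Pool.Agent.helper81.SBX
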