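import Pool.Agent.helper81.SBX.GCmp
import Pool.Agent.helper81.SBX.GPL

set_option autoImplicit false

/-!
# GPot: existence of the potential (G6, G7)

PROOF of `exists_pot`. `M.hemi = HS M.e`, `M.hemi0 ⊆ M.hemi`, dense by `gen_dense`. Group `G = Dˣ ⧸ muS ht` (`muS_normal`). Choose for every
`b ∈ M.hemi` of type I an upper set `S b` and `ζ b ∈ Sol (S b)` not in `res (S b) V0`, and for every `x ∈ M.hemi0` with `Ref (ht b) (ht x)` a lift
`L b x ∈ T (ht x)`, `res (S b) (L b x) = ζ b` (`typ1_main` (4)). `mis (zs x) (L b x) ≠ 0` (otherwise `L b x ∈ V0` by `mem_V0_of_mis`, `zs x` is a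
top cup by `zs_spec`). Local potential: `φ b x = class of (mis (zs x) (L b x))⁻¹` for `b` of type I (and `x` as above, else `1`), `φ b x = 1` for `b` of type II.
Hypothesis of `potential` (`GPL`): let `b ∈ HS`, `r` from `ht_ref b`; let `b' ∈ HS`, `‖b' - b‖ < r`, so `Ref (ht b) (ht b')`; `s` from `ht_ref b'`, small enough
that `Ref (ht b) (ht x)` too (`ref_trans`). For `x ∈ M.hemi0` with `‖x - b'‖ < s`:
* `b` type I: then `b'` is of type I (with the same `S b`, `ζ b`: `upper_ref`). `compare_typ1` at `b'` for (`S b`, `ζ b`), (`S b'`, `ζ b'`) gives a unit `a`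
  with `mis (L b' x) = a * mis (L b x)` (`mis` at `zs x`), so `(mis (L b x))⁻¹ = (mis (L b' x))⁻¹ * a`: `φ b x = φ b' x * a`.
* both type II: `c = 1`.
* `b` type II, `b'` type I: by `compare_window`, `mis (zs y) (L b' y) = ± mis (zs x) (L b' x)` for all `x, y` near `b'`, so `φ b' x` does not depend on `x`
  (the signs are in `μ`): `φ b x = 1 = φ b' x * c`.
`potential` gives `Φ' : E3 → G`. `x1` is of type II (`x1_typ2`), so `Φ' = c1` near `x1`; put `Φ'' x = Φ' x * c1⁻¹` and choose representatives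
`Φ x : Dˣ` (`Quotient.out`). Near `- x1`: `Φ'' = c2`, `U` := representative of `c2`. Fields of `Pot`: `typ2` from `potential` (`φ b = 1`), `near1`, `near2` as
said; `typ1` for arbitrary (`S`, `ζ`): `b` is of type I, compare (`S`, `ζ`) with (`S b`, `ζ b`) by `compare_typ1`: `mis ξ = a * mis (L b x)`, and
`Φ x = m * (mis (L b x))⁻¹ * c` modulo `μ`, so `mis ξ * Φ x = m * (a * c)` (elements of `μ` are central). If a coset relation `class u = class v * class w` holds then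
`(u : D) = m * v * w` with `m ∈ μ`.
-/

namespace Pool.Agent.helper81.SBX

open Module Matrix

variable {D V : Type*} [DivisionRing D] [StarRing D] [AddCommGroup V] [Module D V]
variable {M : Marked} {Hm : Herm D V} {t : D} (C : Col M Hm t) (ht : Six D t) (Δ : M.Dir)

/-- The potential `Φ` together with its transport `U` from `x1` to `- x1`. -/
structure Pot (Φ : E3 → Dˣ) (U : Dˣ) : Prop where
  typ2 : ∀ b ∈ M.hemi, ¬ (C.rs ht).Typ1 (M.ht b) →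
    ∃ c : Dˣ, ∃ s > 0, ∀ x ∈ M.hemi0, ‖x - b‖ < s → ∃ m ∈ Six.mu t, (Φ x : D) = m * c
  typ1 : ∀ b ∈ M.hemi, ∀ (S : Set ℤ) (ζ : ℤ → D), Upper (M.ht b) S → ζ ∈ (C.rs ht).Sol S →
    (∀ v ∈ (C.rs ht).V0, res S v ≠ ζ) →
    ∃ c : Dˣ, ∃ s > 0, ∀ x ∈ M.hemi0, ‖x - b‖ < s → ∀ ξ ∈ (C.rs ht).T (M.ht x), res S ξ = ζ →
      ∃ m ∈ Six.mu t, mis (C.zs ht Δ x) ξ * Φ x = m * c
  near1 : ∃ s > 0, ∀ x ∈ M.hemi0, ‖x - Δ.x1‖ < s → (Φ x : D) ∈ Six.mu t
  near2 : ∃ s > 0, ∀ x ∈ M.hemi0, ‖x + Δ.x1‖ < s → ∃ m ∈ Six.mu t, (Φ x : D) = m * U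

/-- equality of classes modulo `μ` -/
theorem mk_eq_mu (ht : Six D t) {u w : Dˣ}
    (h : (QuotientGroup.mk u : Dˣ ⧸ muS ht) = QuotientGroup.mk w) :
    ∃ m ∈ Six.mu t, (u : D) = m * w := by
  rw [QuotientGroup.eq] at h
  have h' : ((u⁻¹ * w : Dˣ) : D) ∈ Six.mu t := h
  refine ⟨(((u⁻¹ * w : Dˣ)⁻¹ : Dˣ) : D), ?_, ?_⟩
  · rw [Units.val_inv_eq_inv_val]
    exact mu_inv ht h'
  · have hc := mu_central ht (mu_inv ht h') (w : D)
    rw [← Units.val_inv_eq_inv_val] at hc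
    rw [hc, ← Units.val_mul]
    congr 1
    group

/-- units differing by an element of `μ` have the same class -/
theorem mk_eq_of_mu (ht : Six D t) {u w : Dˣ} {m : D} (hm : m ∈ Six.mu t) (h : (u : D) = m * w) :
    (QuotientGroup.mk u : Dˣ ⧸ muS ht) = QuotientGroup.mk w := by
  rw [QuotientGroup.eq]
  change ((u⁻¹ * w : Dˣ) : D) ∈ Six.mu t
  have hm0 := mu_ne_zero ht hm
  have e : ((u⁻¹ * w : Dˣ) : D) = m⁻¹ := by
    rw [Units.val_mul, Units.val_inv_eq_inv_val, h, _root_.mul_inv_rev, mul_assoc,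
      mu_central ht (mu_inv ht hm), ← mul_assoc, inv_mul_cancel₀ (Units.ne_zero w), one_mul]
  rw [e]
  exact mu_inv ht hm

/-- the mismatch of a lift of `ζ` at the chosen top cup is not zero -/
theorem mis_lift_ne (hV : finrank D V = 3)
    (h4 : ∀ u ∈ M.hemi0, (C.rs ht).numCap (M.ht u) ≤ 4) {b : E3} (hb : b ∈ M.hemi)
    {S : Set ℤ} (hS : Upper (M.ht b) S) {ζ : ℤ → D}
    (hζ : ζ ∈ (C.rs ht).Sol S) (hne : ∀ v ∈ (C.rs ht).V0, res S v ≠ ζ) {x : E3}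
    (hx : x ∈ M.hemi0) (hbx : Ref (M.ht b) (M.ht x)) {ξ : ℤ → D}
    (hξ : ξ ∈ (C.rs ht).T (M.ht x)) (hres : res S ξ = ζ) : mis (C.zs ht Δ x) ξ ≠ 0 := by
  intro h0
  have hg : Good3 (C.rs ht) (M.ht x) := by
    first
      | exact good3 C ht Δ hV h4 hx
      | exact good3 C ht hV h4 hx
  obtain ⟨h1, -⟩ := typ1_main (ht_adm C ht hb) hg hbx hS hζ hne
  obtain ⟨-, -, htop⟩ := zs_spec C ht Δ hV h4 hx h1
  exact hne ξ (mem_V0_of_mis hg htop.1 hξ h0) hres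

theorem exists_pot (hV : finrank D V = 3)
    (h4 : ∀ u ∈ M.hemi0, (C.rs ht).numCap (M.ht u) ≤ 4) :
    ∃ (Φ : E3 → Dˣ) (U : Dˣ), Pot C ht Δ Φ U := by
  classical
  have hnorm : (muS ht).Normal := muS_normal ht
  have hsel1 : ∀ b : E3, ∃ S : Set ℤ, ∃ ζ : ℤ → D, (C.rs ht).Typ1 (M.ht b) →
      (Upper (M.ht b) S ∧ ζ ∈ (C.rs ht).Sol S ∧ ∀ v ∈ (C.rs ht).V0, res S v ≠ ζ) := by
    intro b
    by_cases h : (C.rs ht).Typ1 (M.ht b)
    · obtain ⟨S, hS, ζ, hζ, hne⟩ := h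
      exact ⟨S, ζ, fun _ => ⟨hS, hζ, hne⟩⟩
    · exact ⟨∅, 0, fun h' => absurd h' h⟩
  choose S ζ hSζ using hsel1
  have hsel2 : ∀ b x : E3, ∃ ξ : ℤ → D, ∃ u : Dˣ,
      (b ∈ M.hemi ∧ (C.rs ht).Typ1 (M.ht b) ∧ x ∈ M.hemi0 ∧ Ref (M.ht b) (M.ht x)) →
      (ξ ∈ (C.rs ht).T (M.ht x) ∧ res (S b) ξ = ζ b ∧ (u : D) = mis (C.zs ht Δ x) ξ) := by
    intro b x
    by_cases h : b ∈ M.hemi ∧ (C.rs ht).Typ1 (M.ht b) ∧ x ∈ M.hemi0 ∧ Ref (M.ht b) (M.ht x)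
    · obtain ⟨hb, h1, hx, hbx⟩ := h
      obtain ⟨hS, hζ, hne⟩ := hSζ b h1
      have hg : Good3 (C.rs ht) (M.ht x) := by
        first
          | exact good3 C ht Δ hV h4 hx
          | exact good3 C ht hV h4 hx
      obtain ⟨-, -, -, hl⟩ := typ1_main (ht_adm C ht hb) hg hbx hS hζ hne
      obtain ⟨ξ, hξ, hres, -⟩ := hl (ζ b) hζ
      exact ⟨ξ, Units.mk0 _ (mis_lift_ne C ht Δ hV h4 hb hS hζ hne hx hbx hξ hres),
        fun _ => ⟨hξ, hres, rfl⟩⟩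
    · exact ⟨0, 1, fun h' => absurd h' h⟩
  choose L w hLw using hsel2
  let φ : E3 → E3 → Dˣ ⧸ muS ht := fun b x =>
    if (C.rs ht).Typ1 (M.ht b) then (QuotientGroup.mk (w b x)⁻¹ : Dˣ ⧸ muS ht) else 1
  have hφ1 : ∀ b x, (C.rs ht).Typ1 (M.ht b) →
      φ b x = (QuotientGroup.mk (w b x)⁻¹ : Dˣ ⧸ muS ht) := fun b x h => if_pos h
  have hφ2 : ∀ b x, ¬ (C.rs ht).Typ1 (M.ht b) → φ b x = 1 := fun b x h => if_neg h
  have hpot := potential (G := Dˣ ⧸ muS ht) (e := M.e) M.e_ne (X0 := M.hemi0)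
    (fun x hx => ⟨hx.1, hx.2.1⟩) (fun b hb ε hε => gen_dense M (b := b) hb ε hε) φ (by
      intro b hb
      obtain ⟨r, hr, hrR⟩ := ht_ref M b
      refine ⟨r, hr, fun b' hb' hbb' => ?_⟩
      have hR1 := hrR b' hbb'
      obtain ⟨s, hs, hsR⟩ := ht_ref M b'
      by_cases h1 : (C.rs ht).Typ1 (M.ht b)
      · obtain ⟨hS, hζ, hne⟩ := hSζ b h1
        have h1' : (C.rs ht).Typ1 (M.ht b') := ⟨S b, upper_ref hR1 hS, ζ b, hζ, hne⟩
        obtain ⟨hS', hζ', hne'⟩ := hSζ b' h1'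
        obtain ⟨a, ha⟩ := compare_typ1 C ht Δ hV h4 (b := b') hb' (upper_ref hR1 hS) hS' hζ hne
          hζ' hne'
        refine ⟨QuotientGroup.mk a, s, hs, fun x hx hxb => ?_⟩
        have hR2 := hsR x hxb
        obtain ⟨k1, k2, k3⟩ := hLw b x ⟨hb, h1, hx, ref_trans hR1 hR2⟩
        obtain ⟨l1, l2, l3⟩ := hLw b' x ⟨hb', h1', hx, hR2⟩
        have e := ha x hx hR2 _ k1 _ l1 k2 l2
        rw [← k3, ← l3] at e
        have e' : w b' x = a * w b x := by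
          apply Units.ext
          rw [Units.val_mul]
          exact e
        rw [hφ1 b x h1, hφ1 b' x h1', e', ← QuotientGroup.mk_mul]
        congr 1
        group
      · by_cases h1' : (C.rs ht).Typ1 (M.ht b')
        · obtain ⟨hS', hζ', hne'⟩ := hSζ b' h1'
          obtain ⟨x0, hx0, hx0b⟩ := gen_dense M (b := b') hb' s hs
          have hR0 := hsR x0 hx0b
          obtain ⟨k1, k2, k3⟩ := hLw b' x0 ⟨hb', h1', hx0, hR0⟩
          refine ⟨(φ b' x0)⁻¹, s, hs, fun x hx hxb => ?_⟩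
          have hR2 := hsR x hxb
          obtain ⟨l1, l2, l3⟩ := hLw b' x ⟨hb', h1', hx, hR2⟩
          have hcw := compare_window C ht Δ hV h4 hb h1 hb' hR1 hS' hζ' hne' hx0 hx hR0 hR2
          have e : φ b' x = φ b' x0 := by
            rw [hφ1 b' x h1', hφ1 b' x0 h1']
            have hw : (QuotientGroup.mk (w b' x) : Dˣ ⧸ muS ht) = QuotientGroup.mk (w b' x0) := by
              rcases hcw with h | h
              · have e := h _ k1 _ l1 (k2.trans l2.symm)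
                exact mk_eq_of_mu ht mu_one (by rw [one_mul, k3, l3, e])
              · have e := h _ k1 _ l1 (k2.trans l2.symm)
                exact mk_eq_of_mu ht (mu_neg ht mu_one) (by rw [neg_one_mul, k3, l3, e])
            rw [QuotientGroup.mk_inv, QuotientGroup.mk_inv, hw]
          rw [hφ2 b x h1, e, mul_inv_cancel]
        · refine ⟨1, s, hs, fun x hx hxb => ?_⟩
          rw [hφ2 b x h1, hφ2 b' x h1', mul_one])
  obtain ⟨Φ', hΦ'⟩ := hpot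
  obtain ⟨hx1ne, hx1e, -, -, -⟩ := x1_spec Δ
  have hx1 : Δ.x1 ∈ M.hemi := ⟨hx1ne, hx1e.ge⟩
  have hx2 : - Δ.x1 ∈ M.hemi := ⟨neg_ne_zero.2 hx1ne, by rw [neg_dotProduct, hx1e, neg_zero]⟩
  obtain ⟨ht1, ht2⟩ := x1_typ2 C ht Δ hV h4
  obtain ⟨c1, s1, hs1, hc1⟩ := hΦ' Δ.x1 hx1
  obtain ⟨c2, s2, hs2, hc2⟩ := hΦ' (-Δ.x1) hx2
  have hout : ∀ q : Dˣ ⧸ muS ht, (QuotientGroup.mk (Quotient.out q) : Dˣ ⧸ muS ht) = q :=
    fun q => QuotientGroup.out_eq' q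
  refine ⟨fun x => Quotient.out (Φ' x * c1⁻¹), Quotient.out (c2 * c1⁻¹), ?_, ?_, ?_, ?_⟩
  · -- typ2
    intro b hb hb2
    obtain ⟨c, s, hs, hc⟩ := hΦ' b hb
    refine ⟨Quotient.out (c * c1⁻¹), s, hs, fun x hx hxb => ?_⟩
    apply mk_eq_mu ht
    rw [hout, hout, hc x hx hxb, hφ2 b x hb2, one_mul]
  · -- typ1
    intro b hb S' ζ' hS' hζ' hne'
    have h1 : (C.rs ht).Typ1 (M.ht b) := ⟨S', hS', ζ', hζ', hne'⟩
    obtain ⟨hS, hζ, hne⟩ := hSζ b h1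
    obtain ⟨a, ha⟩ := compare_typ1 C ht Δ hV h4 hb hS hS' hζ hne hζ' hne'
    obtain ⟨c, s, hs, hc⟩ := hΦ' b hb
    obtain ⟨r, hr, hrR⟩ := ht_ref M b
    refine ⟨a * Quotient.out (c * c1⁻¹), min s r, lt_min hs hr, fun x hx hxb ξ hξ hres => ?_⟩
    have hR := hrR x (lt_of_lt_of_le hxb (min_le_right _ _))
    obtain ⟨k1, k2, k3⟩ := hLw b x ⟨hb, h1, hx, hR⟩
    have e := ha x hx hR _ k1 _ hξ k2 hres
    have hcl : (QuotientGroup.mk (Quotient.out (Φ' x * c1⁻¹)) : Dˣ ⧸ muS ht) =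
        QuotientGroup.mk ((w b x)⁻¹ * Quotient.out (c * c1⁻¹)) := by
      rw [hout, QuotientGroup.mk_mul, hout, hc x hx (lt_of_lt_of_le hxb (min_le_left _ _)),
        hφ1 b x h1, mul_assoc]
    obtain ⟨m, hm, hmeq⟩ := mk_eq_mu ht hcl
    refine ⟨m, hm, ?_⟩
    rw [hmeq, e, ← k3, Units.val_mul, Units.val_mul, ← mul_assoc, ← mu_central ht hm, mul_assoc,
      mul_assoc, ← mul_assoc (w b x : D), Units.mul_inv, one_mul]
  · -- near1
    refine ⟨s1, hs1, fun x hx hxb => ?_⟩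
    have hcl : (QuotientGroup.mk (Quotient.out (Φ' x * c1⁻¹)) : Dˣ ⧸ muS ht) =
        QuotientGroup.mk 1 := by
      rw [hout, hc1 x hx hxb, hφ2 _ x ht1, one_mul, mul_inv_cancel, QuotientGroup.mk_one]
    obtain ⟨m, hm, hmeq⟩ := mk_eq_mu ht hcl
    rw [Units.val_one, mul_one] at hmeq
    rw [hmeq]
    exact hm
  · -- near2
    refine ⟨s2, hs2, fun x hx hxb => ?_⟩
    apply mk_eq_mu ht
    rw [hout, hout, hc2 x hx (by rwa [sub_neg_eq_add]), hφ2 _ x ht2, one_mul]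

end Pool.Agent.helper81.SBX
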