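import Pool.Agent.helper81.SBX.RC6
import Pool.Agent.helper81.SBX.GAdm
import Pool.Agent.helper81.SBX.GDir
import Pool.Agent.helper81.SBX.GMu

set_option autoImplicit false

/-!
# GSix: consequences of C6 at the special points; the chosen top cup

PROOFS.
* `exists_near_x1`: take `x1 + δ • w` with `w = e - λ B`, large `λ`: choose `w` with `w ⬝ B < 0` and `w ⬝ e > 0` (possible because `B` and `e` are
  not parallel, `nodir`), then a generic point near it (`gen_dense`).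
* `finrank_V0_ge`: `V0_ge` (an injective linear map `V → V0`), and `V0 ≤ T H` is finite-dimensional for a generic admissible `H`
  (`finite_T`; a generic direction exists).
* `dim_V0`: `c6` with `H0 = ht x1`, `H = ht u` for `u` of `exists_near_x1`, near enough for `ht_ref` and `pair_x1`.
* `x1_typ2`: `c6` again; for `- x1` use `pair_x2` and generic points near `- x1` with `u ⬝ B > 0`, `u ⬝ e ≥ 0`.
* `zs_spec`: `exists_topCup` with `k = k0`, and the definition of `Col.zs`.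
* `hemi_neg`: `u ⬝ e = 0`.
-/

namespace Pool.Agent.helper81.SBX

open Module Matrix

variable {D V : Type*} [DivisionRing D] [StarRing D] [AddCommGroup V] [Module D V]
variable {M : Marked} {Hm : Herm D V} {t : D} (C : Col M Hm t) (ht : Six D t) (Δ : M.Dir)

/-- a point of `e^⊥` near `x` on a prescribed side of the plane `B^⊥` -/
theorem GSix_near {x B : E3} (hB : ∀ c : ℝ, B ≠ c • M.e) (hx : x ⬝ᵥ M.e = 0)
    (hxB : x ⬝ᵥ B = 0) (σ : ℝ) (hσ : σ ≠ 0) (s : ℝ) (hs : 0 < s) :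
    ∃ b : E3, b ≠ 0 ∧ b ⬝ᵥ M.e = 0 ∧ ‖b - x‖ < s ∧ 0 < σ * (b ⬝ᵥ B) := by
  have he : 0 < M.e ⬝ᵥ M.e := by
    have h0 : M.e ⬝ᵥ M.e ≠ 0 := fun h => M.e_ne (dotProduct_self_eq_zero.1 h)
    have h1 : 0 ≤ M.e ⬝ᵥ M.e := by
      rw [dot3]
      nlinarith [mul_self_nonneg (M.e 0), mul_self_nonneg (M.e 1), mul_self_nonneg (M.e 2)]
    exact lt_of_le_of_ne h1 (Ne.symm h0)
  set w : E3 := (M.e ⬝ᵥ M.e) • B - (M.e ⬝ᵥ B) • M.e with hw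
  have hwe : w ⬝ᵥ M.e = 0 := by
    rw [hw, sub_dotProduct, smul_dotProduct, smul_dotProduct, smul_eq_mul, smul_eq_mul,
      dotProduct_comm B M.e]
    ring
  have hw0 : w ≠ 0 := by
    intro h
    apply hB ((M.e ⬝ᵥ M.e)⁻¹ * (M.e ⬝ᵥ B))
    have h2 : (M.e ⬝ᵥ M.e) • B = (M.e ⬝ᵥ B) • M.e := sub_eq_zero.1 (hw ▸ h)
    rw [mul_smul, ← h2, smul_smul, inv_mul_cancel₀ he.ne', one_smul]
  have hww : 0 < w ⬝ᵥ w := by
    have h0 : w ⬝ᵥ w ≠ 0 := fun h => hw0 (dotProduct_self_eq_zero.1 h)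
    have h1 : 0 ≤ w ⬝ᵥ w := by
      rw [dot3]
      nlinarith [mul_self_nonneg (w 0), mul_self_nonneg (w 1), mul_self_nonneg (w 2)]
    exact lt_of_le_of_ne h1 (Ne.symm h0)
  have hwB : 0 < w ⬝ᵥ B := by
    have h1 : w ⬝ᵥ w = (M.e ⬝ᵥ M.e) * (w ⬝ᵥ B) := by
      conv_lhs => rw [hw, dotProduct_sub, dotProduct_smul, dotProduct_smul, ← hw, hwe]
      simp
    rw [h1] at hww
    exact (mul_pos_iff_of_pos_left he).1 hww
  set δ : ℝ := s / (2 * (|σ| * ‖w‖ + 1)) with hδ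
  have hp : 0 < |σ| * ‖w‖ + 1 := by positivity
  have hδ0 : 0 < δ := by positivity
  have hpos : 0 < σ * ((x + (δ * σ) • w) ⬝ᵥ B) := by
    rw [add_dotProduct, smul_dotProduct, hxB, zero_add, smul_eq_mul,
      show σ * (δ * σ * (w ⬝ᵥ B)) = δ * (σ * σ) * (w ⬝ᵥ B) by ring]
    have : 0 < σ * σ := mul_self_pos.2 hσ
    positivity
  refine ⟨x + (δ * σ) • w, ?_, ?_, ?_, hpos⟩
  · intro h
    rw [h, zero_dotProduct, mul_zero] at hpos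
    exact lt_irrefl _ hpos
  · rw [add_dotProduct, smul_dotProduct, hx, hwe]
    simp
  · rw [add_sub_cancel_left, norm_smul, norm_mul, Real.norm_eq_abs, Real.norm_eq_abs,
      abs_of_pos hδ0, mul_assoc, hδ, div_mul_eq_mul_div, div_lt_iff₀ (by positivity)]
    have h1 : 0 ≤ |σ| * ‖w‖ := by positivity
    nlinarith

theorem GSix_gen {x B : E3} (hB : ∀ c : ℝ, B ≠ c • M.e) (hx : x ⬝ᵥ M.e = 0)
    (hxB : x ⬝ᵥ B = 0) (σ : ℝ) (hσ : σ ≠ 0) (s : ℝ) (hs : 0 < s) :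
    (∃ u ∈ M.hemi0, ‖u - x‖ < s ∧ 0 < σ * (u ⬝ᵥ B)) ∧
    (∃ u : E3, u ≠ 0 ∧ u ⬝ᵥ M.e = 0 ∧ Gen (M.ht u) ∧ ‖u - x‖ < s ∧ 0 < σ * (u ⬝ᵥ B)) := by
  obtain ⟨b, hb0, hbe, hbs, hbB⟩ := GSix_near hB hx hxB σ hσ (s / 2) (by positivity)
  have hpos : 0 < b ⬝ᵥ (σ • B) := by rw [dotProduct_smul, smul_eq_mul]; exact hbB
  obtain ⟨r, hr, h⟩ := dot_near _ _ _ hpos hpos
  have key : ∀ u : E3, ‖u - b‖ < min r (s / 2) → ‖u - x‖ < s ∧ 0 < σ * (u ⬝ᵥ B) := by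
    intro u hu
    refine ⟨?_, ?_⟩
    · have h1 : ‖u - b‖ < s / 2 := lt_of_lt_of_le hu (min_le_right _ _)
      have h2 : u - x = (u - b) + (b - x) := by abel
      rw [h2]
      have := norm_add_le (u - b) (b - x)
      linarith
    · have := (h u (lt_of_lt_of_le hu (min_le_left _ _))).1
      rwa [dotProduct_smul, smul_eq_mul] at this
  have hm : 0 < min r (s / 2) := lt_min hr (by positivity)
  refine ⟨?_, ?_⟩
  · obtain ⟨u, hu, hub⟩ := gen_dense M (b := b) ⟨hb0, hbe.ge⟩ _ hm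
    exact ⟨u, hu, key u hub⟩
  · obtain ⟨u, hu, hue, huG, hub⟩ := gen_dense_perp M hb0 hbe _ hm
    exact ⟨u, hu, hue, huG, key u hub⟩

theorem exists_near_x1 (s : ℝ) (hs : 0 < s) :
    (∃ u ∈ M.hemi0, ‖u - Δ.x1‖ < s ∧ u ⬝ᵥ M.d Δ.k1 < 0) ∧
    (∃ u ∈ M.hemi0, ‖u + Δ.x1‖ < s ∧ 0 < u ⬝ᵥ M.d Δ.k1) := by
  obtain ⟨-, he, hB, -, -⟩ := x1_spec Δ
  refine ⟨?_, ?_⟩
  · obtain ⟨u, hu, h1, h2⟩ := (GSix_gen (M.nodir Δ.k1) he hB (-1) (by norm_num) s hs).1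
    exact ⟨u, hu, h1, by simp only [Marked.d]; linarith⟩
  · obtain ⟨u, hu, h1, h2⟩ := (GSix_gen (x := -Δ.x1) (M.nodir Δ.k1) (by rw [neg_dotProduct, he,
      neg_zero]) (by rw [neg_dotProduct]; exact neg_eq_zero.2 hB) 1 one_ne_zero s hs).1
    exact ⟨u, hu, by rwa [sub_neg_eq_add] at h1, by simp only [Marked.d]; linarith⟩

/-- the same inside `e^⊥` -/
theorem exists_near_x1_perp (s : ℝ) (hs : 0 < s) :
    (∃ u : E3, u ≠ 0 ∧ u ⬝ᵥ M.e = 0 ∧ Gen (M.ht u) ∧ ‖u - Δ.x1‖ < s ∧ u ⬝ᵥ M.d Δ.k1 < 0) ∧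
    (∃ u : E3, u ≠ 0 ∧ u ⬝ᵥ M.e = 0 ∧ Gen (M.ht u) ∧ ‖u + Δ.x1‖ < s ∧ u ⬝ᵥ M.d Δ.k1 < 0) := by
  obtain ⟨-, he, hB, -, -⟩ := x1_spec Δ
  refine ⟨?_, ?_⟩
  · obtain ⟨u, hu0, hue, hu, h1, h2⟩ :=
      (GSix_gen (M.nodir Δ.k1) he hB (-1) (by norm_num) s hs).2
    exact ⟨u, hu0, hue, hu, h1, by simp only [Marked.d]; linarith⟩
  · obtain ⟨u, hu0, hue, hu, h1, h2⟩ := (GSix_gen (x := -Δ.x1) (M.nodir Δ.k1)
      (by rw [neg_dotProduct, he, neg_zero]) (by rw [neg_dotProduct]; exact neg_eq_zero.2 hB)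
      (-1) (by norm_num) s hs).2
    exact ⟨u, hu0, hue, hu, by rwa [sub_neg_eq_add] at h1, by simp only [Marked.d]; linarith⟩

theorem finrank_V0_ge (hV : finrank D V = 3) : 3 ≤ finrank D (C.rs ht).V0 := by
  have he : M.e ∈ M.hemi := by
    refine ⟨M.e_ne, ?_⟩
    rw [dot3]
    nlinarith [mul_self_nonneg (M.e 0), mul_self_nonneg (M.e 1), mul_self_nonneg (M.e 2)]
  obtain ⟨u, hu, -⟩ := gen_dense M he 1 one_pos
  have hA : (C.rs ht).Adm (M.ht u) := ht_adm C ht ⟨hu.1, hu.2.1⟩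
  have := finite_T hA hu.2.2
  have hle := V0_le_T (C.rs ht) (M.ht u)
  have hfin : FiniteDimensional D (C.rs ht).V0 :=
    Submodule.finiteDimensional_of_le hle
  obtain ⟨f, hf, hm⟩ := V0_ge C ht
  have h2 := LinearMap.finrank_le_finrank_of_injective
    (f := LinearMap.codRestrict (C.rs ht).V0 f hm) (fun a b hab => hf (by
      have := congrArg Subtype.val hab
      simpa using this))
  rw [hV] at h2
  exact h2

theorem GSix_x1 (hV : finrank D V = 3)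
    (h4 : ∀ u ∈ M.hemi0, (C.rs ht).numCap (M.ht u) ≤ 4) :
    finrank D (C.rs ht).V0 = 3 ∧ ¬ (C.rs ht).Typ1 (M.ht Δ.x1) := by
  obtain ⟨s, hs, hR⟩ := ht_ref M Δ.x1
  obtain ⟨r, hr, hp⟩ := pair_x1 Δ
  obtain ⟨u, hu, h1, h2⟩ := (exists_near_x1 Δ (min s r) (lt_min hs hr)).1
  obtain ⟨hx, he, -⟩ := x1_spec Δ
  have h := c6 (ht_adm C ht ⟨hx, he.ge⟩) (ht_nonconst Δ hx) (ht_adm C ht ⟨hu.1, hu.2.1⟩) hu.2.2
    (hR u (lt_of_lt_of_le h1 (min_le_left _ _))) (h4 u hu) (finrank_V0_ge C ht hV)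
    (hp u (lt_of_lt_of_le h1 (min_le_right _ _)) h2)
  exact ⟨h.1, h.2.2.1⟩

theorem dim_V0 (Δ : M.Dir) (hV : finrank D V = 3)
    (h4 : ∀ u ∈ M.hemi0, (C.rs ht).numCap (M.ht u) ≤ 4) : finrank D (C.rs ht).V0 = 3 :=
  (GSix_x1 C ht Δ hV h4).1

theorem good3 (Δ : M.Dir) (hV : finrank D V = 3)
    (h4 : ∀ u ∈ M.hemi0, (C.rs ht).numCap (M.ht u) ≤ 4) {u : E3} (hu : u ∈ M.hemi0) :
    Good3 (C.rs ht) (M.ht u) where
  adm := ht_adm C ht ⟨hu.1, hu.2.1⟩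
  gen := hu.2.2
  cap := h4 u hu
  dim := dim_V0 C ht Δ hV h4

theorem x1_typ2 (hV : finrank D V = 3)
    (h4 : ∀ u ∈ M.hemi0, (C.rs ht).numCap (M.ht u) ≤ 4) :
    ¬ (C.rs ht).Typ1 (M.ht Δ.x1) ∧ ¬ (C.rs ht).Typ1 (M.ht (- Δ.x1)) := by
  refine ⟨(GSix_x1 C ht Δ hV h4).2, ?_⟩
  obtain ⟨s, hs, hR⟩ := ht_ref M (-Δ.x1)
  obtain ⟨r, hr, hp⟩ := pair_x2 Δ
  obtain ⟨u, hu, h1, h2⟩ := (exists_near_x1 Δ (min s r) (lt_min hs hr)).2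
  obtain ⟨hx, he, -⟩ := x1_spec Δ
  have hx' : -Δ.x1 ≠ 0 := neg_ne_zero.2 hx
  have he' : (-Δ.x1) ⬝ᵥ M.e = 0 := by rw [neg_dotProduct, he, neg_zero]
  have h := c6 (ht_adm C ht ⟨hx', he'.ge⟩) (ht_nonconst Δ hx') (ht_adm C ht ⟨hu.1, hu.2.1⟩)
    hu.2.2 (hR u (by rw [sub_neg_eq_add]; exact lt_of_lt_of_le h1 (min_le_left _ _))) (h4 u hu)
    (finrank_V0_ge C ht hV) (hp u (lt_of_lt_of_le h1 (min_le_right _ _)) h2)
  exact h.2.2.1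

theorem zs_spec (hV : finrank D V = 3)
    (h4 : ∀ u ∈ M.hemi0, (C.rs ht).numCap (M.ht u) ≤ 4) {u : E3} (hu : u ∈ M.hemi0)
    (hc : (C.rs ht).numCap (M.ht u) = 4) :
    Δ.k0 ≤ C.zs ht Δ u ∧ C.zs ht Δ u < Δ.k0 + M.N ∧
      (C.rs ht).TopCup (M.ht u) (C.zs ht Δ u) := by
  have h : ∃ z, Δ.k0 ≤ z ∧ z < Δ.k0 + M.N ∧ (C.rs ht).TopCup (M.ht u) z :=
    exists_topCup (good3 C ht Δ hV h4 hu) hc Δ.k0
  rw [Col.zs, dif_pos h]
  exact h.choose_spec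

theorem hemi0_neg {u : E3} (hu : u ≠ 0) (he : u ⬝ᵥ M.e = 0) (hG : Gen (M.ht u)) :
    u ∈ M.hemi0 ∧ -u ∈ M.hemi0 := by
  refine ⟨⟨hu, he.ge, hG⟩, ⟨neg_ne_zero.2 hu, ?_, gen_neg.2 hG⟩⟩
  rw [neg_dotProduct, he, neg_zero]

end Pool.Agent.helper81.SBX
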