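import Pool.Agent.helper81.SBX.GPot

set_option autoImplicit false

/-!
# GUnit: the transport `U` is a unit of the order `O` (G8)

PROOF. For `x ∈ M.hemi0` let `P x` be the statement:
 (`numCap (ht x) = 3` and `Φ x ∈ O` and `(Φ x)⁻¹ ∈ O`) or
 (`numCap (ht x) = 4` and (for all `ξ ∈ T (ht x)` with values in `O`: `mis (zs x) ξ * Φ x ∈ O`) and (there is `ξ ∈ T (ht x)` with values in `O` and
 `mis (zs x) ξ * Φ x = 1`)).
(`numCap` is `3` or `4` by `good3`, `three_le`. Elements of `μ` and their inverses are in `O`: `mu_mem`.)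
`P` is locally constant on the hemisphere (then `locConst`, `hs_preconnected`, `gen_dense`): let `b ∈ M.hemi`.
* `b` of type I with `S`, `ζ`; `c`, `s` from `Pot.typ1` for (`S`, `ζ`), and `s` small enough for `ht_ref b`. All `x` near `b` have `numCap = 4`. For `ξ ∈ T (ht y)`,
  `ξ1 ∈ T (ht x)` with `res S ξ = res S ξ1`: `res S ξ = a • ζ + res S v` (`one_dim_typ1`), so `ξ = a • L y + v'` with `L y` a lift of `ζ` to `T (ht y)` and
  `v' ∈ V0` (`typ1_main` (3)), hence `mis (zs y) ξ * Φ y = a * m * c`, and `mis (zs x) ξ1 * Φ x = a * m' * c` with the same `a` and `c`. So the two values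
  differ by a factor in `μ` (central). Given `ξ ∈ T (ht y)` with values in `O`, there is such a `ξ1 ∈ T (ht x)` with values in `O` (`typ1_main` (2), (4): `res S ξ` has values in `O`).
  Hence `P x → P y` (for the second part multiply the function by an element of `μ`) and by symmetry `P x ↔ P y`.
* `b` of type II: `Φ x = m * c` near `b` (`Pot.typ2`). Claim: `P x ↔ (c ∈ O ∧ c⁻¹ ∈ O)` for `x` near `b` (`ht_ref b`). `numCap = 3`: clear. `numCap = 4`: by `c3` (`H0 = ht b`) there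
  is a cap `M` adjacent to `zs x`, and a unit function `f` of `M` with values in `O` (`exists_unit`, `IsUnitFn.val`) has `mis (zs x) f = ± 1` (`unit_mis_adj`). So
  `{mis (zs x) ξ | ξ ∈ T (ht x) with values in O} = O` (`⊆` clear, `⊇`: multiples of `f`), and `P x` says `O * Φ x ⊆ O` and `1 ∈ O * Φ x`, i.e. `Φ x ∈ O` and
  `(Φ x)⁻¹ ∈ O`.
Near `x1`: `Φ x ∈ μ` (`Pot.near1`); `x1` is of type II (`x1_typ2`), so `P x` holds (by the claim with `c` replaced by an element of `μ`: `c ∈ μ`). So `P` holds everywhere; near `- x1`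
(type II): `Φ x = m * U`, so `U ∈ O` and `U⁻¹ ∈ O`. (It is useful to prove the claim in the form: `x` near `b` of type II: `P x ↔ (Φ x ∈ O ∧ (Φ x)⁻¹ ∈ O)`.)
-/

namespace Pool.Agent.helper81.SBX

open Module Matrix

variable {D V : Type*} [DivisionRing D] [StarRing D] [AddCommGroup V] [Module D V]
variable {M : Marked} {Hm : Herm D V} {t : D} (C : Col M Hm t) (ht : Six D t) (Δ : M.Dir)

/-- the local statement -/
def UP (Φ : E3 → Dˣ) (O : Subring D) (x : E3) : Prop :=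
  ((C.rs ht).numCap (M.ht x) = 3 ∧ (Φ x : D) ∈ O ∧ (Φ x : D)⁻¹ ∈ O) ∨
  ((C.rs ht).numCap (M.ht x) = 4 ∧
    (∀ ξ ∈ (C.rs ht).T (M.ht x), RS.Val O ξ → mis (C.zs ht Δ x) ξ * (Φ x : D) ∈ O) ∧
    ∃ ξ ∈ (C.rs ht).T (M.ht x), RS.Val O ξ ∧ mis (C.zs ht Δ x) ξ * (Φ x : D) = 1)

theorem mis_mem {O : Subring D} {ξ : ℤ → D} (h : RS.Val O ξ) (z : ℤ) : mis z ξ ∈ O :=
  O.sub_mem (h _) (h _)

theorem val_smul {O : Subring D} {ξ : ℤ → D} (h : RS.Val O ξ) {a : D} (ha : a ∈ O) :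
    RS.Val O (a • ξ) := fun j => O.mul_mem ha (h j)

theorem val_res {O : Subring D} {ξ : ℤ → D} (h : RS.Val O ξ) (S : Set ℤ) :
    RS.Val O (res S ξ) := by
  intro j
  by_cases hj : j ∈ Pc S
  · rw [res_apply_of_mem hj]
    exact h j
  · rw [res_apply_of_notMem hj]
    exact O.zero_mem

theorem up_typ2 (hV : finrank D V = 3)
    (h4 : ∀ u ∈ M.hemi0, (C.rs ht).numCap (M.ht u) ≤ 4) (Φ : E3 → Dˣ) (O : Subring D)
    (hO : (C.rs ht).Over O) {b : E3} (hb : b ∈ M.hemi) (h2 : ¬ (C.rs ht).Typ1 (M.ht b)) :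
    ∃ s > 0, ∀ x ∈ M.hemi0, ‖x - b‖ < s →
      (UP C ht Δ Φ O x ↔ ((Φ x : D) ∈ O ∧ (Φ x : D)⁻¹ ∈ O)) := by
  obtain ⟨s, hs, href⟩ := ht_ref M b
  refine ⟨s, hs, fun x hx hxb => ?_⟩
  have hg : Good3 (C.rs ht) (M.ht x) := by
    first | exact good3 C ht Δ hV h4 hx | exact good3 C ht hV h4 hx
  have hR := href x hxb
  have h3 := three_le hg
  have h4' := hg.cap
  rcases (show (C.rs ht).numCap (M.ht x) = 3 ∨ (C.rs ht).numCap (M.ht x) = 4 by omega) with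
    hc | hc
  · constructor
    · rintro (⟨-, h⟩ | ⟨h, -⟩)
      · exact h
      · omega
    · intro h
      exact Or.inl ⟨hc, h⟩
  · obtain ⟨-, -, htop⟩ := zs_spec C ht Δ hV h4 hx hc
    obtain ⟨M', hadj, -, -⟩ := c3 (ht_adm C ht hb) (ht_nonconst Δ hb.1) h2 hg hR htop
    obtain ⟨f, hf, hval⟩ := exists_unit hg.adm hg.gen hadj.1
    have hfO := hval O hO
    have hmis := unit_mis_adj (ht_adm C ht hb) hg.adm hg.gen hR (ht_nonconst Δ hb.1) hadj hf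
    have hσ : mis (C.zs ht Δ x) f = 1 ∨ mis (C.zs ht Δ x) f = -1 := by
      rw [hmis]
      split_ifs
      · exact Or.inl rfl
      · exact Or.inr rfl
    have hΦ : (Φ x : D) ≠ 0 := (Φ x).ne_zero
    constructor
    · rintro (⟨h, -⟩ | ⟨-, h1, ξ, hξ, hξO, hξ1⟩)
      · omega
      · constructor
        · have := h1 f hf.mem hfO
          rcases hσ with e | e
          · rwa [e, one_mul] at this
          · rw [e, neg_one_mul] at this
            simpa using O.neg_mem this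
        · rw [← eq_inv_of_mul_eq_one_left hξ1]
          exact mis_mem hξO _
    · rintro ⟨h1, h1'⟩
      refine Or.inr ⟨hc, fun ξ _ hξO => O.mul_mem (mis_mem hξO _) h1,
        ((Φ x : D)⁻¹ * mis (C.zs ht Δ x) f) • f, Submodule.smul_mem _ _ hf.mem,
        val_smul hfO (O.mul_mem h1' (mis_mem hfO _)), ?_⟩
      have hsq : mis (C.zs ht Δ x) f * mis (C.zs ht Δ x) f = 1 := by
        rcases hσ with e | e <;> rw [e] <;> simp
      rw [mis_smul, mul_assoc (Φ x : D)⁻¹, hsq, mul_one, inv_mul_cancel₀ hΦ]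

theorem up_typ1 (hV : finrank D V = 3)
    (h4 : ∀ u ∈ M.hemi0, (C.rs ht).numCap (M.ht u) ≤ 4) {Φ : E3 → Dˣ} {U : Dˣ}
    (hP : Pot C ht Δ Φ U) (O : Subring D) (htO : t ∈ O) {b : E3} (hb : b ∈ M.hemi)
    (h1 : (C.rs ht).Typ1 (M.ht b)) (hO : (C.rs ht).Over O) :
    ∃ s > 0, ∀ x ∈ M.hemi0, ∀ y ∈ M.hemi0, ‖x - b‖ < s → ‖y - b‖ < s →
      UP C ht Δ Φ O x → UP C ht Δ Φ O y := by
  obtain ⟨S, hS, ζ, hζ, hne⟩ := h1
  obtain ⟨c, s, hs, hc⟩ := hP.typ1 b hb S ζ hS hζ hne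
  obtain ⟨s', hs', href⟩ := ht_ref M b
  have hA0 := ht_adm C ht hb
  have main : ∀ x ∈ M.hemi0, ‖x - b‖ < min s s' →
      (C.rs ht).numCap (M.ht x) = 4 ∧
      (∀ ξ ∈ (C.rs ht).T (M.ht x), res S ξ ∈ (C.rs ht).Sol S) ∧
      (∀ ζ' ∈ (C.rs ht).Sol S, ∃ ξ ∈ (C.rs ht).T (M.ht x), res S ξ = ζ' ∧
        ∀ O : Subring D, (C.rs ht).Over O → RS.Val O ζ' → RS.Val O ξ) ∧
      ∃ m ∈ Six.mu t, ∀ ξ ∈ (C.rs ht).T (M.ht x), ∀ a : D, ∀ v ∈ (C.rs ht).V0,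
        res S ξ = a • ζ + res S v → mis (C.zs ht Δ x) ξ * (Φ x : D) = a * (m * c) := by
    intro x hx hxb
    have hg : Good3 (C.rs ht) (M.ht x) := by
      first | exact good3 C ht Δ hV h4 hx | exact good3 C ht hV h4 hx
    have hR := href x (lt_of_lt_of_le hxb (min_le_right _ _))
    obtain ⟨q1, q2, q3, q4⟩ := typ1_main hA0 hg hR hS hζ hne
    obtain ⟨-, -, htop⟩ := zs_spec C ht Δ hV h4 hx q1
    obtain ⟨L, hL, hLζ, -⟩ := q4 ζ hζ
    obtain ⟨m, hm, hmc⟩ := hc x hx (lt_of_lt_of_le hxb (min_le_left _ _)) L hL hLζ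
    refine ⟨q1, q2, q4, m, hm, fun ξ hξ a v hv hres => ?_⟩
    have e1 : ξ - a • L ∈ (C.rs ht).V0 := by
      refine q3 _ (Submodule.sub_mem _ hξ (Submodule.smul_mem _ _ hL)) v hv ?_
      rw [map_sub, map_smul, hLζ, hres, add_sub_cancel_left]
    have e2 := mis_V0 hg.adm htop.1.1 e1
    rw [mis_sub, mis_smul] at e2
    rw [sub_eq_zero.1 e2, mul_assoc, hmc]
  refine ⟨min s s', lt_min hs hs', fun x hx y hy hxb hyb hPx => ?_⟩
  obtain ⟨x1, x2, x4, mx, hmx, hx5⟩ := main x hx hxb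
  obtain ⟨y1, y2, y4, my, hmy, hy5⟩ := main y hy hyb
  have key : ∀ ξ ∈ (C.rs ht).T (M.ht x), ∀ ξ' ∈ (C.rs ht).T (M.ht y), res S ξ = res S ξ' →
      ∃ n ∈ Six.mu t, mis (C.zs ht Δ y) ξ' * (Φ y : D) =
        n * (mis (C.zs ht Δ x) ξ * (Φ x : D)) := by
    intro ξ hξ ξ' hξ' he
    obtain ⟨a, v, hv, hav⟩ : ∃ a : D, ∃ v ∈ (C.rs ht).V0, res S ξ = a • ζ + res S v := by
      first
        | exact one_dim_typ1 C ht Δ hV h4 hb hS hζ hne (x2 ξ hξ)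
        | exact one_dim_typ1 C ht hV h4 hb hS hζ hne (x2 ξ hξ)
    refine ⟨my * mx⁻¹, mu_mul hmy (mu_inv ht hmx), ?_⟩
    rw [hx5 ξ hξ a v hv hav, hy5 ξ' hξ' a v hv (he ▸ hav)]
    have c1 := mu_central ht (mu_mul hmy (mu_inv ht hmx)) a
    have c2 : mx⁻¹ * mx = 1 := inv_mul_cancel₀ (mu_ne_zero ht hmx)
    calc a * (my * c) = a * (my * (mx⁻¹ * mx) * c) := by rw [c2, mul_one]
      _ = a * (my * mx⁻¹) * (mx * c) := by simp only [mul_assoc]
      _ = my * mx⁻¹ * (a * (mx * c)) := by rw [← c1]; simp only [mul_assoc]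
  rcases hPx with ⟨h, -⟩ | ⟨-, hx6, ξ, hξ, hξO, hξ1⟩
  · omega
  · refine Or.inr ⟨y1, fun ξ' hξ' hξO' => ?_, ?_⟩
    · obtain ⟨η, hη, hres, hηO⟩ := x4 (res S ξ') (y2 ξ' hξ')
      obtain ⟨n, hn, hne'⟩ := key η hη ξ' hξ' hres
      rw [hne']
      exact O.mul_mem (mu_mem ht hn htO) (hx6 η hη (hηO O hO (val_res hξO' S)))
    · obtain ⟨ξ', hξ', hres, hξO'⟩ := y4 (res S ξ) (x2 ξ hξ)
      obtain ⟨n, hn, hne'⟩ := key ξ hξ ξ' hξ' hres.symm
      rw [hξ1, mul_one] at hne'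
      refine ⟨n⁻¹ • ξ', Submodule.smul_mem _ _ hξ', val_smul (hξO' O hO (val_res hξO S))
        (mu_mem ht (mu_inv ht hn) htO), ?_⟩
      rw [mis_smul, mul_assoc, hne', inv_mul_cancel₀ (mu_ne_zero ht hn)]

theorem pot_unit (hV : finrank D V = 3)
    (h4 : ∀ u ∈ M.hemi0, (C.rs ht).numCap (M.ht u) ≤ 4) {Φ : E3 → Dˣ} {U : Dˣ}
    (hP : Pot C ht Δ Φ U) (O : Subring D) (hO : (C.rs ht).Over O) (htO : t ∈ O) :
    (U : D) ∈ O ∧ ((U⁻¹ : Dˣ) : D) ∈ O := by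
  have hbij : ∀ (m : D) (u w : Dˣ), m ∈ Six.mu t → (u : D) = m * w →
      (((u : D) ∈ O ∧ (u : D)⁻¹ ∈ O) ↔ ((w : D) ∈ O ∧ (w : D)⁻¹ ∈ O)) := by
    intro m u w hm he
    have hm0 := mu_ne_zero ht hm
    have hmO := mu_mem ht hm htO
    have hmO' := mu_mem ht (mu_inv ht hm) htO
    constructor
    · rintro ⟨h1, h2⟩
      constructor
      · have : (w : D) = m⁻¹ * u := by rw [he, ← mul_assoc, inv_mul_cancel₀ hm0, one_mul]
        rw [this]
        exact O.mul_mem hmO' h1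
      · have : (w : D)⁻¹ = (u : D)⁻¹ * m := by
          rw [he, _root_.mul_inv_rev, mul_assoc, inv_mul_cancel₀ hm0, mul_one]
        rw [this]
        exact O.mul_mem h2 hmO
    · rintro ⟨h1, h2⟩
      rw [he, _root_.mul_inv_rev]
      exact ⟨O.mul_mem hmO h1, O.mul_mem h2 hmO'⟩
  obtain ⟨hx1, hx1e, -, -, -⟩ := x1_spec Δ
  have hb1 : Δ.x1 ∈ M.hemi := ⟨hx1, hx1e.ge⟩
  have hb2 : - Δ.x1 ∈ M.hemi := by
    refine ⟨neg_ne_zero.2 hx1, ?_⟩
    rw [neg_dotProduct, hx1e, neg_zero]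
  obtain ⟨t1, t2⟩ := x1_typ2 C ht Δ hV h4
  have hloc := locConst (X := M.hemi) (X0 := M.hemi0) (hs_preconnected M.e_ne)
    (fun u hu => ⟨hu.1, hu.2.1⟩) (fun b hb => gen_dense M hb) (UP C ht Δ Φ O) (by
      intro b hb
      by_cases h1 : (C.rs ht).Typ1 (M.ht b)
      · obtain ⟨s, hs, h⟩ := up_typ1 C ht Δ hV h4 hP O htO hb h1 hO
        exact ⟨s, hs, fun x hx y hy hxb hyb => ⟨h x hx y hy hxb hyb, h y hy x hx hyb hxb⟩⟩
      · obtain ⟨s, hs, h⟩ := up_typ2 C ht Δ hV h4 Φ O hO hb h1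
        obtain ⟨c, s', hs', h'⟩ := hP.typ2 b hb h1
        refine ⟨min s s', lt_min hs hs', fun x hx y hy hxb hyb => ?_⟩
        rw [h x hx (lt_of_lt_of_le hxb (min_le_left _ _)),
          h y hy (lt_of_lt_of_le hyb (min_le_left _ _))]
        obtain ⟨m, hm, e⟩ := h' x hx (lt_of_lt_of_le hxb (min_le_right _ _))
        obtain ⟨m', hm', e'⟩ := h' y hy (lt_of_lt_of_le hyb (min_le_right _ _))
        rw [hbij m (Φ x) c hm e, hbij m' (Φ y) c hm' e'])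
  obtain ⟨s1, hs1, n1⟩ := hP.near1
  obtain ⟨s1', hs1', u1⟩ := up_typ2 C ht Δ hV h4 Φ O hO hb1 t1
  obtain ⟨s2, hs2, n2⟩ := hP.near2
  obtain ⟨s2', hs2', u2⟩ := up_typ2 C ht Δ hV h4 Φ O hO hb2 t2
  obtain ⟨x, hx, hxb⟩ := gen_dense M hb1 (min s1 s1') (lt_min hs1 hs1')
  obtain ⟨y, hy, hyb⟩ := gen_dense M hb2 (min s2 s2') (lt_min hs2 hs2')
  have hPx : UP C ht Δ Φ O x := by
    rw [u1 x hx (lt_of_lt_of_le hxb (min_le_right _ _))]
    have hmu := n1 x hx (lt_of_lt_of_le hxb (min_le_left _ _))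
    exact ⟨mu_mem ht hmu htO, mu_mem ht (mu_inv ht hmu) htO⟩
  have hPy := (hloc x hx y hy).1 hPx
  rw [u2 y hy (lt_of_lt_of_le hyb (min_le_right _ _))] at hPy
  have hyb' : ‖y + Δ.x1‖ < s2 := by
    rw [← sub_neg_eq_add]
    exact lt_of_lt_of_le hyb (min_le_left _ _)
  obtain ⟨m, hm, he⟩ := n2 y hy hyb'
  rw [hbij m (Φ y) U hm he] at hPy
  rw [Units.val_inv_eq_inv_val]
  exact hPy

end Pool.Agent.helper81.SBX
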