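import Pool.Agent.helper81.SBX.SDefs

set_option autoImplicit false

/-!
# OProd: ordered products

`oprod J key f` is the product of `f` over the list `J` sorted by `key` (insertion sort). In all statements `key` is
injective on `J`, so the sorted list is the unique permutation of `J.toList` which is strictly sorted by `key`.

PROOFS. Basic tool: if `l` is a list without duplicates, with `l.toFinset = J` (or `l ~ J.toList`) and sorted by `key` (`List.Pairwise`, `key i < key j`), then
`oprod J key f = (l.map f).prod` (`oprod_eq_list`): the insertion sort of `J.toList` is a sorted permutation of `l`; by injectivity of `key` the relation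
`key i ≤ key j` is antisymmetric on `J`, so the two lists are equal (`List.Perm.eq_of_pairwise` or similar; or induct). From this:
* `oprod_split`: concatenate the sorted lists of `A` and `B`.
* `oprod_split3`, `oprod_adj`: from `oprod_split`.
* `oprod_congr`: the sorted list for `key` is also sorted for `key'`.
* `oprod_image`: map of the sorted list.
* `oprod_cluster`: induction on the finset `P` (remove its largest element `p`: `oprod_split` for `P = P' ∪ {p}` on the outside, and for
  `J = J.filter (cl ≠ p) ∪ J.filter (cl = p)` on the inside; for `p` larger than all other elements of `P` all `j` with `cl j ≠ p` have `cl j < p`).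
* `oprod_mem`: a list product of elements of a submonoid.
-/

namespace Pool.Agent.helper81.SBX

open scoped List

variable {ι κ G G' : Type*} [Monoid G] [Monoid G']

private theorem oprod_spec (J : Finset ι) (key : ι → ℝ) (f : ι → G) :
    ∃ l : List ι, l.Nodup ∧ (∀ i, i ∈ l ↔ i ∈ J) ∧ (l.Pairwise fun i j => key i ≤ key j) ∧
      oprod J key f = (l.map f).prod := by
  have : Std.Total (fun i j : ι => key i ≤ key j) := ⟨fun i j => le_total _ _⟩
  have : IsTrans ι (fun i j : ι => key i ≤ key j) := ⟨fun _ _ _ => le_trans⟩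
  refine ⟨_, ?_, ?_, ?_, rfl⟩
  · exact (List.perm_insertionSort _ _).nodup_iff.2 (Finset.nodup_toList J)
  · intro i
    rw [List.mem_insertionSort, Finset.mem_toList]
  · exact List.pairwise_insertionSort _ _

theorem oprod_eq_list {J : Finset ι} {key : ι → ℝ} (hk : Set.InjOn key J) (f : ι → G)
    {l : List ι} (hl : l.Pairwise fun i j => key i < key j) (hm : ∀ i, i ∈ l ↔ i ∈ J) :
    oprod J key f = (l.map f).prod := by
  obtain ⟨l', hn', hm', hp', he'⟩ := oprod_spec J key f
  have hn : l.Nodup := hl.imp fun {a b} h hab => by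
    subst hab
    exact lt_irrefl _ h
  have hperm : l' ~ l := (List.perm_ext_iff_of_nodup hn' hn).2 fun i => (hm' i).trans (hm i).symm
  have heq : l' = l := by
    refine List.Perm.eq_of_pairwise ?_ hp' (hl.imp fun h => le_of_lt h) hperm
    intro a b ha hb h1 h2
    exact hk (Finset.mem_coe.2 ((hm' a).1 ha)) (Finset.mem_coe.2 ((hm b).1 hb)) (le_antisymm h1 h2)
  rw [he', heq]

private theorem exists_sorted {J : Finset ι} {key : ι → ℝ} (hk : Set.InjOn key J) :
    ∃ l : List ι, (l.Pairwise fun i j => key i < key j) ∧ ∀ i, i ∈ l ↔ i ∈ J := by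
  obtain ⟨l, hn, hm, hp, -⟩ := oprod_spec J key (fun _ => (1 : ℕ))
  refine ⟨l, ?_, hm⟩
  refine List.Pairwise.imp_of_mem ?_ (hp.and hn)
  intro a b ha hb hab
  refine lt_of_le_of_ne hab.1 fun h => hab.2 ?_
  exact hk (Finset.mem_coe.2 ((hm a).1 ha)) (Finset.mem_coe.2 ((hm b).1 hb)) h

theorem oprod_empty (key : ι → ℝ) (f : ι → G) : oprod (∅ : Finset ι) key f = 1 := by
  rw [oprod_eq_list (l := []) (by simp) f List.Pairwise.nil (by simp)]
  rfl

theorem oprod_singleton (key : ι → ℝ) (f : ι → G) (i : ι) :
    oprod ({i} : Finset ι) key f = f i := by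
  rw [oprod_eq_list (l := [i]) (by simp) f (List.pairwise_singleton _ _) (by simp)]
  simp

theorem oprod_pair [DecidableEq ι] {key : ι → ℝ} (f : ι → G) {i j : ι} (h : key i < key j) :
    oprod ({i, j} : Finset ι) key f = f i * f j := by
  have hk : Set.InjOn key (({i, j} : Finset ι) : Set ι) := by
    intro a ha b hb hab
    simp only [Finset.coe_insert, Finset.coe_singleton, Set.mem_insert_iff,
      Set.mem_singleton_iff] at ha hb
    rcases ha with rfl | rfl <;> rcases hb with rfl | rfl
    · rfl
    · exact absurd hab h.ne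
    · exact absurd hab h.ne'
    · rfl
  rw [oprod_eq_list (l := [i, j]) hk f (by simpa using h) (by simp)]
  simp

theorem oprod_congr {J : Finset ι} {key key' : ι → ℝ} (hk : Set.InjOn key J)
    (h : ∀ i ∈ J, ∀ j ∈ J, key i < key j → key' i < key' j) {f f' : ι → G}
    (hf : ∀ j ∈ J, f j = f' j) : oprod J key f = oprod J key' f' := by
  obtain ⟨l, hl, hm⟩ := exists_sorted hk
  have hk' : Set.InjOn key' J := by
    intro a ha b hb hab
    by_contra hne
    rcases lt_trichotomy (key a) (key b) with h1 | h1 | h1
    · exact absurd hab (h a (Finset.mem_coe.1 ha) b (Finset.mem_coe.1 hb) h1).ne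
    · exact hne (hk ha hb h1)
    · exact absurd hab (h b (Finset.mem_coe.1 hb) a (Finset.mem_coe.1 ha) h1).ne'
  have hl' : l.Pairwise fun i j => key' i < key' j := by
    refine List.Pairwise.imp_of_mem ?_ hl
    intro a b ha hb hab
    exact h a ((hm a).1 ha) b ((hm b).1 hb) hab
  rw [oprod_eq_list hk f hl hm, oprod_eq_list hk' f' hl' hm]
  congr 1
  exact List.map_congr_left fun a ha => hf a ((hm a).1 ha)

theorem oprod_split [DecidableEq ι] {A B : Finset ι} {key : ι → ℝ}
    (hk : Set.InjOn key (A ∪ B : Finset ι))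
    (h : ∀ i ∈ A, ∀ j ∈ B, key i < key j) (f : ι → G) :
    oprod (A ∪ B) key f = oprod A key f * oprod B key f := by
  have hA : Set.InjOn key (A : Set ι) :=
    hk.mono (Finset.coe_subset.2 Finset.subset_union_left)
  have hB : Set.InjOn key (B : Set ι) :=
    hk.mono (Finset.coe_subset.2 Finset.subset_union_right)
  obtain ⟨la, hla, hma⟩ := exists_sorted hA
  obtain ⟨lb, hlb, hmb⟩ := exists_sorted hB
  rw [oprod_eq_list hA f hla hma, oprod_eq_list hB f hlb hmb,
    oprod_eq_list (l := la ++ lb) hk f ?_ ?_, List.map_append, List.prod_append]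
  · rw [List.pairwise_append]
    exact ⟨hla, hlb, fun a ha b hb => h a ((hma a).1 ha) b ((hmb b).1 hb)⟩
  · intro i
    rw [List.mem_append, hma, hmb, Finset.mem_union]

open Classical in
/-- splitting at one element -/
theorem oprod_split3 {J : Finset ι} {key : ι → ℝ} (hk : Set.InjOn key J) {i : ι} (hi : i ∈ J)
    (f : ι → G) :
    oprod J key f = oprod (J.filter fun k => key k < key i) key f * f i *
      oprod (J.filter fun k => key i < key k) key f := by
  have hA : Set.InjOn key ((J.filter fun k => key k < key i : Finset ι) : Set ι) :=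
    hk.mono (Finset.coe_subset.2 (Finset.filter_subset _ _))
  have hB : Set.InjOn key ((J.filter fun k => key i < key k : Finset ι) : Set ι) :=
    hk.mono (Finset.coe_subset.2 (Finset.filter_subset _ _))
  obtain ⟨la, hla, hma⟩ := exists_sorted hA
  obtain ⟨lb, hlb, hmb⟩ := exists_sorted hB
  have hma' : ∀ a, a ∈ la ↔ a ∈ J ∧ key a < key i := fun a => by
    rw [hma, Finset.mem_filter]
  have hmb' : ∀ a, a ∈ lb ↔ a ∈ J ∧ key i < key a := fun a => by
    rw [hmb, Finset.mem_filter]
  rw [oprod_eq_list hA f hla hma, oprod_eq_list hB f hlb hmb,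
    oprod_eq_list (l := la ++ i :: lb) hk f ?_ ?_, List.map_append, List.prod_append,
    List.map_cons, List.prod_cons, mul_assoc]
  · rw [List.pairwise_append]
    refine ⟨hla, ?_, ?_⟩
    · rw [List.pairwise_cons]
      exact ⟨fun b hb => ((hmb' b).1 hb).2, hlb⟩
    · intro a ha b hb
      have h1 := ((hma' a).1 ha).2
      rcases List.mem_cons.1 hb with rfl | hb
      · exact h1
      · exact h1.trans ((hmb' b).1 hb).2
  · intro a
    rw [List.mem_append, List.mem_cons, hma', hmb']
    constructor
    · rintro (h | rfl | h)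
      · exact h.1
      · exact hi
      · exact h.1
    · intro ha
      rcases lt_trichotomy (key a) (key i) with h1 | h1 | h1
      · exact Or.inl ⟨ha, h1⟩
      · exact Or.inr (Or.inl (hk (Finset.mem_coe.2 ha) (Finset.mem_coe.2 hi) h1))
      · exact Or.inr (Or.inr ⟨ha, h1⟩)

theorem oprod_image [DecidableEq κ] {J : Finset ι} (φ : ι → κ) (hφ : Set.InjOn φ J)
    {key : κ → ℝ} (hk : Set.InjOn key (J.image φ)) (f : κ → G) :
    oprod (J.image φ) key f = oprod J (key ∘ φ) (f ∘ φ) := by
  have hk2 : Set.InjOn (key ∘ φ) (J : Set ι) := by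
    intro a ha b hb hab
    apply hφ ha hb
    apply hk _ _ hab
    · exact Finset.mem_coe.2 (Finset.mem_image_of_mem φ (Finset.mem_coe.1 ha))
    · exact Finset.mem_coe.2 (Finset.mem_image_of_mem φ (Finset.mem_coe.1 hb))
  obtain ⟨l, hl, hm⟩ := exists_sorted hk2
  rw [oprod_eq_list hk2 (f ∘ φ) hl hm, oprod_eq_list (l := l.map φ) hk f ?_ ?_, List.map_map]
  · rw [List.pairwise_map]
    exact hl
  · intro k
    rw [List.mem_map, Finset.mem_image]
    simp only [hm]

open Classical in
/-- the cluster lemma -/
theorem oprod_cluster {J : Finset ι} {key : ι → ℝ} (hk : Set.InjOn key J) (cl : ι → ℝ)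
    (hcl : ∀ i ∈ J, ∀ j ∈ J, cl i < cl j → key i < key j) (P : Finset ℝ)
    (hP : ∀ j ∈ J, cl j ∈ P) (f : ι → G) :
    oprod J key f = oprod P id fun p => oprod (J.filter fun j => cl j = p) key f := by
  have hkp : ∀ p : ℝ, Set.InjOn key ((J.filter fun j => cl j = p : Finset ι) : Set ι) :=
    fun p => hk.mono (Finset.coe_subset.2 (Finset.filter_subset _ _))
  choose L hL hmL using fun p : ℝ => exists_sorted (hkp p)
  have hmL' : ∀ p a, a ∈ L p ↔ a ∈ J ∧ cl a = p := fun p a => by
    rw [hmL, Finset.mem_filter]
  have hid : Set.InjOn (id : ℝ → ℝ) (P : Set ℝ) := Function.injective_id.injOn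
  obtain ⟨lP, hlP, hmP⟩ := exists_sorted hid
  rw [oprod_eq_list hid _ hlP hmP, oprod_eq_list (l := lP.flatMap L) hk f ?_ ?_]
  · have hin : (fun p => oprod (J.filter fun j => cl j = p) key f) =
        fun p => ((L p).map f).prod := by
      funext p
      exact oprod_eq_list (hkp p) f (hL p) (hmL p)
    rw [hin]
    clear hlP hmP hin
    induction lP with
    | nil => simp
    | cons p lP ih =>
      rw [List.flatMap_cons, List.map_append, List.prod_append, ih, List.map_cons, List.prod_cons]
  · rw [List.pairwise_flatMap]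
    refine ⟨fun p _ => hL p, hlP.imp ?_⟩
    intro p q hpq a ha b hb
    obtain ⟨ha1, ha2⟩ := (hmL' p a).1 ha
    obtain ⟨hb1, hb2⟩ := (hmL' q b).1 hb
    apply hcl a ha1 b hb1
    rw [ha2, hb2]
    exact hpq
  · intro a
    rw [List.mem_flatMap]
    constructor
    · rintro ⟨p, -, ha⟩
      exact ((hmL' p a).1 ha).1
    · intro ha
      exact ⟨cl a, (hmP _).2 (hP a ha), (hmL' _ a).2 ⟨ha, rfl⟩⟩

theorem oprod_mem {J : Finset ι} {key : ι → ℝ} {f : ι → G} (S : Submonoid G)
    (h : ∀ j ∈ J, f j ∈ S) : oprod J key f ∈ S := by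
  obtain ⟨l, -, hm, -, he⟩ := oprod_spec J key f
  rw [he]
  apply Submonoid.list_prod_mem
  intro x hx
  obtain ⟨j, hj, rfl⟩ := List.mem_map.1 hx
  exact h j ((hm j).1 hj)

theorem map_oprod (φ : G →* G') (J : Finset ι) (key : ι → ℝ) (f : ι → G) :
    φ (oprod J key f) = oprod J key fun j => φ (f j) := by
  simp only [oprod]
  rw [map_list_prod, List.map_map]
  rfl

end Pool.Agent.helper81.SBX
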