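import Pool.Agent.helper81.SBX.GDefs

set_option autoImplicit false

/-!
# Slices of a marked polygon, ordered products, the Heisenberg group (definitions of block III)
-/

namespace Pool.Agent.helper81.SBX

open Module Matrix

open Classical in
/-- The product of `f j` over `j ∈ J` in the order of increasing `key j`. -/
noncomputable def oprod {ι G : Type*} [Monoid G] (J : Finset ι) (key : ι → ℝ) (f : ι → G) : G :=
  ((J.toList.insertionSort fun i j => key i ≤ key j).map f).prod

namespace Marked

variable (M : Marked)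

open Classical in
/-- The pieces (modulo `N`) which cross the level `h` of the height function in the direction `u`. -/
noncomputable def strands (u : E3) (h : ℝ) : Finset ℤ :=
  (Finset.Ico (0 : ℤ) M.N).filter fun j => (M.ht u j - h) * (M.ht u (j + 1) - h) < 0

/-- The point of the (line of the) piece `j` at the level `h`. -/
noncomputable def pt (u : E3) (h : ℝ) (j : ℤ) : E3 :=
  M.q j + ((h - M.ht u j) / (M.ht u (j + 1) - M.ht u j)) • M.d j

/-- The horizontal position of the piece `j` at the level `h`. -/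
noncomputable def ps (u : E3) (h : ℝ) (j : ℤ) : ℝ := cross3 M.e u ⬝ᵥ M.pt u h j

open Classical in
/-- The factor of the piece `j` in a slice product: `ρ j` if the piece goes up, `(ρ j)⁻¹` if it goes
down. -/
noncomputable def fac {G : Type*} [Group G] (u : E3) (ρ : ℤ → G) (j : ℤ) : G :=
  if M.ht u j < M.ht u (j + 1) then ρ j else (ρ j)⁻¹

/-- The slice product. -/
noncomputable def slice {G : Type*} [Group G] (u : E3) (h : ℝ) (ρ : ℤ → G) : G :=
  oprod (M.strands u h) (M.ps u h) (M.fac u ρ)

open Classical in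
/-- The exponent of the over element at the under node `j`. -/
noncomputable def dlt (j : ℤ) : ℤ := if 0 < det3 M.e (M.d (M.o j)) (M.d j) then -1 else 1

open Classical in
/-- The group relation at the node `j`. -/
def GRel {G : Type*} [Group G] (ρ : ℤ → G) (j : ℤ) : Prop :=
  if M.und j then ρ j = (ρ (M.o j)) ^ M.dlt j * ρ (j - 1) * ((ρ (M.o j)) ^ M.dlt j)⁻¹
  else ρ j = ρ (j - 1)

end Marked

section

variable {D V : Type*} [DivisionRing D] [StarRing D] [AddCommGroup V] [Module D V]

/-- The Heisenberg extension of the isometry group of a hermitian space: elements `(A, a, a', c)`. -/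
@[ext] structure Heis (Hm : Herm D V) where
  /-- isometry -/
  A : V ≃ₗ[D] V
  isom : ∀ x y, Hm.H (A x) (A y) = Hm.H x y
  /-- first translation -/
  a : V
  /-- second translation -/
  a' : V
  /-- central component -/
  c : D

/-- right additivity -/
theorem Herm.add_right' (Hm : Herm D V) (x y z : V) :
    Hm.H x (y + z) = Hm.H x y + Hm.H x z := by
  rw [← Hm.herm, Hm.add_left, star_add, Hm.herm, Hm.herm]

theorem Herm.zero_left (Hm : Herm D V) (y : V) : Hm.H 0 y = 0 := by
  have := Hm.smul_left 0 0 y
  simpa using this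

theorem Herm.zero_right (Hm : Herm D V) (y : V) : Hm.H y 0 = 0 := by
  rw [← Hm.herm, Hm.zero_left, star_zero]

theorem Herm.neg_left (Hm : Herm D V) (x y : V) : Hm.H (-x) y = - Hm.H x y := by
  have := Hm.smul_left (-1) x y
  simpa using this

theorem Herm.neg_right (Hm : Herm D V) (x y : V) : Hm.H x (-y) = - Hm.H x y := by
  rw [← Hm.herm, Hm.neg_left, star_neg, Hm.herm]

namespace Heis

variable {Hm : Herm D V}

instance : One (Heis Hm) := ⟨⟨LinearEquiv.refl D V, fun _ _ => rfl, 0, 0, 0⟩⟩

instance : Mul (Heis Hm) :=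
  ⟨fun x y => ⟨y.A.trans x.A, fun v w => by simp [x.isom, y.isom], x.a + x.A y.a,
    x.a' + x.A y.a', x.c + y.c + Hm.H x.a (x.A y.a')⟩⟩

instance : Inv (Heis Hm) :=
  ⟨fun x => ⟨x.A.symm, fun v w => by
      have := x.isom (x.A.symm v) (x.A.symm w)
      simpa using this.symm, -(x.A.symm x.a), -(x.A.symm x.a'), -x.c + Hm.H x.a x.a'⟩⟩

theorem one_A : (1 : Heis Hm).A = LinearEquiv.refl D V := rfl
theorem one_a : (1 : Heis Hm).a = 0 := rfl
theorem one_a' : (1 : Heis Hm).a' = 0 := rfl
theorem one_c : (1 : Heis Hm).c = 0 := rfl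
theorem mul_A (x y : Heis Hm) : (x * y).A = y.A.trans x.A := rfl
theorem mul_a (x y : Heis Hm) : (x * y).a = x.a + x.A y.a := rfl
theorem mul_a' (x y : Heis Hm) : (x * y).a' = x.a' + x.A y.a' := rfl
theorem mul_c (x y : Heis Hm) : (x * y).c = x.c + y.c + Hm.H x.a (x.A y.a') := rfl
theorem inv_A (x : Heis Hm) : (x⁻¹).A = x.A.symm := rfl
theorem inv_a (x : Heis Hm) : (x⁻¹).a = -(x.A.symm x.a) := rfl
theorem inv_a' (x : Heis Hm) : (x⁻¹).a' = -(x.A.symm x.a') := rfl
theorem inv_c (x : Heis Hm) : (x⁻¹).c = -x.c + Hm.H x.a x.a' := rfl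

instance : Group (Heis Hm) where
  mul_assoc x y z := by
    ext1
    · ext v; rfl
    · simp [mul_a, mul_A, add_assoc]
    · simp [mul_a', mul_A, add_assoc]
    · simp only [mul_c, mul_a, mul_a', mul_A, LinearEquiv.trans_apply, map_add,
        Hm.add_left, Hm.add_right', x.isom]
      abel
  one_mul x := by
    ext1
    · ext v; rfl
    · simp [mul_a, one_A, one_a]
    · simp [mul_a', one_A, one_a']
    · simp [mul_c, one_a, one_c, Hm.zero_left]
  mul_one x := by
    ext1
    · ext v; rfl
    · simp [mul_a, one_a]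
    · simp [mul_a', one_a']
    · simp [mul_c, one_a', one_c, Hm.zero_right]
  inv_mul_cancel x := by
    ext1
    · ext v; simp [mul_A, inv_A, one_A]
    · simp [mul_a, inv_A, inv_a, one_a]
    · simp [mul_a', inv_A, inv_a', one_a']
    · have := x.isom (x.A.symm x.a) (x.A.symm x.a')
      simp only [mul_c, inv_A, inv_a, inv_c, one_c, Hm.neg_left]
      simp only [LinearEquiv.apply_symm_apply] at this
      rw [← this]
      abel

end Heis

/-- The reflection as a linear equivalence. -/
noncomputable def Herm.reflE (Hm : Herm D V) (X : V) (s : D) (hX : Hm.H X X = 1)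
    (hs : s * star s = 1) (hc : ∀ x, s * x = x * s) : V ≃ₗ[D] V where
  toFun := Hm.refl X s
  invFun := Hm.refl X (star s)
  map_add' x y := by
    simp only [Herm.refl, Hm.add_left, mul_add, add_smul]
    abel
  map_smul' a x := by
    simp only [Herm.refl, Hm.smul_left, RingHom.id_apply, smul_add, smul_smul]
    congr 2
    rw [← mul_assoc, ← mul_assoc, sub_mul, mul_sub, hc a, one_mul, mul_one]
  left_inv x := by
    have hs' : star s * s = 1 := mul_eq_one_comm.mp hs
    simp only [Herm.refl, Hm.add_left, Hm.smul_left, hX, mul_one, mul_add, add_smul]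
    rw [add_assoc, ← add_smul, ← add_smul]
    have : (s - 1) * Hm.H x X + ((star s - 1) * Hm.H x X + (star s - 1) * ((s - 1) * Hm.H x X))
        = 0 := by
      have e : (star s - 1) * ((s - 1) * Hm.H x X)
          = (star s * s - star s - s + 1) * Hm.H x X := by
        rw [← mul_assoc]; congr 1; rw [sub_mul, mul_sub]; simp; abel
      rw [e, hs', sub_mul, sub_mul, add_mul, sub_mul, sub_mul]
      simp
      abel
    rw [this, zero_smul, add_zero]
  right_inv x := by
    simp only [Herm.refl, Hm.add_left, Hm.smul_left, hX, mul_one, mul_add, add_smul]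
    rw [add_assoc, ← add_smul, ← add_smul]
    have : (star s - 1) * Hm.H x X + ((s - 1) * Hm.H x X + (s - 1) * ((star s - 1) * Hm.H x X))
        = 0 := by
      have e : (s - 1) * ((star s - 1) * Hm.H x X)
          = (s * star s - star s - s + 1) * Hm.H x X := by
        rw [← mul_assoc]; congr 1; rw [sub_mul, mul_sub]; simp; abel
      rw [e, hs, sub_mul, sub_mul, add_mul, sub_mul, sub_mul]
      simp
    rw [this, zero_smul, add_zero]

theorem Herm.reflE_isom (Hm : Herm D V) (X : V) (s : D) (hX : Hm.H X X = 1)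
    (hs : s * star s = 1) (hc : ∀ x, s * x = x * s) (v w : V) :
    Hm.H (Hm.reflE X s hX hs hc v) (Hm.reflE X s hX hs hc w) = Hm.H v w := by
  have hs' : star s * s = 1 := mul_eq_one_comm.mp hs
  have hr : ∀ (a : D) (x y : V), Hm.H x (a • y) = Hm.H x y * star a := by
    intro a x y
    rw [← Hm.herm, Hm.smul_left, star_mul, Hm.herm]
  have hc' : ∀ x, star s * x = x * star s := by
    intro x
    have := congrArg star (hc (star x))
    simpa [star_mul] using this.symm
  change Hm.H (Hm.refl X s v) (Hm.refl X s w) = Hm.H v w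
  simp only [Herm.refl, Hm.add_left, Hm.add_right', Hm.smul_left, hr, hX, star_mul, star_sub,
    star_one, Hm.herm, one_mul]
  have key : (s - 1) * (Hm.H v X * Hm.H X w) + Hm.H v X * (Hm.H X w * (star s - 1)) +
      (s - 1) * (Hm.H v X * (Hm.H X w * (star s - 1))) = 0 := by
    have e1 : Hm.H X w * (star s - 1) = (star s - 1) * Hm.H X w := by
      rw [sub_mul, mul_sub, hc', one_mul, mul_one]
    have e2 : Hm.H v X * ((star s - 1) * Hm.H X w) = (star s - 1) * (Hm.H v X * Hm.H X w) := by
      rw [← mul_assoc, ← mul_assoc]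
      congr 1
      rw [sub_mul, mul_sub, hc', one_mul, mul_one]
    rw [e1, e2, ← mul_assoc (s - 1) (star s - 1), ← add_mul, ← add_mul]
    have : s - 1 + (star s - 1) + (s - 1) * (star s - 1) = 0 := by
      rw [sub_mul, mul_sub, hs]
      simp
    rw [this, zero_mul]
  trans Hm.H v w + ((s - 1) * (Hm.H v X * Hm.H X w) + Hm.H v X * (Hm.H X w * (star s - 1)) +
      (s - 1) * (Hm.H v X * (Hm.H X w * (star s - 1))))
  · simp only [mul_assoc]
    abel
  · rw [key, add_zero]

/-- The Heisenberg element of a root `X`, multiplier `s` and labels `ξ`, `η`. -/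
noncomputable def hei (Hm : Herm D V) (X : V) (s : D) (hX : Hm.H X X = 1)
    (hs : s * star s = 1) (hc : ∀ x, s * x = x * s) (ξ η : D) : Heis Hm :=
  ⟨Hm.reflE X s hX hs hc, Hm.reflE_isom X s hX hs hc, ((1 - s) * ξ) • X, ((1 - s) * η) • X,
    (1 - star s) * (ξ * star η)⟩

/-- The labelling of the pieces by Heisenberg elements. -/
noncomputable def Col.rho {M : Marked} {Hm : Herm D V} {t : D} (C : Col M Hm t) (ht : Six D t)
    (ξ η : ℤ → D) (j : ℤ) : Heis Hm :=
  hei Hm (C.X j) t (C.X_norm j) ht.unit ht.central (ξ j) (η j)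

/-- The pairing at the level `h` of the slice in the direction `u`. -/
noncomputable def Col.om {M : Marked} {Hm : Herm D V} {t : D} (C : Col M Hm t) (ht : Six D t)
    (u : E3) (h : ℝ) (ξ η : ℤ → D) : D := (M.slice u h (C.rho ht ξ η)).c

end

end Pool.Agent.helper81.SBX
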