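import Pool.Agent.helper81.SBX.GDefs
import Pool.Agent.helper81.SBX.SDefs
import Pool.Agent.helper81.SBX.GMu
import Pool.Agent.helper43.SBI.Defs

set_option autoImplicit false

/-!
# The quandle of integral roots modulo sixth roots of unity
-/

namespace Pool.Agent.helper81.SBX

open Module Matrix

section

variable {D V : Type} [DivisionRing D] [StarRing D] [AddCommGroup V] [Module D V]

/-- An order `O` and a lattice `L` which is stable under `O` and on which the form is integral, with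
a twist `g` of norm one. -/
structure Lat (Hm : Herm D V) (t : D) where
  /-- order -/
  O : Subring D
  /-- lattice -/
  L : AddSubgroup V
  /-- twist -/
  g : D
  t_mem : t ∈ O
  star_mem : ∀ x ∈ O, star x ∈ O
  smul_mem : ∀ a ∈ O, ∀ x ∈ L, a • x ∈ L
  herm_mem : ∀ x ∈ L, ∀ y ∈ L, Hm.H x y ∈ O
  g_mem : g ∈ O
  g_unit : g * star g = 1

variable {Hm : Herm D V} {t : D} (ht : Six D t) (Λ : Lat Hm t)

theorem Six.star_central {D : Type*} [DivisionRing D] [StarRing D] {t : D} (ht : Six D t) (x : D) :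
    star t * x = x * star t := by
  have := congrArg star (ht.central (star x))
  simpa [star_mul] using this.symm

theorem Six.star_unit {D : Type*} [DivisionRing D] [StarRing D] {t : D} (ht : Six D t) :
    star t * star (star t) = 1 := by
  rw [star_star]
  exact mul_eq_one_comm.mp ht.unit

/-- integral roots -/
def Root : Type := {X : V // X ∈ Λ.L ∧ Hm.H X X = 1}

/-- two roots are equivalent if they differ by a sixth root of unity -/
def rootSetoid : Setoid (Root Λ) where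
  r X Y := ∃ m ∈ Six.mu t, Y.1 = m • X.1
  iseqv := by
    refine ⟨fun X => ⟨1, mu_one, by simp⟩, ?_, ?_⟩
    · rintro X Y ⟨m, hm, h⟩
      refine ⟨m⁻¹, mu_inv ht hm, ?_⟩
      rw [h, smul_smul, inv_mul_cancel₀ (mu_ne_zero ht hm), one_smul]
    · rintro X Y Z ⟨m, hm, h⟩ ⟨m', hm', h'⟩
      exact ⟨m' * m, mu_mul hm' hm, by rw [h', h, smul_smul]⟩

/-- classes of integral roots -/
def RY : Type := Quotient (rootSetoid ht Λ)

/-- isometries preserving the lattice -/
def isoG : Subgroup (V ≃ₗ[D] V) where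
  carrier := {A | (∀ x y, Hm.H (A x) (A y) = Hm.H x y) ∧ ∀ x, A x ∈ Λ.L ↔ x ∈ Λ.L}
  mul_mem' := by
    rintro A B ⟨h1, h2⟩ ⟨h3, h4⟩
    exact ⟨fun x y => by simp [LinearEquiv.mul_apply, h1, h3],
      fun x => by simp [LinearEquiv.mul_apply, h2, h4]⟩
  one_mem' := ⟨fun _ _ => rfl, fun _ => Iff.rfl⟩
  inv_mem' := by
    rintro A ⟨h1, h2⟩
    refine ⟨fun x y => ?_, fun x => ?_⟩
    · have := h1 (A⁻¹ x) (A⁻¹ y)
      simpa using this.symm
    · have := h2 (A⁻¹ x)
      simpa using this.symm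

/-- action of an isometry on a root -/
def actRoot (A : isoG Λ) (X : Root Λ) : Root Λ :=
  ⟨A.1 X.1, (A.2.2 X.1).2 X.2.1, by rw [A.2.1]; exact X.2.2⟩

instance : MulAction (isoG Λ) (RY ht Λ) where
  smul A := Quotient.map' (s₁ := rootSetoid ht Λ) (s₂ := rootSetoid ht Λ) (actRoot Λ A) (by
    rintro X Y ⟨m, hm, h⟩
    refine ⟨m, hm, ?_⟩
    change A.1 Y.1 = m • A.1 X.1
    rw [h, map_smul])
  one_smul := by
    rintro ⟨X⟩
    rfl
  mul_smul := by
    rintro A B ⟨X⟩
    rfl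

/-- the reflection in an integral root -/
noncomputable def reflG (X : Root Λ) : isoG Λ :=
  ⟨Hm.reflE X.1 t X.2.2 ht.unit ht.central, Hm.reflE_isom X.1 t X.2.2 ht.unit ht.central, by
    have key : ∀ s ∈ Λ.O, ∀ x ∈ Λ.L, Hm.refl X.1 s x ∈ Λ.L := by
      intro s hs x hx
      exact Λ.L.add_mem hx (Λ.smul_mem _ (Λ.O.mul_mem (Λ.O.sub_mem hs Λ.O.one_mem)
        (Λ.herm_mem _ hx _ X.2.1)) _ X.2.1)
    intro x
    constructor
    · intro hx
      have h1 := key (star t) (Λ.star_mem _ Λ.t_mem) _ hx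
      have h2 : Hm.refl X.1 (star t) (Hm.reflE X.1 t X.2.2 ht.unit ht.central x) = x :=
        (Hm.reflE X.1 t X.2.2 ht.unit ht.central).left_inv x
      rwa [h2] at h1
    · intro hx
      exact key t Λ.t_mem x hx⟩

theorem refl_smul {g s : D} (hg : star g * g = 1) (X v : V) :
    Hm.refl (g • X) s v = Hm.refl X s v := by
  have h2 : Hm.H v (g • X) = Hm.H v X * star g := by
    rw [← Hm.herm, Hm.smul_left, star_mul, Hm.herm]
  simp only [Herm.refl, h2, smul_smul]
  congr 2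
  rw [mul_assoc, mul_assoc, hg, mul_one]

theorem reflG_smul (X Y : Root Λ) {g : D} (hg : star g * g = 1) (h : Y.1 = g • X.1) :
    reflG ht Λ Y = reflG ht Λ X := by
  apply Subtype.ext
  ext v
  change Hm.refl Y.1 t v = Hm.refl X.1 t v
  rw [h, refl_smul hg]

/-- multiplication by the twist -/
def twist (X : Root Λ) : Root Λ :=
  ⟨Λ.g • X.1, Λ.smul_mem _ Λ.g_mem _ X.2.1, by
    have h2 : Hm.H (Λ.g • X.1) (Λ.g • X.1) = Λ.g * (Hm.H X.1 X.1 * star Λ.g) := by
      rw [Hm.smul_left]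
      congr 1
      rw [← Hm.herm, Hm.smul_left, star_mul, Hm.herm]
    rw [h2, X.2.2, one_mul, Λ.g_unit]⟩

/-- the quandle of integral roots modulo sixth roots of unity -/
noncomputable def rootAQ : Pool.Agent.helper43.SBI.AQ (RY ht Λ) (isoG Λ) where
  del := Quotient.lift (s := rootSetoid ht Λ) (reflG ht Λ) (by
    rintro X Y ⟨m, hm, h⟩
    exact (reflG_smul ht Λ X Y (mu_star_mul ht hm) h).symm)
  tau := Quotient.map' (s₁ := rootSetoid ht Λ) (s₂ := rootSetoid ht Λ) (twist Λ) (by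
    rintro X Y ⟨m, hm, h⟩
    refine ⟨m, hm, ?_⟩
    change Λ.g • Y.1 = m • Λ.g • X.1
    rw [h, smul_smul, smul_smul, mu_central ht hm])
  del_smul := by
    rintro A ⟨X⟩
    apply Subtype.ext
    ext v
    change Hm.refl (A.1 X.1) t v = A.1 (Hm.refl X.1 t (A.1⁻¹ v))
    simp only [Herm.refl, map_add, map_smul]
    have h1 : A.1 (A.1⁻¹ v) = v := by
      change (A.1 * A.1⁻¹) v = v
      rw [mul_inv_cancel]
      rfl
    have h2 : Hm.H (A.1⁻¹ v) X.1 = Hm.H v (A.1 X.1) := by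
      rw [← A.2.1 (A.1⁻¹ v) X.1, h1]
    rw [h1, h2]
  del_self := by
    rintro ⟨X⟩
    apply Quotient.sound (s := rootSetoid ht Λ)
    refine ⟨t⁻¹, mu_inv ht mu_t, ?_⟩
    change X.1 = t⁻¹ • Hm.refl X.1 t X.1
    simp only [Herm.refl, X.2.2, mul_one, sub_smul, one_smul, add_sub_cancel]
    rw [smul_smul, inv_mul_cancel₀ (mu_ne_zero ht mu_t), one_smul]
  tau_smul := by
    rintro A ⟨X⟩
    apply Quotient.sound (s := rootSetoid ht Λ)
    refine ⟨1, mu_one, ?_⟩
    change A.1 (Λ.g • X.1) = (1 : D) • Λ.g • A.1 X.1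
    rw [map_smul, one_smul]
  del_tau := by
    rintro ⟨X⟩
    exact reflG_smul ht Λ X (twist Λ X) (mul_eq_one_comm.mp Λ.g_unit) rfl

/-- the sets of classes of roots in a proper subspace -/
def rootFam : Set (Set (RY ht Λ)) :=
  {A | ∃ W : Submodule D V, W ≠ ⊤ ∧
    A = {y | ∃ X : Root Λ, X.1 ∈ W ∧ y = Quotient.mk (rootSetoid ht Λ) X}}

theorem rootFam_closed : Pool.Agent.helper43.SBI.ClosedFam (rootAQ ht Λ) (rootFam ht Λ) := by
  rintro A ⟨W, hW, rfl⟩ y ⟨X, hX, rfl⟩ z ⟨Z, hZ, rfl⟩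
  constructor
  · refine ⟨actRoot Λ (reflG ht Λ Z) X, ?_, rfl⟩
    change Hm.refl Z.1 t X.1 ∈ W
    exact W.add_mem hX (W.smul_mem _ hZ)
  · refine ⟨actRoot Λ (reflG ht Λ Z)⁻¹ X, ?_, rfl⟩
    change Hm.refl Z.1 (star t) X.1 ∈ W
    exact W.add_mem hX (W.smul_mem _ hZ)

end

end Pool.Agent.helper81.SBX
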