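import Pool.Agent.helper81.SBX.RSDefs

set_option autoImplicit false

/-!
# RBasic: basic facts on relation systems and height functions

All proofs are short. Hints:
* `per_mul`, `o_per_mul`, `c_per_mul`, `sol_per_mul`: `Int.induction_on` (use `R.per`, `R.o_per`,
  `R.c_per`, `R.hτ`; for negative exponents use `j - N`).
* `upper_per`: `H` has the same value at both nodes.
* `upper_nested`: if `i ∈ S \ S'` and `k ∈ S' \ S` then `H k < H i` and `H i < H k`.
* `over_mem`: if `H j < max (H (o j)) (H (o j + 1))` the higher end of `o j` is in `S`; in the second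
  alternative `H (o j) = H j`.
* `c_cap`, `c_cup`: by `Adm.str` (the product is negative at a cap or cup and the second alternative
  is excluded by strictness).
* `Pc_sdiff_cups`: for a piece `j ∈ Pc S` the higher one of the nodes `j`, `j + 1` is in `S` (upper set,
  `Gen`) and it is not a cup.
* `res_sol`: for `j ∈ S` the pieces `j - 1`, `j` are in `Pc S`, and `o j ∈ Pc S` if `c j ≠ 0`
  (`over_mem`); periodicity by `upper_per`.
* `res_solC`: the same with `S \ cups H` (note `Pc (S \ cups H) = Pc S`; `over_mem` for `j ∈ S`).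
* `solC_to_sol`: at a cup `c z = 0`, so the relation is `mis z ξ = 0`.
* `mem_V0_iff`: `solC_to_sol` with `S = univ`, and `mis_V0`.
-/

namespace Pool.Agent.helper81.SBX

open Module

variable {D : Type*} [DivisionRing D] {R : RS D} {H H' H0 H1 : ℤ → ℝ} {S S' : Set ℤ}

theorem Pc_mono (h : S ⊆ S') : Pc S ⊆ Pc S' := by
  rintro j (hj | hj)
  · exact Or.inl (h hj)
  · exact Or.inr (h hj)

theorem per_mul (hA : R.Adm H) (j i : ℤ) : H (j + i * R.N) = H j := by
  induction i using Int.induction_on with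
  | zero => simp
  | succ k ih =>
    rw [← ih, ← hA.per (j + (k : ℤ) * R.N)]
    congr 1
    ring
  | pred k ih =>
    rw [← ih, ← hA.per (j + (-(k : ℤ) - 1) * R.N)]
    congr 1
    ring

theorem sol_per_mul {ξ : ℤ → D} (hξ : ξ ∈ R.Sol S) (j i : ℤ) :
    ξ (j + i * R.N) = ξ j * R.τ ^ i := by
  have hτ := R.hτ
  have hp : ∀ j, ξ (j + R.N) = ξ j * R.τ := hξ.1
  induction i using Int.induction_on with
  | zero => simp
  | succ k ih =>
    have h1 := hp (j + (k : ℤ) * R.N)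
    have h2 : j + (k : ℤ) * R.N + R.N = j + ((k : ℤ) + 1) * R.N := by ring
    rw [h2, ih] at h1
    rw [h1, zpow_add_one₀ hτ, mul_assoc]
  | pred k ih =>
    have h1 := hp (j + (-(k : ℤ) - 1) * R.N)
    have h2 : j + (-(k : ℤ) - 1) * R.N + R.N = j + (-(k : ℤ)) * R.N := by ring
    rw [h2, ih] at h1
    rw [zpow_sub_one₀ hτ, ← mul_assoc, h1, mul_assoc, mul_inv_cancel₀ hτ, mul_one]

theorem o_per_mul (j i : ℤ) : R.o (j + i * R.N) = R.o j + i * R.N := by
  induction i using Int.induction_on with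
  | zero => simp
  | succ k ih =>
    have h1 := R.o_per (j + (k : ℤ) * R.N)
    have h2 : j + (k : ℤ) * R.N + R.N = j + ((k : ℤ) + 1) * R.N := by ring
    rw [h2, ih] at h1
    rw [h1]
    ring
  | pred k ih =>
    have h1 := R.o_per (j + (-(k : ℤ) - 1) * R.N)
    have h2 : j + (-(k : ℤ) - 1) * R.N + R.N = j + (-(k : ℤ)) * R.N := by ring
    rw [h2, ih] at h1
    linarith

theorem c_per_mul (j i : ℤ) : R.τ ^ i * R.c (j + i * R.N) = R.c j * R.τ ^ i := by
  have hτ := R.hτ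
  induction i using Int.induction_on with
  | zero => simp
  | succ k ih =>
    have h1 := R.c_per (j + (k : ℤ) * R.N)
    have h2 : j + (k : ℤ) * R.N + R.N = j + ((k : ℤ) + 1) * R.N := by ring
    rw [h2] at h1
    rw [zpow_add_one₀ hτ, mul_assoc, h1, ← mul_assoc, ih, mul_assoc]
  | pred k ih =>
    have h1 := R.c_per (j + (-(k : ℤ) - 1) * R.N)
    have h2 : j + (-(k : ℤ) - 1) * R.N + R.N = j + (-(k : ℤ)) * R.N := by ring
    rw [h2] at h1
    have h3 : R.c (j + (-(k : ℤ) - 1) * R.N) = R.τ * R.c (j + (-(k : ℤ)) * R.N) * R.τ⁻¹ := by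
      rw [h1, mul_assoc, mul_inv_cancel₀ hτ, mul_one]
    rw [h3, zpow_sub_one₀ hτ, mul_assoc, mul_assoc R.τ, inv_mul_cancel_left₀ hτ, ← mul_assoc, ih,
      mul_assoc]

theorem upper_per (hA : R.Adm H) (hS : Upper H S) (j i : ℤ) : j + i * R.N ∈ S ↔ j ∈ S := by
  constructor
  · intro h
    exact hS _ h _ (le_of_eq (per_mul hA j i))
  · intro h
    exact hS _ h _ (le_of_eq (per_mul hA j i).symm)

theorem Pc_per (hA : R.Adm H) (hS : Upper H S) (j i : ℤ) : j + i * R.N ∈ Pc S ↔ j ∈ Pc S := by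
  have h1 := upper_per hA hS j i
  have h2 := upper_per hA hS (j + 1) i
  have e : j + i * R.N + 1 = j + 1 + i * R.N := by ring
  simp only [Pc, Set.mem_ofPred_eq]
  rw [e, h1, h2]

theorem upper_ref (hR : Ref H0 H) (hS : Upper H0 S) : Upper H S := by
  intro i hi j hij
  by_contra hj
  have h1 : H0 j < H0 i := by
    by_contra h
    exact hj (hS i hi j (not_lt.mp h))
  exact absurd (hR j i h1) (not_lt.mpr hij)

theorem ref_refl (H : ℤ → ℝ) : Ref H H := fun _ _ h => h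

theorem ref_trans {H2 : ℤ → ℝ} (h : Ref H0 H1) (h' : Ref H1 H2) : Ref H0 H2 :=
  fun i j hij => h' i j (h i j hij)

theorem upper_nested (hS : Upper H S) (hS' : Upper H S') : S ⊆ S' ∨ S' ⊆ S := by
  by_contra hcon
  rw [not_or, Set.not_subset, Set.not_subset] at hcon
  obtain ⟨⟨i, hi, hi'⟩, ⟨k, hk, hk'⟩⟩ := hcon
  rcases le_total (H i) (H k) with h | h
  · exact hk' (hS i hi k h)
  · exact hi' (hS' k hk i h)

theorem upper_gt (H : ℤ → ℝ) (y : ℝ) : Upper H {j | y < H j} :=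
  fun _ hi _ hij => lt_of_lt_of_le hi hij

theorem upper_ge (H : ℤ → ℝ) (y : ℝ) : Upper H {j | y ≤ H j} :=
  fun _ hi _ hij => le_trans hi hij

/-- the over piece of a node of an upper set touches the upper set -/
theorem over_mem (hA : R.Adm H) (hS : Upper H S) {j : ℤ} (hj : j ∈ S) (hc : R.c j ≠ 0) :
    R.o j ∈ Pc S := by
  rcases hA.ov j hc with h | h
  · rcases lt_max_iff.mp h with h | h
    · exact Or.inl (hS j hj _ h.le)
    · exact Or.inr (hS j hj _ h.le)
  · exact Or.inl (hS j hj _ h.1.symm.le)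

/-- for generic `H` the over piece reaches strictly above the node -/
theorem over_gt (hA : R.Adm H) (hG : Gen H) {j : ℤ} (hc : R.c j ≠ 0) :
    H j < max (H (R.o j)) (H (R.o j + 1)) := by
  rcases hA.ov j hc with h | h
  · exact h
  · exact absurd (h.1.trans h.2.1.symm) (hG (R.o j))

theorem c_cap (hA : R.Adm H) {j : ℤ} (hj : IsCap H j) : R.c j = 0 := by
  by_contra hc
  obtain ⟨h1, h2⟩ := hj
  rcases hA.str j hc with h | h
  · nlinarith [mul_pos (sub_pos.mpr h1) (sub_pos.mpr h2)]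
  · exact absurd h.1 h1.ne

theorem c_cup (hA : R.Adm H) {j : ℤ} (hj : IsCup H j) : R.c j = 0 := by
  by_contra hc
  obtain ⟨h1, h2⟩ := hj
  rcases hA.str j hc with h | h
  · nlinarith [mul_pos (sub_pos.mpr h1) (sub_pos.mpr h2)]
  · exact absurd h.1 h1.ne'

theorem cap_per (hA : R.Adm H) (j i : ℤ) : IsCap H (j + i * R.N) ↔ IsCap H j := by
  have e1 : j + i * R.N - 1 = j - 1 + i * R.N := by ring
  have e2 : j + i * R.N + 1 = j + 1 + i * R.N := by ring
  unfold IsCap
  rw [e1, e2, per_mul hA, per_mul hA, per_mul hA]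

theorem cup_per (hA : R.Adm H) (j i : ℤ) : IsCup H (j + i * R.N) ↔ IsCup H j := by
  have e1 : j + i * R.N - 1 = j - 1 + i * R.N := by ring
  have e2 : j + i * R.N + 1 = j + 1 + i * R.N := by ring
  unfold IsCup
  rw [e1, e2, per_mul hA, per_mul hA, per_mul hA]

theorem res_apply_of_mem {ξ : ℤ → D} {j : ℤ} (hj : j ∈ Pc S) : res S ξ j = ξ j := by
  classical
  exact if_pos hj

theorem res_apply_of_notMem {ξ : ℤ → D} {j : ℤ} (hj : j ∉ Pc S) : res S ξ j = 0 := by
  classical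
  exact if_neg hj

theorem res_res (h : S ⊆ S') (ξ : ℤ → D) : res S (res S' ξ) = res S ξ := by
  funext j
  by_cases hj : j ∈ Pc S
  · rw [res_apply_of_mem hj, res_apply_of_mem hj, res_apply_of_mem (Pc_mono h hj)]
  · rw [res_apply_of_notMem hj, res_apply_of_notMem hj]

theorem Pc_sdiff_cups (hG : Gen H) (hS : Upper H S) : Pc (S \ cups H) = Pc S := by
  apply Set.Subset.antisymm (Pc_mono Set.sdiff_subset)
  intro j hj
  rcases lt_or_gt_of_ne (hG j) with h | h
  · -- the node `j + 1` is higher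
    have hm : j + 1 ∈ S := by
      rcases hj with hj | hj
      · exact hS j hj _ h.le
      · exact hj
    refine Or.inr ⟨hm, ?_⟩
    intro hc
    have h1 : H (j + 1) < H (j + 1 - 1) := hc.1
    rw [add_sub_cancel_right] at h1
    exact absurd h1 (not_lt.mpr h.le)
  · have hm : j ∈ S := by
      rcases hj with hj | hj
      · exact hj
      · exact hS _ hj _ h.le
    refine Or.inl ⟨hm, ?_⟩
    intro hc
    have h1 : H j < H (j + 1) := hc.2
    exact absurd h1 (not_lt.mpr h.le)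

theorem compl_cups : (cups H)ᶜ = Set.univ \ cups H := Set.compl_eq_univ_sdiff _

/-- the pieces `j - 1` and `j` touch `S` if `j ∈ S` -/
theorem mem_Pc_self {j : ℤ} (hj : j ∈ S) : j ∈ Pc S := Or.inl hj

theorem mem_Pc_pred {j : ℤ} (hj : j ∈ S) : j - 1 ∈ Pc S := by
  refine Or.inr ?_
  rw [sub_add_cancel]
  exact hj

/-- truncation keeps the relation at a node of the upper set -/
theorem res_rel (hA : R.Adm H) (hS : Upper H S) {ξ : ℤ → D} {j : ℤ} (hj : j ∈ S)
    (h : R.Rel ξ j) : R.Rel (res S ξ) j := by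
  unfold RS.Rel at *
  rw [res_apply_of_mem (mem_Pc_self hj), res_apply_of_mem (mem_Pc_pred hj)]
  by_cases hc : R.c j = 0
  · rw [hc, mul_zero] at h
    rw [hc, mul_zero]
    exact h
  · rw [res_apply_of_mem (over_mem hA hS hj hc)]
    exact h

theorem res_qper (hA : R.Adm H) (hS : Upper H S) {ξ : ℤ → D}
    (h : ∀ j, ξ (j + R.N) = ξ j * R.τ) (j : ℤ) :
    res S ξ (j + R.N) = res S ξ j * R.τ := by
  have hp := Pc_per hA hS j 1
  rw [one_mul] at hp
  by_cases hj : j ∈ Pc S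
  · rw [res_apply_of_mem hj, res_apply_of_mem (hp.mpr hj), h]
  · rw [res_apply_of_notMem hj, res_apply_of_notMem (fun h' => hj (hp.mp h')), zero_mul]

theorem upper_univ (H : ℤ → ℝ) : Upper H Set.univ := fun _ _ _ _ => Set.mem_univ _

theorem res_sol (hA : R.Adm H) (hS : Upper H S) (hSS : S ⊆ S') {ξ : ℤ → D}
    (hξ : ξ ∈ R.Sol S') : res S ξ ∈ R.Sol S :=
  ⟨res_qper hA hS hξ.1, fun _ hj => res_apply_of_notMem hj,
    fun j hj => res_rel hA hS hj (hξ.2.2 j (hSS hj))⟩

theorem res_solC (hA : R.Adm H) (hG : Gen H) (hS : Upper H S) (hSS : S ⊆ S') {ξ : ℤ → D}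
    (hξ : ξ ∈ R.Sol (S' \ cups H)) : res S ξ ∈ R.Sol (S \ cups H) :=
  ⟨res_qper hA hS hξ.1,
    fun j hj => res_apply_of_notMem (by rwa [Pc_sdiff_cups hG hS] at hj),
    fun j hj => res_rel hA hS hj.1 (hξ.2.2 j ⟨hSS hj.1, hj.2⟩)⟩

theorem res_T (hA : R.Adm H) (hG : Gen H) (hS : Upper H S) {ξ : ℤ → D}
    (hξ : ξ ∈ R.T H) : res S ξ ∈ R.Sol (S \ cups H) := by
  unfold RS.T at hξ
  rw [compl_cups] at hξ
  exact res_solC hA hG hS (Set.subset_univ S) hξ

theorem sol_le_solC (hG : Gen H) (hS : Upper H S) : R.Sol S ≤ R.Sol (S \ cups H) := by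
  intro ξ hξ
  refine ⟨hξ.1, fun j hj => hξ.2.1 j ?_, fun j hj => hξ.2.2 j hj.1⟩
  rwa [Pc_sdiff_cups hG hS] at hj

/-- at a node with vanishing coefficient the relation says that the mismatch vanishes -/
theorem rel_iff_mis {z : ℤ} (hc : R.c z = 0) (ξ : ℤ → D) : R.Rel ξ z ↔ mis z ξ = 0 := by
  unfold RS.Rel mis
  rw [hc, mul_zero, add_zero, sub_eq_zero]
  exact eq_comm

/-- a solution on `S` minus the cups whose mismatches vanish is a solution on `S` -/
theorem solC_to_sol (hA : R.Adm H) (hG : Gen H) (hS : Upper H S) {ξ : ℤ → D}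
    (hξ : ξ ∈ R.Sol (S \ cups H)) (h : ∀ z ∈ S, IsCup H z → mis z ξ = 0) : ξ ∈ R.Sol S := by
  refine ⟨hξ.1, fun j hj => hξ.2.1 j ?_, fun j hj => ?_⟩
  · rwa [Pc_sdiff_cups hG hS]
  · by_cases hc : j ∈ cups H
    · exact (rel_iff_mis (c_cup hA hc) ξ).mpr (h j hj hc)
    · exact hξ.2.2 j ⟨hj, hc⟩

theorem mis_res {z : ℤ} (hzS : z ∈ S) (ξ : ℤ → D) : mis z (res S ξ) = mis z ξ := by
  unfold mis
  rw [res_apply_of_mem (mem_Pc_self hzS), res_apply_of_mem (mem_Pc_pred hzS)]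

theorem mis_V0 (hA : R.Adm H) {z : ℤ} (hz : IsCup H z) {v : ℤ → D} (hv : v ∈ R.V0) :
    mis z v = 0 :=
  (rel_iff_mis (c_cup hA hz) v).mp (hv.2.2 z (Set.mem_univ z))

theorem mis_sol (hA : R.Adm H) {z : ℤ} (hz : IsCup H z) (hzS : z ∈ S) {ζ : ℤ → D}
    (hζ : ζ ∈ R.Sol S) : mis z ζ = 0 :=
  (rel_iff_mis (c_cup hA hz) ζ).mp (hζ.2.2 z hzS)

theorem mis_add (z : ℤ) (ξ η : ℤ → D) : mis z (ξ + η) = mis z ξ + mis z η := by
  simp only [mis, Pi.add_apply]
  abel

theorem mis_sub (z : ℤ) (ξ η : ℤ → D) : mis z (ξ - η) = mis z ξ - mis z η := by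
  simp only [mis, Pi.sub_apply]
  abel

theorem mis_smul (z : ℤ) (a : D) (ξ : ℤ → D) : mis z (a • ξ) = a * mis z ξ := by
  simp only [mis, Pi.smul_apply, smul_eq_mul, mul_sub]

theorem mis_per {ξ : ℤ → D} (hξ : ξ ∈ R.Sol S) (z i : ℤ) :
    mis (z + i * R.N) ξ = mis z ξ * R.τ ^ i := by
  unfold mis
  have e : z + i * R.N - 1 = z - 1 + i * R.N := by ring
  rw [e, sol_per_mul hξ, sol_per_mul hξ, sub_mul]

theorem Pc_univ : Pc (Set.univ : Set ℤ) = Set.univ := by
  ext j
  simp [Pc]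

theorem Pc_compl_cups (H : ℤ → ℝ) : Pc (cups H)ᶜ = Set.univ := by
  apply Set.eq_univ_of_forall
  intro j
  by_contra hj
  simp only [Pc, Set.mem_compl_iff, Set.mem_ofPred_eq, not_or, not_not] at hj
  have h1 : H j < H (j + 1) := hj.1.2
  have h2 : H (j + 1) < H (j + 1 - 1) := hj.2.1
  rw [add_sub_cancel_right] at h2
  exact lt_asymm h1 h2

theorem V0_le_T (R : RS D) (H : ℤ → ℝ) : R.V0 ≤ R.T H := by
  intro ξ hξ
  refine ⟨hξ.1, fun j hj => ?_, fun j _ => hξ.2.2 j (Set.mem_univ j)⟩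
  rw [Pc_compl_cups] at hj
  exact absurd (Set.mem_univ j) hj

theorem res_V0_mem (hA : R.Adm H) (hS : Upper H S) {v : ℤ → D} (hv : v ∈ R.V0) :
    res S v ∈ R.Sol S := res_sol hA hS (Set.subset_univ S) hv

theorem mem_V0_iff (hA : R.Adm H) (hG : Gen H) {ξ : ℤ → D} (hξ : ξ ∈ R.T H) :
    ξ ∈ R.V0 ↔ ∀ z, IsCup H z → mis z ξ = 0 := by
  constructor
  · intro h z hz
    exact mis_V0 hA hz h
  · intro h
    unfold RS.T at hξ
    rw [compl_cups] at hξ
    exact solC_to_sol hA hG (upper_univ H) hξ (fun z _ hz => h z hz)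

end Pool.Agent.helper81.SBX
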