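import Pool.Agent.helper81.SBX.ROne
import Pool.Agent.helper81.SBX.RRun

set_option autoImplicit false

/-!
# RC3: top cups over a height function of type II

PROOFS. Let `y = H0 z`, `S = {j | y < H0 j}` (upper for `H0` and `H`). Note `i ∈ Pc S ↔ y < max (H0 i) (H0 (i + 1))`.
* `c3_step`: for `ξ ∈ T H` with `mis z' ξ ≠ 0`: cups in `S` have `H z < H`, so they are not effective; `res S ξ ∈ Sol S`
  (`sol_of_not_eff`). Type II: `res S ξ = res S v` with `v ∈ V0`. Then `f = ξ - v ∈ T H` vanishes on `Pc S` and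
  `mis z' f = mis z' ξ ≠ 0`.
* `c3`: `f0` from `c3_step` with `z' = z`. One of `f0 (z - 1)`, `f0 z` is nonzero; by `left_of_cup` / `right_of_cup` there is a
  cap `M` with `AdjIn H0 H M z`. Let `f` be a unit function of `M` (`H0 M = H0 z`, so it vanishes above `y`: `unit_vanish`).
  `mis z f = ± 1` (`unit_mis_adj`), so `f ∉ V0` and every `ξ ∈ T H` is `a • f + v` (`one_dim`). For an effective cup `z'` with
  `H0 z' = y`: `mis z' f ≠ 0` (otherwise `mis z' = 0` on `T H`), so `AdjIn H0 H (M + i * N) z'` for some `i` (`adj_of_mis`), and then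
  `AdjIn H0 H M (z' - i * N)` (`adjIn_shift`).
* `c3_compare`: both `z` and `z' + i * N` are adjacent to `M`, so they are in the same run; for `ξ = a • f + v`:
  `mis z ξ = a * (± 1)`, `mis (z' + i * N) ξ = a * (± 1)` with signs not depending on `ξ` (`unit_mis_adj`).
-/

namespace Pool.Agent.helper81.SBX

open Module

variable {D : Type*} [DivisionRing D] {R : RS D} {H H' H0 H1 : ℤ → ℝ} {S S' : Set ℤ}

theorem c3_step (hA0 : R.Adm H0) (h2 : ¬ R.Typ1 H0) (hg : Good3 R H) (hR : Ref H0 H) {z z' : ℤ}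
    (hz : R.TopCup H z) (hz' : R.Eff H z') :
    ∃ f ∈ R.T H, VanAb H0 (H0 z) f ∧ mis z' f ≠ 0 := by
  obtain ⟨ξ, hξ, hne⟩ := hz'.2
  have hU0 : Upper H0 {j | H0 z < H0 j} := upper_gt H0 (H0 z)
  have hU : Upper H {j | H0 z < H0 j} := upper_ref hR hU0
  have hres : res {j | H0 z < H0 j} ξ ∈ R.Sol {j | H0 z < H0 j} := by
    refine sol_of_not_eff hg.adm hg.gen hU (fun w hw he => ?_) hξ
    have h1 : H z < H w := hR z w hw
    exact absurd (hz.2 w he) (not_le.mpr h1)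
  have hex : ∃ v ∈ R.V0, res {j | H0 z < H0 j} v = res {j | H0 z < H0 j} ξ := by
    by_contra hcon
    push Not at hcon
    exact h2 ⟨_, hU0, _, hres, hcon⟩
  obtain ⟨v, hv, hvr⟩ := hex
  refine ⟨ξ - v, (R.T H).sub_mem hξ (V0_le_T R H hv), ?_, ?_⟩
  · intro i hi
    have hi' : i ∈ Pc {j | H0 z < H0 j} := by
      rcases lt_max_iff.mp hi with h | h
      · exact Or.inl h
      · exact Or.inr h
    have e := congrFun hvr i
    rw [res_apply_of_mem hi', res_apply_of_mem hi'] at e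
    rw [Pi.sub_apply, e, sub_self]
  · rw [mis_sub, mis_V0 hg.adm hz'.1 hv, sub_zero]
    exact hne

/-- C3 : there is a cap `M` adjacent to the top cup `z`; every effective cup on the same level is,
after a shift, adjacent to `M`; `V0` and the unit function of `M` span `T H`. -/
theorem c3 (hA0 : R.Adm H0) (hn : ∃ i j, H0 i ≠ H0 j) (h2 : ¬ R.Typ1 H0) (hg : Good3 R H)
    (hR : Ref H0 H) {z : ℤ} (hz : R.TopCup H z) :
    ∃ M, AdjIn H0 H M z ∧
      (∀ z', R.Eff H z' → H0 z' = H0 z → ∃ i : ℤ, AdjIn H0 H M (z' + i * R.N)) ∧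
      ∀ f, IsUnitFn R H M f → f ∉ R.V0 ∧ ∀ ξ ∈ R.T H, ∃ a : D, ξ - a • f ∈ R.V0 := by
  obtain ⟨f0, hf0, hv0, hm0⟩ := c3_step hA0 h2 hg hR hz hz.1
  have hM : ∃ M, AdjIn H0 H M z := by
    by_cases hr : f0 z = 0
    · have hl : f0 (z - 1) ≠ 0 := by
        intro hl
        apply hm0
        simp only [mis, hl, hr, sub_self]
      rcases left_of_cup hA0 hg.adm hg.gen hR hn hz.1.1 with ⟨M, hM, _, _⟩ | ⟨a, _, _, _, h⟩
      · exact ⟨M, hM⟩
      · exact absurd (h f0 hf0 hv0) hl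
    · rcases right_of_cup hA0 hg.adm hg.gen hR hn hz.1.1 with ⟨M, hM, _, _⟩ | ⟨b, _, _, _, h⟩
      · exact ⟨M, hM⟩
      · exact absurd (h f0 hf0 hv0) hr
  obtain ⟨M, hM⟩ := hM
  have hlev : H0 M = H0 z := (hM.2.2.2 z (min_le_right _ _) (le_max_right _ _)).symm
  have hunit : ∀ f, IsUnitFn R H M f → f ∉ R.V0 ∧ ∀ ξ ∈ R.T H, ∃ a : D, ξ - a • f ∈ R.V0 := by
    intro f hf
    have h1 : f ∉ R.V0 := by
      intro hfv
      have e1 := unit_mis_adj hA0 hg.adm hg.gen hR hn hM hf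
      rw [mis_V0 hg.adm hz.1.1 hfv] at e1
      split_ifs at e1
      · exact zero_ne_one e1
      · exact one_ne_zero (neg_eq_zero.mp e1.symm)
    exact ⟨h1, fun ξ hξ => one_dim hg hf.mem hξ h1⟩
  refine ⟨M, hM, ?_, hunit⟩
  intro z' hz' hy
  obtain ⟨f, hf, -⟩ := exists_unit (R := R) hg.adm hg.gen hM.1
  have hmis : mis z' f ≠ 0 := by
    intro h0
    obtain ⟨ξ, hξ, hne⟩ := hz'.2
    obtain ⟨a, ha⟩ := (hunit f hf).2 ξ hξ
    have e := mis_V0 hg.adm hz'.1 ha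
    rw [mis_sub, mis_smul, h0, mul_zero, sub_zero] at e
    exact hne e
  have hvan : VanAb H0 (H0 z') f := unit_vanish hg.adm hg.gen hR (hlev.trans hy.symm) hf
  obtain ⟨i, hi⟩ := adj_of_mis hA0 hg.adm hg.gen hR hn hz'.1 hf.mem hvan hf.zero hmis
  refine ⟨-i, ?_⟩
  have hs := adjIn_shift hA0 hg.adm hi (-i)
  have e : M + i * (R.N : ℤ) + -i * (R.N : ℤ) = M := by ring
  rwa [e] at hs

/-- C3, comparison of two effective cups -/
theorem c3_compare (hA0 : R.Adm H0) (hn : ∃ i j, H0 i ≠ H0 j) (h2 : ¬ R.Typ1 H0)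
    (hg : Good3 R H) (hR : Ref H0 H) {z z' : ℤ} (hz : R.TopCup H z) (hz' : R.Eff H z')
    (hy : H0 z' = H0 z) :
    ∃ i : ℤ, SameRun H0 (z' + i * R.N) z ∧
      ((∀ ξ ∈ R.T H, mis (z' + i * R.N) ξ = mis z ξ) ∨
       (∀ ξ ∈ R.T H, mis (z' + i * R.N) ξ = - mis z ξ)) := by
  obtain ⟨M, hM, hall, hunit⟩ := c3 hA0 hn h2 hg hR hz
  obtain ⟨i, hi⟩ := hall z' hz' hy
  refine ⟨i, sameRun_trans (sameRun_symm hi.2.2.2) hM.2.2.2, ?_⟩
  obtain ⟨f, hf, -⟩ := exists_unit (R := R) hg.adm hg.gen hM.1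
  have key : ∀ w, AdjIn H0 H M w → ∀ ξ (a : D), ξ - a • f ∈ R.V0 →
      mis w ξ = if M < w then a else -a := by
    intro w hw ξ a ha
    have e := mis_V0 hg.adm hw.2.1 ha
    rw [mis_sub, mis_smul, unit_mis_adj hA0 hg.adm hg.gen hR hn hw hf, sub_eq_zero] at e
    rw [e]
    split_ifs
    · rw [mul_one]
    · rw [mul_neg, mul_one]
  by_cases h1 : M < z <;> by_cases h3 : M < z' + i * R.N
  · left
    intro ξ hξ
    obtain ⟨a, ha⟩ := (hunit f hf).2 ξ hξ
    rw [key _ hi ξ a ha, key _ hM ξ a ha, if_pos h1, if_pos h3]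
  · right
    intro ξ hξ
    obtain ⟨a, ha⟩ := (hunit f hf).2 ξ hξ
    rw [key _ hi ξ a ha, key _ hM ξ a ha, if_pos h1, if_neg h3]
  · right
    intro ξ hξ
    obtain ⟨a, ha⟩ := (hunit f hf).2 ξ hξ
    rw [key _ hi ξ a ha, key _ hM ξ a ha, if_neg h1, if_pos h3, neg_neg]
  · left
    intro ξ hξ
    obtain ⟨a, ha⟩ := (hunit f hf).2 ξ hξ
    rw [key _ hi ξ a ha, key _ hM ξ a ha, if_neg h1, if_neg h3]

end Pool.Agent.helper81.SBX
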