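import Pool.Agent.helper81.SBX.RC3

set_option autoImplicit false

/-!
# RC4A: first half of C4

Setting: `H0` of type II, `H1` refines `H0` and is of type I with the upper set `S` (`ζ ∈ Sol S`, `ζ ∉ res S V0`), `H`
generic refines `H1`, `z` a top cup of `H`.

PROOFS.
* `c4_level`: `z ∉ S` by `not_eff_of_typ1`. Let `Sp = {j | H0 z < H0 j}`, `Sm = {j | H0 z ≤ H0 j}`, upper for `H0`, hence for `H1`.
  `S ⊆ Sp` is impossible: take `ξ ∈ T H` with `res S ξ = ζ` (`typ1_main`); cups in `Sp` are higher than `z`, not effective, so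
  `res Sp ξ ∈ Sol Sp` (`sol_of_not_eff`), type II gives `v ∈ V0` with `res Sp ξ = res Sp v`, and restricting to `S`
  (`res_res`), `ζ = res S v`, contradiction. So `Sp ⊆ S` (`upper_nested`) and there is `j ∈ S`, `j ∉ Sp`, i.e. `H0 j ≤ H0 z`.
  `Sm ⊆ S` is impossible (`z ∈ Sm`, `z ∉ S`), so `S ⊆ Sm`; hence `H0 j = H0 z`.
* `c4_pair`: `M`, `f` as in `c3` (`f` unit function of `M`, `AdjIn H0 H M z`). `M ∈ S`, otherwise `res S f = 0`
  (`IsUnitFn.res_of_notMem`) and `typ1_main` (3) with `v = 0` gives `f ∈ V0`, contradiction (`c3`). `p := M`, `f p = 1`, `p ∈ Pc S`.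
  Suppose `M < z` (other case symmetric, with `left_of_cup`). Apply `right_of_cup` at `z`:
  - first alternative: a cap `M2 > z`, `AdjIn H0 H M2 z`. `M2` is not `M + i * N` (`run_shift_eq`), so `f M2 = 0`. `M2 ∈ S`: otherwise
    let `f2` be a unit function of `M2`; `mis z (f + f2) = 1 + (-1) = 0` (`unit_mis_adj`: `M < z`, not `M2 < z`), so `f + f2 ∈ V0`
    (`mem_V0_of_mis`), and `res S f = res S (f + f2)` as `res S f2 = 0`; `typ1_main` (3) gives `f ∈ V0`, contradiction. Put `p' = M2`.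
  - second alternative: `b ≥ z` in the run with `H0 b < H0 (b + 1)`; `b + 1 ∈ Sp ⊆ S` (`c4_level`), so `b ∈ Pc S`, and `f b = 0`
    because `f` vanishes above the level (`unit_vanish`). Put `p' = b`.
  The nodes `j` with `min p p' < j ≤ max p p'` are in the run of `z`. (For `z < M`: `p' = M2 < z`, or `p' = a - 1` with `H0 a < H0 (a - 1)`;
  again the nodes `j` with `min p p' < j ≤ max p p'` are in the run.)
-/

namespace Pool.Agent.helper81.SBX

open Module

variable {D : Type*} [DivisionRing D] {R : RS D} {H H' H0 H1 : ℤ → ℝ} {S S' : Set ℤ}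

theorem c4_level (hA0 : R.Adm H0) (h2 : ¬ R.Typ1 H0) (hA1 : R.Adm H1) (h01 : Ref H0 H1)
    (hS : Upper H1 S) {ζ : ℤ → D} (hζ : ζ ∈ R.Sol S) (hne : ∀ v ∈ R.V0, res S v ≠ ζ)
    (hg : Good3 R H) (hR : Ref H1 H) {z : ℤ} (hz : R.TopCup H z) :
    {j | H0 z < H0 j} ⊆ S ∧ (∃ j ∈ S, H0 j = H0 z) ∧ S ⊆ {j | H0 z ≤ H0 j} ∧ z ∉ S := by
  have hR0 : Ref H0 H := ref_trans h01 hR
  have hzS : z ∉ S := not_eff_of_typ1 hA1 hg hR hS hζ hne hz.1
  have hUp : Upper H1 {j | H0 z < H0 j} := upper_ref h01 (upper_gt H0 (H0 z))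
  have hUm : Upper H1 {j | H0 z ≤ H0 j} := upper_ref h01 (upper_ge H0 (H0 z))
  have hSm : S ⊆ {j | H0 z ≤ H0 j} := by
    rcases upper_nested hS hUm with h | h
    · exact h
    · exact absurd (h (show z ∈ {j | H0 z ≤ H0 j} from le_refl (H0 z))) hzS
  have hnot : ¬ S ⊆ {j | H0 z < H0 j} := by
    intro hsub
    obtain ⟨-, -, -, h7⟩ := typ1_main hA1 hg hR hS hζ hne
    obtain ⟨ξ, hξ, hres, -⟩ := h7 ζ hζ
    have hsol : res {j | H0 z < H0 j} ξ ∈ R.Sol {j | H0 z < H0 j} := by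
      refine sol_of_not_eff hg.adm hg.gen (upper_ref hR hUp) ?_ hξ
      intro z' hz' heff
      exact absurd (hz.2 z' heff) (not_le.2 (hR0 _ _ hz'))
    by_contra _
    apply h2
    refine ⟨{j | H0 z < H0 j}, upper_gt H0 (H0 z), res {j | H0 z < H0 j} ξ, hsol, ?_⟩
    intro v hv heq
    refine hne v hv ?_
    rw [← res_res hsub v, heq, res_res hsub, hres]
  refine ⟨?_, ?_, hSm, hzS⟩
  · rcases upper_nested hS hUp with h | h
    · exact absurd h hnot
    · exact h
  · rw [Set.not_subset] at hnot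
    obtain ⟨j, hj, hj'⟩ := hnot
    exact ⟨j, hj, le_antisymm (not_lt.1 hj') (hSm hj)⟩

theorem sameRun_between {a b j z : ℤ} (h : SameRun H0 a b) (hz : SameRun H0 a z)
    (h1 : min a b ≤ j) (h2 : j ≤ max a b) : SameRun H0 j z :=
  sameRun_trans (sameRun_symm (sameRun_mid h h1 h2)) hz

/-- two visible pieces near the run of `z`, one with value `1` and one with value `0` -/
theorem c4_pair (hA0 : R.Adm H0) (hn : ∃ i j, H0 i ≠ H0 j) (h2 : ¬ R.Typ1 H0)
    (hA1 : R.Adm H1) (h01 : Ref H0 H1)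
    (hS : Upper H1 S) {ζ : ℤ → D} (hζ : ζ ∈ R.Sol S) (hne : ∀ v ∈ R.V0, res S v ≠ ζ)
    (hg : Good3 R H) (hR : Ref H1 H) {z : ℤ} (hz : R.TopCup H z) {M : ℤ} {f : ℤ → D}
    (hM : AdjIn H0 H M z) (hf : IsUnitFn R H M f) (hfV : f ∉ R.V0) :
    ∃ p p' : ℤ, p ∈ Pc S ∧ p' ∈ Pc S ∧ f p = 1 ∧ f p' = 0 ∧
      ∀ j, min p p' < j → j ≤ max p p' → SameRun H0 j z := by
  have hR0 : Ref H0 H := ref_trans h01 hR
  obtain ⟨hSp, -, -, -⟩ := c4_level hA0 h2 hA1 h01 hS hζ hne hg hR hz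
  obtain ⟨-, -, h6, -⟩ := typ1_main hA1 hg hR hS hζ hne
  have hSH : Upper H S := upper_ref hR hS
  have hMS : M ∈ S := by
    by_contra hc
    have h8 := IsUnitFn.res_of_notMem hg.adm hg.gen hSH hf hc
    exact hfV (h6 f hf.mem 0 (zero_mem _) (by rw [h8, map_zero]))
  have hrun := hM.2.2.2
  have hM0 : H0 M = H0 z := (hrun z (min_le_right _ _) (le_max_right _ _)).symm
  have hvan := unit_vanish hg.adm hg.gen hR0 hM0 hf
  have hzero : ∀ M2, AdjIn H0 H M2 z → M2 ≠ M → f M2 = 0 := by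
    intro M2 h' hne'
    refine hf.zero M2 h'.1 ?_
    rintro ⟨i, hi⟩
    have hs : SameRun H0 M M2 := sameRun_trans hrun (sameRun_symm h'.2.2.2)
    rw [hi] at hs
    have := run_shift_eq hA0 hn hs
    rw [this, zero_mul, add_zero] at hi
    exact hne' hi
  have hmem : ∀ M2, AdjIn H0 H M2 z → ¬ (M < z ↔ M2 < z) → M2 ∈ S := by
    intro M2 h' hside
    by_contra hc
    obtain ⟨f2, hf2, -⟩ := exists_unit hg.adm hg.gen h'.1
    have e1 := unit_mis_adj hA0 hg.adm hg.gen hR0 hn hM hf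
    have e2 := unit_mis_adj hA0 hg.adm hg.gen hR0 hn h' hf2
    have e3 : mis z (f + f2) = 0 := by
      rw [mis_add, e1, e2]
      by_cases h3 : M < z
      · have h4 : ¬ M2 < z := fun h5 => hside ⟨fun _ => h5, fun _ => h3⟩
        rw [if_pos h3, if_neg h4, add_neg_cancel]
      · have h4 : M2 < z := by
          by_contra h5
          exact hside ⟨fun h => absurd h h3, fun h => absurd h h5⟩
        rw [if_neg h3, if_pos h4, neg_add_cancel]
    have hV : f + f2 ∈ R.V0 := mem_V0_of_mis hg hz.1 (add_mem hf.mem hf2.mem) e3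
    have h8 := IsUnitFn.res_of_notMem hg.adm hg.gen hSH hf2 hc
    exact hfV (h6 f hf.mem (f + f2) hV (by rw [map_add, h8, add_zero]))
  rcases hM.2.2.1 with ⟨hlt, -⟩ | ⟨hlt, -⟩
  · rcases right_of_cup hA0 hg.adm hg.gen hR0 hn hz.1.1 with
      ⟨M2, h', hd, -⟩ | ⟨b, hzb, hsb, hb, -⟩
    · have hzM2 := hd.1
      refine ⟨M, M2, Or.inl hMS, Or.inl (hmem M2 h' (by omega)), hf.one,
        hzero M2 h' (by omega), ?_⟩
      intro j h1 h3
      have hs : SameRun H0 M M2 := sameRun_trans hrun (sameRun_symm h'.2.2.2)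
      exact sameRun_between hs hrun h1.le h3
    · have hb0 : H0 b = H0 z := hsb b (by omega) (by omega)
      have hbS : b + 1 ∈ S := hSp (show H0 z < H0 (b + 1) by rw [← hb0]; exact hb)
      refine ⟨M, b, Or.inl hMS, Or.inr hbS, hf.one,
        hvan b (lt_max_of_lt_right (by rw [← hb0]; exact hb)), ?_⟩
      intro j h1 h3
      have hs : SameRun H0 M b := sameRun_trans hrun hsb
      exact sameRun_between hs hrun h1.le h3
  · rcases left_of_cup hA0 hg.adm hg.gen hR0 hn hz.1.1 with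
      ⟨M2, h', hd, -⟩ | ⟨a, haz, hsa, ha, -⟩
    · have hzM2 := hd.1
      refine ⟨M, M2, Or.inl hMS, Or.inl (hmem M2 h' (by omega)), hf.one,
        hzero M2 h' (by omega), ?_⟩
      intro j h1 h3
      have hs : SameRun H0 M M2 := sameRun_trans hrun (sameRun_symm h'.2.2.2)
      exact sameRun_between hs hrun h1.le h3
    · have ha0 : H0 a = H0 z := (hsa z (by omega) (by omega)).symm
      have haS : a - 1 ∈ S := hSp (show H0 z < H0 (a - 1) by rw [← ha0]; exact ha)
      refine ⟨M, a - 1, Or.inl hMS, Or.inl haS, hf.one,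
        hvan (a - 1) (lt_max_of_lt_left (by rw [← ha0]; exact ha)), ?_⟩
      intro j h1 h3
      have hs : SameRun H0 a M := sameRun_trans hsa (sameRun_symm hrun)
      exact sameRun_between hs hsa (by omega) (by omega)

end Pool.Agent.helper81.SBX
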