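import Pool.Agent.helper81.SBX.ROne
import Pool.Agent.helper81.SBX.RRun

set_option autoImplicit false

/-!
# RC6: an adjacent pair (cap, cup) inside a run of `H0` forces type II (C6, C8)

PROOFS. Let `f` be a unit function of `M` (`exists_unit`); `H0 M = H0 z`; `f` vanishes above the level `H0 z`
(`unit_vanish`) and `mis z f = ± 1` (`unit_mis_adj`).
* `c6`: `z` is effective. Let `K = ker (mis z)` inside `T H`; `mis z` maps `T H` onto `D` (left linear, `mis z f = ± 1`), so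
  `dim K = numCap H - 1 ≤ 3` (`finrank_T`). `V0 ≤ K` and `finrank V0 ≥ 3`, so `K = V0`, `numCap H = 4`, `finrank V0 = 3`. Hence
  (*) `ξ ∈ T H`, `mis z ξ = 0` imply `ξ ∈ V0`.
  Not type I: let `S` be upper for `H0` and `ζ ∈ Sol S ≤ Sol (S \ cups H)`; `ζ = res S ξ`, `ξ ∈ T H` (`res_surj`). `M ∈ S ↔ z ∈ S`
  as `H0 M = H0 z`. If `z ∈ S`: `mis z ξ = mis z ζ = 0` (`mis_res`, `mis_sol`), so `ξ ∈ V0` by (*). If `z ∉ S`, then `M ∉ S` and
  `res S f = 0` (`IsUnitFn.res_of_notMem`); `ξ' = ξ - (mis z ξ * (mis z f)⁻¹) • f` has `mis z ξ' = 0`, so `ξ' ∈ V0`, and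
  `res S ξ' = ζ`.
  Last claim: if `z'` is effective and `H0 z < H0 z'`, then the pieces `z' - 1`, `z'` are above the level, so
  `mis z' f = 0`, and `mem_V0_of_mis` gives `f ∈ V0`; but `mis z f ≠ 0`.
* `eff_on_level`: `z'` effective with `H0 z' = H0 z`: `mis z' f ≠ 0` (else `f ∈ V0` by `mem_V0_of_mis`), so `adj_of_mis`.
* `top_of_adj`: `z1` a top cup: `H0 z1 ≤ H0 z` by `c6`; `z` is effective, so `H z ≤ H z1`, hence not `H0 z1 < H0 z` (`Ref`).
  So `H0 z1 = H0 z` and `eff_on_level` applies.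
-/

namespace Pool.Agent.helper81.SBX

open Module

variable {D : Type*} [DivisionRing D] {R : RS D} {H H' H0 H1 : ℤ → ℝ} {S S' : Set ℤ}

/-- the mismatch as a linear map -/
def misL (D : Type*) [DivisionRing D] (z : ℤ) : (ℤ → D) →ₗ[D] D where
  toFun := mis z
  map_add' := mis_add z
  map_smul' a ξ := mis_smul z a ξ

/-- the key dimension count of `c6` -/
theorem c6_aux (hA0 : R.Adm H0) (hn : ∃ i j, H0 i ≠ H0 j) (hA : R.Adm H) (hG : Gen H)
    (hR : Ref H0 H) (hc : R.numCap H ≤ 4) (h3 : 3 ≤ finrank D R.V0) {M z : ℤ}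
    (h : AdjIn H0 H M z) {f : ℤ → D} (hf : IsUnitFn R H M f) :
    mis z f ≠ 0 ∧ finrank D R.V0 = 3 ∧ R.numCap H = 4 ∧
      ∀ ξ ∈ R.T H, mis z ξ = 0 → ξ ∈ R.V0 := by
  have hne : mis z f ≠ 0 := by
    rw [unit_mis_adj hA0 hA hG hR hn h hf]
    split_ifs <;> simp
  have := finite_T (R := R) hA hG
  have hKlt : R.T H ⊓ LinearMap.ker (misL D z) < R.T H := by
    refine lt_of_le_of_ne inf_le_left (fun he => hne ?_)
    have hfK : f ∈ R.T H ⊓ LinearMap.ker (misL D z) := by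
      rw [he]
      exact hf.mem
    exact LinearMap.mem_ker.1 hfK.2
  have hV0K : R.V0 ≤ R.T H ⊓ LinearMap.ker (misL D z) := by
    intro v hv
    exact ⟨V0_le_T R H hv, LinearMap.mem_ker.2 (mis_V0 hA h.2.1 hv)⟩
  have hKfin : FiniteDimensional D (R.T H ⊓ LinearMap.ker (misL D z) : Submodule D (ℤ → D)) :=
    Submodule.finiteDimensional_of_le inf_le_left
  have e1 := Submodule.finrank_lt_finrank_of_lt hKlt
  rw [finrank_T hA hG] at e1
  have e2 := Submodule.finrank_mono hV0K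
  have hEq : R.V0 = R.T H ⊓ LinearMap.ker (misL D z) :=
    Submodule.eq_of_le_of_finrank_eq hV0K (by omega)
  refine ⟨hne, by omega, by omega, fun ξ hξ hm => ?_⟩
  rw [hEq]
  exact ⟨hξ, LinearMap.mem_ker.2 hm⟩

theorem c6 (hA0 : R.Adm H0) (hn : ∃ i j, H0 i ≠ H0 j) (hA : R.Adm H) (hG : Gen H)
    (hR : Ref H0 H) (hc : R.numCap H ≤ 4) (h3 : 3 ≤ finrank D R.V0) {M z : ℤ}
    (h : AdjIn H0 H M z) :
    finrank D R.V0 = 3 ∧ R.numCap H = 4 ∧ ¬ R.Typ1 H0 ∧ R.Eff H z ∧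
      (∀ z', R.Eff H z' → H0 z' ≤ H0 z) := by
  obtain ⟨f, hf, -⟩ := exists_unit (R := R) hA hG h.1
  obtain ⟨hne, hdim, hcap, hstar⟩ := c6_aux hA0 hn hA hG hR hc h3 h hf
  have hM : H0 M = H0 z := (h.2.2.2 z (min_le_right _ _) (le_max_right _ _)).symm
  have hg : Good3 R H := ⟨hA, hG, hc, hdim⟩
  refine ⟨hdim, hcap, ?_, ⟨h.2.1, f, hf.mem, hne⟩, ?_⟩
  · rintro ⟨S, hS, ζ, hζ, hno⟩
    have hSH : Upper H S := upper_ref hR hS
    obtain ⟨ξ, hξ, hres, -⟩ := res_surj hA hG hSH (sol_le_solC (R := R) hG hSH hζ)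
    by_cases hzS : z ∈ S
    · refine hno ξ (hstar ξ hξ ?_) hres
      rw [← mis_res hzS, hres]
      exact mis_sol hA h.2.1 hzS hζ
    · have hMS : M ∉ S := fun hMS => hzS (hS M hMS z hM.le)
      have hf0 : res S f = 0 := hf.res_of_notMem hA hG hSH hMS
      refine hno (ξ - (mis z ξ * (mis z f)⁻¹) • f) (hstar _ ?_ ?_) ?_
      · exact Submodule.sub_mem _ hξ (Submodule.smul_mem _ _ hf.mem)
      · rw [mis_sub, mis_smul, mul_assoc, inv_mul_cancel₀ hne, mul_one, sub_self]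
      · rw [map_sub, map_smul, hf0, smul_zero, sub_zero, hres]
  · intro z' hz'
    by_contra hlt
    push Not at hlt
    have hv := unit_vanish hA hG hR hM hf
    have e1 : f (z' - 1) = 0 := hv _ (by
      rw [sub_add_cancel]
      exact lt_max_of_lt_right hlt)
    have e2 : f z' = 0 := hv _ (lt_max_of_lt_left hlt)
    have hmis : mis z' f = 0 := by rw [mis, e1, e2, sub_zero]
    have hfV : f ∈ R.V0 := mem_V0_of_mis hg hz' hf.mem hmis
    exact hne (mis_V0 hA h.2.1 hfV)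

theorem eff_on_level (hA0 : R.Adm H0) (hn : ∃ i j, H0 i ≠ H0 j) (hg : Good3 R H)
    (hR : Ref H0 H) {M z : ℤ} (h : AdjIn H0 H M z) {z' : ℤ} (hz' : R.Eff H z')
    (hy : H0 z' = H0 z) : ∃ i : ℤ, AdjIn H0 H (M + i * R.N) z' := by
  obtain ⟨f, hf, -⟩ := exists_unit (R := R) hg.adm hg.gen h.1
  obtain ⟨hne, -, -, -⟩ := c6_aux hA0 hn hg.adm hg.gen hR hg.cap hg.dim.ge h hf
  have hM : H0 M = H0 z := (h.2.2.2 z (min_le_right _ _) (le_max_right _ _)).symm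
  refine adj_of_mis hA0 hg.adm hg.gen hR hn hz'.1 hf.mem
    (unit_vanish hg.adm hg.gen hR (hM.trans hy.symm) hf) hf.zero ?_
  intro hmis
  exact hne (mis_V0 hg.adm h.2.1 (mem_V0_of_mis hg hz' hf.mem hmis))

theorem top_of_adj (hA0 : R.Adm H0) (hn : ∃ i j, H0 i ≠ H0 j) (hg : Good3 R H)
    (hR : Ref H0 H) {M z : ℤ} (h : AdjIn H0 H M z) {z1 : ℤ} (hz1 : R.TopCup H z1) :
    ∃ i : ℤ, AdjIn H0 H (M + i * R.N) z1 := by
  obtain ⟨-, -, -, hez, hmax⟩ := c6 hA0 hn hg.adm hg.gen hR hg.cap hg.dim.ge h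
  have h1 : H0 z1 ≤ H0 z := hmax z1 hz1.1
  have h2 : H z ≤ H z1 := hz1.2 z hez
  have h3 : ¬ H0 z1 < H0 z := fun hlt => not_lt.2 h2 (hR _ _ hlt)
  exact eff_on_level hA0 hn hg hR h hz1.1 (le_antisymm h1 (not_lt.1 h3))

end Pool.Agent.helper81.SBX
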