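import Pool.Agent.helper81.SBX.RTop

set_option autoImplicit false

/-!
# RExt: triangularity, existence part

PROOF of `exists_sol`. Put `Top j = max (H j) (H (j + 1))` and
`rk j = ((Finset.Ico 0 N).filter fun i => Top j < Top i).card` (`N`-periodic, `≤ N`). Define one step
`F : (ℤ → D) → (ℤ → D)`: for a piece `j` let `p` be its higher end (`p = j` if `H (j + 1) < H j`, else
`p = j + 1`).
* `F ξ j = 0` if `j ∉ Pc S`;
* `F ξ j = a p` if `p` is a cap;
* `F ξ j = ξ (j - 1) + ξ (o j) * c j` if `p = j` is not a cap;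
* `F ξ j = ξ (j + 1) - ξ (o (j + 1)) * c (j + 1)` if `p = j + 1` is not a cap.
(`F` for a piece `j ∈ Pc S` only uses pieces with larger `Top`, when the coefficient is nonzero:
`over_gt`.) By induction on `n`: `F^[n + 1] 0` and `F^[n] 0` agree on all pieces `j` with `rk j < n`,
so `ξ := F^[N + 1] 0` satisfies `F ξ = ξ` (all `rk j < N`: `j % N` itself is not counted; or `≤ N` and use
`N + 1` steps). `F` maps quasi-periodic functions (`ξ (j + N) = ξ j * τ`) to quasi-periodic functions
(use `R.c_per`: `ξ (o j + N) * c (j + N) = ξ (o j) * τ * c (j + N) = ξ (o j) * c j * τ`) and preserves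
values in `O`. A fixed point is a solution: at a cap `p ∈ S` both pieces `p - 1`, `p` have the value
`a p` and `c p = 0`; at a node `p ∈ S` which is neither cap nor cup, `p` is the higher end of exactly
one of the pieces `p - 1`, `p`, and the fixed point equation of this piece is the relation at `p`.
-/

namespace Pool.Agent.helper81.SBX

open Module

variable {D : Type*} [DivisionRing D] {R : RS D} {H H' H0 H1 : ℤ → ℝ} {S S' : Set ℤ}

namespace RExtAux

/-- the height of the higher end of the piece `j` -/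
noncomputable def Top (H : ℤ → ℝ) (j : ℤ) : ℝ := max (H j) (H (j + 1))

open Classical in
/-- number of pieces modulo `N` with a higher top -/
noncomputable def rk (R : RS D) (H : ℤ → ℝ) (j : ℤ) : ℕ :=
  ((Finset.Ico (0 : ℤ) R.N).filter fun i => Top H j < Top H i).card

open Classical in
/-- one step of the iteration -/
noncomputable def F (R : RS D) (H : ℤ → ℝ) (S : Set ℤ) (a : ℤ → D) (ξ : ℤ → D) : ℤ → D :=
  fun j => if j ∈ Pc S then
    (if H (j + 1) < H j then
      (if IsCap H j then a j else ξ (j - 1) + ξ (R.o j) * R.c j)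
    else (if IsCap H (j + 1) then a (j + 1) else ξ (j + 1) - ξ (R.o (j + 1)) * R.c (j + 1)))
    else 0

theorem top_per (hA : R.Adm H) (j i : ℤ) : Top H (j + i * R.N) = Top H j := by
  unfold Top
  rw [add_right_comm j _ 1, per_mul hA, per_mul hA]

theorem rk_le (j : ℤ) : rk R H j ≤ R.N := by
  unfold rk
  refine (Finset.card_filter_le _ _).trans ?_
  simp

theorem rk_lt (hA : R.Adm H) {i j : ℤ} (h : Top H j < Top H i) : rk R H i < rk R H j := by
  classical
  unfold rk
  have hN : (0 : ℤ) < R.N := by exact_mod_cast R.hN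
  refine Finset.card_lt_card ?_
  rw [Finset.ssubset_iff_of_subset]
  · refine ⟨i % R.N, ?_, ?_⟩
    · rw [Finset.mem_filter, Finset.mem_Ico]
      refine ⟨⟨Int.emod_nonneg _ hN.ne', Int.emod_lt_of_pos _ hN⟩, ?_⟩
      have e : Top H (i % R.N) = Top H i := by
        rw [← top_per hA (i % R.N) (i / R.N)]
        congr 1
        have := Int.emod_add_mul_ediv i R.N
        linarith
      rw [e]
      exact h
    · rw [Finset.mem_filter]
      rintro ⟨-, h'⟩
      have e : Top H (i % R.N) = Top H i := by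
        rw [← top_per hA (i % R.N) (i / R.N)]
        congr 1
        have := Int.emod_add_mul_ediv i R.N
        linarith
      rw [e] at h'
      exact lt_irrefl _ h'
  · intro k hk
    rw [Finset.mem_filter] at hk ⊢
    exact ⟨hk.1, h.trans hk.2⟩

/-- if `j` is the higher end of the piece `j` and not a cap, the height increases to the left -/
theorem left_gt (hG : Gen H) {j : ℤ} (h1 : H (j + 1) < H j) (h2 : ¬ IsCap H j) :
    H j < H (j - 1) := by
  have h3 : ¬ H (j - 1) < H j := fun h => h2 ⟨h, h1⟩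
  have h4 := hG (j - 1)
  rw [sub_add_cancel] at h4
  exact lt_of_le_of_ne (not_lt.1 h3) (Ne.symm h4)

theorem right_gt (hG : Gen H) {j : ℤ} (h1 : ¬ H (j + 1) < H j) (h2 : ¬ IsCap H (j + 1)) :
    H j < H (j + 1) ∧ H (j + 1) < H (j + 1 + 1) := by
  have h0 : H j < H (j + 1) := lt_of_le_of_ne (not_lt.1 h1) (hG j)
  refine ⟨h0, ?_⟩
  have h3 : ¬ H (j + 1 + 1) < H (j + 1) := fun h => h2 ⟨by rwa [add_sub_cancel_right], h⟩
  exact lt_of_le_of_ne (not_lt.1 h3) (hG (j + 1))

theorem F_congr (hA : R.Adm H) (hG : Gen H) (a : ℤ → D) {ξ η : ℤ → D} {j : ℤ}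
    (h : ∀ i, Top H j < Top H i → ξ i = η i) : F R H S a ξ j = F R H S a η j := by
  unfold F
  by_cases hj : j ∈ Pc S
  · rw [if_pos hj, if_pos hj]
    by_cases h1 : H (j + 1) < H j
    · rw [if_pos h1, if_pos h1]
      by_cases h2 : IsCap H j
      · rw [if_pos h2, if_pos h2]
      · rw [if_neg h2, if_neg h2]
        have h3 := left_gt hG h1 h2
        have ht : Top H j = H j := max_eq_left h1.le
        have e1 : ξ (j - 1) = η (j - 1) := by
          apply h
          rw [ht]
          exact lt_of_lt_of_le h3 (le_max_left _ _)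
        have e2 : ξ (R.o j) * R.c j = η (R.o j) * R.c j := by
          by_cases hc : R.c j = 0
          · rw [hc, mul_zero, mul_zero]
          · rw [h (R.o j) (by rw [ht]; exact over_gt hA hG hc)]
        rw [e1, e2]
    · rw [if_neg h1, if_neg h1]
      by_cases h2 : IsCap H (j + 1)
      · rw [if_pos h2, if_pos h2]
      · rw [if_neg h2, if_neg h2]
        obtain ⟨h3, h4⟩ := right_gt hG h1 h2
        have ht : Top H j = H (j + 1) := max_eq_right h3.le
        have e1 : ξ (j + 1) = η (j + 1) := by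
          apply h
          rw [ht]
          exact lt_of_lt_of_le h4 (le_max_right _ _)
        have e2 : ξ (R.o (j + 1)) * R.c (j + 1) = η (R.o (j + 1)) * R.c (j + 1) := by
          by_cases hc : R.c (j + 1) = 0
          · rw [hc, mul_zero, mul_zero]
          · rw [h (R.o (j + 1)) (by rw [ht]; exact over_gt hA hG hc)]
        rw [e1, e2]
  · rw [if_neg hj, if_neg hj]

theorem iter_agree (hA : R.Adm H) (hG : Gen H) (a : ℤ → D) (n : ℕ) :
    ∀ j, rk R H j < n → (F R H S a)^[n + 1] 0 j = (F R H S a)^[n] 0 j := by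
  induction n with
  | zero => intro j hj; exact absurd hj (Nat.not_lt_zero _)
  | succ n ih =>
    intro j hj
    rw [Function.iterate_succ_apply' (F R H S a) (n + 1), Function.iterate_succ_apply' (F R H S a) n]
    refine F_congr hA hG a (fun i hi => ?_)
    have h := rk_lt (R := R) hA hi
    rw [← Function.iterate_succ_apply' (F R H S a) n]
    exact ih i (by omega)

theorem F_per (hA : R.Adm H) (hS : Upper H S) {a : ℤ → D}
    (ha : ∀ j, a (j + R.N) = a j * R.τ) {ξ : ℤ → D} (hξ : ∀ j, ξ (j + R.N) = ξ j * R.τ) (j : ℤ) :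
    F R H S a ξ (j + R.N) = F R H S a ξ j * R.τ := by
  have hP : j + R.N ∈ Pc S ↔ j ∈ Pc S := by simpa using Pc_per hA hS j 1
  have hH : ∀ k, H (k + R.N) = H k := hA.per
  have hC : ∀ k, IsCap H (k + R.N) ↔ IsCap H k := fun k => by simpa using cap_per hA k 1
  have hO : ∀ k, ξ (R.o (k + R.N)) * R.c (k + R.N) = ξ (R.o k) * R.c k * R.τ := fun k => by
    rw [R.o_per, hξ, mul_assoc, R.c_per, mul_assoc]
  unfold F
  rw [add_right_comm j _ 1, hH, hH]
  by_cases hj : j ∈ Pc S
  · rw [if_pos hj, if_pos (hP.2 hj)]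
    by_cases h1 : H (j + 1) < H j
    · rw [if_pos h1, if_pos h1]
      by_cases h2 : IsCap H j
      · rw [if_pos h2, if_pos ((hC j).2 h2), ha]
      · rw [if_neg h2, if_neg (fun h => h2 ((hC j).1 h)), hO, add_sub_right_comm, hξ, add_mul]
    · rw [if_neg h1, if_neg h1]
      by_cases h2 : IsCap H (j + 1)
      · rw [if_pos h2, if_pos ((hC _).2 h2), ha]
      · rw [if_neg h2, if_neg (fun h => h2 ((hC _).1 h)), hO, hξ, sub_mul]
  · rw [if_neg hj, if_neg (fun h => hj (hP.1 h)), zero_mul]

theorem F_val {O : Subring D} (hO : R.Over O) {a : ℤ → D}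
    (ha : ∀ M, IsCap H M → a M ∈ O) {ξ : ℤ → D} (hξ : RS.Val O ξ) :
    RS.Val O (F R H S a ξ) := by
  intro j
  unfold F
  split_ifs with h1 h2 h3 h4
  · exact ha j h3
  · exact O.add_mem (hξ _) (O.mul_mem (hξ _) (hO.c_mem _))
  · exact ha _ h4
  · exact O.sub_mem (hξ _) (O.mul_mem (hξ _) (hO.c_mem _))
  · exact O.zero_mem

end RExtAux

open RExtAux in
theorem exists_sol (hA : R.Adm H) (hG : Gen H) (hS : Upper H S) (a : ℤ → D)
    (ha : ∀ j, a (j + R.N) = a j * R.τ) :
    ∃ ξ ∈ R.Sol (S \ cups H), (∀ M ∈ S, IsCap H M → ξ M = a M) ∧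
      ∀ O : Subring D, R.Over O → (∀ M, IsCap H M → a M ∈ O) → RS.Val O ξ := by
  set ξ : ℤ → D := (F R H S a)^[R.N + 1] 0 with hξdef
  have hfix : F R H S a ξ = ξ := by
    funext j
    have h := iter_agree (R := R) (S := S) hA hG a (R.N + 1) j
      (Nat.lt_succ_of_le (rk_le (R := R) (H := H) j))
    rw [Function.iterate_succ_apply' (F R H S a) (R.N + 1)] at h
    exact h
  have hper : ∀ j, ξ (j + R.N) = ξ j * R.τ := by
    have : ∀ n : ℕ, ∀ j, (F R H S a)^[n] 0 (j + R.N) = (F R H S a)^[n] 0 j * R.τ := by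
      intro n
      induction n with
      | zero => intro j; simp
      | succ n ih =>
        intro j
        rw [Function.iterate_succ_apply' (F R H S a) n]
        exact F_per hA hS ha ih j
    exact this _
  have hval : ∀ O : Subring D, R.Over O → (∀ M, IsCap H M → a M ∈ O) → RS.Val O ξ := by
    intro O hO haO
    have : ∀ n : ℕ, RS.Val O ((F R H S a)^[n] 0) := by
      intro n
      induction n with
      | zero => intro j; exact O.zero_mem
      | succ n ih =>
        rw [Function.iterate_succ_apply' (F R H S a) n]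
        exact F_val hO haO ih
    exact this _
  have hcapR : ∀ M ∈ S, IsCap H M → ξ M = a M := by
    intro M hM hc
    rw [← hfix]
    unfold F
    rw [if_pos (show M ∈ Pc S from Or.inl hM), if_pos hc.2, if_pos hc]
  have hcapL : ∀ M ∈ S, IsCap H M → ξ (M - 1) = a M := by
    intro M hM hc
    rw [← hfix]
    unfold F
    rw [sub_add_cancel, if_pos (show M - 1 ∈ Pc S from Or.inr (by rwa [sub_add_cancel])),
      if_neg (not_lt.2 hc.1.le), if_pos hc]
  refine ⟨ξ, ⟨hper, ?_, ?_⟩, hcapR, hval⟩
  · intro j hj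
    rw [Pc_sdiff_cups hG hS] at hj
    rw [← hfix]
    unfold F
    rw [if_neg hj]
  · rintro p ⟨hpS, hpc⟩
    unfold RS.Rel
    by_cases hc : IsCap H p
    · rw [c_cap hA hc, mul_zero, add_zero, hcapR p hpS hc, hcapL p hpS hc]
    · by_cases h1 : H (p + 1) < H p
      · have e := congrFun hfix p
        unfold F at e
        rw [if_pos (show p ∈ Pc S from Or.inl hpS), if_pos h1, if_neg hc] at e
        exact e.symm
      · have h1' : H p < H (p + 1) := lt_of_le_of_ne (not_lt.1 h1) (hG p)
        have h2 : ¬ H p < H (p - 1) := fun h => hpc ⟨h, h1'⟩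
        have e := congrFun hfix (p - 1)
        unfold F at e
        rw [sub_add_cancel, if_pos (show p - 1 ∈ Pc S from Or.inr (by rwa [sub_add_cancel])),
          if_neg h2, if_neg hc] at e
        rw [← e, sub_add_cancel]

end Pool.Agent.helper81.SBX
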