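import Pool.Agent.helper81.SBX.RBasic

set_option autoImplicit false

/-!
# RNeg: number of cups = number of caps

PROOF of `numCap_neg`. A cap of `- H` is a cup of `H`. Let `s j = 1` if `H j < H (j + 1)`, else `0`
(as integers; `Gen`). Then `s j - s (j - 1) = 1` iff `j` is a cup, `-1` iff `j` is a cap, `0` otherwise; the sum of
`s j - s (j - 1)` over `j ∈ [0, N)` is `s (N - 1) - s (-1) = 0` by periodicity. So the number of cups
in `[0, N)` is the number of caps.
-/

namespace Pool.Agent.helper81.SBX

variable {D : Type*} [DivisionRing D] {R : RS D} {H H' H0 H1 : ℤ → ℝ} {S S' : Set ℤ}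

theorem cap_neg (H : ℤ → ℝ) (j : ℤ) : IsCap (fun i => - H i) j ↔ IsCup H j := by
  simp only [IsCap, IsCup, neg_lt_neg_iff]

theorem cup_neg (H : ℤ → ℝ) (j : ℤ) : IsCup (fun i => - H i) j ↔ IsCap H j := by
  simp only [IsCap, IsCup, neg_lt_neg_iff]

theorem rneg_telescope (s : ℤ → ℤ) (n : ℕ) :
    ∑ j ∈ Finset.Ico (0 : ℤ) n, (s j - s (j - 1)) = s (n - 1) - s (-1) := by
  induction n with
  | zero => simp
  | succ n ih =>
    have h : Finset.Ico (0 : ℤ) ((n + 1 : ℕ) : ℤ) = insert (n : ℤ) (Finset.Ico (0 : ℤ) n) := by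
      ext x
      simp only [Finset.mem_Ico, Finset.mem_insert]
      push_cast
      omega
    rw [h, Finset.sum_insert (by simp), ih]
    push_cast
    ring_nf

theorem numCap_neg (hA : R.Adm H) (hG : Gen H) :
    R.numCap (fun j => - H j) = R.numCap H := by
  classical
  unfold RS.numCap
  simp only [cap_neg]
  set s : ℤ → ℤ := fun j => if H j < H (j + 1) then 1 else 0 with hs
  have key : ∀ j, s j - s (j - 1) = (if IsCup H j then (1 : ℤ) else 0) -
      (if IsCap H j then (1 : ℤ) else 0) := by
    intro j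
    have h1 := hG j
    have h2 := hG (j - 1)
    rw [sub_add_cancel] at h2
    simp only [hs, sub_add_cancel, IsCup, IsCap]
    rcases lt_or_gt_of_ne h1 with a | a <;> rcases lt_or_gt_of_ne h2 with b | b <;>
      simp [a, b, not_lt.2 a.le, not_lt.2 b.le]
  have hsum := rneg_telescope s R.N
  rw [Finset.sum_congr rfl fun j _ => key j, Finset.sum_sub_distrib] at hsum
  have hper : s ((R.N : ℤ) - 1) = s (-1) := by
    have h1 := hA.per (-1)
    have h2 := hA.per (-1 + 1)
    simp only [hs]
    rw [show (R.N : ℤ) - 1 = -1 + R.N by ring, show (-1 : ℤ) + R.N + 1 = (-1 + 1) + R.N by ring,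
      h1, h2]
  rw [hper, sub_self, Finset.sum_boole, Finset.sum_boole] at hsum
  have := sub_eq_zero.1 hsum
  exact_mod_cast this

end Pool.Agent.helper81.SBX
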