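import Pool.Agent.helper81.SBX.RUnit

set_option autoImplicit false

/-!
# ROne: one-dimensionality of `T H / V0`, type I heights (C2, C7)

PROOFS.
* `three_le`, `T_eq_V0`: `V0 ≤ T H`, `finrank_T`, `finite_T` (`Submodule.finrank_mono`,
  `Submodule.eq_of_le_of_finrank_eq`).
* `exists_eff`: otherwise `T H = V0` by `mem_V0_iff`, but `finrank (T H) = 4`.
* `numCap_of_eff`: an effective cup gives `T H ≠ V0` (`mis_V0`), so `numCap ≠ 3`; `3 ≤ numCap ≤ 4`.
* `one_dim`: `ξ ∉ V0` gives `numCap = 4`, `V0 ⊔ span {ξ} ≤ T H` has dimension `4`, so it is `T H`.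
* `mem_V0_of_mis`: if `ξ ∉ V0`, then every `ξ' ∈ T H` is `a • ξ + v` and `mis z ξ' = a * 0 + 0 = 0`, but `z` is
  effective.
* `eff_per`: `cup_per`, `mis_per`.
* `exists_topCup`: effective cups exist; by periodicity (`eff_per`, `per_mul`) in every window
  `[k, k + N)`; take one with maximal `H` in the window (finite set); all other effective cups are shifts.
* `typ1_main`: `ζ ∈ Sol S ≤ Sol (S \ cups H)` (`upper_ref`, `sol_le_solC`), so `ζ = res S ξ0`, `ξ0 ∈ T H`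
  (`res_surj`), and `ξ0 ∉ V0`. Hence `numCap H = 4`. (2) `ξ = a • ξ0 + v`, so `res S ξ = a • ζ + res S v ∈ Sol S`
  (`res_sol` with `S' = univ` and `H0`-upper `S`). (3) if `res S ξ = res S v`, write `ξ = a • ξ0 + v'`: `a • ζ = res S (v - v')`; if
  `a ≠ 0`, then `ζ ∈ res S V0`, contradiction; so `ξ = v'`. (4) `res_surj`.
* `not_eff_of_typ1`: if `z ∈ S`, then `mis z ξ = mis z (res S ξ) = 0` by (2) and `mis_sol`, for all `ξ ∈ T H`.
* `sol_of_not_eff`: `res S ξ ∈ Sol (S \ cups H)` and its mismatches at the cups in `S` are the ones of `ξ`,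
  i.e. zero; `solC_to_sol`.
* `typ1_top`, `typ1_of_four`: let `z` be a top cup, `S = {j | H z < H j}`, `ξ1 ∈ T H` with `mis z ξ1 ≠ 0`. Cups in `S` are
  higher than `z`, so not effective; `res S ξ1 ∈ Sol S` by `sol_of_not_eff`. If `res S v = res S ξ1` with `v ∈ V0`:
  the pieces `z - 1`, `z` are in `Pc S` (the nodes `z - 1`, `z + 1` are higher than `z`), so
  `mis z (ξ1 - v) = 0`, but `mis z (ξ1 - v) = mis z ξ1 ≠ 0`.
* `not_typ1_of_three`: `typ1_main` with `H0 = H`.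
-/

namespace Pool.Agent.helper81.SBX

open Module

variable {D : Type*} [DivisionRing D] {R : RS D} {H H' H0 H1 : ℤ → ℝ} {S S' : Set ℤ}

/-- Standing hypotheses on a generic height function. -/
structure Good3 (R : RS D) (H : ℤ → ℝ) : Prop where
  adm : R.Adm H
  gen : Gen H
  cap : R.numCap H ≤ 4
  dim : finrank D R.V0 = 3

theorem three_le (hg : Good3 R H) : 3 ≤ R.numCap H := by
  have := finite_T (R := R) hg.adm hg.gen
  have h := Submodule.finrank_mono (V0_le_T R H)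
  rw [hg.dim, finrank_T hg.adm hg.gen] at h
  exact h

theorem T_eq_V0 (hg : Good3 R H) (h3 : R.numCap H = 3) : R.T H = R.V0 := by
  have := finite_T (R := R) hg.adm hg.gen
  exact (Submodule.eq_of_le_of_finrank_eq (V0_le_T R H)
    (by rw [hg.dim, finrank_T hg.adm hg.gen, h3])).symm

theorem exists_eff (hg : Good3 R H) (h4 : R.numCap H = 4) : ∃ z, R.Eff H z := by
  by_contra hcon
  have hT : R.T H = R.V0 := by
    refine le_antisymm (fun ξ hξ => ?_) (V0_le_T R H)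
    rw [mem_V0_iff hg.adm hg.gen hξ]
    intro z hz
    by_contra hne
    exact hcon ⟨z, hz, ξ, hξ, hne⟩
  have h := finrank_T (R := R) hg.adm hg.gen
  rw [hT, hg.dim, h4] at h
  omega

theorem numCap_of_notMem (hg : Good3 R H) {ξ : ℤ → D} (hξ : ξ ∈ R.T H) (hn : ξ ∉ R.V0) :
    R.numCap H = 4 := by
  have h3 := three_le hg
  have h4 := hg.cap
  by_contra hne
  have h : R.numCap H = 3 := by omega
  rw [T_eq_V0 hg h] at hξ
  exact hn hξ

theorem numCap_of_eff (hg : Good3 R H) {z : ℤ} (hz : R.Eff H z) : R.numCap H = 4 := by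
  obtain ⟨hc, ξ, hξ, hne⟩ := hz
  exact numCap_of_notMem hg hξ (fun h => hne (mis_V0 hg.adm hc h))

/-- `T H / V0` is at most one-dimensional -/
theorem one_dim (hg : Good3 R H) {ξ ξ' : ℤ → D} (hξ : ξ ∈ R.T H) (hξ' : ξ' ∈ R.T H)
    (hn : ξ ∉ R.V0) : ∃ a : D, ξ' - a • ξ ∈ R.V0 := by
  have := finite_T (R := R) hg.adm hg.gen
  have h4 := numCap_of_notMem hg hξ hn
  have hW : R.V0 ⊔ Submodule.span D {ξ} ≤ R.T H :=
    sup_le (V0_le_T R H) ((Submodule.span_singleton_le_iff_mem _ _).2 hξ)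
  have : FiniteDimensional D (R.V0 ⊔ Submodule.span D {ξ} : Submodule D (ℤ → D)) :=
    Submodule.finiteDimensional_of_le hW
  have hlt : R.V0 < R.V0 ⊔ Submodule.span D {ξ} := by
    refine lt_of_le_of_ne le_sup_left (fun h => hn ?_)
    rw [h]
    exact Submodule.mem_sup_right (Submodule.mem_span_singleton_self ξ)
  have h1 := Submodule.finrank_lt_finrank_of_lt hlt
  have h2 := Submodule.finrank_mono hW
  rw [hg.dim] at h1
  rw [finrank_T hg.adm hg.gen, h4] at h2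
  have hEq : R.V0 ⊔ Submodule.span D {ξ} = R.T H :=
    Submodule.eq_of_le_of_finrank_eq hW (by rw [finrank_T hg.adm hg.gen, h4]; omega)
  rw [← hEq] at hξ'
  obtain ⟨v, hv, w, hw, rfl⟩ := Submodule.mem_sup.1 hξ'
  obtain ⟨a, rfl⟩ := Submodule.mem_span_singleton.1 hw
  exact ⟨a, by simpa using hv⟩

theorem mem_V0_of_mis (hg : Good3 R H) {z : ℤ} (hz : R.Eff H z) {ξ : ℤ → D} (hξ : ξ ∈ R.T H)
    (h : mis z ξ = 0) : ξ ∈ R.V0 := by
  by_contra hn
  obtain ⟨hc, ξ', hξ', hne⟩ := hz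
  obtain ⟨a, ha⟩ := one_dim hg hξ hξ' hn
  have h0 := mis_V0 hg.adm hc ha
  rw [mis_sub, mis_smul, h, mul_zero, sub_zero] at h0
  exact hne h0

theorem eff_per (hA : R.Adm H) (z i : ℤ) : R.Eff H (z + i * R.N) ↔ R.Eff H z := by
  have hτ : R.τ ^ i ≠ 0 := zpow_ne_zero i R.hτ
  constructor
  · rintro ⟨hc, ξ, hξ, hne⟩
    refine ⟨(cup_per hA z i).1 hc, ξ, hξ, fun h => hne ?_⟩
    rw [mis_per hξ, h, zero_mul]
  · rintro ⟨hc, ξ, hξ, hne⟩
    refine ⟨(cup_per hA z i).2 hc, ξ, hξ, ?_⟩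
    rw [mis_per hξ]
    exact mul_ne_zero hne hτ

theorem topCup_per (hA : R.Adm H) (z i : ℤ) : R.TopCup H (z + i * R.N) ↔ R.TopCup H z := by
  unfold RS.TopCup
  rw [eff_per hA, per_mul hA]

theorem exists_topCup (hg : Good3 R H) (h4 : R.numCap H = 4) (k : ℤ) :
    ∃ z, k ≤ z ∧ z < k + R.N ∧ R.TopCup H z := by
  classical
  have hN : (0 : ℤ) < R.N := by exact_mod_cast R.hN
  -- every node has a representative in the window
  have hrep : ∀ z : ℤ, ∃ i w : ℤ, z = w + i * R.N ∧ k ≤ w ∧ w < k + R.N := by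
    intro z
    refine ⟨(z - k) / R.N, k + (z - k) % R.N, ?_, ?_, ?_⟩
    · have := Int.emod_add_mul_ediv (z - k) R.N
      linarith
    · have := Int.emod_nonneg (z - k) hN.ne'
      linarith
    · have := Int.emod_lt_of_pos (z - k) hN
      linarith
  set F : Finset ℤ := (Finset.Ico k (k + R.N)).filter (fun j => R.Eff H j) with hF
  have hne : F.Nonempty := by
    obtain ⟨z, hz⟩ := exists_eff hg h4
    obtain ⟨i, w, rfl, h1, h2⟩ := hrep z
    exact ⟨w, by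
      rw [hF, Finset.mem_filter, Finset.mem_Ico]
      exact ⟨⟨h1, h2⟩, (eff_per hg.adm w i).1 hz⟩⟩
  obtain ⟨z, hzF, hmax⟩ := Finset.exists_max_image F H hne
  rw [hF, Finset.mem_filter, Finset.mem_Ico] at hzF
  refine ⟨z, hzF.1.1, hzF.1.2, hzF.2, fun z' hz' => ?_⟩
  obtain ⟨i, w, rfl, h1, h2⟩ := hrep z'
  rw [per_mul hg.adm]
  refine hmax w ?_
  rw [hF, Finset.mem_filter, Finset.mem_Ico]
  exact ⟨⟨h1, h2⟩, (eff_per hg.adm w i).1 hz'⟩

/-- C2 -/
theorem typ1_main (hA0 : R.Adm H0) (hg : Good3 R H) (hR : Ref H0 H) (hS : Upper H0 S)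
    {ζ : ℤ → D} (hζ : ζ ∈ R.Sol S) (hne : ∀ v ∈ R.V0, res S v ≠ ζ) :
    R.numCap H = 4 ∧ (∀ ξ ∈ R.T H, res S ξ ∈ R.Sol S) ∧
    (∀ ξ ∈ R.T H, ∀ v ∈ R.V0, res S ξ = res S v → ξ ∈ R.V0) ∧
    (∀ ζ' ∈ R.Sol S, ∃ ξ ∈ R.T H, res S ξ = ζ' ∧
      ∀ O : Subring D, R.Over O → RS.Val O ζ' → RS.Val O ξ) := by
  have hSH : Upper H S := upper_ref hR hS
  have hle := sol_le_solC (R := R) hg.gen hSH
  obtain ⟨ξ0, hξ0, hres, -⟩ := res_surj hg.adm hg.gen hSH (hle hζ)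
  have hn : ξ0 ∉ R.V0 := fun h => hne ξ0 h hres
  refine ⟨numCap_of_notMem hg hξ0 hn, ?_, ?_, ?_⟩
  · intro ξ hξ
    obtain ⟨a, ha⟩ := one_dim hg hξ0 hξ hn
    have h1 : res S ξ = a • ζ + res S (ξ - a • ξ0) := by
      rw [map_sub, map_smul, hres]
      abel
    rw [h1]
    exact Submodule.add_mem _ (Submodule.smul_mem _ _ hζ) (res_V0_mem hA0 hS ha)
  · intro ξ hξ v hv hr
    obtain ⟨a, ha⟩ := one_dim hg hξ0 hξ hn
    rcases eq_or_ne a 0 with h0 | h0
    · rw [h0, zero_smul, sub_zero] at ha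
      exact ha
    · exfalso
      refine hne (a⁻¹ • (v - (ξ - a • ξ0)))
        (Submodule.smul_mem _ _ (Submodule.sub_mem _ hv ha)) ?_
      rw [map_smul, map_sub, map_sub, map_smul, hr, hres, sub_sub_cancel, smul_smul,
        inv_mul_cancel₀ h0, one_smul]
  · intro ζ' hζ'
    exact res_surj hg.adm hg.gen hSH (hle hζ')

theorem not_eff_of_typ1 (hA0 : R.Adm H0) (hg : Good3 R H) (hR : Ref H0 H) (hS : Upper H0 S)
    {ζ : ℤ → D} (hζ : ζ ∈ R.Sol S) (hne : ∀ v ∈ R.V0, res S v ≠ ζ) {z : ℤ} (hz : R.Eff H z) :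
    z ∉ S := by
  intro hzS
  obtain ⟨hc, ξ, hξ, hmis⟩ := hz
  have h := (typ1_main hA0 hg hR hS hζ hne).2.1 ξ hξ
  apply hmis
  rw [← mis_res hzS]
  exact mis_sol hg.adm hc hzS h

/-- if no effective cup is in the upper set `S`, restrictions of `T H` are solutions on `S` -/
theorem sol_of_not_eff (hA : R.Adm H) (hG : Gen H) (hS : Upper H S)
    (h : ∀ z ∈ S, ¬ R.Eff H z) {ξ : ℤ → D} (hξ : ξ ∈ R.T H) : res S ξ ∈ R.Sol S := by
  refine solC_to_sol hA hG hS (res_T hA hG hS hξ) (fun z hz hc => ?_)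
  rw [mis_res hz]
  by_contra hne
  exact h z hz ⟨hc, ξ, hξ, hne⟩

/-- the level just above the top cup is good -/
theorem typ1_top (hg : Good3 R H) {z : ℤ} (hz : R.TopCup H z) :
    ∃ ζ ∈ R.Sol {j | H z < H j}, ∀ v ∈ R.V0, res {j | H z < H j} v ≠ ζ := by
  obtain ⟨⟨hc, ξ1, hξ1, hne⟩, htop⟩ := hz
  refine ⟨res {j | H z < H j} ξ1, sol_of_not_eff hg.adm hg.gen (upper_gt H _)
    (fun z' hz' he => absurd (htop z' he) (not_le.2 hz')) hξ1, ?_⟩
  intro v hv hr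
  have hm1 : z - 1 ∈ Pc {j | H z < H j} := Or.inl hc.1
  have hm2 : z ∈ Pc {j | H z < H j} := Or.inr hc.2
  have e1 := congrFun hr (z - 1)
  have e2 := congrFun hr z
  rw [res_apply_of_mem hm1, res_apply_of_mem hm1] at e1
  rw [res_apply_of_mem hm2, res_apply_of_mem hm2] at e2
  have h0 := mis_V0 hg.adm hc hv
  apply hne
  rw [← h0]
  unfold mis
  rw [e1, e2]

/-- C7 -/
theorem typ1_of_four (hg : Good3 R H) (h4 : R.numCap H = 4) : R.Typ1 H := by
  obtain ⟨z, -, -, hz⟩ := exists_topCup hg h4 0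
  obtain ⟨ζ, hζ, hne⟩ := typ1_top hg hz
  exact ⟨_, upper_gt H _, ζ, hζ, hne⟩

theorem not_typ1_of_three (hg : Good3 R H) (h3 : R.numCap H = 3) : ¬ R.Typ1 H := by
  rintro ⟨S, hS, ζ, hζ, hne⟩
  have h := (typ1_main hg.adm hg (ref_refl H) hS hζ hne).1
  omega

end Pool.Agent.helper81.SBX
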