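import Mathlib

set_option autoImplicit false

/-!
# Relation systems and height functions (definitions)

Block II of the proof that the superbridge index of `4_1 # 4_1` is at least `5`.
-/

namespace Pool.Agent.helper81.SBX

open Module

/-- A relation system over a division ring: `N` nodes (indexed by `ℤ` with period `N`), the over
piece `o j` and the coefficient `c j` of the node `j` (`c j = 0` at plain nodes). -/
structure RS (D : Type*) [DivisionRing D] where
  /-- number of nodes -/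
  N : ℕ
  hN : 0 < N
  /-- over piece -/
  o : ℤ → ℤ
  /-- coefficient -/
  c : ℤ → D
  /-- monodromy -/
  τ : D
  hτ : τ ≠ 0
  o_per : ∀ j, o (j + N) = o j + N
  c_per : ∀ j, τ * c (j + N) = c j * τ

/-- Pieces touching the node set `S` (the piece `j` joins the nodes `j` and `j + 1`). -/
def Pc (S : Set ℤ) : Set ℤ := {j | j ∈ S ∨ j + 1 ∈ S}

/-- `j` is a local maximum. -/
def IsCap (H : ℤ → ℝ) (j : ℤ) : Prop := H (j - 1) < H j ∧ H (j + 1) < H j

/-- `j` is a local minimum. -/
def IsCup (H : ℤ → ℝ) (j : ℤ) : Prop := H j < H (j - 1) ∧ H j < H (j + 1)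

/-- The set of local minima. -/
def cups (H : ℤ → ℝ) : Set ℤ := {j | IsCup H j}

/-- Generic height function: no horizontal piece. -/
def Gen (H : ℤ → ℝ) : Prop := ∀ j, H j ≠ H (j + 1)

/-- Upper sets of nodes. -/
def Upper (H : ℤ → ℝ) (S : Set ℤ) : Prop := ∀ i ∈ S, ∀ j, H i ≤ H j → j ∈ S

/-- `H` refines `H0`. -/
def Ref (H0 H : ℤ → ℝ) : Prop := ∀ i j, H0 i < H0 j → H i < H j

/-- `H0` is constant on the interval between `a` and `b`. -/
def SameRun (H0 : ℤ → ℝ) (a b : ℤ) : Prop :=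
  ∀ j, min a b ≤ j → j ≤ max a b → H0 j = H0 a

/-- The height decreases strictly from `M` to `z > M`. -/
def DownR (H : ℤ → ℝ) (M z : ℤ) : Prop := M < z ∧ ∀ j, M ≤ j → j < z → H (j + 1) < H j

/-- The height decreases strictly from `M` to `z < M`. -/
def DownL (H : ℤ → ℝ) (M z : ℤ) : Prop := z < M ∧ ∀ j, z ≤ j → j < M → H j < H (j + 1)

/-- The mismatch at the node `z`. -/
def mis {D : Type*} [DivisionRing D] (z : ℤ) (ξ : ℤ → D) : D := ξ (z - 1) - ξ z

open Classical in
/-- Truncation to the pieces touching `S`. -/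
noncomputable def res {D : Type*} [DivisionRing D] (S : Set ℤ) : (ℤ → D) →ₗ[D] (ℤ → D) where
  toFun ξ j := if j ∈ Pc S then ξ j else 0
  map_add' ξ η := by
    funext j
    by_cases h : j ∈ Pc S <;> simp [h]
  map_smul' a ξ := by
    funext j
    by_cases h : j ∈ Pc S <;> simp [h]

namespace RS

variable {D : Type*} [DivisionRing D] (R : RS D)

/-- The relation at the node `j`. -/
def Rel (ξ : ℤ → D) (j : ℤ) : Prop := ξ j = ξ (j - 1) + ξ (R.o j) * R.c j

/-- Solutions on the node set `S`: quasi-periodic functions on pieces, zero off the pieces touching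
`S`, satisfying the relations at all nodes of `S`. -/
def Sol (S : Set ℤ) : Submodule D (ℤ → D) where
  carrier := {ξ | (∀ j, ξ (j + R.N) = ξ j * R.τ) ∧ (∀ j, j ∉ Pc S → ξ j = 0) ∧
    ∀ j ∈ S, R.Rel ξ j}
  zero_mem' := by
    refine ⟨fun j => by simp, fun j _ => rfl, fun j _ => by simp [Rel]⟩
  add_mem' := by
    rintro ξ η ⟨h1, h2, h3⟩ ⟨k1, k2, k3⟩
    refine ⟨fun j => by simp [h1 j, k1 j, add_mul], fun j hj => by simp [h2 j hj, k2 j hj],
      fun j hj => ?_⟩
    have a := h3 j hj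
    have b := k3 j hj
    simp only [Rel, Pi.add_apply] at *
    rw [a, b, add_mul]
    abel
  smul_mem' := by
    rintro a ξ ⟨h1, h2, h3⟩
    refine ⟨fun j => by simp [h1 j, mul_assoc], fun j hj => by simp [h2 j hj], fun j hj => ?_⟩
    have b := h3 j hj
    simp only [Rel, Pi.smul_apply, smul_eq_mul] at *
    rw [b, mul_add, mul_assoc]

/-- Global solutions. -/
def V0 : Submodule D (ℤ → D) := R.Sol Set.univ

/-- Solutions of the knot cut at the local minima of `H`. -/
def T (H : ℤ → ℝ) : Submodule D (ℤ → D) := R.Sol (cups H)ᶜ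

/-- Admissible height functions. -/
structure Adm (H : ℤ → ℝ) : Prop where
  per : ∀ j, H (j + R.N) = H j
  ov : ∀ j, R.c j ≠ 0 → H j < max (H (R.o j)) (H (R.o j + 1)) ∨
    (H (R.o j) = H j ∧ H (R.o j + 1) = H j ∧ (H (j - 1) - H j) * (H (j + 1) - H j) < 0)
  str : ∀ j, R.c j ≠ 0 → 0 < (H (j + 1) - H j) * (H j - H (j - 1)) ∨
    (H (j - 1) = H j ∧ H (j + 1) = H j)

open Classical in
/-- Number of local maxima modulo `N`. -/
noncomputable def numCap (H : ℤ → ℝ) : ℕ :=
  ((Finset.Ico (0 : ℤ) R.N).filter fun j => IsCap H j).card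

/-- Type I: some upper set carries a solution that does not come from a global one. -/
def Typ1 (H0 : ℤ → ℝ) : Prop :=
  ∃ S, Upper H0 S ∧ ∃ ζ ∈ R.Sol S, ∀ v ∈ R.V0, res S v ≠ ζ

/-- Effective cup. -/
def Eff (H : ℤ → ℝ) (z : ℤ) : Prop := IsCup H z ∧ ∃ ξ ∈ R.T H, mis z ξ ≠ 0

/-- Top cup: a highest effective cup. -/
def TopCup (H : ℤ → ℝ) (z : ℤ) : Prop := R.Eff H z ∧ ∀ z', R.Eff H z' → H z' ≤ H z

/-- `ξ` takes values in the subring `O`. -/
def Val (O : Subring D) (ξ : ℤ → D) : Prop := ∀ j, ξ j ∈ O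

/-- The relation system is defined over the subring `O`. -/
structure Over (O : Subring D) : Prop where
  c_mem : ∀ j, R.c j ∈ O
  τ_mem : R.τ ∈ O
  τinv_mem : R.τ⁻¹ ∈ O

end RS

end Pool.Agent.helper81.SBX
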