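import Pool.Agent.helper81.SBX.RBasic

set_option autoImplicit false

/-!
# RTop: triangularity, uniqueness part

PROOF of `sol_eq_zero_of_top`. Put `Top j = max (H j) (H (j + 1))`. `Top` is periodic, so it takes
finitely many values; argue by strong induction (downwards) on `Top j`, e.g. by induction on
`((Finset.Ico 0 N).filter fun i => Top j < Top i).card` (this number is `N`-periodic in `j` and gets
strictly smaller when `Top` gets larger). Let `y < Top j`. If `j ∉ Pc S` then `ξ j = 0` by definition
(`Pc (S \ cups H) = Pc S`). Otherwise let `p ∈ {j, j + 1}` be the higher end (`Gen`); `p ∈ S` (upper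
set) and `p` is not a cup, so the relation holds at `p`:
`ξ p = ξ (p - 1) + ξ (o p) * c p`.
* `p` a cap: `c p = 0` and `ξ p = 0` by hypothesis, so `ξ (p - 1) = 0` too; `j ∈ {p, p - 1}`.
* `p` not a cap: the piece `j'` on the other side of `p` (`{j, j'} = {p - 1, p}`) has its other end higher
  than `p`, so `Top j' > H p = Top j`, hence `ξ j' = 0`. If `c p ≠ 0` then `Top (o p) > H p` (`over_gt`),
  so `ξ (o p) = 0`. So `ξ j = 0`.
`sol_eq_zero`: choose `y` smaller than all values of `H` (periodic).
-/

namespace Pool.Agent.helper81.SBX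

open Module

variable {D : Type*} [DivisionRing D] {R : RS D} {H H' H0 H1 : ℤ → ℝ} {S S' : Set ℤ}

/-- reduction modulo the period -/
theorem RTop_red (R : RS D) (j : ℤ) : ∃ i ∈ Finset.Ico (0 : ℤ) R.N, ∃ k : ℤ, j = i + k * R.N := by
  have hN : (0 : ℤ) < R.N := by exact_mod_cast R.hN
  refine ⟨j % R.N, Finset.mem_Ico.2 ⟨Int.emod_nonneg _ hN.ne', Int.emod_lt_of_pos _ hN⟩,
    j / R.N, ?_⟩
  have h := Int.emod_add_mul_ediv j R.N
  rw [mul_comm] at h
  exact h.symm

/-- the higher end of a piece -/
noncomputable def RTop_top (H : ℤ → ℝ) (j : ℤ) : ℝ := max (H j) (H (j + 1))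

open Classical in
/-- the number of the pieces with higher top -/
noncomputable def RTop_rank (R : RS D) (H : ℤ → ℝ) (j : ℤ) : ℕ :=
  ((Finset.Ico (0 : ℤ) R.N).filter fun i => RTop_top H j < RTop_top H i).card

theorem RTop_top_per (hA : R.Adm H) (i k : ℤ) :
    RTop_top H (i + k * R.N) = RTop_top H i := by
  unfold RTop_top
  rw [per_mul hA, show i + k * (R.N : ℤ) + 1 = (i + 1) + k * R.N by ring, per_mul hA]

theorem RTop_rank_lt (hA : R.Adm H) {j j' : ℤ} (h : RTop_top H j < RTop_top H j') :
    RTop_rank R H j' < RTop_rank R H j := by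
  classical
  unfold RTop_rank
  apply Finset.card_lt_card
  obtain ⟨i, hi, k, hk⟩ := RTop_red R j'
  have e : RTop_top H j' = RTop_top H i := by rw [hk, RTop_top_per hA]
  rw [Finset.ssubset_iff_of_subset]
  · refine ⟨i, Finset.mem_filter.2 ⟨hi, by rw [← e]; exact h⟩, fun hm => ?_⟩
    have h1 := (Finset.mem_filter.1 hm).2
    rw [e] at h1
    exact lt_irrefl _ h1
  · intro x hx
    rw [Finset.mem_filter] at hx ⊢
    exact ⟨hx.1, h.trans hx.2⟩

theorem sol_eq_zero_of_top (hA : R.Adm H) (hG : Gen H) (hS : Upper H S) {ξ : ℤ → D}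
    (hξ : ξ ∈ R.Sol (S \ cups H)) (y : ℝ)
    (h : ∀ M ∈ S, IsCap H M → y < H M → ξ M = 0) :
    ∀ j, y < max (H j) (H (j + 1)) → ξ j = 0 := by
  have key : ∀ n : ℕ, ∀ j, RTop_rank R H j = n → y < RTop_top H j → ξ j = 0 := by
    intro n
    induction n using Nat.strong_induction_on with
    | _ n ih =>
      intro j hn hy
      have ih' : ∀ j', RTop_top H j < RTop_top H j' → ξ j' = 0 := fun j' hj' =>
        ih _ (by rw [← hn]; exact RTop_rank_lt hA hj') j' rfl (hy.trans hj')
      obtain ⟨_, h2, h3⟩ := hξ
      by_cases hj : j ∈ Pc S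
      · rcases lt_or_gt_of_ne (hG j) with hlt | hgt
        · -- the higher end is `j + 1`
          have htop : RTop_top H j = H (j + 1) := max_eq_right hlt.le
          have hp : j + 1 ∈ S := by
            rcases hj with hj | hj
            · exact hS j hj (j + 1) hlt.le
            · exact hj
          have hcup : ¬ IsCup H (j + 1) := by
            rintro ⟨h5, _⟩
            rw [show j + 1 - 1 = j by ring] at h5
            exact absurd hlt (not_lt.2 h5.le)
          have hrel := h3 (j + 1) ⟨hp, hcup⟩
          unfold RS.Rel at hrel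
          rw [show j + 1 - 1 = j by ring] at hrel
          by_cases hcap : IsCap H (j + 1)
          · have h5 := h (j + 1) hp hcap (by rw [← htop]; exact hy)
            rw [c_cap hA hcap, mul_zero, add_zero, h5] at hrel
            exact hrel.symm
          · have h6 : H (j + 1) < H (j + 1 + 1) := by
              by_contra h7
              push Not at h7
              exact hcap ⟨by rw [show j + 1 - 1 = j by ring]; exact hlt,
                lt_of_le_of_ne h7 fun e => hG (j + 1) e.symm⟩
            have h7 : ξ (j + 1) = 0 := ih' (j + 1) (by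
              rw [htop]
              exact lt_of_lt_of_le h6 (le_max_right _ _))
            have h8 : ξ (R.o (j + 1)) * R.c (j + 1) = 0 := by
              by_cases hc : R.c (j + 1) = 0
              · rw [hc, mul_zero]
              · rw [ih' (R.o (j + 1)) (by rw [htop]; exact over_gt hA hG hc), zero_mul]
            rw [h7, h8, add_zero] at hrel
            exact hrel.symm
        · -- the higher end is `j`
          have htop : RTop_top H j = H j := max_eq_left hgt.le
          have hp : j ∈ S := by
            rcases hj with hj | hj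
            · exact hj
            · exact hS (j + 1) hj j hgt.le
          have hcup : ¬ IsCup H j := by
            rintro ⟨_, h5⟩
            exact absurd hgt (not_lt.2 h5.le)
          have hrel := h3 j ⟨hp, hcup⟩
          unfold RS.Rel at hrel
          by_cases hcap : IsCap H j
          · exact h j hp hcap (by rw [← htop]; exact hy)
          · have h6 : H j < H (j - 1) := by
              by_contra h7
              push Not at h7
              refine hcap ⟨lt_of_le_of_ne h7 fun e => hG (j - 1) ?_, hgt⟩
              rw [show j - 1 + 1 = j by ring]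
              exact e
            have h7 : ξ (j - 1) = 0 := ih' (j - 1) (by
              rw [htop]
              exact lt_of_lt_of_le h6 (le_max_left _ _))
            have h8 : ξ (R.o j) * R.c j = 0 := by
              by_cases hc : R.c j = 0
              · rw [hc, mul_zero]
              · rw [ih' (R.o j) (by rw [htop]; exact over_gt hA hG hc), zero_mul]
            rw [h7, h8, add_zero] at hrel
            exact hrel
      · exact h2 j (by rw [Pc_sdiff_cups hG hS]; exact hj)
  intro j hy
  exact key _ j rfl hy

theorem sol_eq_zero (hA : R.Adm H) (hG : Gen H) (hS : Upper H S) {ξ : ℤ → D}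
    (hξ : ξ ∈ R.Sol (S \ cups H)) (h : ∀ M ∈ S, IsCap H M → ξ M = 0) : ξ = 0 := by
  have hN : (0 : ℤ) < R.N := by exact_mod_cast R.hN
  have hne : ((Finset.Ico (0 : ℤ) R.N).image H).Nonempty :=
    ⟨H 0, Finset.mem_image.2 ⟨0, Finset.mem_Ico.2 ⟨le_refl _, hN⟩, rfl⟩⟩
  set y : ℝ := ((Finset.Ico (0 : ℤ) R.N).image H).min' hne - 1 with hy
  have hlt : ∀ j, y < H j := by
    intro j
    obtain ⟨i, hi, k, hk⟩ := RTop_red R j
    have h1 : ((Finset.Ico (0 : ℤ) R.N).image H).min' hne ≤ H i :=
      Finset.min'_le _ _ (Finset.mem_image_of_mem _ hi)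
    rw [hk, per_mul hA, hy]
    linarith
  funext j
  exact sol_eq_zero_of_top hA hG hS hξ y (fun M hM hc _ => h M hM hc) j
    (lt_of_lt_of_le (hlt j) (le_max_left _ _))

end Pool.Agent.helper81.SBX
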