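import Pool.Agent.helper81.SBX.RExt

set_option autoImplicit false

/-!
# RUnit: unit functions, dimension of `T H`, surjectivity of restrictions

PROOFS.
* `exists_unit`: `exists_sol` with `S = univ` (`compl_cups`) and `a j = τ ^ i` if `j = M + i * N`
  (unique `i`), `a j = 0` otherwise (over `O`: `τ, τ⁻¹ ∈ O`). The vanishing statement is
  `sol_eq_zero_of_top` with `y = H M`: a cap `M'` with `H M' > H M` is not `M + i * N`.
* `unit_smul`: two functions of `T H` with the same values at all caps are equal (`sol_eq_zero`).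
* `finrank_T`, `finite_T`: the map `T H → (caps in [0, N) → D)`, `ξ ↦ ξ M`, is linear, injective
  (`sol_eq_zero`; all caps are `M + i * N`, `cap_per`, `sol_per_mul`) and surjective (`exists_sol` with the
  quasi-periodic extension of the given values). Use `LinearEquiv.ofBijective`, `finrank_fintype_fun_eq_card`.
* `res_surj`: take `a M = ζ M` for `M ∈ S` and `0` for `M ∉ S` (quasi-periodic), `exists_sol` on `univ`;
  `res S ξ - ζ ∈ Sol (S \ cups H)` (`res_T`) vanishes at the caps in `S`, so it is `0`.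
* `res_unit_of_notMem`: `res S f ∈ Sol (S \ cups H)` vanishes at all caps in `S` (a cap `M' ∈ S` is not
  `M + i * N` since `M ∉ S`, `upper_per`).
-/

namespace Pool.Agent.helper81.SBX

open Module

variable {D : Type*} [DivisionRing D] {R : RS D} {H H' H0 H1 : ℤ → ℝ} {S S' : Set ℤ}

/-- `f` is a unit function of the cap `M`. -/
structure IsUnitFn (R : RS D) (H : ℤ → ℝ) (M : ℤ) (f : ℤ → D) : Prop where
  cap : IsCap H M
  mem : f ∈ R.T H
  one : f M = 1
  zero : ∀ M', IsCap H M' → (¬ ∃ i : ℤ, M' = M + i * R.N) → f M' = 0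

theorem T_eq_sol (R : RS D) (H : ℤ → ℝ) : R.T H = R.Sol (Set.univ \ cups H) := by
  rw [RS.T, compl_cups]

theorem T_ext (hA : R.Adm H) (hG : Gen H) {ξ η : ℤ → D} (hξ : ξ ∈ R.T H) (hη : η ∈ R.T H)
    (h : ∀ M, IsCap H M → ξ M = η M) : ξ = η := by
  have h1 : ξ - η ∈ R.Sol (Set.univ \ cups H) := by
    rw [← T_eq_sol]
    exact Submodule.sub_mem _ hξ hη
  have h2 := sol_eq_zero hA hG (upper_univ H) h1 fun M _ hM => by
    rw [Pi.sub_apply, h M hM, sub_self]
  exact sub_eq_zero.1 h2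

theorem zpow_mem_over {O : Subring D} (hO : R.Over O) (i : ℤ) : R.τ ^ i ∈ O := by
  rcases i with n | n
  · simpa using O.pow_mem hO.τ_mem n
  · rw [zpow_negSucc, ← inv_pow]
    exact O.pow_mem hO.τinv_mem _

open Classical in
/-- the quasi-periodic extension of a function on representatives -/
noncomputable def qext (R : RS D) (b : ℤ → D) (j : ℤ) : D :=
  b (j % R.N) * R.τ ^ (j / R.N)

theorem qext_per (R : RS D) (b : ℤ → D) (j : ℤ) : qext R b (j + R.N) = qext R b j * R.τ := by
  have hN : (R.N : ℤ) ≠ 0 := by exact_mod_cast R.hN.ne'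
  unfold qext
  rw [Int.add_emod_right, Int.add_ediv_of_dvd_right (dvd_refl _), Int.ediv_self hN,
    zpow_add_one₀ R.hτ, mul_assoc]

/-- the basis function of the cap `M` -/
theorem exists_unit (hA : R.Adm H) (hG : Gen H) {M : ℤ} (hM : IsCap H M) :
    ∃ f, IsUnitFn R H M f ∧ ∀ O : Subring D, R.Over O → RS.Val O f := by
  classical
  have hN : (R.N : ℤ) ≠ 0 := by exact_mod_cast R.hN.ne'
  set b : ℤ → D := fun r => if r = M % R.N then R.τ ^ (-(M / R.N)) else 0 with hb
  obtain ⟨f, hf, hcap, hval⟩ := exists_sol (R := R) hA hG (upper_univ H) (qext R b) (qext_per R b)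
  rw [← T_eq_sol] at hf
  refine ⟨f, ⟨hM, hf, ?_, ?_⟩, fun O hO => hval O hO fun M' _ => ?_⟩
  · rw [hcap M (Set.mem_univ _) hM, qext, hb]
    simp only [if_true]
    rw [← zpow_add₀ R.hτ, neg_add_cancel, zpow_zero]
  · intro M' hM' hne
    rw [hcap M' (Set.mem_univ _) hM', qext, hb]
    simp only
    rw [if_neg, zero_mul]
    intro h
    apply hne
    refine ⟨M' / R.N - M / R.N, ?_⟩
    have h1 := Int.emod_add_mul_ediv M' R.N
    have h2 := Int.emod_add_mul_ediv M R.N
    rw [h] at h1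
    linear_combination h2 - h1
  · rw [qext, hb]
    simp only
    split_ifs
    · exact O.mul_mem (zpow_mem_over hO _) (zpow_mem_over hO _)
    · rw [zero_mul]
      exact O.zero_mem

theorem IsUnitFn.vanish (hA : R.Adm H) (hG : Gen H) {M : ℤ} {f : ℤ → D}
    (hf : IsUnitFn R H M f) : ∀ j, H M < max (H j) (H (j + 1)) → f j = 0 := by
  have h1 : f ∈ R.Sol (Set.univ \ cups H) := by
    rw [← T_eq_sol]
    exact hf.mem
  refine sol_eq_zero_of_top hA hG (upper_univ H) h1 (H M) ?_
  intro M' _ hM' hlt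
  refine hf.zero M' hM' ?_
  rintro ⟨i, rfl⟩
  rw [per_mul hA] at hlt
  exact lt_irrefl _ hlt

theorem IsUnitFn.unique (hA : R.Adm H) (hG : Gen H) {M : ℤ} {f f' : ℤ → D}
    (hf : IsUnitFn R H M f) (hf' : IsUnitFn R H M f') : f = f' := by
  refine T_ext hA hG hf.mem hf'.mem ?_
  intro M' hM'
  by_cases h : ∃ i : ℤ, M' = M + i * R.N
  · obtain ⟨i, rfl⟩ := h
    rw [sol_per_mul hf.mem, sol_per_mul hf'.mem, hf.one, hf'.one]
  · rw [hf.zero M' hM' h, hf'.zero M' hM' h]

theorem IsUnitFn.val (hA : R.Adm H) (hG : Gen H) {M : ℤ} {f : ℤ → D}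
    (hf : IsUnitFn R H M f) (O : Subring D) (hO : R.Over O) : RS.Val O f := by
  obtain ⟨f', hf', hval⟩ := exists_unit (R := R) hA hG hf.cap
  rw [hf.unique hA hG hf']
  exact hval O hO

theorem IsUnitFn.res_of_notMem (hA : R.Adm H) (hG : Gen H) (hS : Upper H S) {M : ℤ} {f : ℤ → D}
    (hf : IsUnitFn R H M f) (hM : M ∉ S) : res S f = 0 := by
  refine sol_eq_zero hA hG hS (res_T hA hG hS hf.mem) ?_
  intro M' hM'S hM'
  have hmem : M' ∈ Pc S := Or.inl hM'S
  rw [res_apply_of_mem hmem]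
  refine hf.zero M' hM' ?_
  rintro ⟨i, rfl⟩
  exact hM ((upper_per hA hS M i).1 hM'S)

open Classical in
/-- values at the caps in `[0, N)` -/
noncomputable def capEval (R : RS D) (H : ℤ → ℝ) :
    R.T H →ₗ[D] (((Finset.Ico (0 : ℤ) R.N).filter fun j => IsCap H j) → D) where
  toFun ξ j := (ξ : ℤ → D) j
  map_add' ξ η := rfl
  map_smul' a ξ := rfl

theorem capEval_bij (hA : R.Adm H) (hG : Gen H) : Function.Bijective (capEval R H) := by
  classical
  have hN0 : (0 : ℤ) < R.N := by exact_mod_cast R.hN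
  have hN : (R.N : ℤ) ≠ 0 := hN0.ne'
  constructor
  · rw [injective_iff_map_eq_zero]
    intro ξ hξ
    apply Subtype.ext
    refine T_ext hA hG ξ.2 (Submodule.zero_mem _) ?_
    intro M hM
    have h1 : M = M % R.N + (M / R.N) * R.N := by
      have := Int.emod_add_mul_ediv M R.N
      linear_combination -this
    have hcap : IsCap H (M % R.N) := by
      have := (cap_per (R := R) hA (M % R.N) (M / R.N)).1
      rw [← h1] at this
      exact this hM
    have hmem : M % R.N ∈ (Finset.Ico (0 : ℤ) R.N).filter fun j => IsCap H j := by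
      rw [Finset.mem_filter, Finset.mem_Ico]
      exact ⟨⟨Int.emod_nonneg _ hN, Int.emod_lt_of_pos _ hN0⟩, hcap⟩
    have h2 := congrFun hξ ⟨M % R.N, hmem⟩
    have h3 : (ξ : ℤ → D) (M % R.N) = 0 := h2
    have h4 := sol_per_mul (R := R) ξ.2 (M % R.N) (M / R.N)
    rw [← h1, h3, zero_mul] at h4
    rw [h4]
    rfl
  · intro w
    set b : ℤ → D := fun r =>
      if h : r ∈ (Finset.Ico (0 : ℤ) R.N).filter fun j => IsCap H j then w ⟨r, h⟩ else 0 with hb
    obtain ⟨f, hf, hcap, -⟩ := exists_sol (R := R) hA hG (upper_univ H) (qext R b) (qext_per R b)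
    rw [← T_eq_sol] at hf
    refine ⟨⟨f, hf⟩, ?_⟩
    funext ⟨M, hM⟩
    have hM' := Finset.mem_filter.1 hM
    have hI := Finset.mem_Ico.1 hM'.1
    show f M = _
    rw [hcap M (Set.mem_univ _) hM'.2, qext, Int.emod_eq_of_lt hI.1 hI.2,
      Int.ediv_eq_zero_of_lt hI.1 hI.2, zpow_zero, mul_one, hb]
    simp only
    rw [dif_pos hM]

theorem finrank_T (hA : R.Adm H) (hG : Gen H) : finrank D (R.T H) = R.numCap H := by
  classical
  rw [(LinearEquiv.ofBijective (capEval R H) (capEval_bij hA hG)).finrank_eq,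
    finrank_fintype_fun_eq_card, RS.numCap, Fintype.card_coe]

theorem finite_T (hA : R.Adm H) (hG : Gen H) : FiniteDimensional D (R.T H) := by
  classical
  exact Module.Finite.equiv (LinearEquiv.ofBijective (capEval R H) (capEval_bij hA hG)).symm

theorem res_surj (hA : R.Adm H) (hG : Gen H) (hS : Upper H S) {ζ : ℤ → D}
    (hζ : ζ ∈ R.Sol (S \ cups H)) :
    ∃ ξ ∈ R.T H, res S ξ = ζ ∧ ∀ O : Subring D, R.Over O → RS.Val O ζ → RS.Val O ξ := by
  classical
  set a : ℤ → D := fun j => if j ∈ S then ζ j else 0 with ha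
  have haper : ∀ j, a (j + R.N) = a j * R.τ := by
    intro j
    have h1 := upper_per (R := R) hA hS j 1
    rw [one_mul] at h1
    simp only [ha, h1]
    split_ifs
    · exact hζ.1 j
    · rw [zero_mul]
  obtain ⟨ξ, hξ, hcap, hval⟩ := exists_sol (R := R) hA hG (upper_univ H) a haper
  rw [← T_eq_sol] at hξ
  refine ⟨ξ, hξ, ?_, fun O hO hO' => hval O hO fun M _ => ?_⟩
  · have h1 : res S ξ - ζ ∈ R.Sol (S \ cups H) := Submodule.sub_mem _ (res_T hA hG hS hξ) hζ
    refine sub_eq_zero.1 (sol_eq_zero hA hG hS h1 ?_)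
    intro M hMS hM
    have hmem : M ∈ Pc S := Or.inl hMS
    rw [Pi.sub_apply, res_apply_of_mem hmem, hcap M (Set.mem_univ _) hM, ha]
    simp only
    rw [if_pos hMS, sub_self]
  · rw [ha]
    simp only
    split_ifs
    · exact hO' M
    · exact O.zero_mem

end Pool.Agent.helper81.SBX
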