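import Pool.Agent.helper81.SBX.SDefs
import Pool.Agent.helper81.SBX.GMu
import Pool.Agent.helper81.SBX.GHt

set_option autoImplicit false

/-!
# SHeis: computations in the Heisenberg group (S5, algebra of S7)

Write `R` for the reflection with root `X`, multiplier `s` (`s s* = 1`, central), so `R X = s X`, `R v = v + (s - 1) H(v, X) X`. Rules: `H(a x, y) = a H(x, y)`,
`H(x, a y) = H(x, y) a*`.

PROOFS.
* `hei_inv`: `R⁻¹` is the reflection with `s* = s⁻¹`. `a`: `- R⁻¹ (1 - s) ξ X = - (1 - s) s* ξ X = (1 - s*) ξ X`. `c`: `- (1 - s*) ξ η* + H((1 - s) ξ X, (1 - s) η X) =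
  (1 - s*) ξ η* (- 1 + 1 - s) = (1 - s) ξ η*`.
* `hei_conj`: with `Y = g.A X`, `g = (A, a, a', c)`: `g * hei = (A R, a + (1 - s) ξ Y, a' + (1 - s) η Y, c + (1 - s*) ξ η* + H(a, (1 - s) η Y))`; multiply by
  `g⁻¹ = (A⁻¹, - A⁻¹ a, - A⁻¹ a', - c + H(a, a'))`; `A R A⁻¹` is the reflection `R_Y`. `a`-part: `a + (1 - s) ξ Y - R_Y a = (1 - s) (ξ + H(a, Y)) Y`, same for `a'`. `c`-part:
  `(1 - s*) ξ η* + H(a, Y) η* (1 - s*) + H(a, a') - H(a + (1 - s) ξ Y, R_Y a')`, with `H(a, R_Y a') = H(a, a') + H(a, Y) H(Y, a') (s* - 1)` and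
  `H(Y, R_Y a') = s* H(Y, a')`, so it is `(1 - s*) (ξ η* + H(a, Y) η* + H(a, Y) H(Y, a') + ξ H(Y, a')) = (1 - s*) (ξ + H(a, Y)) (η + H(a', Y))*`.
* `rho_grel`: plain node: `c j = 0`, `X j = X (j - 1)`, so `ξ j = ξ (j - 1)`, `η j = η (j - 1)`. Under node, `s = M.sgn t j`, `o = M.o j`:
  `(rho o) ^ dlt j = hei X_o s ξ_o η_o` (`hei_inv` if `dlt = - 1`, then `s = star t`). By `hei_conj` the conjugate of `rho (j - 1)` has root
  `R_{X_o}^s X_{j-1} = X_j` and label `ξ_{j-1} + H((1 - s) ξ_o X_o, X_j) = ξ_{j-1} + (1 - s) ξ_o s* H(X_o, X_{j-1}) = ξ_{j-1} + ξ_o (s* - 1) H(X_o, X_{j-1}) = ξ_j`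
  (`H(X_o, X_j) = H(X_o, R X_{j-1}) = s* H(X_o, X_{j-1})`, `(1 - s) s* = s* - 1`, `s` central).
* `rho_per`: `X (j + N) = g X j`, `ξ (j + N) = ξ j g*`, `η (j + N) = η j g*`, `g* g = 1`; the reflections in `g X` and `X` agree.
* `pair_one`: `hei X s ξl y * hei X s* ξr y = (1, (1 - s)(ξl - ξr) X, 0, (s - 1)(ξl - ξr) y*)`: `c = (1 - s*) ξl y* + (1 - s) ξr y* + H((1 - s) ξl X, R (1 - s*) y X)`,
  `R (1 - s*) y X = (s - 1) y X`, so the last term is `(1 - s)(s* - 1) ξl y* = - ξl y*` (as `s + s* = 1`, `s s* = 1`: `sub_one_eq`), sum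
  `- s* ξl y* + s* ξr y* = (s - 1)(ξl - ξr) y*`. Multiplying by elements with `a' = 0`, `c = 0` on both sides does not change `c`.
* `pair_two`: `hei X s x ηl * hei X s* x ηr`: `a = 0`, `c = (1 - s*) x ηl* + (1 - s) x ηr* - x ηr* = s x (ηl - ηr)*` (`1 - s* = s`, `1 - s = s*`).
-/

namespace Pool.Agent.helper81.SBX

open Module Matrix

variable {D V : Type*} [DivisionRing D] [StarRing D] [AddCommGroup V] [Module D V]
variable {M : Marked} {Hm : Herm D V} {t : D} (C : Col M Hm t) (ht : Six D t)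

theorem star_central {s : D} (hc : ∀ x, s * x = x * s) (x : D) : star s * x = x * star s := by
  have := congrArg star (hc (star x))
  simpa [star_mul] using this.symm

theorem star_unit {s : D} (hs : s * star s = 1) : star s * star (star s) = 1 := by
  rw [star_star]; exact mul_eq_one_comm.mp hs

theorem Herm.shx_sr (Hm : Herm D V) (a : D) (x y : V) : Hm.H x (a • y) = Hm.H x y * star a := by
  rw [← Hm.herm, Hm.smul_left, star_mul, Hm.herm]

theorem hei_inv {X : V} {s : D} (hX : Hm.H X X = 1) (hs : s * star s = 1)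
    (hc : ∀ x, s * x = x * s) (ξ η : D) :
    (hei Hm X s hX hs hc ξ η)⁻¹ = hei Hm X (star s) hX (star_unit hs) (star_central hc) ξ η := by
  have hs' : star s * s = 1 := mul_eq_one_comm.mp hs
  have hc' := star_central hc
  have key : ∀ ζ : D, Hm.refl X (star s) (((1 - s) * ζ) • X) = (-((1 - star s) * ζ)) • X := by
    intro ζ
    simp only [Herm.refl, Hm.smul_left, hX, mul_one, ← add_smul]
    congr 1
    have : (1 - s) + (star s - 1) * (1 - s) = -(1 - star s) := by
      rw [sub_mul, mul_sub, hs']; simp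
    rw [← mul_assoc, ← add_mul, this, neg_mul]
  ext1
  · ext v; rfl
  · rw [Heis.inv_a]
    change -(Hm.refl X (star s) (((1 - s) * ξ) • X)) = ((1 - star s) * ξ) • X
    rw [key, neg_smul, neg_neg]
  · rw [Heis.inv_a']
    change -(Hm.refl X (star s) (((1 - s) * η) • X)) = ((1 - star s) * η) • X
    rw [key, neg_smul, neg_neg]
  · rw [Heis.inv_c]
    change -((1 - star s) * (ξ * star η)) + Hm.H (((1 - s) * ξ) • X) (((1 - s) * η) • X) =
      (1 - star (star s)) * (ξ * star η)
    rw [Hm.smul_left, Hm.shx_sr, hX, one_mul, star_mul, star_sub, star_one, star_star]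
    have e1 : star η * (1 - star s) = (1 - star s) * star η := by
      rw [mul_sub, sub_mul, hc', mul_one, one_mul]
    have e2 : (1 - s) * ξ * (star η * (1 - star s)) = (1 - s) * (1 - star s) * (ξ * star η) := by
      rw [e1]
      have e3 : ξ * ((1 - star s) * star η) = (1 - star s) * (ξ * star η) := by
        rw [← mul_assoc, ← mul_assoc]; congr 1
        rw [mul_sub, sub_mul, hc', mul_one, one_mul]
      rw [mul_assoc, e3, ← mul_assoc]
    rw [e2, ← neg_mul, ← add_mul]
    congr 1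
    have e4 : s * (1 - star s) = s - 1 := by rw [mul_sub, hs, mul_one]
    rw [sub_mul, e4, one_mul]
    abel

theorem shx_conj {X : V} (s : D) (g : Heis Hm) (v : V) :
    g.A (Hm.refl X s (g.A.symm v)) = Hm.refl (g.A X) s v := by
  simp only [Herm.refl, map_add, map_smul, LinearEquiv.apply_symm_apply]
  congr 2
  have := g.isom (g.A.symm v) X
  rw [LinearEquiv.apply_symm_apply] at this
  rw [this]

theorem hei_conj {X : V} {s : D} (hX : Hm.H X X = 1) (hs : s * star s = 1)
    (hc : ∀ x, s * x = x * s) (ξ η : D) (g : Heis Hm) (hX' : Hm.H (g.A X) (g.A X) = 1) :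
    g * hei Hm X s hX hs hc ξ η * g⁻¹ =
      hei Hm (g.A X) s hX' hs hc (ξ + Hm.H g.a (g.A X)) (η + Hm.H g.a' (g.A X)) := by
  have hc' := star_central hc
  have hs' : star s * s = 1 := mul_eq_one_comm.mp hs
  have apart : ∀ (a : V) (ζ : D), a + g.A (((1 - s) * ζ) • X) +
      g.A (Hm.refl X s (-(g.A.symm a))) = ((1 - s) * (ζ + Hm.H a (g.A X))) • g.A X := by
    intro a ζ
    have e1 : Hm.refl X s (-(g.A.symm a)) = - Hm.refl X s (g.A.symm a) := by
      simp only [Herm.refl, Hm.neg_left, mul_neg, neg_smul, neg_add]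
    rw [e1, map_neg, shx_conj, map_smul]
    simp only [Herm.refl]
    rw [mul_add, add_smul, sub_mul s 1, sub_mul 1 s (Hm.H a (g.A X)), sub_smul, sub_smul]
    abel
  ext1
  · ext v
    exact shx_conj s g v
  · exact apart g.a ξ
  · exact apart g.a' η
  · change (g.c + (1 - star s) * (ξ * star η) + Hm.H g.a (g.A (((1 - s) * η) • X))) +
      (-g.c + Hm.H g.a g.a') + Hm.H (g.a + g.A (((1 - s) * ξ) • X))
        (g.A (Hm.refl X s (-(g.A.symm g.a')))) =
      (1 - star s) * ((ξ + Hm.H g.a (g.A X)) * star (η + Hm.H g.a' (g.A X)))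
    have e1 : Hm.refl X s (-(g.A.symm g.a')) = - Hm.refl X s (g.A.symm g.a') := by
      simp only [Herm.refl, Hm.neg_left, mul_neg, neg_smul, neg_add]
    rw [e1, map_neg, shx_conj, map_smul, map_smul]
    simp only [Herm.refl, Hm.neg_right, Hm.add_left, Hm.add_right', Hm.smul_left, Hm.shx_sr, star_add,
      Hm.herm, star_mul, star_sub, star_one, hX', one_mul]
    set p := Hm.H g.a (g.A X)
    set q := Hm.H (g.A X) g.a'
    set r := Hm.H g.a g.a'
    set h := star η
    have c1 : p * (h * (1 - star s)) = (1 - star s) * (p * h) := by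
      rw [mul_sub, mul_sub, sub_mul, mul_one, one_mul, ← hc' h, ← mul_assoc, ← mul_assoc, ← hc' p]
    have c2 : p * (q * (star s - 1)) = (star s - 1) * (p * q) := by
      rw [mul_sub, mul_sub, sub_mul, mul_one, one_mul, ← hc' q, ← mul_assoc, ← mul_assoc, ← hc' p]
    have c3 : (1 - s) * ξ * (q * (star s - 1)) = (1 - s) * ((star s - 1) * (ξ * q)) := by
      rw [mul_assoc]
      congr 1
      rw [mul_sub, mul_sub, sub_mul, mul_one, one_mul, ← hc' q, ← mul_assoc, ← mul_assoc, ← hc' ξ]
    rw [c1, c2, c3]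
    have c4 : (1 - s) * ((star s - 1) * (ξ * q)) = (star s - 2 + s) * (ξ * q) := by
      rw [← mul_assoc]; congr 1
      have e4 : s * (star s - 1) = 1 - s := by rw [mul_sub, hs, mul_one]
      rw [sub_mul, e4, one_mul, ← one_add_one_eq_two]; abel
    rw [c4]
    have c5 : (1 - s) * ξ * q = (1 - s) * (ξ * q) := mul_assoc _ _ _
    rw [c5]
    simp only [sub_mul, add_mul, mul_add, one_mul, two_mul]
    abel

/-- quasi-periodic functions -/
def QP (R : RS D) (ξ : ℤ → D) : Prop := ∀ j, ξ (j + R.N) = ξ j * R.τ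

/-- two Heisenberg elements with the same data agree -/
theorem shx_congr {X Y : V} {s s' : D} (h : X = Y) (hs0 : s = s') {hX : Hm.H X X = 1}
    {hY : Hm.H Y Y = 1} {hs : s * star s = 1} {hs' : s' * star s' = 1}
    {hc : ∀ x, s * x = x * s} {hc' : ∀ x, s' * x = x * s'} {ξ ξ' η η' : D} (h1 : ξ = ξ')
    (h2 : η = η') : hei Hm X s hX hs hc ξ η = hei Hm Y s' hY hs' hc' ξ' η' := by
  subst h; subst hs0; subst h1; subst h2; rfl

theorem shx_self {X : V} (s a : D) (hX : Hm.H X X = 1) (hc : ∀ x, s * x = x * s) :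
    Hm.refl X s (a • X) = (s * a) • X := by
  simp only [Herm.refl, Hm.smul_left, hX, mul_one, ← add_smul, sub_mul, one_mul]
  congr 1
  abel

theorem rho_grel {ξ η : ℤ → D} {j : ℤ} (h : (C.rs ht).Rel ξ j) (h' : (C.rs ht).Rel η j) :
    M.GRel (C.rho ht ξ η) j := by
  have hc := ht.central
  have hcs := star_central hc
  unfold Marked.GRel
  by_cases hj : M.und j
  · rw [if_pos hj]
    -- the element of the over piece
    have main : ∀ (s : D) (hs : s * star s = 1) (hcc : ∀ x, s * x = x * s),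
        M.sgn t j = s →
        C.rho ht ξ η j = hei Hm (C.X (M.o j)) s (C.X_norm _) hs hcc (ξ (M.o j)) (η (M.o j)) *
          C.rho ht ξ η (j - 1) *
          (hei Hm (C.X (M.o j)) s (C.X_norm _) hs hcc (ξ (M.o j)) (η (M.o j)))⁻¹ := by
      intro s hs hcc hsg
      have hccs := star_central hcc
      have hXj : C.X j = Hm.refl (C.X (M.o j)) s (C.X (j - 1)) := by
        rw [C.under j hj, hsg]
      have hn : Hm.H (Hm.refl (C.X (M.o j)) s (C.X (j - 1)))
          (Hm.refl (C.X (M.o j)) s (C.X (j - 1))) = 1 := by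
        rw [← hXj]; exact C.X_norm j
      have hcoef : ∀ ζ : ℤ → D, (C.rs ht).Rel ζ j →
          ζ j = ζ (j - 1) + Hm.H (((1 - s) * ζ (M.o j)) • C.X (M.o j)) (C.X j) := by
        intro ζ hζ
        have h1 : ζ j = ζ (j - 1) + ζ (M.o j) *
            ((star s - 1) * Hm.H (C.X (M.o j)) (C.X (j - 1))) := by
          have := hζ
          unfold RS.Rel at this
          simp only [Col.rs, if_pos hj, hsg] at this
          exact this
        rw [h1, hXj]
        congr 1
        simp only [Herm.refl, Hm.smul_left, Hm.add_right', Hm.shx_sr, C.X_norm, one_mul, star_mul,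
          star_sub, star_one, Hm.herm]
        set q := Hm.H (C.X (M.o j)) (C.X (j - 1))
        have e1 : q + q * (star s - 1) = star s * q := by
          rw [mul_sub, mul_one, hccs]; abel
        rw [e1]
        have e2 : ζ (M.o j) * ((star s - 1) * q) = (star s - 1) * (ζ (M.o j) * q) := by
          rw [← mul_assoc, ← mul_assoc]; congr 1
          rw [mul_sub, sub_mul, mul_one, one_mul, hccs]
        have e3 : (1 - s) * ζ (M.o j) * (star s * q) = ((1 - s) * star s) * (ζ (M.o j) * q) := by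
          rw [mul_assoc, mul_assoc (1 - s)]; congr 1
          rw [← mul_assoc, ← mul_assoc, hccs]
        rw [e2, e3, sub_mul 1 s, hs, one_mul]
      have hconj := hei_conj (Hm := Hm) (C.X_norm (j - 1)) ht.unit ht.central (ξ (j - 1))
        (η (j - 1)) (hei Hm (C.X (M.o j)) s (C.X_norm _) hs hcc (ξ (M.o j)) (η (M.o j))) hn
      rw [show C.rho ht ξ η (j - 1) = hei Hm (C.X (j - 1)) t (C.X_norm _) ht.unit ht.central
        (ξ (j - 1)) (η (j - 1)) from rfl, hconj]
      refine shx_congr hXj rfl ?_ ?_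
      · have := hcoef ξ h
        rw [hXj] at this
        exact this
      · have := hcoef η h'
        rw [hXj] at this
        exact this
    by_cases hd : 0 < det3 M.e (M.d (M.o j)) (M.d j)
    · have h1 : M.sgn t j = star t := by simp [Marked.sgn, hd]
      have h2 : M.dlt j = -1 := by simp [Marked.dlt, hd]
      rw [h2, _root_.zpow_neg_one]
      have h3 : (C.rho ht ξ η (M.o j))⁻¹ = hei Hm (C.X (M.o j)) (star t) (C.X_norm _)
          (star_unit ht.unit) (star_central ht.central) (ξ (M.o j)) (η (M.o j)) :=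
        hei_inv _ _ _ _ _
      rw [h3]
      exact main _ _ _ h1
    · have h1 : M.sgn t j = t := by simp [Marked.sgn, hd]
      have h2 : M.dlt j = 1 := by simp [Marked.dlt, hd]
      rw [h2, zpow_one]
      exact main t ht.unit ht.central h1
  · rw [if_neg hj]
    have hX : C.X j = C.X (j - 1) := C.plain j hj
    have hcoef : ∀ ζ : ℤ → D, (C.rs ht).Rel ζ j → ζ j = ζ (j - 1) := by
      intro ζ hζ
      unfold RS.Rel at hζ
      simpa [Col.rs, hj] using hζ
    exact shx_congr hX rfl (hcoef ξ h) (hcoef η h')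

theorem rho_per {ξ η : ℤ → D} (h : QP (C.rs ht) ξ) (h' : QP (C.rs ht) η) (j : ℤ) :
    C.rho ht ξ η (j + M.N) = C.rho ht ξ η j := by
  have gg : star C.g * C.g = 1 := mul_eq_one_comm.mp C.g_unit
  have hX := C.X_per j
  have hξ : ξ (j + M.N) = ξ j * star C.g := h j
  have hη : η (j + M.N) = η j * star C.g := h' j
  have key : ∀ a : D, ((1 - t) * (a * star C.g)) • C.X (j + M.N) = ((1 - t) * a) • C.X j := by
    intro a
    rw [hX, smul_smul]
    congr 1
    rw [mul_assoc, mul_assoc, gg, mul_one]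
  ext1
  · ext v
    change Hm.refl (C.X (j + M.N)) t v = Hm.refl (C.X j) t v
    simp only [Herm.refl, hX, Hm.shx_sr, smul_smul]
    congr 2
    rw [mul_assoc, mul_assoc, gg, mul_one]
  · change ((1 - t) * ξ (j + M.N)) • C.X (j + M.N) = ((1 - t) * ξ j) • C.X j
    rw [hξ]; exact key _
  · change ((1 - t) * η (j + M.N)) • C.X (j + M.N) = ((1 - t) * η j) • C.X j
    rw [hη]; exact key _
  · change (1 - star t) * (ξ (j + M.N) * star (η (j + M.N))) = (1 - star t) * (ξ j * star (η j))
    rw [hξ, hη, star_mul, star_star]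
    congr 1
    rw [mul_assoc, ← mul_assoc (star C.g), gg, one_mul]

/-- elements with `a' = 0`, `c = 0` -/
def Heis.S1 (Hm : Herm D V) : Submonoid (Heis Hm) where
  carrier := {x | x.a' = 0 ∧ x.c = 0}
  mul_mem' := by
    rintro x y ⟨h1, h2⟩ ⟨h3, h4⟩
    exact ⟨by simp [Heis.mul_a', h1, h3], by simp [Heis.mul_c, h2, h3, h4, Hm.zero_right]⟩
  one_mem' := ⟨rfl, rfl⟩

/-- elements with `a = 0`, `c = 0` -/
def Heis.S2 (Hm : Herm D V) : Submonoid (Heis Hm) where
  carrier := {x | x.a = 0 ∧ x.c = 0}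
  mul_mem' := by
    rintro x y ⟨h1, h2⟩ ⟨h3, h4⟩
    exact ⟨by simp [Heis.mul_a, h1, h3], by simp [Heis.mul_c, h1, h2, h4, Hm.zero_left]⟩
  one_mem' := ⟨rfl, rfl⟩

theorem hei_mem_S1 {X : V} {s : D} (hX : Hm.H X X = 1) (hs : s * star s = 1)
    (hc : ∀ x, s * x = x * s) (ξ : D) : hei Hm X s hX hs hc ξ 0 ∈ Heis.S1 Hm := by
  refine ⟨?_, ?_⟩
  · change ((1 - s) * 0) • X = 0
    simp
  · change (1 - star s) * (ξ * star 0) = 0
    simp

theorem hei_mem_S2 {X : V} {s : D} (hX : Hm.H X X = 1) (hs : s * star s = 1)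
    (hc : ∀ x, s * x = x * s) (η : D) : hei Hm X s hX hs hc 0 η ∈ Heis.S2 Hm := by
  refine ⟨?_, ?_⟩
  · change ((1 - s) * 0) • X = 0
    simp
  · change (1 - star s) * (0 * star η) = 0
    simp

/-- the `c`-component of a product of two elements with the same root -/
theorem shx_pair {X : V} {s s' : D} (hst : s + star s = 1) (hX : Hm.H X X = 1)
    (hs : s * star s = 1) (hc : ∀ x, s * x = x * s) (hs' : s' * star s' = 1)
    (hc' : ∀ x, s' * x = x * s') (e : s' = star s) (x x' y y' : D) :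
    (hei Hm X s hX hs hc x y * hei Hm X s' hX hs' hc' x' y').c =
      s * (x * star y) + star s * (x' * star y') - x * star y' := by
  subst e
  have hcs := star_central hc
  change (1 - star s) * (x * star y) + (1 - star (star s)) * (x' * star y') +
    Hm.H (((1 - s) * x) • X) (Hm.refl X s (((1 - star s) * y') • X)) = _
  have h1 : 1 - star s = s := by rw [← hst]; abel
  have h2 : 1 - s = star s := by rw [← hst]; abel
  rw [shx_self s _ hX hc, star_star, h1, h2, Hm.smul_left, Hm.shx_sr, hX, one_mul]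
  have h3 : s * s = s - 1 := by
    have : s * (s + star s) = s := by rw [hst, mul_one]
    rw [mul_add, hs] at this
    exact eq_sub_of_add_eq this
  have h4 : star (s * (s * y')) = star y' * (star s * star s) := by
    rw [star_mul, star_mul, mul_assoc]
  have h5 : star s * star s = star s - 1 := by
    have := congrArg star h3
    simpa [star_mul] using this
  have h6 : star s * x * (star y' * (star s - 1)) = - (x * star y') := by
    have a1 : star y' * (star s - 1) = (star s - 1) * star y' := by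
      rw [mul_sub, sub_mul, mul_one, one_mul, hcs]
    have a2 : star s * x * ((star s - 1) * star y') = (star s * (star s - 1)) * (x * star y') := by
      have a3 : x * (star s - 1) = (star s - 1) * x := by
        rw [mul_sub, sub_mul, mul_one, one_mul, hcs]
      rw [mul_assoc, ← mul_assoc x, a3, mul_assoc (star s - 1), mul_assoc (star s)]
    rw [a1, a2, mul_sub, h5, mul_one]
    have : star s - 1 - star s = -1 := by abel
    rw [this, neg_one_mul]
  rw [h4, h5, h6, sub_eq_add_neg]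

theorem pair_one {X : V} {s s' : D} (hst : s + star s = 1) (hX : Hm.H X X = 1)
    (hs : s * star s = 1) (hc : ∀ x, s * x = x * s) (hs' : s' * star s' = 1)
    (hc' : ∀ x, s' * x = x * s') (e : s' = star s) (ξl ξr y : D) {P P' : Heis Hm}
    (hP : P ∈ Heis.S1 Hm) (hP' : P' ∈ Heis.S1 Hm) :
    (P * (hei Hm X s hX hs hc ξl y * hei Hm X s' hX hs' hc' ξr y) * P').c =
      (s - 1) * ((ξl - ξr) * star y) := by
  have h0 : (hei Hm X s hX hs hc ξl y * hei Hm X s' hX hs' hc' ξr y).a' = 0 := by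
    subst e
    change ((1 - s) * y) • X + Hm.refl X s (((1 - star s) * y) • X) = 0
    rw [shx_self s _ hX hc, ← add_smul, ← mul_assoc, mul_sub, mul_one, hs, ← add_mul]
    have : 1 - s + (s - 1) = 0 := by abel
    rw [this, zero_mul, zero_smul]
  have hcc := shx_pair hst hX hs hc hs' hc' e ξl ξr y y
  set Q := hei Hm X s hX hs hc ξl y * hei Hm X s' hX hs' hc' ξr y
  have h1 : (P * Q).c = Q.c := by
    rw [Heis.mul_c, hP.2, h0, map_zero, Hm.zero_right, zero_add, add_zero]
  have h2 : (P * Q * P').c = Q.c := by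
    rw [Heis.mul_c, h1, hP'.1, hP'.2, map_zero, Hm.zero_right, add_zero, add_zero]
  rw [h2, hcc]
  have h3 : s - 1 = - star s := by rw [← hst]; abel
  have h4 : s = 1 - star s := by rw [← hst]; abel
  rw [h3]
  nth_rewrite 1 [h4]
  simp only [sub_mul, mul_sub, neg_mul, one_mul]
  abel

theorem pair_two {X : V} {s s' : D} (hst : s + star s = 1) (hX : Hm.H X X = 1)
    (hs : s * star s = 1) (hc : ∀ x, s * x = x * s) (hs' : s' * star s' = 1)
    (hc' : ∀ x, s' * x = x * s') (e : s' = star s) (x ηl ηr : D) {P P' : Heis Hm}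
    (hP : P ∈ Heis.S2 Hm) (hP' : P' ∈ Heis.S2 Hm) :
    (P * (hei Hm X s hX hs hc x ηl * hei Hm X s' hX hs' hc' x ηr) * P').c =
      s * (x * star (ηl - ηr)) := by
  have h0 : (hei Hm X s hX hs hc x ηl * hei Hm X s' hX hs' hc' x ηr).a = 0 := by
    subst e
    change ((1 - s) * x) • X + Hm.refl X s (((1 - star s) * x) • X) = 0
    rw [shx_self s _ hX hc, ← add_smul, ← mul_assoc, mul_sub, mul_one, hs, ← add_mul]
    have : 1 - s + (s - 1) = 0 := by abel
    rw [this, zero_mul, zero_smul]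
  have hcc := shx_pair hst hX hs hc hs' hc' e x x ηl ηr
  set Q := hei Hm X s hX hs hc x ηl * hei Hm X s' hX hs' hc' x ηr
  have h1 : (P * Q).c = Q.c := by
    rw [Heis.mul_c, hP.1, hP.2, Hm.zero_left, zero_add, add_zero]
  have h1' : (P * Q).a = 0 := by
    rw [Heis.mul_a, hP.1, h0, map_zero, add_zero]
  have h2 : (P * Q * P').c = Q.c := by
    rw [Heis.mul_c, h1, h1', hP'.2, Hm.zero_left, add_zero, add_zero]
  rw [h2, hcc, star_sub]
  have h4 : star s = 1 - s := by rw [← hst]; abel
  rw [h4]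
  simp only [sub_mul, mul_sub, one_mul]
  abel

end Pool.Agent.helper81.SBX
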