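import Pool.Agent.helper81.SBX.OProd
import Pool.Agent.helper81.SBX.SHeis

set_option autoImplicit false

/-!
# SLin: the level pairing `om` is sesquilinear

PROOF. `om u h ξ η` is the `c`-component of the product over a fixed list `l` of pieces (the sorted strands) of
`fac u (rho ξ η) j = hei X_j s_j … (ξ j) (η j)` with `s_j = t` or `star t` (`hei_inv`), which is
`(R_j, (1 - s_j) ξ_j X_j, (1 - s_j) η_j X_j, (1 - s_j*) ξ_j η_j*)`. Induction on the list `l`: for the product `Q(l; ξ, η)`,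
`Q.A` does not depend on `ξ, η`; `Q.a` depends only on `ξ` and is additive and left `D`-linear in `ξ`; `Q.a'` depends only on `η` and is additive and linear in `η`;
`Q.c` is additive in both arguments, `Q.c(x ξ, η) = x Q.c(ξ, η)`, `Q.c(ξ, x η) = Q.c(ξ, η) x*`. (Product of `(A, a, a', c)` and `(B, b, b', c')`:
`c + c' + H(a, A b')`; the isometry `A` is `D`-linear; `s_j` is central.)
`om_congr`: the factors on the strands agree.
-/

namespace Pool.Agent.helper81.SBX

open Module Matrix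

variable {D V : Type*} [DivisionRing D] [StarRing D] [AddCommGroup V] [Module D V]
variable {M : Marked} {Hm : Herm D V} {t : D} (C : Col M Hm t) (ht : Six D t)

/-- Families of Heisenberg elements which depend sesquilinearly on two labellings. -/
structure SLinSesq (Hm : Herm D V) (F : (ℤ → D) → (ℤ → D) → Heis Hm) : Prop where
  A_ind : ∀ ξ η ξ' η' v, (F ξ η).A v = (F ξ' η').A v
  a_ind : ∀ ξ η η', (F ξ η).a = (F ξ η').a
  a_add : ∀ ξ ξ' η, (F (ξ + ξ') η).a = (F ξ η).a + (F ξ' η).a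
  a_smul : ∀ (x : D) ξ η, (F (x • ξ) η).a = x • (F ξ η).a
  a'_ind : ∀ ξ ξ' η, (F ξ η).a' = (F ξ' η).a'
  a'_add : ∀ ξ η η', (F ξ (η + η')).a' = (F ξ η).a' + (F ξ η').a'
  a'_smul : ∀ (x : D) ξ η, (F ξ (x • η)).a' = x • (F ξ η).a'
  c_add_left : ∀ ξ ξ' η, (F (ξ + ξ') η).c = (F ξ η).c + (F ξ' η).c
  c_smul_left : ∀ (x : D) ξ η, (F (x • ξ) η).c = x * (F ξ η).c
  c_add_right : ∀ ξ η η', (F ξ (η + η')).c = (F ξ η).c + (F ξ η').c
  c_smul_right : ∀ (x : D) ξ η, (F ξ (x • η)).c = (F ξ η).c * star x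

theorem SLin_H_smul_right (Hm : Herm D V) (a : D) (x y : V) :
    Hm.H x (a • y) = Hm.H x y * star a := by
  rw [← Hm.herm, Hm.smul_left, star_mul, Hm.herm]

theorem SLinSesq_one : SLinSesq Hm (fun _ _ => (1 : Heis Hm)) := by
  constructor <;> intros <;> simp [Heis.one_A, Heis.one_a, Heis.one_a', Heis.one_c]

theorem SLinSesq.mul {F G : (ℤ → D) → (ℤ → D) → Heis Hm} (hF : SLinSesq Hm F)
    (hG : SLinSesq Hm G) : SLinSesq Hm (fun ξ η => F ξ η * G ξ η) where
  A_ind ξ η ξ' η' v := by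
    simp only [Heis.mul_A, LinearEquiv.trans_apply]
    rw [hG.A_ind ξ η ξ' η', hF.A_ind ξ η ξ' η']
  a_ind ξ η η' := by
    simp only [Heis.mul_a]
    rw [hF.a_ind ξ η η', hG.a_ind ξ η η', hF.A_ind ξ η ξ η']
  a_add ξ ξ' η := by
    simp only [Heis.mul_a]
    rw [hF.a_add, hG.a_add, hF.A_ind (ξ + ξ') η ξ η, hF.A_ind ξ' η ξ η, map_add]
    abel
  a_smul x ξ η := by
    simp only [Heis.mul_a]
    rw [hF.a_smul, hG.a_smul, hF.A_ind (x • ξ) η ξ η, map_smul, smul_add]
  a'_ind ξ ξ' η := by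
    simp only [Heis.mul_a']
    rw [hF.a'_ind ξ ξ' η, hG.a'_ind ξ ξ' η, hF.A_ind ξ η ξ' η]
  a'_add ξ η η' := by
    simp only [Heis.mul_a']
    rw [hF.a'_add, hG.a'_add, hF.A_ind ξ (η + η') ξ η, hF.A_ind ξ η' ξ η, map_add]
    abel
  a'_smul x ξ η := by
    simp only [Heis.mul_a']
    rw [hF.a'_smul, hG.a'_smul, hF.A_ind ξ (x • η) ξ η, map_smul, smul_add]
  c_add_left ξ ξ' η := by
    simp only [Heis.mul_c]
    rw [hF.c_add_left, hG.c_add_left, hF.a_add, hF.A_ind (ξ + ξ') η ξ η, hF.A_ind ξ' η ξ η,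
      hG.a'_ind (ξ + ξ') ξ η, hG.a'_ind ξ' ξ η, Hm.add_left]
    abel
  c_smul_left x ξ η := by
    simp only [Heis.mul_c]
    rw [hF.c_smul_left, hG.c_smul_left, hF.a_smul, hF.A_ind (x • ξ) η ξ η,
      hG.a'_ind (x • ξ) ξ η, Hm.smul_left, mul_add, mul_add]
  c_add_right ξ η η' := by
    simp only [Heis.mul_c]
    rw [hF.c_add_right, hG.c_add_right, hF.a_ind ξ (η + η') η, hF.a_ind ξ η' η,
      hF.A_ind ξ (η + η') ξ η, hF.A_ind ξ η' ξ η, hG.a'_add, map_add, Hm.add_right']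
    abel
  c_smul_right x ξ η := by
    simp only [Heis.mul_c]
    rw [hF.c_smul_right, hG.c_smul_right, hF.a_ind ξ (x • η) η, hF.A_ind ξ (x • η) ξ η,
      hG.a'_smul, map_smul, SLin_H_smul_right, add_mul, add_mul]

theorem SLinSesq_hei {X : V} {s : D} (hX : Hm.H X X = 1) (hs : s * star s = 1)
    (hc : ∀ x, s * x = x * s) (j : ℤ) :
    SLinSesq Hm (fun ξ η => hei Hm X s hX hs hc (ξ j) (η j)) := by
  have h1 : ∀ x : D, (1 - s) * x = x * (1 - s) := fun x => by
    rw [sub_mul, mul_sub, hc x, one_mul, mul_one]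
  have h2 : ∀ x : D, (1 - star s) * x = x * (1 - star s) := fun x => by
    rw [sub_mul, mul_sub, star_central hc x, one_mul, mul_one]
  refine ⟨fun ξ η ξ' η' v => rfl, fun ξ η η' => rfl, fun ξ ξ' η => ?_, fun x ξ η => ?_,
    fun ξ ξ' η => rfl, fun ξ η η' => ?_, fun x ξ η => ?_, fun ξ ξ' η => ?_, fun x ξ η => ?_,
    fun ξ η η' => ?_, fun x ξ η => ?_⟩
  · simp only [hei, Pi.add_apply, mul_add, add_smul]
  · simp only [hei, Pi.smul_apply, smul_eq_mul, smul_smul]
    rw [← mul_assoc, h1 x, mul_assoc]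
  · simp only [hei, Pi.add_apply, mul_add, add_smul]
  · simp only [hei, Pi.smul_apply, smul_eq_mul, smul_smul]
    rw [← mul_assoc, h1 x, mul_assoc]
  · simp only [hei, Pi.add_apply, mul_add, add_mul]
  · simp only [hei, Pi.smul_apply, smul_eq_mul]
    rw [mul_assoc x, ← mul_assoc (1 - star s), h2 x, mul_assoc]
  · simp only [hei, Pi.add_apply, star_add, mul_add]
  · simp only [hei, Pi.smul_apply, smul_eq_mul, star_mul, mul_assoc]

theorem SLinSesq_fac (u : E3) (j : ℤ) :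
    SLinSesq Hm (fun ξ η => M.fac u (C.rho ht ξ η) j) := by
  by_cases h : M.ht u j < M.ht u (j + 1)
  · have e : (fun ξ η => M.fac u (C.rho ht ξ η) j) =
        fun ξ η => hei Hm (C.X j) t (C.X_norm j) ht.unit ht.central (ξ j) (η j) := by
      funext ξ η
      simp only [Marked.fac, if_pos h, Col.rho]
    rw [e]
    exact SLinSesq_hei _ _ _ j
  · have e : (fun ξ η => M.fac u (C.rho ht ξ η) j) =
        fun ξ η => hei Hm (C.X j) (star t) (C.X_norm j) (star_unit ht.unit)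
          (star_central ht.central) (ξ j) (η j) := by
      funext ξ η
      simp only [Marked.fac, if_neg h, Col.rho]
      exact hei_inv _ _ _ _ _
    rw [e]
    exact SLinSesq_hei _ _ _ j

theorem SLinSesq_list (u : E3) (l : List ℤ) :
    SLinSesq Hm (fun ξ η => (l.map (M.fac u (C.rho ht ξ η))).prod) := by
  induction l with
  | nil => simpa using SLinSesq_one
  | cons j l ih =>
    simp only [List.map_cons, List.prod_cons]
    exact (SLinSesq_fac C ht u j).mul ih

theorem SLinSesq_slice (u : E3) (h : ℝ) :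
    SLinSesq Hm (fun ξ η => M.slice u h (C.rho ht ξ η)) := SLinSesq_list C ht u _

theorem om_add_left (u : E3) (h : ℝ) (ξ ξ' η : ℤ → D) :
    C.om ht u h (ξ + ξ') η = C.om ht u h ξ η + C.om ht u h ξ' η :=
  (SLinSesq_slice C ht u h).c_add_left ξ ξ' η

theorem om_smul_left (u : E3) (h : ℝ) (a : D) (ξ η : ℤ → D) :
    C.om ht u h (a • ξ) η = a * C.om ht u h ξ η :=
  (SLinSesq_slice C ht u h).c_smul_left a ξ η

theorem om_add_right (u : E3) (h : ℝ) (ξ η η' : ℤ → D) :
    C.om ht u h ξ (η + η') = C.om ht u h ξ η + C.om ht u h ξ η' :=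
  (SLinSesq_slice C ht u h).c_add_right ξ η η'

theorem om_smul_right (u : E3) (h : ℝ) (a : D) (ξ η : ℤ → D) :
    C.om ht u h ξ (a • η) = C.om ht u h ξ η * star a :=
  (SLinSesq_slice C ht u h).c_smul_right a ξ η

theorem om_congr (u : E3) (h : ℝ) {ξ ξ' η η' : ℤ → D}
    (h1 : ∀ j ∈ M.strands u h, ξ j = ξ' j) (h2 : ∀ j ∈ M.strands u h, η j = η' j) :
    C.om ht u h ξ η = C.om ht u h ξ' η' := by
  unfold Col.om Marked.slice oprod
  congr 2
  apply List.map_congr_left
  intro j hj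
  rw [List.mem_insertionSort, Finset.mem_toList] at hj
  simp only [Marked.fac, Col.rho, h1 j hj, h2 j hj]

end Pool.Agent.helper81.SBX
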