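import Pool.Agent.helper81.SBX.SCluster
import Pool.Agent.helper81.SBX.SLin

set_option autoImplicit false

/-!
# SArc: the arc formulas (S7)

PROOF of `arc_cup`. Let `h0 = H z`. `z` is a cup, so it is not an under node (`und_regular`), `X z = X (z - 1)`; let `p = ps u h0 z = ps u h0 (z - 1)` (`ps_node`). Choose `ε` from `no_level` and from `ps_cont` (with `δ` less than
half of the smallest distance of different values of `ps u h0` on `[0, N)`). Let `h0 < h < h0 + ε`. The strands at `h` touch `h0`; the ones with position `p` at `h0` are `z - 1`, `z` mod `N`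
(`cluster_node`), call their representatives in `[0, N)` `a` and `b` (`pred_ne`: different); all other strands have, at `h`, a position smaller or larger than both (by the choice of `δ`). So
`slice = P * (fac l * fac r) * P'` with `{l, r} = {a, b}`, `ps u h l < ps u h r` (`ps_inj`), `P`, `P'` the products over the strands to the left and to the right (`oprod_split3` twice or `oprod_cluster` with
`oprod_split3` for `P`). `P, P' ∈ Heis.S1` since the other strands have label `η = 0` (`hei_mem_S1`; for a strand going down use `hei_inv`, its label is `0` again; `oprod_mem`). The piece `z - 1` goes down, `z` goes up,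
and the values of `rho` at the representatives are the ones at `z - 1`, `z` (`rho_per`). So `fac l * fac r` is `hei X s ξ_l y * hei X s* ξ_r y` with `s = t` if `l` is (the representative of) `z`, `s = star t` otherwise (`hei_inv`), and
`pair_one` gives `om = (s - 1) * ((ξ_l - ξ_r) * star y)`. `l = z - 1`: `ξ_l - ξ_r = mis z ξ`, `m = star t - 1`; `l = z`: `ξ_l - ξ_r = - mis z ξ`, `m = - (t - 1)`. Both are in `μ` (`sub_one_mu`, `mu_neg`), and `m` depends only on `u`, `h`.
(Labels `ξ`, `η` are evaluated at `z - 1`, `z`, using quasi-periodicity of `ξ` and `η` through `rho_per`.) `s + star s = 1` follows from `sub_one_eq`.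
`arc_cap`: the mirror image: `h` slightly below `H M'`, the other strands have label `ξ = 0`, `Heis.S2`, `pair_two`: `om = s * (x * star (η_l - η_r))`, `s ∈ {t, star t}`.
-/

namespace Pool.Agent.helper81.SBX

open Module Matrix

variable {D V : Type*} [DivisionRing D] [StarRing D] [AddCommGroup V] [Module D V]
variable {M : Marked} {Hm : Herm D V} {t : D} (C : Col M Hm t) (ht : Six D t)

/-- the function `η` vanishes on the strands at the level `h` except the pieces `z - 1`, `z` mod `N` -/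
def Conc (M : Marked) (u : E3) (h : ℝ) (z : ℤ) (η : ℤ → D) : Prop :=
  ∀ j, (M.ht u j - h) * (M.ht u (j + 1) - h) < 0 →
    (¬ ∃ m : ℤ, j = z - 1 + m * M.N ∨ j = z + m * M.N) → η j = 0

omit [StarRing D] in
private theorem arc_delta (F : Finset ℝ) (p : ℝ) : ∃ δ > 0, ∀ x ∈ F, x ≠ p → 2 * δ ≤ |x - p| := by
  induction F using Finset.induction_on with
  | empty => exact ⟨1, one_pos, by simp⟩
  | insert y F _ ih =>
    obtain ⟨δ, hδ, h⟩ := ih
    by_cases hy : y = p
    · refine ⟨δ, hδ, fun x hx hne => ?_⟩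
      rcases Finset.mem_insert.1 hx with rfl | hx
      · exact absurd hy hne
      · exact h x hx hne
    · have h1 : 0 < |y - p| := abs_pos.2 (sub_ne_zero.2 hy)
      refine ⟨min δ (|y - p| / 2), lt_min hδ (by linarith), fun x hx hne => ?_⟩
      rcases Finset.mem_insert.1 hx with rfl | hx
      · have := min_le_right δ (|x - p| / 2)
        linarith
      · have h2 := h x hx hne
        have := min_le_left δ (|y - p| / 2)
        linarith

/-- splitting at two neighbouring elements -/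
private theorem oprod_two {G : Type*} [Group G] {J : Finset ℤ} {key : ℤ → ℝ}
    (hk : Set.InjOn key J) {l r : ℤ} (hl : l ∈ J) (hr : r ∈ J) (hlr : key l < key r)
    (hb : ∀ j ∈ J, j ≠ l → j ≠ r → key j < key l ∨ key r < key j) :
    ∃ A B : Finset ℤ, (∀ j ∈ A, j ∈ J ∧ j ≠ l ∧ j ≠ r) ∧ (∀ j ∈ B, j ∈ J ∧ j ≠ l ∧ j ≠ r) ∧
      ∀ f : ℤ → G, oprod J key f = oprod A key f * (f l * f r) * oprod B key f := by
  classical
  refine ⟨J.filter fun k => key k < key l, J.filter fun k => key r < key k, ?_, ?_, fun f => ?_⟩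
  · intro j hj
    obtain ⟨h1, h2⟩ := Finset.mem_filter.1 hj
    exact ⟨h1, fun h => by rw [h] at h2; exact lt_irrefl _ h2,
      fun h => by rw [h] at h2; exact lt_irrefl _ (h2.trans hlr)⟩
  · intro j hj
    obtain ⟨h1, h2⟩ := Finset.mem_filter.1 hj
    exact ⟨h1, fun h => by rw [h] at h2; exact lt_irrefl _ (h2.trans hlr),
      fun h => by rw [h] at h2; exact lt_irrefl _ h2⟩
  · have h1 := oprod_split3 hk hl f
    have hk' : Set.InjOn key (J.filter fun k => key l < key k : Finset ℤ) :=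
      hk.mono (by
        intro k hk1
        exact Finset.mem_coe.2 (Finset.mem_filter.1 (Finset.mem_coe.1 hk1)).1)
    have hr' : r ∈ J.filter fun k => key l < key k := Finset.mem_filter.2 ⟨hr, hlr⟩
    have h2 := oprod_split3 hk' hr' f
    have e1 : ((J.filter fun k => key l < key k).filter fun k => key k < key r) = ∅ := by
      rw [Finset.eq_empty_iff_forall_notMem]
      intro k hk1
      obtain ⟨h3, h4⟩ := Finset.mem_filter.1 hk1
      obtain ⟨h3, h5⟩ := Finset.mem_filter.1 h3
      rcases hb k h3 (fun h => by rw [h] at h5; exact lt_irrefl _ h5)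
        (fun h => by rw [h] at h4; exact lt_irrefl _ h4) with h6 | h6
      · exact lt_irrefl _ (h6.trans h5)
      · exact lt_irrefl _ (h6.trans h4)
    have e2 : ((J.filter fun k => key l < key k).filter fun k => key r < key k) =
        J.filter fun k => key r < key k := by
      ext k
      simp only [Finset.mem_filter]
      constructor
      · rintro ⟨⟨h3, -⟩, h4⟩
        exact ⟨h3, h4⟩
      · rintro ⟨h3, h4⟩
        exact ⟨⟨h3, hlr.trans h4⟩, h4⟩
    rw [e1, e2, oprod_empty, one_mul] at h2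
    rw [h1, h2]
    simp only [mul_assoc]

private theorem arc_mod (M : Marked) (j : ℤ) : j % M.N + j / M.N * M.N = j := by
  have := Int.emod_add_mul_ediv j M.N
  linarith

private theorem arc_ht0 (M : Marked) (u : E3) (j : ℤ) : M.ht u (j % M.N) = M.ht u j := by
  have h := ht_per_mul M u (j % M.N) (j / M.N)
  rw [arc_mod] at h
  exact h.symm

private theorem arc_ht1 (M : Marked) (u : E3) (j : ℤ) : M.ht u (j % M.N + 1) = M.ht u (j + 1) := by
  have h := ht_per_mul M u (j % M.N + 1) (j / M.N)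
  have e : j % M.N + 1 + j / M.N * M.N = j + 1 := by
    have := arc_mod M j
    linarith
  rw [e] at h
  exact h.symm

private theorem arc_ps (M : Marked) (u : E3) (h : ℝ) (j : ℤ) : M.ps u h (j % M.N) = M.ps u h j := by
  have h1 := ps_per (M := M) u h (j % M.N) (j / M.N)
  rw [arc_mod] at h1
  exact h1.symm

private theorem arc_range (M : Marked) (j : ℤ) : 0 ≤ j % M.N ∧ j % M.N < M.N := by
  have hN : (0 : ℤ) < M.N := by exact_mod_cast M.hN
  exact ⟨Int.emod_nonneg _ hN.ne', Int.emod_lt_of_pos _ hN⟩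

/-- an index in `[0, N)` which is congruent to `i` is `i % N` -/
private theorem arc_eq (M : Marked) {i j m : ℤ} (h0 : 0 ≤ j) (h1 : j < M.N) (h : j = i + m * M.N) :
    j = i % M.N := by
  have h2 : i % M.N = (i + m * M.N) % M.N := (Int.add_mul_emod_self_right i m M.N).symm
  rw [h2, ← h, Int.emod_eq_of_lt h0 h1]

/-- the slice near a plain node -/
private theorem arc_split {G : Type*} [Group G] {u : E3} (hu : u ≠ 0) (he : u ⬝ᵥ M.e = 0)
    (hG : Gen (M.ht u)) {z : ℤ} (hz : ¬ M.und z) :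
    ∃ ε > 0, ∀ h, h ≠ M.ht u z → |h - M.ht u z| < ε →
      (∀ j, M.ht u j ≠ h) ∧ (∀ j, M.ht u z < M.ht u j → h < M.ht u j) ∧
      (∀ j, M.ht u j < M.ht u z → M.ht u j < h) ∧
      ((M.ht u (z - 1) - h) * (M.ht u z - h) < 0 → (M.ht u z - h) * (M.ht u (z + 1) - h) < 0 →
        ∃ A B : Finset ℤ,
          (∀ j ∈ A, (M.ht u j - h) * (M.ht u (j + 1) - h) < 0 ∧
            ¬ ∃ m : ℤ, j = z - 1 + m * M.N ∨ j = z + m * M.N) ∧
          (∀ j ∈ B, (M.ht u j - h) * (M.ht u (j + 1) - h) < 0 ∧
            ¬ ∃ m : ℤ, j = z - 1 + m * M.N ∨ j = z + m * M.N) ∧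
          ((∀ f : ℤ → G, oprod (M.strands u h) (M.ps u h) f =
            oprod A (M.ps u h) f * (f ((z - 1) % M.N) * f (z % M.N)) * oprod B (M.ps u h) f) ∨
          (∀ f : ℤ → G, oprod (M.strands u h) (M.ps u h) f =
            oprod A (M.ps u h) f * (f (z % M.N) * f ((z - 1) % M.N)) * oprod B (M.ps u h) f))) := by
  classical
  set h0 : ℝ := M.ht u z with hh0
  obtain ⟨δ, hδ, hδ1⟩ := arc_delta ((Finset.Ico (0 : ℤ) M.N).image (M.ps u h0)) (M.ps u h0 z)
  obtain ⟨ε1, hε1, hε1'⟩ := no_level M u h0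
  obtain ⟨ε2, hε2, hε2'⟩ := ps_cont hG h0 δ hδ
  refine ⟨min ε1 ε2, lt_min hε1 hε2, fun h hne hlt => ?_⟩
  have hlt1 := lt_of_lt_of_le hlt (min_le_left _ _)
  have hlt2 := lt_of_lt_of_le hlt (min_le_right _ _)
  have hlt1' := abs_lt.1 hlt1
  have s0 : ∀ j, M.ht u j ≠ h := by
    intro j hj
    have := hε1' j (by rw [hj]; exact hlt1)
    exact hne (hj.symm.trans this)
  have s1 : ∀ j, h0 < M.ht u j → h < M.ht u j := by
    intro j hj
    by_contra hc
    push Not at hc
    have := hε1' j (by rw [abs_lt]; constructor <;> linarith)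
    exact hj.ne' this
  have s2 : ∀ j, M.ht u j < h0 → M.ht u j < h := by
    intro j hj
    by_contra hc
    push Not at hc
    have := hε1' j (by rw [abs_lt]; constructor <;> linarith)
    exact hj.ne this
  refine ⟨s0, s1, s2, fun c1 c2 => ?_⟩
  set a : ℤ := (z - 1) % M.N with ha
  set b : ℤ := z % M.N with hb
  have hab : a ≠ b := by
    intro h1
    have h2 := arc_mod M (z - 1)
    have h3 := arc_mod M z
    rw [← ha] at h2
    rw [← hb] at h3
    refine pred_ne hG z ((z - 1) / M.N - z / M.N) ?_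
    rw [sub_mul]
    linarith
  have haJ : a ∈ M.strands u h := by
    rw [mem_strands]
    refine ⟨arc_range M _, ?_⟩
    rw [ha, arc_ht0, arc_ht1, sub_add_cancel]
    exact c1
  have hbJ : b ∈ M.strands u h := by
    rw [mem_strands]
    refine ⟨arc_range M _, ?_⟩
    rw [hb, arc_ht0, arc_ht1]
    exact c2
  have pa : M.ps u h0 a = M.ps u h0 z := by
    rw [ha, arc_ps]
    exact ps_node hG z
  have pb : M.ps u h0 b = M.ps u h0 z := by
    rw [hb, arc_ps]
  have qa := abs_lt.1 (hε2' h hlt2 a)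
  have qb := abs_lt.1 (hε2' h hlt2 b)
  -- the other strands
  have other : ∀ j ∈ M.strands u h, j ≠ a → j ≠ b →
      ¬ ∃ m : ℤ, j = z - 1 + m * M.N ∨ j = z + m * M.N := by
    rintro j hj h1 h2 ⟨m, h3 | h3⟩
    · obtain ⟨⟨h4, h5⟩, -⟩ := mem_strands.1 hj
      exact h1 (arc_eq M h4 h5 h3)
    · obtain ⟨⟨h4, h5⟩, -⟩ := mem_strands.1 hj
      exact h2 (arc_eq M h4 h5 h3)
  have sep : ∀ j ∈ M.strands u h, j ≠ a → j ≠ b →
      (M.ps u h j < M.ps u h a ∧ M.ps u h j < M.ps u h b) ∨
      (M.ps u h a < M.ps u h j ∧ M.ps u h b < M.ps u h j) := by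
    intro j hj h1 h2
    obtain ⟨⟨h4, h5⟩, h6⟩ := mem_strands.1 hj
    have h7 : M.ps u h0 j ≠ M.ps u h0 z := by
      intro h8
      have h9 : Touch M u h0 j := by
        unfold Touch
        rcases lt_trichotomy (M.ht u j) h with k1 | k1 | k1
        · have k2 : h < M.ht u (j + 1) := by
            by_contra k3
            push Not at k3
            have := mul_nonneg_of_nonpos_of_nonpos (sub_nonpos.2 k1.le) (sub_nonpos.2 k3)
            linarith
          have k4 : M.ht u j ≤ h0 := by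
            by_contra k3
            push Not at k3
            have := s1 j k3
            linarith
          have k5 : h0 ≤ M.ht u (j + 1) := by
            by_contra k3
            push Not at k3
            have := s2 (j + 1) k3
            linarith
          exact mul_nonpos_of_nonpos_of_nonneg (sub_nonpos.2 k4) (sub_nonneg.2 k5)
        · exact absurd k1 (s0 j)
        · have k2 : M.ht u (j + 1) < h := by
            by_contra k3
            push Not at k3
            have := mul_nonneg (sub_nonneg.2 k1.le) (sub_nonneg.2 k3)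
            linarith
          have k4 : h0 ≤ M.ht u j := by
            by_contra k3
            push Not at k3
            have := s2 j k3
            linarith
          have k5 : M.ht u (j + 1) ≤ h0 := by
            by_contra k3
            push Not at k3
            have := s1 (j + 1) k3
            linarith
          exact mul_nonpos_of_nonneg_of_nonpos (sub_nonneg.2 k4) (sub_nonpos.2 k5)
      rcases cluster_node hu he hG (w := z) h9 h8 with h10 | h10
      · exact other j hj h1 h2 h10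
      · exact hz h10.1
    have h8 := hδ1 _ (Finset.mem_image_of_mem _ (Finset.mem_Ico.2 ⟨h4, h5⟩)) h7
    have qj := abs_lt.1 (hε2' h hlt2 j)
    rcases lt_or_gt_of_ne h7 with h9 | h9
    · left
      rw [abs_of_neg (by linarith)] at h8
      constructor <;> linarith
    · right
      rw [abs_of_pos (by linarith)] at h8
      constructor <;> linarith
  have hinj := ps_inj hu he h
  rcases lt_or_gt_of_ne (fun h1 => hab (hinj haJ hbJ h1) : M.ps u h a ≠ M.ps u h b) with h1 | h1
  · obtain ⟨A, B, hA, hB, hf⟩ := oprod_two (G := G) hinj haJ hbJ h1 (by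
      intro j hj h2 h3
      rcases sep j hj h2 h3 with h4 | h4
      · exact Or.inl h4.1
      · exact Or.inr h4.2)
    refine ⟨A, B, fun j hj => ?_, fun j hj => ?_, Or.inl hf⟩
    · obtain ⟨h2, h3, h4⟩ := hA j hj
      exact ⟨(mem_strands.1 h2).2, other j h2 h3 h4⟩
    · obtain ⟨h2, h3, h4⟩ := hB j hj
      exact ⟨(mem_strands.1 h2).2, other j h2 h3 h4⟩
  · obtain ⟨A, B, hA, hB, hf⟩ := oprod_two (G := G) hinj hbJ haJ h1 (by
      intro j hj h2 h3
      rcases sep j hj h3 h2 with h4 | h4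
      · exact Or.inl h4.2
      · exact Or.inr h4.1)
    refine ⟨A, B, fun j hj => ?_, fun j hj => ?_, Or.inr hf⟩
    · obtain ⟨h2, h3, h4⟩ := hA j hj
      exact ⟨(mem_strands.1 h2).2, other j h2 h4 h3⟩
    · obtain ⟨h2, h3, h4⟩ := hB j hj
      exact ⟨(mem_strands.1 h2).2, other j h2 h4 h3⟩

private theorem rho_per_mul {ξ η : ℤ → D} (h : QP (C.rs ht) ξ) (h' : QP (C.rs ht) η) (j i : ℤ) :
    C.rho ht ξ η (j + i * M.N) = C.rho ht ξ η j := by
  induction i using Int.induction_on with
  | zero => simp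
  | succ i ih =>
    rw [show j + ((i : ℤ) + 1) * (M.N : ℤ) = (j + i * M.N) + M.N by ring, rho_per C ht h h', ih]
  | pred i ih =>
    rw [← rho_per C ht h h' (j + (-(i : ℤ) - 1) * M.N),
      show j + (-(i : ℤ) - 1) * (M.N : ℤ) + M.N = j + -(i : ℤ) * M.N by ring, ih]

private theorem rho_mod {ξ η : ℤ → D} (h : QP (C.rs ht) ξ) (h' : QP (C.rs ht) η) (j : ℤ) :
    C.rho ht ξ η (j % M.N) = C.rho ht ξ η j := by
  have h1 := rho_per_mul C ht h h' (j % M.N) (j / M.N)
  rw [arc_mod] at h1
  exact h1.symm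

private theorem hei_congr {X X' : V} {s : D} (e : X = X') (hX : Hm.H X X = 1)
    (hX' : Hm.H X' X' = 1) (hs : s * star s = 1) (hc : ∀ x, s * x = x * s) (ξ η : D) :
    hei Hm X s hX hs hc ξ η = hei Hm X' s hX' hs hc ξ η := by
  subst e
  rfl

private theorem six_add (ht : Six D t) : t + star t = 1 := by
  rw [six_star ht]
  abel

private theorem six_add' (ht : Six D t) : star t + star (star t) = 1 := by
  rw [star_star, six_star ht]
  abel

private theorem fac_S1 (ht : Six D t) (u : E3) {ξ η : ℤ → D} {j : ℤ} (hj : η j = 0) :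
    M.fac u (C.rho ht ξ η) j ∈ Heis.S1 Hm := by
  have h1 : C.rho ht ξ η j = hei Hm (C.X j) t (C.X_norm j) ht.unit ht.central (ξ j) 0 := by
    unfold Col.rho
    rw [hj]
  unfold Marked.fac
  rw [h1]
  split_ifs
  · exact hei_mem_S1 _ _ _ _
  · rw [hei_inv]
    exact hei_mem_S1 _ _ _ _

private theorem fac_S2 (ht : Six D t) (u : E3) {ξ η : ℤ → D} {j : ℤ} (hj : ξ j = 0) :
    M.fac u (C.rho ht ξ η) j ∈ Heis.S2 Hm := by
  have h1 : C.rho ht ξ η j = hei Hm (C.X j) t (C.X_norm j) ht.unit ht.central 0 (η j) := by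
    unfold Col.rho
    rw [hj]
  unfold Marked.fac
  rw [h1]
  split_ifs
  · exact hei_mem_S2 _ _ _ _
  · rw [hei_inv]
    exact hei_mem_S2 _ _ _ _

private theorem arc_rho0 {ξ η : ℤ → D} (z : ℤ) : C.rho ht ξ η z =
    hei Hm (C.X z) t (C.X_norm z) ht.unit ht.central (ξ z) (η z) := rfl

private theorem arc_rho1 {ξ η : ℤ → D} {z : ℤ} (hz : ¬ M.und z) : C.rho ht ξ η (z - 1) =
    hei Hm (C.X z) t (C.X_norm z) ht.unit ht.central (ξ (z - 1)) (η (z - 1)) :=
  hei_congr (C.plain z hz).symm _ _ _ _ _ _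

theorem arc_cup {u : E3} (hu : u ≠ 0) (he : u ⬝ᵥ M.e = 0) (hG : Gen (M.ht u)) {z : ℤ}
    (hz : IsCup (M.ht u) z) : ∃ ε > 0, ∀ h, M.ht u z < h → h < M.ht u z + ε →
      (∀ j, M.ht u j ≠ h) ∧ ∃ m ∈ Six.mu t, ∀ ξ η : ℤ → D, ∀ y : D, QP (C.rs ht) ξ →
        QP (C.rs ht) η → Conc M u h z η → η (z - 1) = y → η z = y →
        C.om ht u h ξ η = m * (mis z ξ * star y) := by
  have hnu : ¬ M.und z := fun h => (und_regular h).2 hz
  obtain ⟨ε, hε, H⟩ := arc_split (G := Heis Hm) hu he hG hnu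
  refine ⟨ε, hε, fun h h1 h2 => ?_⟩
  obtain ⟨s0, s1, -, s3⟩ := H h h1.ne' (by rw [abs_lt]; constructor <;> linarith)
  have k1 := s1 _ hz.1
  have k2 := s1 _ hz.2
  obtain ⟨A, B, hA, hB, hf⟩ := s3 (mul_neg_of_pos_of_neg (by linarith) (by linarith))
    (mul_neg_of_neg_of_pos (by linarith) (by linarith))
  refine ⟨s0, ?_⟩
  have fa : ∀ ξ η : ℤ → D, QP (C.rs ht) ξ → QP (C.rs ht) η →
      M.fac u (C.rho ht ξ η) ((z - 1) % M.N) =
        hei Hm (C.X z) (star t) (C.X_norm z) (star_unit ht.unit) (star_central ht.central)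
          (ξ (z - 1)) (η (z - 1)) := by
    intro ξ η hξ hη
    unfold Marked.fac
    rw [rho_mod C ht hξ hη, arc_ht0, arc_ht1, sub_add_cancel, if_neg (not_lt.2 hz.1.le),
      arc_rho1 C ht hnu, hei_inv]
  have fb : ∀ ξ η : ℤ → D, QP (C.rs ht) ξ → QP (C.rs ht) η →
      M.fac u (C.rho ht ξ η) (z % M.N) =
        hei Hm (C.X z) t (C.X_norm z) ht.unit ht.central (ξ z) (η z) := by
    intro ξ η hξ hη
    unfold Marked.fac
    rw [rho_mod C ht hξ hη, arc_ht0, arc_ht1, if_pos hz.2, arc_rho0 C ht]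
  have hS : ∀ ξ η : ℤ → D, Conc M u h z η → ∀ F : Finset ℤ,
      (∀ j ∈ F, (M.ht u j - h) * (M.ht u (j + 1) - h) < 0 ∧
        ¬ ∃ m : ℤ, j = z - 1 + m * M.N ∨ j = z + m * M.N) →
      oprod F (M.ps u h) (M.fac u (C.rho ht ξ η)) ∈ Heis.S1 Hm := by
    intro ξ η hc F hF
    exact oprod_mem _ fun j hj => fac_S1 C ht u (hc j (hF j hj).1 (hF j hj).2)
  rcases hf with hf | hf
  · refine ⟨star t - 1, sub_one_mu ht (Or.inr rfl), fun ξ η y hξ hη hc e1 e2 => ?_⟩
    unfold Col.om Marked.slice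
    rw [hf, fa ξ η hξ hη, fb ξ η hξ hη, e1, e2]
    exact pair_one (six_add' ht) (C.X_norm z) (star_unit ht.unit) (star_central ht.central)
      ht.unit ht.central (star_star t).symm _ _ _ (hS ξ η hc A hA) (hS ξ η hc B hB)
  · refine ⟨-(t - 1), mu_neg ht (sub_one_mu ht (Or.inl rfl)), fun ξ η y hξ hη hc e1 e2 => ?_⟩
    unfold Col.om Marked.slice
    rw [hf, fa ξ η hξ hη, fb ξ η hξ hη, e1, e2]
    rw [pair_one (six_add ht) (C.X_norm z) ht.unit ht.central (star_unit ht.unit)
      (star_central ht.central) rfl _ _ _ (hS ξ η hc A hA) (hS ξ η hc B hB)]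
    unfold mis
    rw [← neg_sub (ξ (z - 1)) (ξ z), neg_mul, mul_neg, neg_mul]

theorem arc_cap {u : E3} (hu : u ≠ 0) (he : u ⬝ᵥ M.e = 0) (hG : Gen (M.ht u)) {z : ℤ}
    (hz : IsCap (M.ht u) z) : ∃ ε > 0, ∀ h, h < M.ht u z → M.ht u z - ε < h →
      (∀ j, M.ht u j ≠ h) ∧ ∃ m ∈ Six.mu t, ∀ ξ η : ℤ → D, ∀ x : D, QP (C.rs ht) ξ →
        QP (C.rs ht) η → Conc M u h z ξ → ξ (z - 1) = x → ξ z = x →
        C.om ht u h ξ η = m * (x * star (mis z η)) := by
  have hnu : ¬ M.und z := fun h => (und_regular h).1 hz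
  obtain ⟨ε, hε, H⟩ := arc_split (G := Heis Hm) hu he hG hnu
  refine ⟨ε, hε, fun h h1 h2 => ?_⟩
  obtain ⟨s0, -, s2, s3⟩ := H h h1.ne (by rw [abs_lt]; constructor <;> linarith)
  have k1 := s2 _ hz.1
  have k2 := s2 _ hz.2
  obtain ⟨A, B, hA, hB, hf⟩ := s3 (mul_neg_of_neg_of_pos (by linarith) (by linarith))
    (mul_neg_of_pos_of_neg (by linarith) (by linarith))
  refine ⟨s0, ?_⟩
  have fa : ∀ ξ η : ℤ → D, QP (C.rs ht) ξ → QP (C.rs ht) η →
      M.fac u (C.rho ht ξ η) ((z - 1) % M.N) =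
        hei Hm (C.X z) t (C.X_norm z) ht.unit ht.central (ξ (z - 1)) (η (z - 1)) := by
    intro ξ η hξ hη
    unfold Marked.fac
    rw [rho_mod C ht hξ hη, arc_ht0, arc_ht1, sub_add_cancel, if_pos hz.1,
      arc_rho1 C ht hnu]
  have fb : ∀ ξ η : ℤ → D, QP (C.rs ht) ξ → QP (C.rs ht) η →
      M.fac u (C.rho ht ξ η) (z % M.N) =
        hei Hm (C.X z) (star t) (C.X_norm z) (star_unit ht.unit) (star_central ht.central)
          (ξ z) (η z) := by
    intro ξ η hξ hη
    unfold Marked.fac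
    rw [rho_mod C ht hξ hη, arc_ht0, arc_ht1, if_neg (not_lt.2 hz.2.le), arc_rho0 C ht, hei_inv]
  have hS : ∀ ξ η : ℤ → D, Conc M u h z ξ → ∀ F : Finset ℤ,
      (∀ j ∈ F, (M.ht u j - h) * (M.ht u (j + 1) - h) < 0 ∧
        ¬ ∃ m : ℤ, j = z - 1 + m * M.N ∨ j = z + m * M.N) →
      oprod F (M.ps u h) (M.fac u (C.rho ht ξ η)) ∈ Heis.S2 Hm := by
    intro ξ η hc F hF
    exact oprod_mem _ fun j hj => fac_S2 C ht u (hc j (hF j hj).1 (hF j hj).2)
  rcases hf with hf | hf
  · refine ⟨t, mu_t, fun ξ η x hξ hη hc e1 e2 => ?_⟩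
    unfold Col.om Marked.slice
    rw [hf, fa ξ η hξ hη, fb ξ η hξ hη, e1, e2]
    exact pair_two (six_add ht) (C.X_norm z) ht.unit ht.central (star_unit ht.unit)
      (star_central ht.central) rfl _ _ _ (hS ξ η hc A hA) (hS ξ η hc B hB)
  · refine ⟨-star t, mu_neg ht (mu_star_t ht), fun ξ η x hξ hη hc e1 e2 => ?_⟩
    unfold Col.om Marked.slice
    rw [hf, fa ξ η hξ hη, fb ξ η hξ hη, e1, e2]
    rw [pair_two (six_add' ht) (C.X_norm z) (star_unit ht.unit) (star_central ht.central)
      ht.unit ht.central (star_star t).symm _ _ _ (hS ξ η hc A hA) (hS ξ η hc B hB)]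
    unfold mis
    rw [← neg_sub (η (z - 1)) (η z), star_neg, mul_neg, mul_neg, neg_mul]

end Pool.Agent.helper81.SBX
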