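import Pool.Agent.helper81.SBX.SSwap

set_option autoImplicit false

/-!
# SCluster: the pieces touching one point of a level

Fix `u ≠ 0`, `u ⬝ e = 0`, `ht u` generic, a level `h0`. A piece `j` *touches* the level if `H j ≤ h0 ≤ H (j + 1)` or `H (j + 1) ≤ h0 ≤ H j`. Its point at this level is
`pt u h0 j = (1 - x) q j + x q (j + 1)`, `x ∈ [0, 1]` (`pt_eq`), with `x = 0` iff `H j = h0`, `x = 1` iff `H (j + 1) = h0`.

PROOF of `touch_cases`. Let `i`, `j` touch the level with the same position; by `same_pos`, `pt j = pt i + a • e`. Normalise the points to parameters in `[0, 1)`: if `x = 1` use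
(`j + 1`, `0`). If `a = 0`: `M.simple`: the normalised indices agree mod `N` and the parameters agree. If `a > 0`: `M.complete` (lower point `pt i`): the normalised parameter of `i`
is `0`, the normalised index `w` of `i` is an under node with `H w = h0`, and `pt j` is an interior point of the piece `j = o w + m * N`. `a < 0`: symmetric.
So for two touching pieces with the same position one of the following holds:
(1) `j = i + m * N`; (2) there is a node `w` with `H w = h0` and `i, j ∈ {w - 1, w} + ℤ N`;
(3) there is an under node `w`, `H w = h0`, such that one of `i, j` is in `{w - 1, w} + ℤ N` and the other is in `o w + ℤ N`.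
* `cluster_node`: for a node `w` of height `h0` and a touching piece `j` with `ps u h0 j = ps u h0 w`: `j ∈ {w - 1, w} + ℤ N` or (`w` is an under node and `j ∈ o w + ℤ N`), or
  `j` would be the lower one: then a normalised node `w'` of `j` would be an under node whose over point is the node `w`, but the over point is interior (`0 < y` in `complete`),
  contradiction.
* `cluster_interior`: for a piece `i` crossing the level strictly and a touching piece `j ≠ i` (mod `N`) with the same position there is an under node `w`, `H w = h0`, with `i = o w + m * N` and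
  `j ∈ {w - 1, w} + ℤ N` (the case `i` lower is excluded because its parameter is not `0`).
-/

namespace Pool.Agent.helper81.SBX

open Module Matrix

variable {M : Marked}

/-- the piece `j` touches the level `h0` -/
def Touch (M : Marked) (u : E3) (h0 : ℝ) (j : ℤ) : Prop :=
  (M.ht u j - h0) * (M.ht u (j + 1) - h0) ≤ 0

/-- normalised form of the point of a touching piece -/
private theorem norm_pt {u : E3} (hG : Gen (M.ht u)) {h0 : ℝ} {j : ℤ} (hj : Touch M u h0 j) :
    ∃ (i : ℤ) (x : ℝ), 0 ≤ x ∧ x < 1 ∧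
      M.pt u h0 j = (1 - x) • M.q i + x • M.q (i + 1) ∧ (x = 0 → M.ht u i = h0) ∧
      (i = j ∨ (i = j + 1 ∧ x = 0)) := by
  have hne := hG j
  unfold Touch at hj
  by_cases h1 : M.ht u (j + 1) = h0
  · refine ⟨j + 1, 0, le_refl _, one_pos, ?_, fun _ => h1, Or.inr ⟨rfl, rfl⟩⟩
    have hd : h0 - M.ht u j ≠ 0 := by
      rw [← h1]
      exact sub_ne_zero.2 hne.symm
    rw [pt_eq, h1, div_self hd]
    simp
  · refine ⟨j, (h0 - M.ht u j) / (M.ht u (j + 1) - M.ht u j), ?_, ?_, pt_eq u h0 j, ?_, Or.inl rfl⟩
    · rcases lt_or_gt_of_ne hne with h2 | h2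
      · have h3 : M.ht u j ≤ h0 := by
          by_contra hcon
          push Not at hcon
          have : 0 < (M.ht u j - h0) * (M.ht u (j + 1) - h0) :=
            mul_pos (by linarith) (by linarith)
          linarith
        exact div_nonneg (by linarith) (by linarith)
      · have h3 : h0 ≤ M.ht u j := by
          by_contra hcon
          push Not at hcon
          have : 0 < (M.ht u j - h0) * (M.ht u (j + 1) - h0) :=
            mul_pos_of_neg_of_neg (by linarith) (by linarith)
          linarith
        exact div_nonneg_of_nonpos (by linarith) (by linarith)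
    · rcases lt_or_gt_of_ne hne with h2 | h2
      · have h3 : h0 < M.ht u (j + 1) := by
          by_contra hcon
          push Not at hcon
          have h4 : M.ht u (j + 1) < h0 := lt_of_le_of_ne hcon h1
          have : 0 < (M.ht u j - h0) * (M.ht u (j + 1) - h0) :=
            mul_pos_of_neg_of_neg (by linarith) (by linarith)
          linarith
        rw [div_lt_one (by linarith)]
        linarith
      · have h3 : M.ht u (j + 1) < h0 := by
          by_contra hcon
          push Not at hcon
          have h4 : h0 < M.ht u (j + 1) := lt_of_le_of_ne hcon (Ne.symm h1)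
          have : 0 < (M.ht u j - h0) * (M.ht u (j + 1) - h0) :=
            mul_pos (by linarith) (by linarith)
          linarith
        rw [div_lt_one_of_neg (by linarith)]
        linarith
    · intro h2
      rcases div_eq_zero_iff.1 h2 with h3 | h3
      · linarith
      · exact absurd (sub_eq_zero.1 h3).symm hne

theorem cluster_node {u : E3} (hu : u ≠ 0) (he : u ⬝ᵥ M.e = 0) (hG : Gen (M.ht u)) {w : ℤ} {j : ℤ}
    (hj : Touch M u (M.ht u w) j) (hp : M.ps u (M.ht u w) j = M.ps u (M.ht u w) w) :
    (∃ m : ℤ, j = w - 1 + m * M.N ∨ j = w + m * M.N) ∨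
      (M.und w ∧ ∃ m : ℤ, j = M.o w + m * M.N) := by
  obtain ⟨j', y, hy0, hy1, hpt, -, hcase⟩ := norm_pt hG hj
  obtain ⟨a, ha⟩ := same_pos hu he (hG w) (hG j) hp.symm
  have hw : M.pt u (M.ht u w) w = (1 - (0 : ℝ)) • M.q w + (0 : ℝ) • M.q (w + 1) := by
    rw [pt_eq, sub_self, zero_div]
  rw [hpt, hw] at ha
  rcases lt_trichotomy a 0 with h1 | h1 | h1
  · exfalso
    have h2 := M.complete j' w y 0 (-a) hy0 hy1 le_rfl one_pos (neg_pos.2 h1)
      (by rw [ha, neg_smul]; abel)
    exact lt_irrefl _ h2.2.2.1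
  · rw [h1, zero_smul ℝ M.e, add_zero] at ha
    obtain ⟨⟨m, hm⟩, -⟩ := M.simple w j' 0 y le_rfl one_pos hy0 hy1 ha.symm
    left
    rcases hcase with rfl | ⟨rfl, -⟩
    · exact ⟨m, Or.inr hm⟩
    · exact ⟨m, Or.inl (by linarith)⟩
  · obtain ⟨-, hund, hy, m, hm⟩ := M.complete w j' 0 y a le_rfl one_pos hy0 hy1 h1 ha
    right
    rcases hcase with rfl | ⟨-, h2⟩
    · exact ⟨hund, m, hm⟩
    · exact absurd h2 hy.ne'

theorem cluster_interior {u : E3} (hu : u ≠ 0) (he : u ⬝ᵥ M.e = 0) (hG : Gen (M.ht u)) {h0 : ℝ}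
    {i j : ℤ} (hi : (M.ht u i - h0) * (M.ht u (i + 1) - h0) < 0) (hj : Touch M u h0 j)
    (hp : M.ps u h0 j = M.ps u h0 i) (hij : ¬ ∃ m : ℤ, j = i + m * M.N) :
    ∃ w, M.und w ∧ M.ht u w = h0 ∧ (∃ m : ℤ, i = M.o w + m * M.N) ∧
      ∃ m : ℤ, j = w - 1 + m * M.N ∨ j = w + m * M.N := by
  obtain ⟨j', y, hy0, hy1, hpt, hyz, hcase⟩ := norm_pt hG hj
  obtain ⟨i', x, hx0, hx1, hpi, hxz, hcasei⟩ := norm_pt (j := i) hG (le_of_lt hi)
  obtain ⟨a, ha⟩ := same_pos hu he (hG i) (hG j) hp.symm
  rw [hpt, hpi] at ha
  have hxpos : 0 < x := by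
    rcases hx0.lt_or_eq with h | h
    · exact h
    · exfalso
      have h2 := hxz h.symm
      rcases hcasei with rfl | ⟨rfl, -⟩
      · rw [h2, sub_self, zero_mul] at hi
        exact lt_irrefl _ hi
      · rw [h2, sub_self, mul_zero] at hi
        exact lt_irrefl _ hi
  have hii : i' = i := by
    rcases hcasei with rfl | ⟨-, h2⟩
    · rfl
    · exact absurd h2 hxpos.ne'
  subst hii
  rcases lt_trichotomy a 0 with h1 | h1 | h1
  · obtain ⟨hy, hund, -, m, hm⟩ := M.complete j' i' y x (-a) hy0 hy1 hx0 hx1 (neg_pos.2 h1)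
      (by rw [ha, neg_smul]; abel)
    refine ⟨j', hund, hyz hy, ⟨m, hm⟩, 0, ?_⟩
    rcases hcase with rfl | ⟨rfl, -⟩
    · right
      simp
    · left
      simp
  · exfalso
    rw [h1, zero_smul, add_zero] at ha
    obtain ⟨⟨m, hm⟩, hxy⟩ := M.simple i' j' x y hx0 hx1 hy0 hy1 ha.symm
    rcases hcase with rfl | ⟨-, h2⟩
    · exact hij ⟨m, hm⟩
    · rw [hxy, h2] at hxpos
      exact lt_irrefl _ hxpos
  · exfalso
    have h2 := M.complete i' j' x y a hx0 hx1 hy0 hy1 h1 ha
    exact hxpos.ne' h2.1

/-- the pieces `w - 1` and `w` are different modulo `N` -/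
theorem pred_ne {u : E3} (hG : Gen (M.ht u)) (w m : ℤ) : w - 1 ≠ w + m * M.N := by
  intro h
  have h1 := ht_per_mul M u w m
  rw [← h] at h1
  have h2 := hG (w - 1)
  rw [sub_add_cancel] at h2
  exact h2 h1

/-- the over piece is different from `w - 1` and `w` modulo `N` -/
theorem over_ne {u : E3} (hG : Gen (M.ht u)) (he : u ⬝ᵥ M.e = 0) {w : ℤ} (hw : M.und w) (m : ℤ) :
    M.o w ≠ w + m * M.N ∧ M.o w ≠ w - 1 + m * M.N := by
  have h1 := over_cross hG he hw
  constructor
  · intro h
    rw [h, ht_per_mul, sub_self, zero_mul] at h1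
    exact lt_irrefl _ h1
  · intro h
    rw [h, show w - 1 + m * (M.N : ℤ) + 1 = w + m * M.N by ring, ht_per_mul M u w m, sub_self,
      mul_zero] at h1
    exact lt_irrefl _ h1

end Pool.Agent.helper81.SBX
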