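import Pool.Agent.helper81.SBX.SDD
import Pool.Agent.helper81.SBX.GUnit

set_option autoImplicit false

/-!
# SCore: the final relation `star U = m * U * star g`

Let `B = M.d k1`, `τ = star g` (`= (C.rs ht).τ`), `A0 = τ * (star U)⁻¹`.

PROOFS.
* `zs_x1`: near `x1` with `u ⬝ B < 0`: `pair_x1` and `ht_ref`: `AdjIn (ht x1) (ht u) k1 k0`; `c6` gives `numCap = 4`. The top cup `z = zs u` is, by `top_of_adj`, adjacent to `k1 + i * N` in the `x1`-run of `k1 + i * N`; `run_ends`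
  (with `P = k1 + i * N`, `z = k0 + i * N`: `adjIn_shift`) gives `zs u = k1 + i * N` (impossible: a cap is not a cup) or `zs u = k0 + i * N`; the window `k0 ≤ zs u < k0 + N` (`zs_spec`) gives `i = 0`.
  For `- u`: it is near `- x1` and `(- u) ⬝ B > 0`: `pair_x2`: `AdjIn (ht (- x1)) (ht (- u)) k0 k1`; in the same way `zs (- u) = k1 + i * N`, and `k0 ≤ k1 + i * N < k0 + N`, `k1 < k0 < k1 + N` give `i = 1`.
* `DD_x1`: `numCap = 4`, so the first clause is vacuous. `om_adj` with `b = x1`, `P = k1`, `z = k0 = zs u` (a top cup): `om ξ η = m * (mis k0 ξ * star (mis k1 η))`. `mis (k1 + N) η = mis k1 η * τ` (`mis_per`), `Φ u = m1 ∈ μ`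
  (`Pot.near1`), `Φ (- u) = m2 * U` (`Pot.near2`, since `‖(- u) + x1‖ = ‖u - x1‖`). So with `κ = mis k0 ξ * Φ u = m1 * mis k0 ξ`, `κ' = mis (k1 + N) η * Φ (- u) = m2 * mis k1 η * τ * U`:
  `κ * A0 * star κ' = m1 * mis k0 ξ * τ * (star U)⁻¹ * star U * star τ * star (mis k1 η) * star m2 = (m1 * star m2) * (mis k0 ξ * star (mis k1 η))`, because `τ * star τ = star g * g = 1` (`C.g_unit`, `mul_eq_one_comm`).
* `final_rel`: `X = {u | u ≠ 0 ∧ u ⬝ e = 0 ∧ u ⬝ B < 0}` is convex, so preconnected; `X0` = its generic elements, dense (`gen_dense_perp`, and `u ⬝ B < 0` is open), all of them satisfy `PG` (`pg_of`). `DD_loc` (`b ⬝ B ≠ 0`) and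
  `locConst` give: `DD` is constant on `X0`. `DD_x1` and `exists_near_x1_perp` (first part): it holds at some point, so everywhere on `X0`. Take `u ∈ X0` near `- x1` (`exists_near_x1_perp`, second part), near enough for `ht_ref (- x1)`, `nopair_x2`, `Pot.near1` (for `- u`, near `x1`) and
  `Pot.near2` (for `u`). `- x1` is of type II (`x1_typ2`), so `DD_typ2` with the second alternative of `hX` gives `Φ u * A0 * star (Φ (- u)) ∈ μ`, `Φ u = m * U`, `Φ (- u) ∈ μ`, hence `U * A0 ∈ μ`: `U * star g * (star U)⁻¹ = m'`, i.e.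
  `U * star g = m' * star U`, `star U = m'⁻¹ * U * star g`.
* `core`: `exists_pot`, `pot_unit`, `final_rel`.
-/

namespace Pool.Agent.helper81.SBX

open Module Matrix

variable {D V : Type*} [DivisionRing D] [StarRing D] [AddCommGroup V] [Module D V]
variable {M : Marked} {Hm : Herm D V} {t : D} (C : Col M Hm t) (ht : Six D t) (Δ : M.Dir)

theorem cap_not_cup {H : ℤ → ℝ} {j : ℤ} (h : IsCap H j) (h' : IsCup H j) : False :=
  lt_asymm h.1 h'.1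

theorem zs_x1_aux (hV : finrank D V = 3)
    (h4 : ∀ u ∈ M.hemi0, (C.rs ht).numCap (M.ht u) ≤ 4) {b u : E3} (hb : b ≠ 0)
    (he : b ⬝ᵥ M.e = 0) (hu : PG C ht u) (hR : Ref (M.ht b) (M.ht u)) {P z : ℤ}
    (h : AdjIn (M.ht b) (M.ht u) P z) :
    (C.rs ht).numCap (M.ht u) = 4 ∧ Δ.k0 ≤ C.zs ht Δ u ∧ C.zs ht Δ u < Δ.k0 + M.N ∧
      (C.rs ht).TopCup (M.ht u) (C.zs ht Δ u) ∧ ∃ i : ℤ, C.zs ht Δ u = z + i * M.N := by
  have hbh : b ∈ M.hemi := ⟨hb, he.ge⟩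
  have hA0 := ht_adm C ht hbh
  have hn := ht_nonconst Δ hb
  have hg := hu.good
  obtain ⟨-, hc, -, -, -⟩ := c6 hA0 hn hg.adm hg.gen hR hg.cap hg.dim.ge h
  have hu0 : u ∈ M.hemi0 := ⟨hu.ne, hu.perp.ge, hu.gen⟩
  obtain ⟨z1, z2, z3⟩ := zs_spec C ht Δ hV h4 hu0 hc
  obtain ⟨i, hi⟩ := top_of_adj hA0 hn hg hR h z3
  have hs := adjIn_shift hA0 hg.adm h i
  refine ⟨hc, z1, z2, z3, i, ?_⟩
  have hrun : SameRun (M.ht b) (z + i * (C.rs ht).N) (C.zs ht Δ u) :=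
    sameRun_trans (sameRun_symm hs.2.2.2) hi.2.2.2
  rcases run_ends (u := u) (u' := u) (u'' := u) hb he hs.2.2.2 hs.1 hs.2.1 hrun
    (Or.inr z3.1.1) with hh | hh
  · exfalso
    exact cap_not_cup hs.1 (hh ▸ z3.1.1)
  · exact hh

theorem zs_x1 (hV : finrank D V = 3) (h4 : ∀ u ∈ M.hemi0, (C.rs ht).numCap (M.ht u) ≤ 4) :
    ∃ s > 0, ∀ u : E3, PG C ht u → ‖u - Δ.x1‖ < s → u ⬝ᵥ M.d Δ.k1 < 0 →
      (C.rs ht).numCap (M.ht u) = 4 ∧ C.zs ht Δ u = Δ.k0 ∧ C.zs ht Δ (-u) = Δ.k1 + M.N ∧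
      Ref (M.ht Δ.x1) (M.ht u) ∧ AdjIn (M.ht Δ.x1) (M.ht u) Δ.k1 Δ.k0 := by
  obtain ⟨s1, hs1, p1⟩ := pair_x1 Δ
  obtain ⟨s2, hs2, p2⟩ := pair_x2 Δ
  obtain ⟨s3, hs3, r1⟩ := ht_ref M Δ.x1
  obtain ⟨hx1, hx1e, -, -, -⟩ := x1_spec Δ
  have hx2 : - Δ.x1 ≠ 0 := neg_ne_zero.2 hx1
  have hx2e : (- Δ.x1) ⬝ᵥ M.e = 0 := by rw [neg_dotProduct, hx1e, neg_zero]
  have hN : (0 : ℤ) < M.N := by exact_mod_cast M.hN
  refine ⟨min s1 (min s2 s3), lt_min hs1 (lt_min hs2 hs3), fun u hu hub hneg => ?_⟩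
  have hub1 : ‖u - Δ.x1‖ < s1 := lt_of_lt_of_le hub (min_le_left _ _)
  have hub2 : ‖u - Δ.x1‖ < s2 :=
    lt_of_lt_of_le hub ((min_le_right _ _).trans (min_le_left _ _))
  have hub3 : ‖u - Δ.x1‖ < s3 :=
    lt_of_lt_of_le hub ((min_le_right _ _).trans (min_le_right _ _))
  have hR := r1 u hub3
  have hA := p1 u hub1 hneg
  have hA' := p2 (-u) (by
    rw [show -u + Δ.x1 = -(u - Δ.x1) by abel, norm_neg]
    exact hub2) (by rw [neg_dotProduct]; linarith)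
  obtain ⟨hc, z1, z2, z3, i, hi⟩ := zs_x1_aux C ht Δ hV h4 hx1 hx1e hu hR hA
  obtain ⟨hc', w1, w2, w3, i', hi'⟩ :=
    zs_x1_aux C ht Δ hV h4 hx2 hx2e hu.neg (ref_neg hR) hA'
  refine ⟨hc, ?_, ?_, hR, hA⟩
  · rw [hi] at z1 z2
    have h0 : 0 ≤ i := by
      by_contra hcon
      push Not at hcon
      nlinarith
    have h1 : i < 1 := by
      by_contra hcon
      push Not at hcon
      nlinarith
    have h2 : i = 0 := by omega
    rw [hi, h2, zero_mul, add_zero]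
  · rw [hi'] at w1 w2
    have l1 := Δ.lt
    have l2 := Δ.lt'
    have h0 : 0 < i' := by
      by_contra hcon
      push Not at hcon
      nlinarith
    have h1 : i' < 2 := by
      by_contra hcon
      push Not at hcon
      nlinarith
    have h2 : i' = 1 := by omega
    rw [hi', h2, one_mul]

theorem DD_x1 (hV : finrank D V = 3) (h4 : ∀ u ∈ M.hemi0, (C.rs ht).numCap (M.ht u) ≤ 4)
    {Φ : E3 → Dˣ} {U : Dˣ} (hP : Pot C ht Δ Φ U) :
    ∃ s > 0, ∀ u : E3, PG C ht u → ‖u - Δ.x1‖ < s → u ⬝ᵥ M.d Δ.k1 < 0 →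
      DD C ht Δ Φ (star C.g * (star (U : D))⁻¹) u := by
  obtain ⟨s0, hs0, hz⟩ := zs_x1 C ht Δ hV h4
  obtain ⟨s1, hs1, n1⟩ := hP.near1
  obtain ⟨s2, hs2, n2⟩ := hP.near2
  obtain ⟨hx1, hx1e, -, -, -⟩ := x1_spec Δ
  refine ⟨min s0 (min s1 s2), lt_min hs0 (lt_min hs1 hs2), fun u hu hub hneg => ?_⟩
  have hub0 : ‖u - Δ.x1‖ < s0 := lt_of_lt_of_le hub (min_le_left _ _)
  have hub1 : ‖u - Δ.x1‖ < s1 :=
    lt_of_lt_of_le hub ((min_le_right _ _).trans (min_le_left _ _))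
  have hub2 : ‖u - Δ.x1‖ < s2 :=
    lt_of_lt_of_le hub ((min_le_right _ _).trans (min_le_right _ _))
  obtain ⟨hc, z1, z2, hR, hA⟩ := hz u hu hub0 hneg
  have hu0 : u ∈ M.hemi0 := ⟨hu.ne, hu.perp.ge, hu.gen⟩
  have hu' := hu.neg
  have hu0' : -u ∈ M.hemi0 := ⟨hu'.ne, hu'.perp.ge, hu'.gen⟩
  refine ⟨fun h => by omega, fun _ => ?_⟩
  obtain ⟨-, -, ztop⟩ := zs_spec C ht Δ hV h4 hu0 hc
  rw [z1] at ztop
  obtain ⟨m, hm, hom⟩ := om_adj C ht hx1 hx1e (ht_nonconst Δ hx1) hu hR ztop hA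
  have hm1 := n1 u hu0 hub1
  obtain ⟨m2, hm2, e2⟩ := n2 (-u) hu0' (by
    rw [show -u + Δ.x1 = -(u - Δ.x1) by abel, norm_neg]
    exact hub2)
  set m1 : D := (Φ u : D) with hm1d
  have hmm := mu_mul hm1 (mu_star ht hm2)
  refine ⟨m * (m1 * star m2)⁻¹, mu_mul hm (mu_inv ht hmm), fun h hh ξ hξ η hη => ?_⟩
  rw [hom h hh ξ hξ η hη, z1, z2]
  have e3 : mis (Δ.k1 + M.N) η = mis Δ.k1 η * star C.g := by
    have := mis_per hη Δ.k1 1
    rw [one_mul, zpow_one] at this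
    exact this
  have hU : star (U : D) ≠ 0 := star_ne_zero.2 (Units.ne_zero U)
  have hgg : star C.g * C.g = 1 := mul_eq_one_comm.mp C.g_unit
  rw [e3, e2]
  set a := mis Δ.k0 ξ
  set b := mis Δ.k1 η
  have key : a * m1 * (star C.g * (star (U : D))⁻¹) * star (b * star C.g * (m2 * (U : D))) =
      (m1 * star m2) * (a * star b) := by
    have c1 := mu_central ht hm1
    have c2 := mu_central ht (mu_star ht hm2)
    calc a * m1 * (star C.g * (star (U : D))⁻¹) * star (b * star C.g * (m2 * (U : D)))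
        = a * m1 * star C.g * (((star (U : D))⁻¹ * star (U : D)) * (star m2 * C.g)) * star b := by
          simp only [star_mul, star_star, mul_assoc]
      _ = a * m1 * star C.g * (star m2 * C.g) * star b := by
          rw [inv_mul_cancel₀ hU, one_mul]
      _ = a * m1 * (star C.g * C.g) * star m2 * star b := by
          rw [c2 C.g]; simp only [mul_assoc]
      _ = a * m1 * star m2 * star b := by rw [hgg, mul_one]
      _ = (m1 * star m2) * (a * star b) := by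
          rw [← c1 a, mul_assoc m1 a, ← c2 a]
          simp only [mul_assoc]
  rw [key, mul_assoc m, ← mul_assoc _ (m1 * star m2), inv_mul_cancel₀ (mu_ne_zero ht hmm),
    one_mul]

theorem final_rel (hV : finrank D V = 3)
    (h4 : ∀ u ∈ M.hemi0, (C.rs ht).numCap (M.ht u) ≤ 4)
    {Φ : E3 → Dˣ} {U : Dˣ} (hP : Pot C ht Δ Φ U) :
    ∃ m ∈ Six.mu t, star (U : D) = m * U * star C.g := by
  set A0 : D := star C.g * (star (U : D))⁻¹ with hA0d
  obtain ⟨hx1, hx1e, -, -, -⟩ := x1_spec Δ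
  have hx2 : - Δ.x1 ≠ 0 := neg_ne_zero.2 hx1
  have hx2e : (- Δ.x1) ⬝ᵥ M.e = 0 := by rw [neg_dotProduct, hx1e, neg_zero]
  set X : Set E3 := {u | u ⬝ᵥ M.e = 0 ∧ u ⬝ᵥ M.d Δ.k1 < 0} with hX
  have hne : ∀ u ∈ X, u ≠ 0 := by
    rintro u ⟨-, h⟩ rfl
    rw [zero_dotProduct] at h
    exact lt_irrefl _ h
  have hconv : Convex ℝ X := by
    intro x hx y hy a b ha hb hab
    refine ⟨?_, ?_⟩
    · rw [add_dotProduct, smul_dotProduct, smul_dotProduct, hx.1, hy.1, smul_zero, smul_zero,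
        add_zero]
    · rw [add_dotProduct, smul_dotProduct, smul_dotProduct, smul_eq_mul, smul_eq_mul]
      rcases ha.lt_or_eq with h | h
      · have := mul_neg_of_pos_of_neg h hx.2
        have h2 := mul_nonpos_of_nonneg_of_nonpos hb hy.2.le
        linarith
      · rw [← h, zero_add] at hab
        rw [← h, hab, zero_mul, one_mul, zero_add]
        exact hy.2
  set X0 : Set E3 := {u | u ∈ X ∧ Gen (M.ht u)} with hX0
  have hPG : ∀ u ∈ X0, PG C ht u := fun u hu =>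
    pg_of C ht Δ hV h4 (hne u hu.1) hu.1.1 hu.2
  have hdense : ∀ b ∈ X, ∀ ε > 0, ∃ x ∈ X0, ‖x - b‖ < ε := by
    intro b hb ε hε
    have hcont : Continuous fun u : E3 => u ⬝ᵥ M.d Δ.k1 := by
      simp only [dot3]
      fun_prop
    have hopen : IsOpen {u : E3 | u ⬝ᵥ M.d Δ.k1 < 0} := isOpen_lt hcont continuous_const
    obtain ⟨δ, hδ, hδ'⟩ := Metric.isOpen_iff.1 hopen b hb.2
    obtain ⟨x, -, x2, x3, x4⟩ := gen_dense_perp M (hne b hb) hb.1 (min ε δ) (lt_min hε hδ)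
    refine ⟨x, ⟨⟨x2, ?_⟩, x3⟩, lt_of_lt_of_le x4 (min_le_left _ _)⟩
    exact hδ' (by
      rw [Metric.mem_ball, dist_eq_norm]
      exact lt_of_lt_of_le x4 (min_le_right _ _))
  have hloc := locConst (X := X) (X0 := X0) hconv.isPreconnected (fun u hu => hu.1) hdense
    (DD C ht Δ Φ A0) (by
      intro b hb
      obtain ⟨s, hs, h⟩ := DD_loc C ht Δ hV h4 hP A0 (hne b hb) hb.1 hb.2.ne
      exact ⟨s, hs, fun x hx y hy hxb hyb => h x y (hPG x hx) (hPG y hy) hxb hyb⟩)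
  obtain ⟨s0, hs0, hD⟩ := DD_x1 C ht Δ hV h4 hP
  obtain ⟨⟨v, v1, v2, v3, v4, v5⟩, -⟩ := exists_near_x1_perp Δ s0 hs0
  have hvX : v ∈ X0 := ⟨⟨v2, v5⟩, v3⟩
  have hDv := hD v (hPG v hvX) v4 v5
  obtain ⟨s1, hs1, n1⟩ := hP.near1
  obtain ⟨s2, hs2, n2⟩ := hP.near2
  obtain ⟨s3, hs3, r1⟩ := ht_ref M (- Δ.x1)
  obtain ⟨s4, hs4, np⟩ := nopair_x2 Δ
  obtain ⟨-, ⟨u, u1, u2, u3, u4, u5⟩⟩ :=
    exists_near_x1_perp Δ (min (min s1 s2) (min s3 s4))
      (lt_min (lt_min hs1 hs2) (lt_min hs3 hs4))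
  have hd1 : ‖u + Δ.x1‖ < s1 := lt_of_lt_of_le u4 ((min_le_left _ _).trans (min_le_left _ _))
  have hd2 : ‖u + Δ.x1‖ < s2 := lt_of_lt_of_le u4 ((min_le_left _ _).trans (min_le_right _ _))
  have hd3 : ‖u + Δ.x1‖ < s3 := lt_of_lt_of_le u4 ((min_le_right _ _).trans (min_le_left _ _))
  have hd4 : ‖u + Δ.x1‖ < s4 := lt_of_lt_of_le u4 ((min_le_right _ _).trans (min_le_right _ _))
  have huX : u ∈ X0 := ⟨⟨u2, u5⟩, u3⟩
  have hPu := hPG u huX
  have hu' := hPu.neg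
  have hR := r1 u (by rw [sub_neg_eq_add]; exact hd3)
  have hnp := np u hd4 u5
  have hDu := (hloc v hvX u huX).1 hDv
  obtain ⟨-, t2⟩ := x1_typ2 C ht Δ hV h4
  rw [DD_typ2 C ht Δ hV h4 Φ A0 hx2 hx2e t2 hPu hR (Or.inr hnp)] at hDu
  obtain ⟨m, hm, e1⟩ := n2 u ⟨u1, u2.ge, u3⟩ hd2
  have hm1 := n1 (-u) ⟨hu'.ne, hu'.perp.ge, hu'.gen⟩ (by
    rw [show -u - Δ.x1 = -(u + Δ.x1) by abel, norm_neg]
    exact hd1)
  rw [e1] at hDu
  set m1 : D := (Φ (-u) : D) with hm1d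
  have hU : star (U : D) ≠ 0 := star_ne_zero.2 (Units.ne_zero U)
  -- `m * U * A0 * star m1 = n`
  set n : D := m * (U : D) * A0 * star m1 with hn
  have hns := mu_star ht hm1
  have hns0 := mu_ne_zero ht hns
  have hm0 := mu_ne_zero ht hm
  have hq : (U : D) * star C.g * (star (U : D))⁻¹ = m⁻¹ * n * (star m1)⁻¹ := by
    rw [hn, hA0d]
    rw [mul_assoc m⁻¹, mul_assoc (m * (U : D) * _), mul_inv_cancel₀ hns0, mul_one,
      mul_assoc m, inv_mul_cancel_left₀ hm0]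
    simp only [mul_assoc]
  have hq' : m⁻¹ * n * (star m1)⁻¹ ∈ Six.mu t := mu_mul (mu_mul (mu_inv ht hm) hDu)
    (mu_inv ht hns)
  set q : D := m⁻¹ * n * (star m1)⁻¹ with hqd
  have h1 : (U : D) * star C.g = q * star (U : D) := by
    rw [← hq, mul_assoc, inv_mul_cancel₀ hU, mul_one]
  refine ⟨q⁻¹, mu_inv ht hq', ?_⟩
  rw [mul_assoc, h1, inv_mul_cancel_left₀ (mu_ne_zero ht hq')]

include Δ in
theorem core (hV : finrank D V = 3) (h4 : ∀ u ∈ M.hemi0, (C.rs ht).numCap (M.ht u) ≤ 4)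
    (O : Subring D) (hO : (C.rs ht).Over O) (htO : t ∈ O) :
    ∃ U : Dˣ, (U : D) ∈ O ∧ ((U⁻¹ : Dˣ) : D) ∈ O ∧
      ∃ m ∈ Six.mu t, star (U : D) = m * U * star C.g := by
  obtain ⟨Φ, U, hP⟩ := exists_pot C ht Δ hV h4
  obtain ⟨h1, h2⟩ := pot_unit C ht Δ hV h4 hP O hO htO
  exact ⟨U, h1, h2, final_rel C ht Δ hV h4 hP⟩

end Pool.Agent.helper81.SBX
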