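import Pool.Agent.helper81.SBX.STyp1
import Pool.Agent.helper81.SBX.RC3

set_option autoImplicit false

/-!
# SCorner: the pairing near a direction of type II orthogonal to `e` (S10, S11)

Let `b ≠ 0`, `b ⬝ e = 0`, and `u` generic orthogonal to `e`, `Ref (ht b) (ht u)`; then `Ref (ht (- b)) (ht (- u))` (`ref_neg`).

PROOFS.
* `run_straight`: let `ht b` be constant on `[i, j]`, `i < k < j`. The pieces `k - 1`, `k` are `b`-horizontal: `b ⬝ d (k - 1) = b ⬝ d k = 0`, `b ⬝ e = 0`, so `det3 e (d (k - 1)) (d k) = 0` (`det_eq_zero`), and by `M.corner` the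
  node `k` is straight (positively parallel).
* `run_inner`: so it is neither a cap nor a cup of any `ht u`.
* `run_ends`: in a run of `ht b` which contains a cap `M` and a cup `z` of `ht u` (`M ≠ z`), every node `k` of the run which is a cap or a cup of `ht u'` (any `u'`) is `M` or `z`: otherwise one of the three nodes is strictly between the two others.
  (The three nodes are in one run; the middle one is not extremal by `run_inner`.)
* `corner_adj`: `zs u =: z` is a top cup (`zs_spec`), `c3` gives a cap `M` adjacent to `z` in a run of `ht b`. `adj_neg`: `AdjIn (ht (- b)) (ht (- u)) z M`. `top_of_adj` for `- b`, `- u` and the top cup `z1 = zs (- u)` of `ht (- u)`: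
  `AdjIn (ht (- b)) (ht (- u)) (z + i * N) z1`. So `z1` is a cap of `ht u` in the run of `z + i * N`, by `run_ends` (shifted by `i * N`) `z1 = M + i * N`. It remains to show `i = 0`. `z ∈ [k0, k0 + N)` and `z1 ∈ [k0, k0 + N)`. It suffices that
  `M ∈ [k0, k0 + N)`. Otherwise there is `n ∈ {0, 1}` such that `k0 + n N` is strictly between or equal to one of the ends: precisely `min M z < k0 + n N ≤ max M z`. The node `k0 + n N` is a corner
  (`d (k0 - 1)` is a multiple of `B`, `d k0 = C`, not parallel by `Δ.indep`), so by `run_straight` it is not strictly between `M` and `z`; so `k0 + n N = max M z`. Then the run contains the piece `k0 - 1 + n N`, a multiple of `B`: `b ⬝ B = 0`. If `b ⬝ B ≠ 0` we are done. Otherwise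
  (second alternative of `hX`) the nodes `k1, …, k0` (and their translates) are neither caps nor cups of `ht u`, but `max M z = k0 + n N` is one. Contradiction.
* `om_adj`: let `f` be a unit function of the cap `z` of `ht (- u)` (`exists_unit`). `om_unit`: `om ξ f = m * mis z ξ`. By `unit_mis_adj` for `- b`, `- u` and the adjacent pair (`z`, `M`): `mis M f = ± 1`. For `η ∈ T (ht (- u))`: `η = a • f + v` (`one_dim`, `f ∉ V0`),
  `mis M η = a * (± 1)`, so `om ξ η = m * mis z ξ * star a = ± m * (mis z ξ * star (mis M η))`.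
-/

namespace Pool.Agent.helper81.SBX

open Module Matrix

variable {D V : Type*} [DivisionRing D] [StarRing D] [AddCommGroup V] [Module D V]
variable {M : Marked} {Hm : Herm D V} {t : D} (C : Col M Hm t) (ht : Six D t) (Δ : M.Dir)

theorem ref_neg {b u : E3} (h : Ref (M.ht b) (M.ht u)) : Ref (M.ht (-b)) (M.ht (-u)) := by
  intro i j hij
  rw [ht_neg] at hij ⊢
  exact neg_lt_neg (h j i (neg_lt_neg_iff.mp hij))

theorem corner_hd (k : ℤ) (u : E3) : M.ht u k - M.ht u (k - 1) = u ⬝ᵥ M.d (k - 1) := by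
  have h := ht_succ M u (k - 1)
  rwa [sub_add_cancel] at h

theorem run_straight {b : E3} (hb : b ≠ 0) (he : b ⬝ᵥ M.e = 0) {i j k : ℤ}
    (h : SameRun (M.ht b) i j) (h1 : i < k) (h2 : k < j) :
    ∃ c : ℝ, 0 < c ∧ M.d k = c • M.d (k - 1) := by
  have e0 : M.ht b k = M.ht b i := h k (by omega) (by omega)
  have e1 : M.ht b (k - 1) = M.ht b i := h (k - 1) (by omega) (by omega)
  have e2 : M.ht b (k + 1) = M.ht b i := h (k + 1) (by omega) (by omega)
  have d0 : b ⬝ᵥ M.d k = 0 := by rw [← ht_succ, e0, e2, sub_self]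
  have d1 : b ⬝ᵥ M.d (k - 1) = 0 := by rw [← corner_hd, e0, e1, sub_self]
  have hd : M.d (k - 1) = M.q k - M.q (k - 1) := by
    simp only [Marked.d, sub_add_cancel]
  rcases M.corner k with ⟨c, hc, hcc⟩ | hne
  · refine ⟨c, hc, ?_⟩
    rw [hd]
    exact hcc
  · exfalso
    apply hne
    rw [← hd]
    exact det_eq_zero hb he d1 d0

theorem run_inner {b : E3} (hb : b ≠ 0) (he : b ⬝ᵥ M.e = 0) {i j k : ℤ}
    (h : SameRun (M.ht b) i j) (h1 : i < k) (h2 : k < j) (u : E3) :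
    ¬ IsCap (M.ht u) k ∧ ¬ IsCup (M.ht u) k := by
  obtain ⟨c, hc, hd⟩ := run_straight hb he h h1 h2
  have e1 : M.ht u (k + 1) - M.ht u k = c * (M.ht u k - M.ht u (k - 1)) := by
    rw [ht_succ, corner_hd, hd, dotProduct_smul, smul_eq_mul]
  constructor
  · rintro ⟨a1, a2⟩
    have := mul_pos hc (sub_pos.2 a1)
    linarith
  · rintro ⟨a1, a2⟩
    have := mul_pos hc (sub_pos.2 a1)
    nlinarith

theorem run_ends {b : E3} (hb : b ≠ 0) (he : b ⬝ᵥ M.e = 0) {u u' u'' : E3} {P z k : ℤ}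
    (h : SameRun (M.ht b) P z) (hP : IsCap (M.ht u) P) (hz : IsCup (M.ht u) z)
    (h' : SameRun (M.ht b) z k) (hk : IsCap (M.ht u') k ∨ IsCup (M.ht u'') k) :
    k = P ∨ k = z := by
  by_contra hcon
  push Not at hcon
  obtain ⟨hkP, hkz⟩ := hcon
  have hPz : P ≠ z := by
    intro e
    rw [e] at hP
    exact lt_asymm hP.1 hz.1
  have hk' : ∀ i j : ℤ, SameRun (M.ht b) i j → i < k → k < j → False := by
    intro i j hr a1 a2
    rcases hk with hk | hk
    · exact (run_inner hb he hr a1 a2 u').1 hk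
    · exact (run_inner hb he hr a1 a2 u'').2 hk
  rcases lt_or_gt_of_ne hPz with h1 | h1
  · rcases lt_or_gt_of_ne hkP with h2 | h2
    · exact (run_inner hb he (sameRun_symm h') h2 h1 u).1 hP
    · rcases lt_or_gt_of_ne hkz with h3 | h3
      · exact hk' _ _ h h2 h3
      · exact (run_inner hb he (sameRun_trans h h') h1 h3 u).2 hz
  · rcases lt_or_gt_of_ne hkz with h2 | h2
    · exact (run_inner hb he (sameRun_trans (sameRun_symm h') (sameRun_symm h)) h2 h1 u).2 hz
    · rcases lt_or_gt_of_ne hkP with h3 | h3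
      · exact hk' _ _ (sameRun_symm h) h2 h3
      · exact (run_inner hb he h' h1 h3 u).1 hP

include Δ in
theorem corner_d0 : ∃ c : ℝ, 0 < c ∧ M.d (Δ.k0 - 1) = c • M.d Δ.k1 := by
  have hlt := Δ.lt
  exact Δ.hB (Δ.k0 - 1) (by omega) (by omega)

include Δ in
theorem corner_not_straight (n : ℤ) {c : ℝ} (h : M.d (Δ.k0 + n * M.N) = c • M.d (Δ.k0 + n * M.N - 1)) :
    False := by
  obtain ⟨c', -, hc'⟩ := corner_d0 Δ
  rw [show Δ.k0 + n * (M.N : ℤ) - 1 = (Δ.k0 - 1) + n * M.N by ring, d_per, d_per, hc',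
    smul_smul] at h
  apply Δ.indep
  rw [h]
  simp only [det3, Pi.smul_apply, smul_eq_mul]
  ring

include Δ in
theorem corner_window {b u : E3} (hb : b ≠ 0) (he : b ⬝ᵥ M.e = 0)
    (hX : b ⬝ᵥ M.d Δ.k1 ≠ 0 ∨
      ∀ j, Δ.k1 ≤ j → j ≤ Δ.k0 → ¬ IsCap (M.ht u) j ∧ ¬ IsCup (M.ht u) j)
    {x y n : ℤ} (hr : SameRun (M.ht b) x y) (h1 : x < Δ.k0 + n * M.N) (h2 : Δ.k0 + n * M.N ≤ y)
    (hy : IsCap (M.ht u) y ∨ IsCup (M.ht u) y) : False := by
  have hlt := Δ.lt
  rcases h2.lt_or_eq with h3 | h3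
  · obtain ⟨c, -, hc⟩ := run_straight hb he hr h1 h3
    exact corner_not_straight Δ n hc
  · have e0 : M.ht b (Δ.k0 + n * M.N) = M.ht b x := hr _ (by omega) (by omega)
    have e1 : M.ht b (Δ.k0 + n * M.N - 1) = M.ht b x := hr _ (by omega) (by omega)
    have hB : b ⬝ᵥ M.d Δ.k1 = 0 := by
      obtain ⟨c', hc0, hc'⟩ := corner_d0 Δ
      have d1 : b ⬝ᵥ M.d (Δ.k0 + n * M.N - 1) = 0 := by rw [← corner_hd, e0, e1, sub_self]
      rw [show Δ.k0 + n * (M.N : ℤ) - 1 = (Δ.k0 - 1) + n * M.N by ring, d_per, hc',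
        dotProduct_smul, smul_eq_mul] at d1
      rcases mul_eq_zero.1 d1 with h | h
      · exact absurd h hc0.ne'
      · exact h
    rcases hX with hX | hX
    · exact hX hB
    · obtain ⟨n1, n2⟩ := hX Δ.k0 hlt.le le_rfl
      rw [← h3] at hy
      rcases hy with hy | hy
      · apply n1
        have a1 := hy.1
        have a2 := hy.2
        rw [show Δ.k0 + n * (M.N : ℤ) - 1 = (Δ.k0 - 1) + n * M.N by ring, ht_per_mul,
          ht_per_mul] at a1
        rw [show Δ.k0 + n * (M.N : ℤ) + 1 = (Δ.k0 + 1) + n * M.N by ring, ht_per_mul,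
          ht_per_mul] at a2
        exact ⟨a1, a2⟩
      · apply n2
        have a1 := hy.1
        have a2 := hy.2
        rw [show Δ.k0 + n * (M.N : ℤ) - 1 = (Δ.k0 - 1) + n * M.N by ring, ht_per_mul,
          ht_per_mul] at a1
        rw [show Δ.k0 + n * (M.N : ℤ) + 1 = (Δ.k0 + 1) + n * M.N by ring, ht_per_mul,
          ht_per_mul] at a2
        exact ⟨a1, a2⟩

theorem corner_adj_neg {b u : E3} {P z : ℤ} (h : AdjIn (M.ht b) (M.ht u) P z) :
    AdjIn (M.ht (-b)) (M.ht (-u)) z P := by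
  rw [ht_neg, ht_neg]
  exact adj_neg h

theorem corner_adj (hV : finrank D V = 3) (h4 : ∀ u ∈ M.hemi0, (C.rs ht).numCap (M.ht u) ≤ 4)
    {b u : E3} (hb : b ≠ 0) (he : b ⬝ᵥ M.e = 0) (h2 : ¬ (C.rs ht).Typ1 (M.ht b))
    (hu : PG C ht u) (hR : Ref (M.ht b) (M.ht u)) (hc : (C.rs ht).numCap (M.ht u) = 4)
    (hX : b ⬝ᵥ M.d Δ.k1 ≠ 0 ∨
      ∀ j, Δ.k1 ≤ j → j ≤ Δ.k0 → ¬ IsCap (M.ht u) j ∧ ¬ IsCup (M.ht u) j) :
    AdjIn (M.ht b) (M.ht u) (C.zs ht Δ (-u)) (C.zs ht Δ u) := by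
  have hN : (0 : ℤ) < M.N := by exact_mod_cast M.hN
  obtain ⟨hh, hh'⟩ := hemi0_neg hu.ne hu.perp hu.gen
  have hb' : -b ≠ 0 := neg_ne_zero.2 hb
  have he' : (-b) ⬝ᵥ M.e = 0 := by rw [neg_dotProduct, he, neg_zero]
  have hA0 : (C.rs ht).Adm (M.ht b) := ht_adm C ht ⟨hb, he.ge⟩
  have hA0' : (C.rs ht).Adm (M.ht (-b)) := ht_adm C ht ⟨hb', he'.ge⟩
  have hn := ht_nonconst Δ hb
  have hn' := ht_nonconst Δ hb'
  obtain ⟨z1, z2, hz⟩ := zs_spec C ht Δ hV h4 hh hc
  have hc' : (C.rs ht).numCap (M.ht (-u)) = 4 := by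
    rw [ht_neg, numCap_neg hu.good.adm hu.gen, hc]
  obtain ⟨w1, w2, hw⟩ := zs_spec C ht Δ hV h4 hh' hc'
  set z := C.zs ht Δ u with hzdef
  set w := C.zs ht Δ (-u) with hwdef
  obtain ⟨P, hP, -, -⟩ := c3 hA0 hn h2 hu.good hR hz
  obtain ⟨i, hi⟩ := top_of_adj hA0' hn' hu.good' (ref_neg hR) (corner_adj_neg hP) hw
  have hi' : AdjIn (M.ht b) (M.ht u) w (z + i * M.N) := by
    have := corner_adj_neg hi
    rwa [neg_neg, neg_neg] at this
  have hs : AdjIn (M.ht b) (M.ht u) (w + (-i) * M.N) z := by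
    have := adjIn_shift hA0 hu.good.adm hi' (-i)
    have e : z + i * (M.N : ℤ) + -i * ((C.rs ht).N : ℤ) = z := by
      change z + i * (M.N : ℤ) + -i * (M.N : ℤ) = z
      ring
    rw [e] at this
    exact this
  have hkP : w + (-i) * M.N = P := by
    rcases run_ends hb he (u := u) (u' := u) (u'' := u) hP.2.2.2 hP.1 hz.1.1
      (sameRun_symm hs.2.2.2) (Or.inl hs.1) with h | h
    · exact h
    · exfalso
      have h1 := hs.1
      rw [h] at h1
      exact lt_asymm h1.1 hz.1.1.1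
  have hPlow : Δ.k0 ≤ P := by
    by_contra hlt
    push Not at hlt
    refine corner_window Δ hb he hX (n := 0) hP.2.2.2 ?_ ?_ (Or.inr hz.1.1)
    · simpa using hlt
    · simpa using z1
  have hPup : P < Δ.k0 + M.N := by
    by_contra hlt
    push Not at hlt
    refine corner_window Δ hb he hX (n := 1) (sameRun_symm hP.2.2.2) ?_ ?_ (Or.inl hP.1)
    · simpa using z2
    · simpa using hlt
  have hi0 : i = 0 := by
    rcases lt_trichotomy i 0 with h | h | h
    · exfalso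
      nlinarith
    · exact h
    · exfalso
      nlinarith
  rw [hi0] at hkP
  have : w = P := by
    rw [← hkP]
    ring
  rw [this]
  exact hP

theorem om_adj {b u : E3} (hb : b ≠ 0) (he : b ⬝ᵥ M.e = 0) (hn : ∃ i j, M.ht b i ≠ M.ht b j)
    (hu : PG C ht u) (hR : Ref (M.ht b) (M.ht u)) {P z : ℤ}
    (hz : (C.rs ht).TopCup (M.ht u) z) (hA : AdjIn (M.ht b) (M.ht u) P z) :
    ∃ m ∈ Six.mu t, ∀ h, GoodLev C ht u h → ∀ ξ ∈ (C.rs ht).T (M.ht u),
      ∀ η ∈ (C.rs ht).T (M.ht (-u)), C.om ht u h ξ η = m * (mis z ξ * star (mis P η)) := by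
  have hb' : -b ≠ 0 := neg_ne_zero.2 hb
  have he' : (-b) ⬝ᵥ M.e = 0 := by rw [neg_dotProduct, he, neg_zero]
  have hA0' : (C.rs ht).Adm (M.ht (-b)) := ht_adm C ht ⟨hb', he'.ge⟩
  have hn' : ∃ i j, M.ht (-b) i ≠ M.ht (-b) j := by
    obtain ⟨i, j, hij⟩ := hn
    refine ⟨i, j, ?_⟩
    rw [ht_neg]
    exact fun h => hij (neg_injective h)
  have hA' := corner_adj_neg hA
  obtain ⟨f, hf, -⟩ := exists_unit (R := C.rs ht) hu.good'.adm hu.good'.gen hA'.1
  obtain ⟨m, hm, hom⟩ := om_unit C ht hu hz hf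
  have hmis := unit_mis_adj hA0' hu.good'.adm hu.good'.gen (ref_neg hR) hn' hA' hf
  have hfV : f ∉ (C.rs ht).V0 := by
    intro hfv
    rw [mis_V0 hu.good'.adm hA'.2.1 hfv] at hmis
    split_ifs at hmis
    · exact zero_ne_one hmis
    · exact one_ne_zero (neg_eq_zero.mp hmis.symm)
  have key : ∀ h, GoodLev C ht u h → ∀ ξ ∈ (C.rs ht).T (M.ht u),
      ∀ η ∈ (C.rs ht).T (M.ht (-u)), ∃ a : D, C.om ht u h ξ η = m * (mis z ξ * star a) ∧
        mis P η = a * mis P f := by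
    intro h hh ξ hξ η hη
    obtain ⟨a, ha⟩ := one_dim hu.good' hf.mem hη hfV
    refine ⟨a, ?_, ?_⟩
    · have e : η = a • f + (η - a • f) := by abel
      rw [e, om_add_right, om_smul_right, om_V0_right C ht hu hh hξ ha, add_zero, hom h hh ξ hξ,
        mul_assoc]
    · have e := mis_V0 hu.good'.adm hA'.2.1 ha
      rw [mis_sub, mis_smul, sub_eq_zero] at e
      exact e
  by_cases hlt : z < P
  · refine ⟨m, hm, fun h hh ξ hξ η hη => ?_⟩
    obtain ⟨a, h1, h3⟩ := key h hh ξ hξ η hη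
    rw [hmis, if_pos hlt, mul_one] at h3
    rw [h1, h3]
  · refine ⟨-m, mu_neg ht hm, fun h hh ξ hξ η hη => ?_⟩
    obtain ⟨a, h1, h3⟩ := key h hh ξ hξ η hη
    rw [hmis, if_neg hlt, mul_neg, mul_one] at h3
    rw [h1, h3, star_neg, mul_neg, neg_mul_neg]

end Pool.Agent.helper81.SBX
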