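import Pool.Agent.helper81.SBX.SCorner
import Pool.Agent.helper81.SBX.GPot

set_option autoImplicit false

/-!
# SDD: the duality predicate and its local constancy

Let `κ ξ = mis (zs u) ξ * Φ u` (for `u`) and `κ' η = mis (zs (- u)) η * Φ (- u)`. `A0 : D` is a fixed element. Elements of `μ` are central, `star` and inverses of elements of `μ` are in `μ` (`GMu`).

PROOFS.
* `DD_typ2`: `numCap = 3`: clear (the second clause is vacuous, and `3 ≠ 4`). `numCap = 4`: let `z = zs u`, `P = zs (- u)` (top cups, `zs_spec`; `numCap_neg`). `corner_adj` and `om_adj`: `om ξ η = m1 * (mis z ξ * star (mis P η))` for all good `h`. With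
  `K = Φ u * A0 * star (Φ (- u))` the clause says `m1 * (x * star y) = m * (x * K * star y)` for all values `x = mis z ξ`, `y = mis P η`. `→`: a good level exists (`good_exists`), and there are `ξ`, `η` with `x = y = 1` (`z`, `P` are effective;
  rescale by a scalar on the left, `mis_smul`), so `m1 = m * K`, `K ∈ μ`. `←`: `m = m1 * K⁻¹`.
* `DD_loc2`: `b` of type II: `- b` is of type II (`typ1_neg_iff`). `Pot.typ2` at `b` and `- b`: `Φ x = m * c`, `Φ (- x) = m' * c'` for `x` near `b`, so `Φ x * A0 * star (Φ (- x)) ∈ μ ↔ c * A0 * star c' ∈ μ`. With `DD_typ2` (`Ref (ht b) (ht x)` near `b` by `ht_ref`;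
  `hX` first alternative: `b ⬝ B ≠ 0`).
* `DD_loc1`: `b` of type I: `h`, `S = {j | h < ht b j}`, `ζ` from `typ1_lev` (`GoodLev b h`), and `S' = {j | - h < ht (- b) j}`, `η'` from `typ1_dual`. `Pot.typ1` at `b` for (`S`, `ζ`): `mis (zs x) ξ * Φ x = m * c` for lifts `ξ` of `ζ`, and at `- b` for (`S'`, `η'`):
  `mis (zs (- x)) η * Φ (- x) = m' * c'` for lifts `η` of `η'`. By `om_loc`, for `x` near `b`: `om x h ξ η = w := om b h ζ η'`. Claim: `DD x ↔ ∃ m ∈ μ, w = m * (c * A0 * star c')`, for `x` near `b` (`numCap = 4` by `good_rel`).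
  `→`: apply the clause to lifts `ξ`, `η` (exist by `typ1_main` (4) at `x` and `- x`: `Upper`, `Ref`) and the good level `h`. `←`: let `ξ0`, `η0` be lifts at `x`; general `ξ = a • ξ0 + v`, `η = d • η0 + v'` (`one_dim`; `ξ0, η0 ∉ V0` because otherwise
  `ζ = res S ξ0 ∈ res S V0`). For a good level `h'`: `om x h' ξ η = om x h ξ η` (`om_good_eq`) `= a * w * star d` (`om_add_left`, `om_smul_left`, …, `om_V0_left`, `om_V0_right`), and
  `κ ξ = a * (m1 * c)`, `κ' η = d * (m2 * c')` (`mis_V0`; `zs` are cups), so the right side is `m'' * (a * m1 * c * A0 * star c' * star m2 * star d)`; choose `m''` accordingly (it does not depend on `ξ`, `η`, `h'`).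
* `DD_loc`: cases.
-/

namespace Pool.Agent.helper81.SBX

open Module Matrix

variable {D V : Type*} [DivisionRing D] [StarRing D] [AddCommGroup V] [Module D V]
variable {M : Marked} {Hm : Herm D V} {t : D} (C : Col M Hm t) (ht : Six D t) (Δ : M.Dir)

/-- the duality relation at `u` -/
def DD (Φ : E3 → Dˣ) (A0 : D) (u : E3) : Prop :=
  ((C.rs ht).numCap (M.ht u) = 3 → (Φ u : D) * A0 * star (Φ (-u) : D) ∈ Six.mu t) ∧
  ((C.rs ht).numCap (M.ht u) = 4 → ∃ m ∈ Six.mu t, ∀ h, GoodLev C ht u h →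
    ∀ ξ ∈ (C.rs ht).T (M.ht u), ∀ η ∈ (C.rs ht).T (M.ht (-u)),
      C.om ht u h ξ η = m * ((mis (C.zs ht Δ u) ξ * Φ u) * A0 *
        star (mis (C.zs ht Δ (-u)) η * (Φ (-u) : D))))

/-- generic directions orthogonal to `e` and their negatives are in the hemisphere -/
theorem dd_hemi {u : E3} (hu : PG C ht u) : u ∈ M.hemi0 ∧ -u ∈ M.hemi0 :=
  hemi0_neg hu.ne hu.perp hu.gen

theorem dd_cap_neg {u : E3} (hu : PG C ht u) :
    (C.rs ht).numCap (M.ht (-u)) = (C.rs ht).numCap (M.ht u) := by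
  rw [ht_neg]
  exact numCap_neg hu.good.adm hu.gen

theorem dd_alg (x y f A g : D) :
    (x * f) * A * star (y * g) = x * (f * A * star g) * star y := by
  rw [star_mul]
  simp only [mul_assoc]

omit [AddCommGroup V] [Module D V] in
theorem dd_mu_iff (ht : Six D t) {m k : D} (hm : m ∈ Six.mu t) :
    m * k ∈ Six.mu t ↔ k ∈ Six.mu t := by
  constructor
  · intro h
    have := mu_mul (mu_inv ht hm) h
    rwa [← mul_assoc, inv_mul_cancel₀ (mu_ne_zero ht hm), one_mul] at this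
  · exact mu_mul hm

theorem dd_mu_alg (ht : Six D t) {m m' : D} (hm' : m' ∈ Six.mu t) (c A c' : D) :
    (m * c) * A * star (m' * c') = (m * star m') * (c * A * star c') := by
  have h2 := mu_central ht (mu_star ht hm')
  rw [star_mul, ← h2 (star c')]
  calc m * c * A * (star m' * star c') = m * (c * A * star m') * star c' := by
        simp only [mul_assoc]
    _ = m * (star m' * (c * A)) * star c' := by rw [← h2 (c * A)]
    _ = (m * star m') * (c * A * star c') := by simp only [mul_assoc]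

/-- the duality relation can be tested on one pair of functions at one good level -/
theorem dd_iff_one (hV : finrank D V = 3)
    (h4 : ∀ u ∈ M.hemi0, (C.rs ht).numCap (M.ht u) ≤ 4) (Φ : E3 → Dˣ) (A0 : D) {x : E3}
    (hx : PG C ht x) (hc : (C.rs ht).numCap (M.ht x) = 4) {h : ℝ} (hh : GoodLev C ht x h)
    {ξ0 η0 : ℤ → D} (hξ0 : ξ0 ∈ (C.rs ht).T (M.ht x)) (hη0 : η0 ∈ (C.rs ht).T (M.ht (-x)))
    (hn : ξ0 ∉ (C.rs ht).V0) (hn' : η0 ∉ (C.rs ht).V0) :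
    DD C ht Δ Φ A0 x ↔ ∃ m ∈ Six.mu t, C.om ht x h ξ0 η0 =
      m * ((mis (C.zs ht Δ x) ξ0 * Φ x) * A0 *
        star (mis (C.zs ht Δ (-x)) η0 * (Φ (-x) : D))) := by
  have hc' : (C.rs ht).numCap (M.ht (-x)) = 4 := (dd_cap_neg C ht hx).trans hc
  obtain ⟨hx0, hx0'⟩ := dd_hemi C ht hx
  obtain ⟨-, -, hz⟩ := zs_spec C ht Δ hV h4 hx0 hc
  obtain ⟨-, -, hz'⟩ := zs_spec C ht Δ hV h4 hx0' hc'
  constructor
  · intro hD
    obtain ⟨m, hm, e⟩ := hD.2 hc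
    exact ⟨m, hm, e h hh ξ0 hξ0 η0 hη0⟩
  · rintro ⟨m, hm, e⟩
    refine ⟨fun h3 => absurd (h3.symm.trans hc) (by norm_num), fun _ => ⟨m, hm, ?_⟩⟩
    intro h' hh' ξ hξ η hη
    obtain ⟨a, ha⟩ := one_dim hx.good hξ0 hξ hn
    obtain ⟨d, hd⟩ := one_dim hx.good' hη0 hη hn'
    have e1 : mis (C.zs ht Δ x) ξ = a * mis (C.zs ht Δ x) ξ0 := by
      have := mis_V0 hx.good.adm hz.1.1 ha
      rw [mis_sub, mis_smul] at this
      exact sub_eq_zero.1 this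
    have e2 : mis (C.zs ht Δ (-x)) η = d * mis (C.zs ht Δ (-x)) η0 := by
      have := mis_V0 hx.good'.adm hz'.1.1 hd
      rw [mis_sub, mis_smul] at this
      exact sub_eq_zero.1 this
    have e3 : C.om ht x h ξ η = a * C.om ht x h ξ0 η0 * star d := by
      have k1 : ξ = a • ξ0 + (ξ - a • ξ0) := by rw [add_sub_cancel]
      have k2 : η = d • η0 + (η - d • η0) := by rw [add_sub_cancel]
      have k3 : C.om ht x h ξ η = a * C.om ht x h ξ0 η := by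
        conv_lhs => rw [k1]
        rw [om_add_left, om_smul_left, om_V0_left C ht hx hh ha hη, add_zero]
      have k4 : C.om ht x h ξ0 η = C.om ht x h ξ0 η0 * star d := by
        conv_lhs => rw [k2]
        rw [om_add_right, om_smul_right, om_V0_right C ht hx hh hξ0 hd, add_zero]
      rw [k3, k4, mul_assoc]
    rw [om_good_eq C ht hx hh' hh hξ hη, e3, e, e1, e2]
    rw [← mul_assoc a m, ← mu_central ht hm a, mul_assoc d, star_mul d]
    simp only [mul_assoc]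

theorem DD_typ2 (hV : finrank D V = 3) (h4 : ∀ u ∈ M.hemi0, (C.rs ht).numCap (M.ht u) ≤ 4)
    (Φ : E3 → Dˣ) (A0 : D)
    {b u : E3} (hb : b ≠ 0) (he : b ⬝ᵥ M.e = 0) (h2 : ¬ (C.rs ht).Typ1 (M.ht b))
    (hu : PG C ht u) (hR : Ref (M.ht b) (M.ht u))
    (hX : b ⬝ᵥ M.d Δ.k1 ≠ 0 ∨
      ∀ j, Δ.k1 ≤ j → j ≤ Δ.k0 → ¬ IsCap (M.ht u) j ∧ ¬ IsCup (M.ht u) j) :
    DD C ht Δ Φ A0 u ↔ (Φ u : D) * A0 * star (Φ (-u) : D) ∈ Six.mu t := by
  have h3 := three_le hu.good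
  have h4' := hu.good.cap
  rcases (show (C.rs ht).numCap (M.ht u) = 3 ∨ (C.rs ht).numCap (M.ht u) = 4 by omega) with
    hc | hc
  · constructor
    · intro hD
      exact hD.1 hc
    · intro h
      exact ⟨fun _ => h, fun h' => absurd (hc.symm.trans h') (by norm_num)⟩
  · have hc' : (C.rs ht).numCap (M.ht (-u)) = 4 := (dd_cap_neg C ht hu).trans hc
    obtain ⟨hu0, hu0'⟩ := dd_hemi C ht hu
    obtain ⟨-, -, hz⟩ := zs_spec C ht Δ hV h4 hu0 hc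
    obtain ⟨-, -, hz'⟩ := zs_spec C ht Δ hV h4 hu0' hc'
    have hA := corner_adj C ht Δ hV h4 hb he h2 hu hR hc hX
    obtain ⟨m1, hm1, H1⟩ := om_adj C ht hb he (ht_nonconst Δ hb) hu hR hz hA
    constructor
    · intro hD
      obtain ⟨m, hm, H⟩ := hD.2 hc
      obtain ⟨h, hh⟩ := good_exists C ht hu hc
      obtain ⟨ξ, hξ, hξ1⟩ := hz.1.2
      obtain ⟨η, hη, hη1⟩ := hz'.1.2
      have e1 : mis (C.zs ht Δ u) ((mis (C.zs ht Δ u) ξ)⁻¹ • ξ) = 1 := by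
        rw [mis_smul, inv_mul_cancel₀ hξ1]
      have e2 : mis (C.zs ht Δ (-u)) ((mis (C.zs ht Δ (-u)) η)⁻¹ • η) = 1 := by
        rw [mis_smul, inv_mul_cancel₀ hη1]
      have k1 := H1 h hh _ (Submodule.smul_mem _ (mis (C.zs ht Δ u) ξ)⁻¹ hξ) _
        (Submodule.smul_mem _ (mis (C.zs ht Δ (-u)) η)⁻¹ hη)
      have k2 := H h hh _ (Submodule.smul_mem _ (mis (C.zs ht Δ u) ξ)⁻¹ hξ) _
        (Submodule.smul_mem _ (mis (C.zs ht Δ (-u)) η)⁻¹ hη)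
      rw [k1, e1, e2, star_one, one_mul, one_mul, one_mul, mul_one] at k2
      rw [← dd_mu_iff ht hm, ← k2]
      exact hm1
    · intro hK
      refine ⟨fun h' => absurd (h'.symm.trans hc) (by norm_num), fun _ =>
        ⟨m1 * ((Φ u : D) * A0 * star (Φ (-u) : D))⁻¹, mu_mul hm1 (mu_inv ht hK), ?_⟩⟩
      intro h hh ξ hξ η hη
      rw [H1 h hh ξ hξ η hη, dd_alg]
      generalize (Φ u : D) * A0 * star (Φ (-u) : D) = K at hK
      rw [← mu_central ht hK (mis (C.zs ht Δ u) ξ), mul_assoc m1, mul_assoc K,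
        ← mul_assoc K⁻¹ K, inv_mul_cancel₀ (mu_ne_zero ht hK), one_mul]

theorem DD_loc2 (hV : finrank D V = 3) (h4 : ∀ u ∈ M.hemi0, (C.rs ht).numCap (M.ht u) ≤ 4)
    {Φ : E3 → Dˣ} {U : Dˣ} (hP : Pot C ht Δ Φ U) (A0 : D) {b : E3} (hb : b ≠ 0)
    (he : b ⬝ᵥ M.e = 0) (hB : b ⬝ᵥ M.d Δ.k1 ≠ 0) (h2 : ¬ (C.rs ht).Typ1 (M.ht b)) :
    ∃ s > 0, ∀ x y : E3, PG C ht x → PG C ht y → ‖x - b‖ < s → ‖y - b‖ < s →
      (DD C ht Δ Φ A0 x ↔ DD C ht Δ Φ A0 y) := by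
  have hbh : b ∈ M.hemi := ⟨hb, he.ge⟩
  have hbh' : -b ∈ M.hemi := ⟨neg_ne_zero.2 hb, by rw [neg_dotProduct, he, neg_zero]⟩
  have h2' : ¬ (C.rs ht).Typ1 (M.ht (-b)) := by
    rw [← typ1_neg_iff C ht Δ hV h4 hb he]
    exact h2
  obtain ⟨c, s1, hs1, hc⟩ := hP.typ2 b hbh h2
  obtain ⟨c', s2, hs2, hc'⟩ := hP.typ2 (-b) hbh' h2'
  obtain ⟨s3, hs3, href⟩ := ht_ref M b
  have key : ∀ x : E3, PG C ht x → ‖x - b‖ < min s1 (min s2 s3) →
      (DD C ht Δ Φ A0 x ↔ (c : D) * A0 * star (c' : D) ∈ Six.mu t) := by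
    intro x hx hxb
    have l1 : ‖x - b‖ < s1 := lt_of_lt_of_le hxb (min_le_left _ _)
    have l2 : ‖x - b‖ < s2 := lt_of_lt_of_le hxb ((min_le_right _ _).trans (min_le_left _ _))
    have l3 : ‖x - b‖ < s3 := lt_of_lt_of_le hxb ((min_le_right _ _).trans (min_le_right _ _))
    have l2' : ‖-x - -b‖ < s2 := by
      rw [← neg_sub', norm_neg]
      exact l2
    obtain ⟨hx0, hx0'⟩ := dd_hemi C ht hx
    obtain ⟨m, hm, e⟩ := hc x hx0 l1
    obtain ⟨m', hm', e'⟩ := hc' (-x) hx0' l2'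
    rw [DD_typ2 C ht Δ hV h4 Φ A0 hb he h2 hx (href x l3) (Or.inl hB), e, e',
      dd_mu_alg ht hm', dd_mu_iff ht (mu_mul hm (mu_star ht hm'))]
  exact ⟨min s1 (min s2 s3), lt_min hs1 (lt_min hs2 hs3), fun x y hx hy hxb hyb =>
    (key x hx hxb).trans (key y hy hyb).symm⟩

theorem DD_loc1 (hV : finrank D V = 3) (h4 : ∀ u ∈ M.hemi0, (C.rs ht).numCap (M.ht u) ≤ 4)
    {Φ : E3 → Dˣ} {U : Dˣ} (hP : Pot C ht Δ Φ U) (A0 : D) {b : E3} (hb : b ≠ 0)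
    (he : b ⬝ᵥ M.e = 0) (h1 : (C.rs ht).Typ1 (M.ht b)) :
    ∃ s > 0, ∀ x y : E3, PG C ht x → PG C ht y → ‖x - b‖ < s → ‖y - b‖ < s →
      (DD C ht Δ Φ A0 x ↔ DD C ht Δ Φ A0 y) := by
  have hbh : b ∈ M.hemi := ⟨hb, he.ge⟩
  have hbh' : -b ∈ M.hemi := ⟨neg_ne_zero.2 hb, by rw [neg_dotProduct, he, neg_zero]⟩
  obtain ⟨h, hh⟩ := typ1_lev C ht hb he h1
  have hh' := typ1_dual C ht Δ hV h4 hb he hh
  obtain ⟨-, ζ, hζ, hne⟩ := id hh
  obtain ⟨-, ζ', hζ', hne'⟩ := hh'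
  obtain ⟨c, s1, hs1, hc⟩ := hP.typ1 b hbh _ ζ (upper_gt _ h) hζ hne
  obtain ⟨c', s2, hs2, hc'⟩ := hP.typ1 (-b) hbh' _ ζ' (upper_gt _ (-h)) hζ' hne'
  obtain ⟨s3, hs3, href⟩ := ht_ref M b
  obtain ⟨s4, hs4, href'⟩ := ht_ref M (-b)
  obtain ⟨s5, hs5, hloc⟩ := om_loc C ht Δ hV h4 hb he hh
  have key : ∀ x : E3, PG C ht x → ‖x - b‖ < min (min s1 s2) (min (min s3 s4) s5) →
      (DD C ht Δ Φ A0 x ↔ ∃ m ∈ Six.mu t, C.om ht b h ζ ζ' =
        m * ((c : D) * A0 * star (c' : D))) := by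
    intro x hx hxb
    obtain ⟨l12, l345⟩ := lt_min_iff.1 hxb
    obtain ⟨l1, l2⟩ := lt_min_iff.1 l12
    obtain ⟨l34, l5⟩ := lt_min_iff.1 l345
    obtain ⟨l3, l4⟩ := lt_min_iff.1 l34
    have hnorm : ‖-x - -b‖ = ‖x - b‖ := by rw [← neg_sub', norm_neg]
    rw [← hnorm] at l2 l4
    obtain ⟨hx0, hx0'⟩ := dd_hemi C ht hx
    obtain ⟨q1, -, -, q4⟩ := typ1_main (ht_adm C ht hbh) hx.good (href x l3)
      (upper_gt _ h) hζ hne
    obtain ⟨-, -, -, r4⟩ := typ1_main (ht_adm C ht hbh') hx.good' (href' (-x) l4)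
      (upper_gt _ (-h)) hζ' hne'
    obtain ⟨ξ0, hξ0, hξζ, -⟩ := q4 ζ hζ
    obtain ⟨η0, hη0, hηζ, -⟩ := r4 ζ' hζ'
    obtain ⟨hg, hom⟩ := hloc x l5 hx.perp hx.ne hx.gen
    obtain ⟨m1, hm1, e1⟩ := hc x hx0 l1 ξ0 hξ0 hξζ
    obtain ⟨m2, hm2, e2⟩ := hc' (-x) hx0' l2 η0 hη0 hηζ
    rw [dd_iff_one C ht Δ hV h4 Φ A0 hx q1 hg hξ0 hη0 (fun hv => hne ξ0 hv hξζ)
      (fun hv => hne' η0 hv hηζ), hom ζ ζ' ξ0 η0 hξζ hηζ, e1, e2, dd_mu_alg ht hm2]
    have hmm : m1 * star m2 ∈ Six.mu t := mu_mul hm1 (mu_star ht hm2)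
    constructor
    · rintro ⟨m, hm, e⟩
      exact ⟨m * (m1 * star m2), mu_mul hm hmm, by rw [e, mul_assoc m]⟩
    · rintro ⟨m, hm, e⟩
      refine ⟨m * (m1 * star m2)⁻¹, mu_mul hm (mu_inv ht hmm), ?_⟩
      rw [e, mul_assoc m, ← mul_assoc (m1 * star m2)⁻¹, inv_mul_cancel₀ (mu_ne_zero ht hmm),
        one_mul]
  exact ⟨_, lt_min (lt_min hs1 hs2) (lt_min (lt_min hs3 hs4) hs5), fun x y hx hy hxb hyb =>
    (key x hx hxb).trans (key y hy hyb).symm⟩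

theorem DD_loc (hV : finrank D V = 3) (h4 : ∀ u ∈ M.hemi0, (C.rs ht).numCap (M.ht u) ≤ 4)
    {Φ : E3 → Dˣ} {U : Dˣ} (hP : Pot C ht Δ Φ U) (A0 : D) {b : E3} (hb : b ≠ 0)
    (he : b ⬝ᵥ M.e = 0) (hB : b ⬝ᵥ M.d Δ.k1 ≠ 0) :
    ∃ s > 0, ∀ x y : E3, PG C ht x → PG C ht y → ‖x - b‖ < s → ‖y - b‖ < s →
      (DD C ht Δ Φ A0 x ↔ DD C ht Δ Φ A0 y) := by
  by_cases h1 : (C.rs ht).Typ1 (M.ht b)
  · exact DD_loc1 C ht Δ hV h4 hP A0 hb he h1
  · exact DD_loc2 C ht Δ hV h4 hP A0 hb he hB h1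

end Pool.Agent.helper81.SBX
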