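import Pool.Agent.helper81.SBX.SSlab
import Pool.Agent.helper81.SBX.SArc
import Pool.Agent.helper81.SBX.ROne
import Pool.Agent.helper81.SBX.RNeg

set_option autoImplicit false

/-!
# SGood: good levels and the pairing of `T (ht u)` and `T (ht (- u))` (S8)

`ht (- u) = - ht u` (`ht_neg`); caps and cups are exchanged (`cap_neg`, `cup_neg`); `- u` satisfies the same hypotheses as `u` (`PG.neg`). `{j | - h < ht (- u) j} = {j | ht u j < h}`.

PROOFS.
* `unit_near` (pure combinatorics): choose `ε` such that no node has a height in `(H M - ε, H M)` (finitely many heights). Let `j` be a piece crossing `h`, `H M - ε < h < H M`, `w` its higher end (`Gen`): `H w ≥ H M`.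
  If `H w > H M`: `IsUnitFn.vanish`. If `H w = H M`: if `w` is a cap: `w = M + i * N` gives `j ∈ {M - 1, M} + ℤ N`; otherwise `f w = 0` and `f (w - 1) = f w` (relation, `c w = 0`). If `w` is not a cap: the other piece at `w` has a larger top, so
  `f = 0` there (`vanish`); the relation at `w` and `over_gt` give `f j = 0`. Also `f (M - 1) = f M = 1`. The value on a strand in `{M - 1, M} + i N` is not needed.
* `good_rel`: `GoodLev u h` gives (`typ1_main` with `H0 = H = ht u`, `Ref` reflexive, `{j | h < H j}` upper) `numCap = 4`, `res S ξ ∈ Sol S` for `ξ ∈ T`, so `ξ` satisfies the relations at all nodes above `h` (`rel_of_res`), and if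
  `ξ` vanishes on `Pc S` then `ξ ∈ V0`.
* `om_V0_right`: `GoodLev u h`, `ξ ∈ T (ht u)`, `v ∈ V0`: `om_zero_above`. `om_V0_left`: `GoodLev (- u) (- h)`, `η ∈ T (ht (- u))`: relations at all nodes below `h`: `om_zero_below`.
* `good_above`: let `z` be a top cup of `ht u`, `h > H z` without nodes in `(H z, h]`: `{j | h < H j} = {j | H z < H j}`, so `GoodLev u h` by `typ1_top`.
* `om_unit`: let `z` be a top cup of `H = ht u`, `f` a unit function of the cap `z` of `- H`, `h1` slightly above `H z` (smaller than the `ε` of `arc_cup` and of `unit_near` for `- H`). `f` is `1` on `z - 1`, `z` and `Conc M u h1 z f`.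
  `arc_cup`: `om u h1 ξ f = m * mis z ξ` for all quasi-periodic `ξ`.
  `om_unit'`: let `z'` be a top cup of `- H` (a cap of `H`), `f'` a unit function of the cap `z'` of `H`, `h'` slightly below `H z'`: `arc_cap`: `om u h' f' η = m * star (mis z' η)`.
* `good_neg`: let `GoodLev u h`, `z` a top cup of `H`, `z'` a top cup of `- H` (exist: `numCap = 4` for both, `numCap_neg`). By `not_eff_of_typ1`, `H z < h`.
  Claim `h < H z'`. Suppose `H z' < h`. Let `f'` be the unit function of the cap `z'` of `H`; `z' ∉ S = {j | h < H j}`, so `res S f' = 0` and `f' ∈ V0` (`good_rel`). Let `h'` be slightly below `H z'`. All effective cups `w` of `- H`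
  have `- H w ≤ - H z'`, so they are not in `{j | H j < h'}`; for `η ∈ T (- H)`: `res {H < h'} η ∈ Sol` (`sol_of_not_eff` for `- H`), so `η` satisfies the relations below `h'`, and `om u h' f' η = 0` (`om_zero_below`). But by `om_unit'` it is
  `m * star (mis z' η)`, nonzero for some `η`. Contradiction.
  So all effective cups of `- H` have `H w ≥ H z' > h`, none is in `S' = {j | H j < h}`. Let `f` be the unit function of the cap `z` of `- H`; `res S' f ∈ Sol S'` (`sol_of_not_eff`). If `res S' f = res S' v` with `v ∈ V0`: take `h1` with `H z < h1 < h` slightly above `H z`;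
  strands at `h1` are in `Pc S'`, so `om u h1 ξ f = om u h1 ξ v = 0` for all `ξ ∈ T H` (`om_V0_right`, `GoodLev u h1` by `good_above`; `om_congr`), but `om u h1 ξ f = m * mis z ξ` is nonzero for some `ξ`. So `GoodLev (- u) (- h)`.
* `om_good_eq`: for `h ≤ h'` good: `ξ` satisfies the relations above `h`, `η` the relations below `h'` (`good_neg`, `good_rel` for `- u`), so `om_slab`.
* `om_unit` for all good `h`: `om_good_eq`.
* `om_ne`: `η = b • f + v` with `f` as in `om_unit` (`f ∉ V0` since `om u h ξ f ≠ 0` for some `ξ`; `one_dim`), `b ≠ 0`, `om ξ η = (m * mis z ξ) * star b ≠ 0`, as `mis z ξ ≠ 0` (`mem_V0_of_mis`).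
* `good_mid`: a level `h` (without nodes) between two good levels `h1 < h < h2` is not needed.
-/

namespace Pool.Agent.helper81.SBX

open Module Matrix

variable {D V : Type*} [DivisionRing D] [StarRing D] [AddCommGroup V] [Module D V]
variable {M : Marked} {Hm : Herm D V} {t : D} (C : Col M Hm t) (ht : Six D t)

/-- generic directions orthogonal to `e`, with the standing hypotheses for `u` and `- u` -/
structure PG (C : Col M Hm t) (ht : Six D t) (u : E3) : Prop where
  ne : u ≠ 0
  perp : u ⬝ᵥ M.e = 0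
  gen : Gen (M.ht u)
  good : Good3 (C.rs ht) (M.ht u)
  good' : Good3 (C.rs ht) (M.ht (-u))

/-- good levels -/
def GoodLev (C : Col M Hm t) (ht : Six D t) (u : E3) (h : ℝ) : Prop :=
  (∀ j, M.ht u j ≠ h) ∧ ∃ ζ ∈ (C.rs ht).Sol {j | h < M.ht u j},
    ∀ v ∈ (C.rs ht).V0, res {j | h < M.ht u j} v ≠ ζ

theorem PG.neg {u : E3} (hu : PG C ht u) : PG C ht (-u) where
  ne := neg_ne_zero.2 hu.ne
  perp := by rw [neg_dotProduct, hu.perp, neg_zero]
  gen := gen_neg.2 hu.gen
  good := hu.good'
  good' := by rw [neg_neg]; exact hu.good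

/-- gap above a level -/
theorem gap_above {R : RS D} {H : ℤ → ℝ} (hA : R.Adm H) (y : ℝ) :
    ∃ ε > 0, ∀ j, y < H j → y + ε ≤ H j := by
  classical
  set F : Finset ℝ := ((Finset.Ico (0 : ℤ) R.N).image H).filter (fun x => y < x) with hF
  have hmem : ∀ j, y < H j → H j ∈ F := by
    intro j hj
    obtain ⟨i, hi, k, rfl⟩ := RTop_red R j
    rw [per_mul hA] at hj ⊢
    rw [hF, Finset.mem_filter]
    exact ⟨Finset.mem_image_of_mem H hi, hj⟩
  rcases F.eq_empty_or_nonempty with h0 | hne
  · refine ⟨1, one_pos, fun j hj => ?_⟩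
    have := hmem j hj
    rw [h0] at this
    exact absurd this (Finset.notMem_empty _)
  · refine ⟨F.min' hne - y, ?_, fun j hj => ?_⟩
    · exact sub_pos.2 (Finset.mem_filter.1 (Finset.min'_mem F hne)).2
    · have := Finset.min'_le F _ (hmem j hj)
      linarith

/-- gap below a level -/
theorem gap_below {R : RS D} {H : ℤ → ℝ} (hA : R.Adm H) (y : ℝ) :
    ∃ ε > 0, ∀ j, H j < y → H j ≤ y - ε := by
  classical
  set F : Finset ℝ := ((Finset.Ico (0 : ℤ) R.N).image H).filter (fun x => x < y) with hF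
  have hmem : ∀ j, H j < y → H j ∈ F := by
    intro j hj
    obtain ⟨i, hi, k, rfl⟩ := RTop_red R j
    rw [per_mul hA] at hj ⊢
    rw [hF, Finset.mem_filter]
    exact ⟨Finset.mem_image_of_mem H hi, hj⟩
  rcases F.eq_empty_or_nonempty with h0 | hne
  · refine ⟨1, one_pos, fun j hj => ?_⟩
    have := hmem j hj
    rw [h0] at this
    exact absurd this (Finset.notMem_empty _)
  · refine ⟨y - F.max' hne, ?_, fun j hj => ?_⟩
    · exact sub_pos.2 (Finset.mem_filter.1 (Finset.max'_mem F hne)).2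
    · have := Finset.le_max' F _ (hmem j hj)
      linarith

theorem rel_of_T {R : RS D} {H : ℤ → ℝ} {f : ℤ → D} (hf : f ∈ R.T H) {j : ℤ}
    (hj : ¬ IsCup H j) : R.Rel f j := hf.2.2 j hj

theorem unit_near {R : RS D} {H : ℤ → ℝ} (hA : R.Adm H) (hG : Gen H) {z : ℤ} {f : ℤ → D}
    (hf : IsUnitFn R H z f) : f (z - 1) = 1 ∧ ∃ ε > 0, ∀ h, h < H z → H z - ε < h → ∀ j,
      (H j - h) * (H (j + 1) - h) < 0 → (¬ ∃ m : ℤ, j = z - 1 + m * R.N ∨ j = z + m * R.N) →
      f j = 0 := by
  have hv := hf.vanish hA hG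
  refine ⟨?_, ?_⟩
  · have hr : R.Rel f z := rel_of_T hf.mem (fun hc => lt_asymm hc.1 hf.cap.1)
    unfold RS.Rel at hr
    rw [c_cap hA hf.cap, mul_zero, add_zero, hf.one] at hr
    exact hr.symm
  · obtain ⟨ε, hε, hgap⟩ := gap_below hA (H z)
    refine ⟨ε, hε, fun h h1 h2 j hj hne => ?_⟩
    -- a node higher than `h` is at least as high as `z`
    have hge : ∀ i, h < H i → H z ≤ H i := by
      intro i hi
      by_contra hlt
      have := hgap i (not_le.1 hlt)
      linarith
    -- the over term vanishes at nodes at the height of `z`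
    have hov : ∀ i, H i = H z → f (R.o i) * R.c i = 0 := by
      intro i hi
      by_cases hc : R.c i = 0
      · rw [hc, mul_zero]
      · have := over_gt hA hG hc
        rw [hi] at this
        rw [hv _ this, zero_mul]
    -- values at caps at the height of `z`
    rcases lt_or_gt_of_ne (hG j) with hlt | hgt
    · -- the piece goes up, the higher end is `j + 1`
      have h3 : H j < h ∧ h < H (j + 1) := by
        constructor
        · by_contra hc
          have a1 : 0 ≤ H j - h := by linarith [not_lt.1 hc]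
          have a2 : 0 ≤ H (j + 1) - h := by linarith
          nlinarith [mul_nonneg a1 a2]
        · by_contra hc
          have a1 : 0 ≤ h - H (j + 1) := by linarith [not_lt.1 hc]
          have a2 : 0 ≤ h - H j := by linarith
          nlinarith [mul_nonneg a1 a2]
      have h4 := hge _ h3.2
      rcases lt_or_eq_of_le h4 with h5 | h5
      · exact hv j (lt_max_of_lt_right h5)
      · have hncup : ¬ IsCup H (j + 1) := by
          intro hc
          have := hc.1
          rw [add_sub_cancel_right] at this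
          exact lt_asymm this hlt
        have hr := rel_of_T hf.mem hncup
        unfold RS.Rel at hr
        rw [hov _ h5.symm, add_zero, add_sub_cancel_right] at hr
        rw [← hr]
        by_cases hcap : IsCap H (j + 1)
        · refine hf.zero _ hcap ?_
          rintro ⟨i, hi⟩
          exact hne ⟨i, Or.inl (by linarith)⟩
        · have h6 : H (j + 1) < H (j + 1 + 1) := (RExtAux.right_gt hG (not_lt.2 hlt.le) hcap).2
          refine hv _ (lt_max_of_lt_right ?_)
          rw [h5]
          exact h6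
    · -- the piece goes down, the higher end is `j`
      have h3 : H (j + 1) < h ∧ h < H j := by
        constructor
        · by_contra hc
          have a1 : 0 ≤ H (j + 1) - h := by linarith [not_lt.1 hc]
          have a2 : 0 ≤ H j - h := by linarith
          nlinarith [mul_nonneg a1 a2]
        · by_contra hc
          have a1 : 0 ≤ h - H j := by linarith [not_lt.1 hc]
          have a2 : 0 ≤ h - H (j + 1) := by linarith
          nlinarith [mul_nonneg a1 a2]
      have h4 := hge _ h3.2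
      rcases lt_or_eq_of_le h4 with h5 | h5
      · exact hv j (lt_max_of_lt_left h5)
      · by_cases hcap : IsCap H j
        · refine hf.zero _ hcap ?_
          rintro ⟨i, hi⟩
          exact hne ⟨i, Or.inr hi⟩
        · have h6 : H j < H (j - 1) := RExtAux.left_gt hG hgt hcap
          have hncup : ¬ IsCup H j := fun hc => lt_asymm hc.2 hgt
          have hr := rel_of_T hf.mem hncup
          unfold RS.Rel at hr
          rw [hov _ h5.symm, add_zero] at hr
          rw [hr]
          refine hv _ (lt_max_of_lt_left ?_)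
          rw [h5]
          exact h6

theorem good_rel {u : E3} (hu : PG C ht u) {h : ℝ} (hh : GoodLev C ht u h) :
    (C.rs ht).numCap (M.ht u) = 4 ∧
    (∀ ξ ∈ (C.rs ht).T (M.ht u), ∀ j, h < M.ht u j → (C.rs ht).Rel ξ j) ∧
    (∀ ξ ∈ (C.rs ht).T (M.ht u), res {j | h < M.ht u j} ξ = 0 → ξ ∈ (C.rs ht).V0) := by
  obtain ⟨-, ζ, hζ, hne⟩ := hh
  obtain ⟨a1, a2, a3, -⟩ := typ1_main hu.good.adm hu.good (ref_refl _) (upper_gt _ h) hζ hne
  refine ⟨a1, fun ξ hξ j hj => ?_, fun ξ hξ hr => ?_⟩
  · exact rel_of_res hu.good.adm (upper_gt _ h) (a2 ξ hξ) j hj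
  · exact a3 ξ hξ 0 (Submodule.zero_mem _) (by rw [hr, map_zero])

theorem good_above {u : E3} (hu : PG C ht u) {z : ℤ} (hz : (C.rs ht).TopCup (M.ht u) z) {h : ℝ}
    (h1 : M.ht u z < h) (h2 : ∀ j, M.ht u z < M.ht u j → h < M.ht u j) : GoodLev C ht u h := by
  have hS : {j | h < M.ht u j} = {j | M.ht u z < M.ht u j} := by
    ext j
    exact ⟨fun hj => lt_trans h1 hj, fun hj => h2 j hj⟩
  refine ⟨fun j hj => ?_, ?_⟩
  · have := h2 j (by rw [hj]; exact h1)
    exact absurd this (by rw [hj]; exact lt_irrefl _)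
  · rw [hS]
    exact typ1_top hu.good hz

theorem good_exists {u : E3} (hu : PG C ht u) (h4 : (C.rs ht).numCap (M.ht u) = 4) :
    ∃ h, GoodLev C ht u h := by
  obtain ⟨z, -, -, hz⟩ := exists_topCup hu.good h4 0
  obtain ⟨ε, hε, hgap⟩ := gap_above hu.good.adm (M.ht u z)
  refine ⟨M.ht u z + ε / 2, good_above C ht hu hz (by linarith) (fun j hj => ?_)⟩
  have := hgap j hj
  linarith

theorem qp_of_T {R : RS D} {H : ℤ → ℝ} {ξ : ℤ → D} (h : ξ ∈ R.T H) : QP R ξ := h.1

theorem om_V0_right {u : E3} (hu : PG C ht u) {h : ℝ} (hh : GoodLev C ht u h) {ξ v : ℤ → D}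
    (hξ : ξ ∈ (C.rs ht).T (M.ht u)) (hv : v ∈ (C.rs ht).V0) : C.om ht u h ξ v = 0 :=
  om_zero_above C ht hu.ne hu.perp hu.gen hh.1 hξ.1 hv.1
    (fun j hj => (good_rel C ht hu hh).2.1 ξ hξ j hj) (fun j _ => hv.2.2 j (Set.mem_univ j))

/-- the concentration of a unit function of a top cup, seen from above -/
theorem conc_neg {u : E3} (hu : PG C ht u) {z : ℤ} {f : ℤ → D}
    (hf : IsUnitFn (C.rs ht) (M.ht (-u)) z f) : f (z - 1) = 1 ∧ ∃ ε > 0, ∀ h, M.ht u z < h →
      h < M.ht u z + ε → Conc M u h z f := by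
  obtain ⟨h1, ε, hε, hz⟩ := unit_near hu.good'.adm hu.good'.gen hf
  refine ⟨h1, ε, hε, fun h ha hb j hj hne => ?_⟩
  have e : ∀ i, M.ht (-u) i = - M.ht u i := fun i => by rw [ht_neg]
  refine hz (-h) ?_ ?_ j ?_ hne
  · rw [e]; linarith
  · rw [e]; linarith
  · rw [e, e]
    have : (-M.ht u j - -h) * (-M.ht u (j + 1) - -h) = (M.ht u j - h) * (M.ht u (j + 1) - h) := by
      ring
    rw [this]
    exact hj

/-- the level pairing with a unit function at a level slightly above a cup -/
theorem om_near_cup {u : E3} (hu : PG C ht u) {z : ℤ} {f : ℤ → D}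
    (hf : IsUnitFn (C.rs ht) (M.ht (-u)) z f) (hz : IsCup (M.ht u) z) : ∃ ε > 0, ∀ h,
      M.ht u z < h → h < M.ht u z + ε → ∃ m ∈ Six.mu t, ∀ ξ ∈ (C.rs ht).T (M.ht u),
        C.om ht u h ξ f = m * mis z ξ := by
  obtain ⟨hf1, ε1, hε1, hc⟩ := conc_neg C ht hu hf
  obtain ⟨ε2, hε2, ha⟩ := arc_cup C ht hu.ne hu.perp hu.gen hz
  refine ⟨min ε1 ε2, lt_min hε1 hε2, fun h h1 h2 => ?_⟩
  obtain ⟨-, m, hm, ham⟩ := ha h h1 (lt_of_lt_of_le h2 (by linarith [min_le_right ε1 ε2]))
  refine ⟨m, hm, fun ξ hξ => ?_⟩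
  rw [ham ξ f 1 hξ.1 hf.mem.1 (hc h h1 (lt_of_lt_of_le h2 (by linarith [min_le_left ε1 ε2])))
    hf1 hf.one, star_one, mul_one]

/-- the level pairing with a unit function at a level slightly below a cap -/
theorem om_near_cap {u : E3} (hu : PG C ht u) {z : ℤ} {f : ℤ → D}
    (hf : IsUnitFn (C.rs ht) (M.ht u) z f) : ∃ ε > 0, ∀ h,
      h < M.ht u z → M.ht u z - ε < h → (∀ j, M.ht u j ≠ h) ∧
        ∃ m ∈ Six.mu t, ∀ η ∈ (C.rs ht).T (M.ht (-u)),
          C.om ht u h f η = m * star (mis z η) := by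
  obtain ⟨hf1, ε1, hε1, hc⟩ := unit_near hu.good.adm hu.good.gen hf
  obtain ⟨ε2, hε2, ha⟩ := arc_cap C ht hu.ne hu.perp hu.gen hf.cap
  refine ⟨min ε1 ε2, lt_min hε1 hε2, fun h h1 h2 => ?_⟩
  obtain ⟨hn, m, hm, ham⟩ := ha h h1 (lt_of_le_of_lt (by linarith [min_le_right ε1 ε2]) h2)
  refine ⟨hn, m, hm, fun η hη => ?_⟩
  have hcc : Conc M u h z f := fun j hj hne =>
    hc h h1 (lt_of_le_of_lt (by linarith [min_le_left ε1 ε2]) h2) j hj hne
  rw [ham f η 1 hf.mem.1 hη.1 hcc hf1 hf.one, one_mul]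

theorem good_neg {u : E3} (hu : PG C ht u) {h : ℝ} (hh : GoodLev C ht u h) :
    GoodLev C ht (-u) (-h) := by
  obtain ⟨h4, hrel, hV⟩ := good_rel C ht hu hh
  have h4' : (C.rs ht).numCap (M.ht (-u)) = 4 := by
    rw [ht_neg, numCap_neg hu.good.adm hu.gen, h4]
  have e : ∀ i, M.ht (-u) i = - M.ht u i := fun i => by rw [ht_neg]
  obtain ⟨z, -, -, hz⟩ := exists_topCup hu.good h4 0
  obtain ⟨z', -, -, hz'⟩ := exists_topCup hu.good' h4' 0
  have hcup : IsCup (M.ht u) z := hz.1.1
  have hcup' : IsCup (M.ht (-u)) z' := hz'.1.1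
  have hcapz' : IsCap (M.ht u) z' := by
    rw [ht_neg] at hcup'
    exact (cup_neg _ _).1 hcup'
  have hcapz : IsCap (M.ht (-u)) z := by
    rw [ht_neg]
    exact (cap_neg _ _).2 hcup
  -- the level is above the top cup of `u`
  have hzh : M.ht u z < h := by
    obtain ⟨hn, ζ, hζ, hne⟩ := hh
    have h1 := not_eff_of_typ1 hu.good.adm hu.good (ref_refl _) (upper_gt _ h) hζ hne hz.1
    exact lt_of_le_of_ne (not_lt.1 h1) (hn z)
  -- the level is below the top cup of `- u`
  have hzh' : h < M.ht u z' := by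
    by_contra hcon
    have hlt : M.ht u z' < h := lt_of_le_of_ne (not_lt.1 hcon) (hh.1 z')
    obtain ⟨f, hf, -⟩ := exists_unit (R := C.rs ht) hu.good.adm hu.gen hcapz'
    have hfV : f ∈ (C.rs ht).V0 := by
      refine hV f hf.mem (hf.res_of_notMem hu.good.adm hu.gen (upper_gt _ h) ?_)
      exact not_lt.2 hlt.le
    obtain ⟨ε, hε, hnear⟩ := om_near_cap C ht hu hf
    set h' : ℝ := M.ht u z' - ε / 2 with hh'
    obtain ⟨hn', m, hm, hom⟩ := hnear h' (by linarith) (by linarith)
    obtain ⟨η, hη, hmis⟩ := hz'.1.2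
    have hηr : ∀ j, M.ht u j < h' → (C.rs ht).Rel η j := by
      have hsol := sol_of_not_eff hu.good'.adm hu.good'.gen (upper_gt (M.ht (-u)) (-h'))
        (fun w hw he => by
          have := hz'.2 w he
          have hw' : -h' < M.ht (-u) w := hw
          rw [e] at this hw'
          rw [e] at this
          linarith) hη
      intro j hj
      refine rel_of_res hu.good'.adm (upper_gt _ _) hsol j ?_
      change -h' < M.ht (-u) j
      rw [e]
      linarith
    have h0 : C.om ht u h' f η = 0 :=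
      om_zero_below C ht hu.ne hu.perp hu.gen hn' hf.mem.1 hη.1
        (fun j _ => hfV.2.2 j (Set.mem_univ j)) hηr
    rw [hom η hη] at h0
    rcases mul_eq_zero.1 h0 with h0 | h0
    · exact mu_ne_zero ht hm h0
    · exact hmis (star_eq_zero.1 h0)
  -- no effective cup of `- u` is in the upper set
  have hnoteff : ∀ w ∈ {j | -h < M.ht (-u) j}, ¬ (C.rs ht).Eff (M.ht (-u)) w := by
    intro w hw he
    have := hz'.2 w he
    have hw' : -h < M.ht (-u) w := hw
    rw [e] at this hw'
    rw [e] at this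
    linarith
  obtain ⟨f, hf, -⟩ := exists_unit (R := C.rs ht) hu.good'.adm hu.good'.gen hcapz
  refine ⟨fun j hj => hh.1 j ?_, res {j | -h < M.ht (-u) j} f,
    sol_of_not_eff hu.good'.adm hu.good'.gen (upper_gt _ _) hnoteff hf.mem, fun v hv hr => ?_⟩
  · rw [e] at hj
    linarith
  · obtain ⟨ε, hε, hnear⟩ := om_near_cup C ht hu hf hcup
    obtain ⟨ε', hε', hgap⟩ := gap_above hu.good.adm (M.ht u z)
    set δ : ℝ := min (min ε ε') (h - M.ht u z) with hδ
    have hδ0 : 0 < δ := lt_min (lt_min hε hε') (by linarith)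
    have hδ1 : δ ≤ ε := (min_le_left _ _).trans (min_le_left _ _)
    have hδ2 : δ ≤ ε' := (min_le_left _ _).trans (min_le_right _ _)
    have hδ3 : δ ≤ h - M.ht u z := min_le_right _ _
    set h1 : ℝ := M.ht u z + δ / 2 with hh1
    obtain ⟨m, hm, hom⟩ := hnear h1 (by linarith) (by linarith)
    have hg1 : GoodLev C ht u h1 := good_above C ht hu hz (by linarith) (fun j hj => by
      have := hgap j hj
      linarith)
    obtain ⟨ξ, hξ, hmis⟩ := hz.1.2
    have h2 : C.om ht u h1 ξ f = C.om ht u h1 ξ v := by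
      refine om_congr C ht u h1 (fun _ _ => rfl) (fun j hj => ?_)
      have hcross : (M.ht u j - h1) * (M.ht u (j + 1) - h1) < 0 := by
        classical
        have := (Finset.mem_filter.1 hj).2
        exact this
      have hP : j ∈ Pc {j | -h < M.ht (-u) j} := by
        by_contra hP
        simp only [Pc, Set.mem_ofPred_eq, not_or, not_lt] at hP
        obtain ⟨p1, p2⟩ := hP
        rw [e] at p1 p2
        have a1 : 0 ≤ M.ht u j - h1 := by linarith
        have a2 : 0 ≤ M.ht u (j + 1) - h1 := by linarith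
        nlinarith [mul_nonneg a1 a2]
      have := congrFun hr j
      rw [res_apply_of_mem hP, res_apply_of_mem hP] at this
      exact this.symm
    rw [om_V0_right C ht hu hg1 hξ hv, hom ξ hξ] at h2
    rcases mul_eq_zero.1 h2 with h0 | h0
    · exact mu_ne_zero ht hm h0
    · exact hmis h0

/-- the relations below a good level -/
theorem good_rel_neg {u : E3} (hu : PG C ht u) {h : ℝ} (hh : GoodLev C ht u h) {η : ℤ → D}
    (hη : η ∈ (C.rs ht).T (M.ht (-u))) : ∀ j, M.ht u j < h → (C.rs ht).Rel η j := by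
  intro j hj
  refine (good_rel C ht (hu.neg C ht) (good_neg C ht hu hh)).2.1 η hη j ?_
  rw [ht_neg]
  simpa using hj

theorem om_good_eq {u : E3} (hu : PG C ht u) {h h' : ℝ} (hh : GoodLev C ht u h)
    (hh' : GoodLev C ht u h') {ξ η : ℤ → D} (hξ : ξ ∈ (C.rs ht).T (M.ht u))
    (hη : η ∈ (C.rs ht).T (M.ht (-u))) : C.om ht u h ξ η = C.om ht u h' ξ η := by
  have key : ∀ h h' : ℝ, h ≤ h' → GoodLev C ht u h → GoodLev C ht u h' →
      C.om ht u h ξ η = C.om ht u h' ξ η := by
    intro h h' hle hh hh'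
    exact om_slab C ht hu.ne hu.perp hu.gen hle hh.1 hh'.1 hξ.1 hη.1
      (fun j h1 _ => (good_rel C ht hu hh).2.1 ξ hξ j h1)
      (fun j _ h2 => good_rel_neg C ht hu hh' hη j h2)
  rcases le_total h h' with hle | hle
  · exact key h h' hle hh hh'
  · exact (key h' h hle hh' hh).symm

theorem om_V0_left {u : E3} (hu : PG C ht u) {h : ℝ} (hh : GoodLev C ht u h) {v η : ℤ → D}
    (hv : v ∈ (C.rs ht).V0) (hη : η ∈ (C.rs ht).T (M.ht (-u))) : C.om ht u h v η = 0 :=
  om_zero_below C ht hu.ne hu.perp hu.gen hh.1 hv.1 hη.1 (fun j _ => hv.2.2 j (Set.mem_univ j))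
    (good_rel_neg C ht hu hh hη)

theorem om_unit {u : E3} (hu : PG C ht u) {z : ℤ} (hz : (C.rs ht).TopCup (M.ht u) z) {f : ℤ → D}
    (hf : IsUnitFn (C.rs ht) (M.ht (-u)) z f) : ∃ m ∈ Six.mu t, ∀ h, GoodLev C ht u h →
      ∀ ξ ∈ (C.rs ht).T (M.ht u), C.om ht u h ξ f = m * mis z ξ := by
  obtain ⟨ε, hε, hnear⟩ := om_near_cup C ht hu hf hz.1.1
  obtain ⟨ε', hε', hgap⟩ := gap_above hu.good.adm (M.ht u z)
  set δ : ℝ := min ε ε' with hδ
  have hδ0 : 0 < δ := lt_min hε hε'
  have hδ1 : δ ≤ ε := min_le_left _ _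
  have hδ2 : δ ≤ ε' := min_le_right _ _
  obtain ⟨m, hm, hom⟩ := hnear (M.ht u z + δ / 2) (by linarith) (by linarith)
  have hg1 : GoodLev C ht u (M.ht u z + δ / 2) :=
    good_above C ht hu hz (by linarith) (fun j hj => by
      have := hgap j hj
      linarith)
  refine ⟨m, hm, fun h hh ξ hξ => ?_⟩
  rw [om_good_eq C ht hu hh hg1 hξ hf.mem, hom ξ hξ]

theorem om_ne {u : E3} (hu : PG C ht u) {h : ℝ} (hh : GoodLev C ht u h) {ξ η : ℤ → D}
    (hξ : ξ ∈ (C.rs ht).T (M.ht u)) (hη : η ∈ (C.rs ht).T (M.ht (-u)))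
    (hξ' : ξ ∉ (C.rs ht).V0) (hη' : η ∉ (C.rs ht).V0) : C.om ht u h ξ η ≠ 0 := by
  obtain ⟨h4, -, -⟩ := good_rel C ht hu hh
  obtain ⟨z, -, -, hz⟩ := exists_topCup hu.good h4 0
  have hcapz : IsCap (M.ht (-u)) z := by
    rw [ht_neg]
    exact (cap_neg _ _).2 hz.1.1
  obtain ⟨f, hf, -⟩ := exists_unit (R := C.rs ht) hu.good'.adm hu.good'.gen hcapz
  obtain ⟨m, hm, hom⟩ := om_unit C ht hu hz hf
  have hfV : f ∉ (C.rs ht).V0 := by
    intro hfV
    obtain ⟨ξ0, hξ0, hmis⟩ := hz.1.2
    have h1 := hom h hh ξ0 hξ0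
    rw [om_V0_right C ht hu hh hξ0 hfV] at h1
    rcases mul_eq_zero.1 h1.symm with h0 | h0
    · exact mu_ne_zero ht hm h0
    · exact hmis h0
  obtain ⟨a, ha⟩ := one_dim hu.good' hf.mem hη hfV
  have ha0 : a ≠ 0 := by
    rintro rfl
    rw [zero_smul, sub_zero] at ha
    exact hη' ha
  have e : η = a • f + (η - a • f) := by abel
  rw [e, om_add_right, om_smul_right, om_V0_right C ht hu hh hξ ha, add_zero, hom h hh ξ hξ]
  refine mul_ne_zero (mul_ne_zero (mu_ne_zero ht hm) ?_) (fun h0 => ha0 (star_eq_zero.1 h0))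
  exact fun h0 => hξ' (mem_V0_of_mis hu.good hz.1 hξ h0)

end Pool.Agent.helper81.SBX
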