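import Pool.Agent.helper81.SBX.SCluster

set_option autoImplicit false

/-!
# SPass: a slice product does not change when the level passes nodes which satisfy the group relation (S2)

PROOF of `slice_pass`. Let `ε` be smaller than the ones of `no_level` and of `ps_cont` (with `δ` less than half of the smallest distance of different values `ps u h0 j`, `0 ≤ j < N`).
For `|h - h0| < ε`, no node at the level `h`: every strand `j` at `h` touches `h0`, and the strands at `h` are: all pieces crossing `h0` strictly; and for a node `w` with `H w = h0` the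
piece `w - 1` (resp. `w`) if its other end is on the side of `h` (above `h0` if `h > h0`, below if `h < h0`). Apply `oprod_cluster` at `h1` and at `h2`, with `cl j = ps u h0 j` and
`P = image of ps u h0 on [0, N)` (the hypothesis `hcl` by the choice of `δ`; injectivity by `ps_inj`). It remains to show for every `p ∈ P` that the inner product
`I(h) = oprod ((strands u h).filter (cl = p)) (ps u h) (fac u ρ)` is the same for `h = h1` and `h = h2`. All indices are to be reduced modulo `N` to `[0, N)` (`j % N`): `ρ`, `ps`, `fac` and the conditions are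
periodic. Cases:
(A) no node of height `h0` has position `p`: then the touching pieces with position `p` cross `h0` strictly and any two agree (`cluster_interior`: a second one would give a node), so `I(h)` is one factor
  `fac u ρ j` or the empty product, the same for `h1`, `h2`.
(B) a plain node `w`, `H w = h0`, position `p` (`ps u h0 w = ps u h0 (w - 1) = p`: `ps_node`): the touching pieces are `w - 1`, `w` mod `N` (`cluster_node`), and `ρ w = ρ (w - 1)` (`GRel`). `w` regular: exactly one of `w - 1`,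
  `w` is a strand, both go up or both go down: `I(h) = ρ w` or `(ρ w)⁻¹` for all `h`. `w` a cap: above `h0` no strand: `1`; below `h0` both, one goes up and one goes down: `ρ (w - 1) (ρ w)⁻¹ = 1` in
  both orders. Cup: the same.
(C) an under node `w` : touching pieces `w - 1`, `w`, `o w` mod `N` (`cluster_node`; and `over_cross`, `pred_ne`, `over_ne`). `w` is regular (`und_regular`), `o = o w` crosses strictly. For `h ≠ h0` the strands are `o` and `w'`, with
  `w' = w` or `w - 1`: if `w` goes up (`H (w - 1) < H w < H (w + 1)`), `w' = w` for `h > h0`, `w' = w - 1` for `h < h0`; if `w` goes down the other way round; `ps u h w' = ps u h w` (`ps_straight`). By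
  `ps_swap` the sign of `ps o - ps w'` is the one of `(h - h0) * (- det3 e d_o d_w) * (u ⬝ d_o) * (u ⬝ d_w)`, nonzero (`transv`), so the order of `o` and `w'` is opposite above and below. With `δ = dlt w` (`- 1` iff `det3 e d_o d_w > 0`),
  `ε_o = ± 1`, `ε_w = ± 1` the directions: above `h0`, `ps w' < ps o` iff `δ ε_o ε_w = 1`. Put `r = (ρ o) ^ ε_o` (`= fac o`). The relation is `ρ w = (ρ o)^δ ρ (w - 1) (ρ o)^{-δ}`.
  `ε_w = 1`, `δ = ε_o`: above `(w, o)`: `ρ w * r`; below `(o, w - 1)`: `r * ρ (w - 1)`; equal as `ρ w = r ρ (w - 1) r⁻¹`.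
  `ε_w = 1`, `δ = - ε_o`: above `(o, w)`: `r * ρ w`; below `(w - 1, o)`: `ρ (w - 1) * r`; equal as `ρ w = r⁻¹ ρ (w - 1) r`.
  `ε_w = - 1`, `δ = ε_o`: above the strand is `w - 1`, order `(o, w - 1)`: `r * (ρ (w - 1))⁻¹`; below `(w, o)`: `(ρ w)⁻¹ * r`; equal.
  `ε_w = - 1`, `δ = - ε_o`: above `(w - 1, o)`: `(ρ (w - 1))⁻¹ * r`; below `(o, w)`: `r * (ρ w)⁻¹`; equal.
It is recommended to prove the algebra of (C) first as a small lemma, and to use a lemma `strands_near` describing the strands at `h` near `h0`.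
-/

namespace Pool.Agent.helper81.SBX

open Module Matrix

variable {M : Marked} {G : Type*} [Group G]

/-- `h` is near the level `h0` and no node has height `h` -/
structure Near (H : ℤ → ℝ) (h0 h : ℝ) : Prop where
  up : ∀ j, h0 < H j → h < H j
  dn : ∀ j, H j < h0 → H j < h
  ne : ∀ j, H j ≠ h

theorem Near.strict {H : ℤ → ℝ} {h0 h : ℝ} (hn : Near H h0 h) {i j : ℤ}
    (hc : (H i - h0) * (H j - h0) < 0) : (H i - h) * (H j - h) < 0 := by
  rcases mul_neg_iff.1 hc with ⟨h1, h2⟩ | ⟨h1, h2⟩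
  · exact mul_neg_of_pos_of_neg (sub_pos.2 (hn.up i (sub_pos.1 h1)))
      (sub_neg.2 (hn.dn j (sub_neg.1 h2)))
  · exact mul_neg_of_neg_of_pos (sub_neg.2 (hn.dn i (sub_neg.1 h1)))
      (sub_pos.2 (hn.up j (sub_pos.1 h2)))

theorem Near.touch {H : ℤ → ℝ} {h0 h : ℝ} (hn : Near H h0 h) {i j : ℤ}
    (hc : (H i - h) * (H j - h) < 0) : (H i - h0) * (H j - h0) ≤ 0 := by
  by_contra hcon
  push Not at hcon
  rcases pos_and_pos_or_neg_and_neg_of_mul_pos hcon with ⟨h1, h2⟩ | ⟨h1, h2⟩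
  · have h3 := mul_pos (sub_pos.2 (hn.up i (sub_pos.1 h1))) (sub_pos.2 (hn.up j (sub_pos.1 h2)))
    exact lt_asymm h3 hc
  · have h3 := mul_pos_of_neg_of_neg (sub_neg.2 (hn.dn i (sub_neg.1 h1)))
      (sub_neg.2 (hn.dn j (sub_neg.1 h2)))
    exact lt_asymm h3 hc

/-- crossing at a piece one of whose ends has height `h0` -/
theorem Near.up_iff {H : ℤ → ℝ} {h0 h : ℝ} (hn : Near H h0 h) {i : ℤ} (hi : h0 < H i) :
    (h0 - h) * (H i - h) < 0 ↔ h0 < h := by
  have h1 := sub_pos.2 (hn.up i hi)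
  constructor
  · intro h2
    rcases mul_neg_iff.1 h2 with ⟨-, h3⟩ | ⟨h3, -⟩
    · exact absurd h3 (not_lt.2 h1.le)
    · exact sub_neg.1 h3
  · intro h2
    exact mul_neg_of_neg_of_pos (sub_neg.2 h2) h1

theorem Near.dn_iff {H : ℤ → ℝ} {h0 h : ℝ} (hn : Near H h0 h) {i : ℤ} (hi : H i < h0) :
    (h0 - h) * (H i - h) < 0 ↔ h < h0 := by
  have h1 := sub_neg.2 (hn.dn i hi)
  constructor
  · intro h2
    rcases mul_neg_iff.1 h2 with ⟨h3, -⟩ | ⟨-, h3⟩
    · exact sub_pos.1 h3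
    · exact absurd h3 (not_lt.2 h1.le)
  · intro h2
    exact mul_neg_of_pos_of_neg (sub_pos.2 h2) h1

theorem red_ex (M : Marked) (j : ℤ) : ∃ m : ℤ, j % (M.N : ℤ) = j + m * M.N :=
  ⟨-(j / M.N), by rw [Int.emod_def]; ring⟩

theorem red_mem (M : Marked) (j : ℤ) : 0 ≤ j % (M.N : ℤ) ∧ j % (M.N : ℤ) < M.N := by
  have h : (0 : ℤ) < M.N := by exact_mod_cast M.hN
  exact ⟨Int.emod_nonneg _ h.ne', Int.emod_lt_of_pos _ h⟩

theorem red_iff {i j : ℤ} (h0 : 0 ≤ j) (h1 : j < M.N) :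
    (∃ m : ℤ, j = i + m * M.N) ↔ j = i % (M.N : ℤ) := by
  constructor
  · rintro ⟨m, hm⟩
    have h2 : j % (M.N : ℤ) = j := Int.emod_eq_of_lt h0 h1
    rw [← h2, hm, Int.add_mul_emod_self_right]
  · intro h
    obtain ⟨m, hm⟩ := red_ex M i
    exact ⟨m, h.trans hm⟩

theorem ht_red (u : E3) (j : ℤ) : M.ht u (j % (M.N : ℤ)) = M.ht u j := by
  obtain ⟨m, hm⟩ := red_ex M j
  rw [hm, ht_per_mul]

theorem ht_red1 (u : E3) (j : ℤ) : M.ht u (j % (M.N : ℤ) + 1) = M.ht u (j + 1) := by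
  obtain ⟨m, hm⟩ := red_ex M j
  rw [hm, show j + m * (M.N : ℤ) + 1 = (j + 1) + m * M.N by ring, ht_per_mul]

theorem ps_red (u : E3) (h : ℝ) (j : ℤ) : M.ps u h (j % (M.N : ℤ)) = M.ps u h j := by
  obtain ⟨m, hm⟩ := red_ex M j
  rw [hm, ps_per]

theorem fac_red {ρ : ℤ → G} (hρ : ∀ j, ρ (j + M.N) = ρ j) (u : E3) (j : ℤ) :
    M.fac u ρ (j % (M.N : ℤ)) = M.fac u ρ j := by
  have h1 : ρ (j % (M.N : ℤ)) = ρ j := by
    obtain ⟨m, hm⟩ := red_ex M j
    have h2 : Function.Periodic ρ (M.N : ℤ) := hρ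
    rw [hm]
    exact h2.int_mul m j
  unfold Marked.fac
  rw [ht_red, ht_red1, h1]

/-- the over piece has the position of the under node -/
theorem ps_over {u : E3} (hG : Gen (M.ht u)) (he : u ⬝ᵥ M.e = 0) {w : ℤ} (hw : M.und w) :
    M.ps u (M.ht u w) (M.o w) = M.ps u (M.ht u w) w := by
  have h := ps_swap hG he hw (M.ht u w)
  rw [sub_self, zero_mul] at h
  linarith

/-- the strands near a node -/
theorem mem_node {u : E3} (hu : u ≠ 0) (he : u ⬝ᵥ M.e = 0) (hG : Gen (M.ht u)) {w : ℤ} {h : ℝ}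
    (hn : Near (M.ht u) (M.ht u w) h) (j : ℤ) :
    (j ∈ M.strands u h ∧ M.ps u (M.ht u w) j = M.ps u (M.ht u w) w) ↔
      (j = (w - 1) % (M.N : ℤ) ∧ (M.ht u w - h) * (M.ht u (w - 1) - h) < 0) ∨
      (j = w % (M.N : ℤ) ∧ (M.ht u w - h) * (M.ht u (w + 1) - h) < 0) ∨
      (M.und w ∧ j = M.o w % (M.N : ℤ)) := by
  constructor
  · rintro ⟨h1, h2⟩
    obtain ⟨⟨h3, h4⟩, h5⟩ := mem_strands.1 h1
    have ht : Touch M u (M.ht u w) j := hn.touch h5
    rcases cluster_node hu he hG ht h2 with ⟨m, hm | hm⟩ | ⟨hw, m, hm⟩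
    · have h6 := (red_iff h3 h4).1 ⟨m, hm⟩
      left
      refine ⟨h6, ?_⟩
      rw [h6, ht_red, ht_red1, sub_add_cancel] at h5
      rw [mul_comm]; exact h5
    · have h6 := (red_iff h3 h4).1 ⟨m, hm⟩
      right; left
      refine ⟨h6, ?_⟩
      rw [h6, ht_red, ht_red1] at h5
      exact h5
    · right; right
      exact ⟨hw, (red_iff h3 h4).1 ⟨m, hm⟩⟩
  · rintro (⟨h1, h2⟩ | ⟨h1, h2⟩ | ⟨h1, h2⟩)
    · rw [h1, ps_red]
      refine ⟨mem_strands.2 ⟨red_mem M _, ?_⟩, ps_node hG w⟩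
      rw [ht_red, ht_red1, sub_add_cancel, mul_comm]
      exact h2
    · rw [h1, ps_red]
      refine ⟨mem_strands.2 ⟨red_mem M _, ?_⟩, rfl⟩
      rw [ht_red, ht_red1]
      exact h2
    · rw [h2, ps_red]
      refine ⟨mem_strands.2 ⟨red_mem M _, ?_⟩, ps_over hG he h1⟩
      rw [ht_red, ht_red1]
      exact hn.strict (over_cross hG he h1)

/-- the value at a single strand -/
theorem one_val {ρ : ℤ → G} (hρ : ∀ j, ρ (j + M.N) = ρ j) (u : E3) (h : ℝ) {F : Finset ℤ} {i : ℤ}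
    (hF : ∀ j, j ∈ F ↔ j = i % (M.N : ℤ)) : oprod F (M.ps u h) (M.fac u ρ) = M.fac u ρ i := by
  have : F = {i % (M.N : ℤ)} := by
    ext j
    rw [hF, Finset.mem_singleton]
  rw [this, oprod_singleton, fac_red hρ]

/-- the value at two strands -/
theorem two_val {ρ : ℤ → G} (hρ : ∀ j, ρ (j + M.N) = ρ j) (u : E3) (h : ℝ) {F : Finset ℤ} {i i' : ℤ}
    (hF : ∀ j, j ∈ F ↔ j = i % (M.N : ℤ) ∨ j = i' % (M.N : ℤ)) (hlt : M.ps u h i < M.ps u h i') :
    oprod F (M.ps u h) (M.fac u ρ) = M.fac u ρ i * M.fac u ρ i' := by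
  have : F = {i % (M.N : ℤ), i' % (M.N : ℤ)} := by
    ext j
    rw [hF, Finset.mem_insert, Finset.mem_singleton]
  rw [this, oprod_pair, fac_red hρ, fac_red hρ]
  rw [ps_red, ps_red]
  exact hlt

/-- crossings at a regular node -/
theorem reg_cross {u : E3} {w : ℤ} {h : ℝ} (hn : Near (M.ht u) (M.ht u w) h)
    (hr : (M.ht u w < M.ht u (w + 1) ∧ M.ht u (w - 1) < M.ht u w) ∨
      (M.ht u (w + 1) < M.ht u w ∧ M.ht u w < M.ht u (w - 1))) :
    ((M.ht u w - h) * (M.ht u (w + 1) - h) < 0 ↔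
      0 < (h - M.ht u w) * (M.ht u (w + 1) - M.ht u w)) ∧
    ((M.ht u w - h) * (M.ht u (w - 1) - h) < 0 ↔
      (h - M.ht u w) * (M.ht u (w + 1) - M.ht u w) < 0) := by
  rcases hr with ⟨h1, h2⟩ | ⟨h1, h2⟩
  · rw [hn.up_iff h1, hn.dn_iff h2, mul_pos_iff_of_pos_right (sub_pos.2 h1), sub_pos]
    refine ⟨Iff.rfl, ?_⟩
    have h3 := sub_pos.2 h1
    constructor
    · intro h4
      exact mul_neg_of_neg_of_pos (sub_neg.2 h4) h3
    · intro h4
      rcases mul_neg_iff.1 h4 with ⟨-, h5⟩ | ⟨h5, -⟩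
      · exact absurd h5 (not_lt.2 h3.le)
      · exact sub_neg.1 h5
  · rw [hn.dn_iff h1, hn.up_iff h2]
    have h3 := sub_neg.2 h1
    constructor
    · constructor
      · intro h4
        exact mul_pos_of_neg_of_neg (sub_neg.2 h4) h3
      · intro h4
        rcases pos_and_pos_or_neg_and_neg_of_mul_pos h4 with ⟨-, h5⟩ | ⟨h5, -⟩
        · exact absurd h5 (not_lt.2 h3.le)
        · exact sub_neg.1 h5
    · constructor
      · intro h4
        exact mul_neg_of_pos_of_neg (sub_pos.2 h4) h3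
      · intro h4
        rcases mul_neg_iff.1 h4 with ⟨h5, -⟩ | ⟨-, h5⟩
        · exact sub_pos.1 h5
        · exact absurd h5 (not_lt.2 h3.le)

theorem sig_ne {u : E3} (hG : Gen (M.ht u)) {w : ℤ} {h : ℝ} (hn : Near (M.ht u) (M.ht u w) h) :
    (h - M.ht u w) * (M.ht u (w + 1) - M.ht u w) ≠ 0 :=
  mul_ne_zero (sub_ne_zero.2 (Ne.symm (hn.ne w))) (sub_ne_zero.2 (Ne.symm (hG w)))

/-- node types -/
theorem node_cases {H : ℤ → ℝ} (hG : Gen H) (w : ℤ) :
    ((H w < H (w + 1) ∧ H (w - 1) < H w) ∨ (H (w + 1) < H w ∧ H w < H (w - 1))) ∨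
      IsCap H w ∨ IsCup H w := by
  have h1 := hG w
  have h2 := hG (w - 1)
  rw [sub_add_cancel] at h2
  rcases lt_or_gt_of_ne h1 with h1 | h1
  · rcases lt_or_gt_of_ne h2 with h2 | h2
    · exact Or.inl (Or.inl ⟨h1, h2⟩)
    · exact Or.inr (Or.inr ⟨h2, h1⟩)
  · rcases lt_or_gt_of_ne h2 with h2 | h2
    · exact Or.inr (Or.inl ⟨h2, h1⟩)
    · exact Or.inl (Or.inr ⟨h1, h2⟩)

/-- both pieces at a regular node go into the same direction -/
theorem fac_reg {u : E3} {w : ℤ} (hr : (M.ht u w < M.ht u (w + 1) ∧ M.ht u (w - 1) < M.ht u w) ∨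
      (M.ht u (w + 1) < M.ht u w ∧ M.ht u w < M.ht u (w - 1))) {ρ : ℤ → G} {R : G}
    (h : ρ w = R * ρ (w - 1) * R⁻¹) : M.fac u ρ w = R * M.fac u ρ (w - 1) * R⁻¹ := by
  unfold Marked.fac
  rw [sub_add_cancel]
  rcases hr with ⟨h1, h2⟩ | ⟨h1, h2⟩
  · rw [if_pos h1, if_pos h2, h]
  · rw [if_neg (not_lt.2 h1.le), if_neg (not_lt.2 h2.le), h]
    group

/-- plain node -/
theorem val_plain {u : E3} (hu : u ≠ 0) (he : u ⬝ᵥ M.e = 0) (hG : Gen (M.ht u)) {w : ℤ}
    (hw : ¬ M.und w) {ρ : ℤ → G} (hρ : ∀ j, ρ (j + M.N) = ρ j) (hR : M.GRel ρ w) :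
    ∃ g : G, ∀ h, Near (M.ht u) (M.ht u w) h → ∀ F : Finset ℤ,
      (∀ j, j ∈ F ↔ j ∈ M.strands u h ∧ M.ps u (M.ht u w) j = M.ps u (M.ht u w) w) →
      oprod F (M.ps u h) (M.fac u ρ) = g := by
  have hR' : ρ w = ρ (w - 1) := by
    unfold Marked.GRel at hR
    rwa [if_neg hw] at hR
  have hmem : ∀ h, Near (M.ht u) (M.ht u w) h → ∀ F : Finset ℤ,
      (∀ j, j ∈ F ↔ j ∈ M.strands u h ∧ M.ps u (M.ht u w) j = M.ps u (M.ht u w) w) →
      ∀ j, j ∈ F ↔ (j = (w - 1) % (M.N : ℤ) ∧ (M.ht u w - h) * (M.ht u (w - 1) - h) < 0) ∨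
      (j = w % (M.N : ℤ) ∧ (M.ht u w - h) * (M.ht u (w + 1) - h) < 0) := by
    intro h hn F hF j
    rw [hF, mem_node hu he hG hn]
    simp only [hw, false_and, or_false]
  rcases node_cases hG w with hr | hc | hc
  · refine ⟨M.fac u ρ w, fun h hn F hF => ?_⟩
    obtain ⟨c1, c2⟩ := reg_cross hn hr
    have hfac : M.fac u ρ w = M.fac u ρ (w - 1) := by
      have := fac_reg hr (ρ := ρ) (R := 1) (by rw [hR']; group)
      rw [this]; group
    rcases lt_or_gt_of_ne (sig_ne hG hn) with hs | hs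
    · rw [hfac]
      apply one_val hρ
      intro j
      rw [hmem h hn F hF j, c1, c2]
      constructor
      · rintro (⟨h1, -⟩ | ⟨-, h1⟩)
        · exact h1
        · exact absurd h1 (not_lt.2 hs.le)
      · exact fun h1 => Or.inl ⟨h1, hs⟩
    · apply one_val hρ
      intro j
      rw [hmem h hn F hF j, c1, c2]
      constructor
      · rintro (⟨-, h1⟩ | ⟨h1, -⟩)
        · exact absurd h1 (not_lt.2 hs.le)
        · exact h1
      · exact fun h1 => Or.inr ⟨h1, hs⟩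
  · -- cap
    refine ⟨1, fun h hn F hF => ?_⟩
    have hm := hmem h hn F hF
    simp only [hn.dn_iff hc.1, hn.dn_iff hc.2] at hm
    rcases lt_or_gt_of_ne (hn.ne w) with hs | hs
    · have : F = ∅ := by
        ext j
        rw [hm]
        simp only [Finset.notMem_empty, iff_false]
        rintro (⟨-, h1⟩ | ⟨-, h1⟩)
        · exact lt_asymm h1 hs
        · exact lt_asymm h1 hs
      rw [this, oprod_empty]
    · have hF2 : ∀ j, j ∈ F ↔ j = (w - 1) % (M.N : ℤ) ∨ j = w % (M.N : ℤ) := by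
        intro j
        rw [hm]
        simp only [hs, and_true]
      have f1 : M.fac u ρ w = (ρ w)⁻¹ := by
        unfold Marked.fac
        rw [if_neg (not_lt.2 hc.2.le)]
      have f2 : M.fac u ρ (w - 1) = ρ w := by
        unfold Marked.fac
        rw [sub_add_cancel, if_pos hc.1, hR']
      have hne : M.ps u h (w - 1) ≠ M.ps u h w := by
        intro heq
        have i1 := ((hF _).1 ((hF2 _).2 (Or.inl rfl))).1
        have i2 := ((hF _).1 ((hF2 _).2 (Or.inr rfl))).1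
        have i3 := ps_inj hu he h i1 i2 (by rw [ps_red, ps_red]; exact heq)
        obtain ⟨m1, hm1⟩ := red_ex M (w - 1)
        obtain ⟨m2, hm2⟩ := red_ex M w
        rw [hm1, hm2] at i3
        exact pred_ne hG w (m2 - m1) (by linear_combination i3)
      rcases lt_or_gt_of_ne hne with hlt | hlt
      · rw [two_val hρ u h hF2 hlt, f1, f2]; group
      · rw [two_val hρ u h (fun j => by rw [hF2, or_comm]) hlt, f1, f2]; group
  · -- cup
    refine ⟨1, fun h hn F hF => ?_⟩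
    have hm := hmem h hn F hF
    simp only [hn.up_iff hc.1, hn.up_iff hc.2] at hm
    rcases lt_or_gt_of_ne (hn.ne w) with hs | hs
    · have hF2 : ∀ j, j ∈ F ↔ j = (w - 1) % (M.N : ℤ) ∨ j = w % (M.N : ℤ) := by
        intro j
        rw [hm]
        simp only [hs, and_true]
      have f1 : M.fac u ρ w = ρ w := by
        unfold Marked.fac
        rw [if_pos hc.2]
      have f2 : M.fac u ρ (w - 1) = (ρ w)⁻¹ := by
        unfold Marked.fac
        rw [sub_add_cancel, if_neg (not_lt.2 hc.1.le), hR']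
      have hne : M.ps u h (w - 1) ≠ M.ps u h w := by
        intro heq
        have i1 := ((hF _).1 ((hF2 _).2 (Or.inl rfl))).1
        have i2 := ((hF _).1 ((hF2 _).2 (Or.inr rfl))).1
        have i3 := ps_inj hu he h i1 i2 (by rw [ps_red, ps_red]; exact heq)
        obtain ⟨m1, hm1⟩ := red_ex M (w - 1)
        obtain ⟨m2, hm2⟩ := red_ex M w
        rw [hm1, hm2] at i3
        exact pred_ne hG w (m2 - m1) (by linear_combination i3)
      rcases lt_or_gt_of_ne hne with hlt | hlt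
      · rw [two_val hρ u h hF2 hlt, f1, f2]; group
      · rw [two_val hρ u h (fun j => by rw [hF2, or_comm]) hlt, f1, f2]; group
    · have : F = ∅ := by
        ext j
        rw [hm]
        simp only [Finset.notMem_empty, iff_false]
        rintro (⟨-, h1⟩ | ⟨-, h1⟩)
        · exact lt_asymm h1 hs
        · exact lt_asymm h1 hs
      rw [this, oprod_empty]

/-- the exponent at an under node -/
theorem dlt_fac {u : E3} (hG : Gen (M.ht u)) {w : ℤ} (hw : M.und w) (ρ : ℤ → G) :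
    (0 < -(det3 M.e (M.d (M.o w)) (M.d w)) / (u ⬝ᵥ M.d (M.o w)) ∧
      (ρ (M.o w)) ^ M.dlt w = M.fac u ρ (M.o w)) ∨
    (-(det3 M.e (M.d (M.o w)) (M.d w)) / (u ⬝ᵥ M.d (M.o w)) < 0 ∧
      (ρ (M.o w)) ^ M.dlt w = (M.fac u ρ (M.o w))⁻¹) := by
  have hdet : det3 M.e (M.d (M.o w)) (M.d w) ≠ 0 := M.transv w hw
  have hs := ht_succ M u (M.o w)
  have hg := hG (M.o w)
  unfold Marked.dlt Marked.fac
  by_cases h1 : 0 < det3 M.e (M.d (M.o w)) (M.d w)
  · rw [if_pos h1]
    rcases lt_or_gt_of_ne hg with h2 | h2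
    · right
      rw [if_pos h2]
      refine ⟨div_neg_of_neg_of_pos (neg_lt_zero.2 h1) (by linarith), ?_⟩
      rw [_root_.zpow_neg_one]
    · left
      rw [if_neg (not_lt.2 h2.le)]
      refine ⟨div_pos_of_neg_of_neg (neg_lt_zero.2 h1) (by linarith), ?_⟩
      rw [_root_.zpow_neg_one]
  · have h1' : det3 M.e (M.d (M.o w)) (M.d w) < 0 := lt_of_le_of_ne (not_lt.1 h1) hdet
    rw [if_neg h1]
    rcases lt_or_gt_of_ne hg with h2 | h2
    · left
      rw [if_pos h2]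
      refine ⟨div_pos (neg_pos.2 h1') (by linarith), ?_⟩
      rw [_root_.zpow_one]
    · right
      rw [if_neg (not_lt.2 h2.le)]
      refine ⟨div_neg_of_pos_of_neg (neg_pos.2 h1') (by linarith), ?_⟩
      rw [_root_.zpow_one, inv_inv]

/-- sign of the difference of the positions -/
theorem swap_sig {u : E3} (hG : Gen (M.ht u)) (he : u ⬝ᵥ M.e = 0) {w : ℤ} (hw : M.und w)
    (h : ℝ) : M.ps u h (M.o w) - M.ps u h w =
      ((h - M.ht u w) * (M.ht u (w + 1) - M.ht u w)) *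
        (-(det3 M.e (M.d (M.o w)) (M.d w)) / (u ⬝ᵥ M.d (M.o w))) *
        ((u ⬝ᵥ u) / (u ⬝ᵥ M.d w) ^ 2) := by
  have h1 : u ⬝ᵥ M.d w ≠ 0 := by
    rw [← ht_succ]; exact sub_ne_zero.2 (Ne.symm (hG w))
  have h2 : u ⬝ᵥ M.d (M.o w) ≠ 0 := by
    rw [← ht_succ]; exact sub_ne_zero.2 (Ne.symm (hG _))
  rw [ps_swap hG he hw h, ht_succ]
  field_simp

/-- under node -/
theorem val_under {u : E3} (hu : u ≠ 0) (he : u ⬝ᵥ M.e = 0) (hG : Gen (M.ht u)) {w : ℤ}
    (hw : M.und w) {ρ : ℤ → G} (hρ : ∀ j, ρ (j + M.N) = ρ j) (hR : M.GRel ρ w) :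
    ∃ g : G, ∀ h, Near (M.ht u) (M.ht u w) h → ∀ F : Finset ℤ,
      (∀ j, j ∈ F ↔ j ∈ M.strands u h ∧ M.ps u (M.ht u w) j = M.ps u (M.ht u w) w) →
      oprod F (M.ps u h) (M.fac u ρ) = g := by
  have hR' : ρ w = (ρ (M.o w)) ^ M.dlt w * ρ (w - 1) * ((ρ (M.o w)) ^ M.dlt w)⁻¹ := by
    unfold Marked.GRel at hR
    rwa [if_pos hw] at hR
  have hr : (M.ht u w < M.ht u (w + 1) ∧ M.ht u (w - 1) < M.ht u w) ∨
      (M.ht u (w + 1) < M.ht u w ∧ M.ht u w < M.ht u (w - 1)) := by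
    rcases node_cases hG w with hr | hc | hc
    · exact hr
    · exact absurd hc (und_regular hw).1
    · exact absurd hc (und_regular hw).2
  have hfac := fac_reg hr hR'
  have hmem : ∀ h, Near (M.ht u) (M.ht u w) h → ∀ F : Finset ℤ,
      (∀ j, j ∈ F ↔ j ∈ M.strands u h ∧ M.ps u (M.ht u w) j = M.ps u (M.ht u w) w) →
      ∀ j, j ∈ F ↔ (j = (w - 1) % (M.N : ℤ) ∧
        (h - M.ht u w) * (M.ht u (w + 1) - M.ht u w) < 0) ∨
      (j = w % (M.N : ℤ) ∧ 0 < (h - M.ht u w) * (M.ht u (w + 1) - M.ht u w)) ∨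
      j = M.o w % (M.N : ℤ) := by
    intro h hn F hF j
    obtain ⟨c1, c2⟩ := reg_cross hn hr
    rw [hF, mem_node hu he hG hn, c1, c2]
    simp only [hw, true_and]
  have huu : 0 < u ⬝ᵥ u := by
    have h1 : u ⬝ᵥ u ≠ 0 := fun h => hu (dotProduct_self_eq_zero.1 h)
    have h2 : 0 ≤ u ⬝ᵥ u := by
      rw [dotProduct]
      exact Finset.sum_nonneg fun i _ => mul_self_nonneg _
    exact lt_of_le_of_ne h2 (Ne.symm h1)
  have hd : u ⬝ᵥ M.d w ≠ 0 := by
    rw [← ht_succ]; exact sub_ne_zero.2 (Ne.symm (hG w))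
  have hq : 0 < (u ⬝ᵥ u) / (u ⬝ᵥ M.d w) ^ 2 := by positivity
  have hst : ∀ h, M.ps u h (w - 1) = M.ps u h w := fun h => ps_straight hG hw h
  -- the two kinds of finsets
  have hF1 : ∀ h, Near (M.ht u) (M.ht u w) h → ∀ F : Finset ℤ,
      (∀ j, j ∈ F ↔ j ∈ M.strands u h ∧ M.ps u (M.ht u w) j = M.ps u (M.ht u w) w) →
      (h - M.ht u w) * (M.ht u (w + 1) - M.ht u w) < 0 →
      ∀ j, j ∈ F ↔ j = (w - 1) % (M.N : ℤ) ∨ j = M.o w % (M.N : ℤ) := by
    intro h hn F hF hs j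
    rw [hmem h hn F hF j]
    simp only [hs, and_true, not_lt.2 hs.le, and_false, false_or]
  have hF2 : ∀ h, Near (M.ht u) (M.ht u w) h → ∀ F : Finset ℤ,
      (∀ j, j ∈ F ↔ j ∈ M.strands u h ∧ M.ps u (M.ht u w) j = M.ps u (M.ht u w) w) →
      0 < (h - M.ht u w) * (M.ht u (w + 1) - M.ht u w) →
      ∀ j, j ∈ F ↔ j = w % (M.N : ℤ) ∨ j = M.o w % (M.N : ℤ) := by
    intro h hn F hF hs j
    rw [hmem h hn F hF j]
    simp only [hs, and_true, not_lt.2 hs.le, and_false, false_or]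
  rcases dlt_fac hG hw ρ with ⟨ht, hdl⟩ | ⟨ht, hdl⟩
  · refine ⟨M.fac u ρ (M.o w) * M.fac u ρ (w - 1), fun h hn F hF => ?_⟩
    have hsw := swap_sig hG he hw h
    rw [hdl] at hfac
    rcases lt_or_gt_of_ne (sig_ne hG hn) with hs | hs
    · have hneg := mul_neg_of_neg_of_pos (mul_neg_of_neg_of_pos hs ht) hq
      rw [← hsw, ← hst] at hneg
      exact two_val hρ u h (fun j => by rw [hF1 h hn F hF hs, or_comm]) (sub_neg.1 hneg)
    · have hpos := mul_pos (mul_pos hs ht) hq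
      rw [← hsw] at hpos
      rw [two_val hρ u h (hF2 h hn F hF hs) (sub_pos.1 hpos), hfac]
      group
  · refine ⟨M.fac u ρ (w - 1) * M.fac u ρ (M.o w), fun h hn F hF => ?_⟩
    have hsw := swap_sig hG he hw h
    rw [hdl, inv_inv] at hfac
    rcases lt_or_gt_of_ne (sig_ne hG hn) with hs | hs
    · have hpos := mul_pos (mul_pos_of_neg_of_neg hs ht) hq
      rw [← hsw, ← hst] at hpos
      exact two_val hρ u h (hF1 h hn F hF hs) (sub_pos.1 hpos)
    · have hneg := mul_neg_of_neg_of_pos (mul_neg_of_pos_of_neg hs ht) hq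
      rw [← hsw] at hneg
      rw [two_val hρ u h (fun j => by rw [hF2 h hn F hF hs, or_comm]) (sub_neg.1 hneg), hfac]
      group

/-- no node of the level has the position `p` -/
theorem val_none {u : E3} (hu : u ≠ 0) (he : u ⬝ᵥ M.e = 0) (hG : Gen (M.ht u)) (h0 p : ℝ)
    (hp : ∀ w, M.ht u w = h0 → M.ps u h0 w ≠ p) (ρ : ℤ → G) :
    ∃ g : G, ∀ h, Near (M.ht u) h0 h → ∀ F : Finset ℤ,
      (∀ j, j ∈ F ↔ j ∈ M.strands u h ∧ M.ps u h0 j = p) →
      oprod F (M.ps u h) (M.fac u ρ) = g := by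
  classical
  set Q : Finset ℤ := (Finset.Ico (0 : ℤ) M.N).filter fun j =>
    (M.ht u j - h0) * (M.ht u (j + 1) - h0) < 0 ∧ M.ps u h0 j = p with hQ
  have hmQ : ∀ j, j ∈ Q ↔ (0 ≤ j ∧ j < M.N) ∧ (M.ht u j - h0) * (M.ht u (j + 1) - h0) < 0 ∧
      M.ps u h0 j = p := by
    intro j
    rw [hQ, Finset.mem_filter, Finset.mem_Ico]
  have hFQ : ∀ h, Near (M.ht u) h0 h → ∀ F : Finset ℤ,
      (∀ j, j ∈ F ↔ j ∈ M.strands u h ∧ M.ps u h0 j = p) → F = Q := by
    intro h hn F hF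
    ext j
    rw [hF, hmQ, mem_strands]
    constructor
    · rintro ⟨⟨h1, h2⟩, h3⟩
      refine ⟨h1, ?_, h3⟩
      refine lt_of_le_of_ne (hn.touch h2) ?_
      intro h4
      rcases mul_eq_zero.1 h4 with h5 | h5
      · exact hp j (sub_eq_zero.1 h5) h3
      · have h6 : M.ht u (j + 1) = h0 := sub_eq_zero.1 h5
        have h7 := ps_node hG (j + 1)
        rw [h6, add_sub_cancel_right] at h7
        exact hp (j + 1) h6 (h7 ▸ h3)
    · rintro ⟨h1, h2, h3⟩
      exact ⟨⟨h1, hn.strict h2⟩, h3⟩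
  have hsub : ∀ i ∈ Q, ∀ j ∈ Q, j = i := by
    intro i hi j hj
    by_contra hne
    obtain ⟨i1, i2, i3⟩ := (hmQ i).1 hi
    obtain ⟨j1, j2, j3⟩ := (hmQ j).1 hj
    have hij : ¬ ∃ m : ℤ, j = i + m * M.N := by
      rw [red_iff j1.1 j1.2, Int.emod_eq_of_lt i1.1 i1.2]
      exact hne
    obtain ⟨w, hw, hHw, ⟨m, hm⟩, -⟩ := cluster_interior hu he hG i2 (j := j) j2.le
      (j3.trans i3.symm) hij
    apply hp w hHw
    have h1 := ps_over hG he hw
    rw [hHw] at h1
    rw [← h1, ← i3, hm, ps_per]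
  rcases Q.eq_empty_or_nonempty with h1 | ⟨i, hi⟩
  · refine ⟨1, fun h hn F hF => ?_⟩
    rw [hFQ h hn F hF, h1, oprod_empty]
  · refine ⟨M.fac u ρ i, fun h hn F hF => ?_⟩
    have h2 : Q = {i} := by
      ext j
      rw [Finset.mem_singleton]
      exact ⟨fun hj => hsub i hi j hj, fun hj => hj ▸ hi⟩
    rw [hFQ h hn F hF, h2, oprod_singleton]

/-- the smallest gap of a finite set -/
theorem exists_gap (P : Finset ℝ) : ∃ δ > 0, ∀ p ∈ P, ∀ q ∈ P, p < q → 2 * δ ≤ q - p := by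
  classical
  set T := (P ×ˢ P).filter fun z => z.1 < z.2 with hT
  rcases T.eq_empty_or_nonempty with h | h
  · refine ⟨1, one_pos, fun p hp q hq hpq => ?_⟩
    exfalso
    have : (p, q) ∈ T := by
      rw [hT, Finset.mem_filter, Finset.mem_product]
      exact ⟨⟨hp, hq⟩, hpq⟩
    rw [h] at this
    exact Finset.notMem_empty _ this
  · obtain ⟨z, hz, hmin⟩ := Finset.exists_min_image T (fun z => z.2 - z.1) h
    have hz' := (Finset.mem_filter.1 (hT ▸ hz)).2
    refine ⟨(z.2 - z.1) / 2, by linarith, fun p hp q hq hpq => ?_⟩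
    have : (p, q) ∈ T := by
      rw [hT, Finset.mem_filter, Finset.mem_product]
      exact ⟨⟨hp, hq⟩, hpq⟩
    have := hmin _ this
    simp only at this
    linarith

theorem slice_pass {u : E3} (hu : u ≠ 0) (he : u ⬝ᵥ M.e = 0) (hG : Gen (M.ht u)) (h0 : ℝ) :
    ∃ ε > 0, ∀ (ρ : ℤ → G), (∀ j, ρ (j + M.N) = ρ j) → (∀ j, M.ht u j = h0 → M.GRel ρ j) →
      ∀ h1 h2, |h1 - h0| < ε → |h2 - h0| < ε → (∀ j, M.ht u j ≠ h1) → (∀ j, M.ht u j ≠ h2) →
      M.slice u h1 ρ = M.slice u h2 ρ := by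
  classical
  obtain ⟨ε1, hε1, hlev⟩ := no_level M u h0
  obtain ⟨δ, hδ, hgap⟩ := exists_gap ((Finset.Ico (0 : ℤ) M.N).image (M.ps u h0))
  obtain ⟨ε2, hε2, hcont⟩ := ps_cont hG h0 δ hδ
  refine ⟨min ε1 ε2, lt_min hε1 hε2, fun ρ hρ hR h1 h2 hh1 hh2 hn1 hn2 => ?_⟩
  have near : ∀ h, |h - h0| < min ε1 ε2 → (∀ j, M.ht u j ≠ h) → Near (M.ht u) h0 h := by
    intro h hh hn
    have hh' := lt_of_lt_of_le hh (min_le_left _ _)
    rw [abs_lt] at hh'
    refine ⟨fun j hj => ?_, fun j hj => ?_, hn⟩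
    · by_contra hcon
      push Not at hcon
      have := hlev j (by rw [abs_lt]; constructor <;> linarith)
      linarith
    · by_contra hcon
      push Not at hcon
      have := hlev j (by rw [abs_lt]; constructor <;> linarith)
      linarith
  have key : ∀ p : ℝ, ∃ g : G, ∀ h, Near (M.ht u) h0 h → ∀ F : Finset ℤ,
      (∀ j, j ∈ F ↔ j ∈ M.strands u h ∧ M.ps u h0 j = p) →
      oprod F (M.ps u h) (M.fac u ρ) = g := by
    intro p
    by_cases hw : ∃ w, M.ht u w = h0 ∧ M.ps u h0 w = p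
    · obtain ⟨w, hw1, hw2⟩ := hw
      subst hw1
      subst hw2
      by_cases hund : M.und w
      · exact val_under hu he hG hund hρ (hR w rfl)
      · exact val_plain hu he hG hund hρ (hR w rfl)
    · push Not at hw
      exact val_none hu he hG h0 p hw ρ
  have hcl : ∀ h, |h - h0| < min ε1 ε2 → ∀ i ∈ M.strands u h, ∀ j ∈ M.strands u h,
      M.ps u h0 i < M.ps u h0 j → M.ps u h i < M.ps u h j := by
    intro h hh i hi j hj hij
    have hh' := lt_of_lt_of_le hh (min_le_right _ _)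
    have a1 := hcont h hh' i
    have a2 := hcont h hh' j
    obtain ⟨i1, -⟩ := mem_strands.1 hi
    obtain ⟨j1, -⟩ := mem_strands.1 hj
    have a3 := hgap _ (Finset.mem_image_of_mem _ (Finset.mem_Ico.2 i1)) _
      (Finset.mem_image_of_mem _ (Finset.mem_Ico.2 j1)) hij
    rw [abs_lt] at a1 a2
    linarith
  have hP : ∀ h, ∀ j ∈ M.strands u h, M.ps u h0 j ∈ (Finset.Ico (0 : ℤ) M.N).image (M.ps u h0) := by
    intro h j hj
    exact Finset.mem_image_of_mem _ (Finset.mem_Ico.2 (mem_strands.1 hj).1)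
  unfold Marked.slice
  rw [oprod_cluster (ps_inj hu he h1) (M.ps u h0) (hcl h1 hh1) _ (hP h1),
    oprod_cluster (ps_inj hu he h2) (M.ps u h0) (hcl h2 hh2) _ (hP h2)]
  congr 1
  funext p
  obtain ⟨g, hg⟩ := key p
  rw [hg h1 (near h1 hh1 hn1) _ (fun j => by rw [Finset.mem_filter]),
    hg h2 (near h2 hh2 hn2) _ (fun j => by rw [Finset.mem_filter])]

end Pool.Agent.helper81.SBX
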