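import Pool.Agent.helper81.SBX.SPass
import Pool.Agent.helper81.SBX.SLin
import Pool.Agent.helper81.SBX.GAdm

set_option autoImplicit false

/-!
# SSlab: slab invariance (S4) and vanishing of the pairing on global solutions (S3, S6)

PROOFS.
* `slice_slab`: let `h < h'` (for `h = h'` trivial). On the interval `[h, h']` consider levels without nodes. For every `h0 ∈ [h, h']` there is `ε > 0` such that `slice u h1 ρ = slice u h2 ρ` for all
  `h1, h2 ∈ [h, h']` near `h0` without nodes: `slice_pass` (if there are nodes at the level `h0` then `h < h0 < h'`, so the relation holds there). Conclude by connectedness of `[h, h']` (e.g.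
  `IsPreconnected`, or a compactness/induction argument over the finitely many node heights; levels without nodes are dense).
* `om_slab`: `rho_grel`, `rho_per`.
* `om_zero_above`: choose `h'` larger than all node heights: `slice = 1` (`slice_above`), whose `c`-component is `0`; `om_slab`. Same below.
* `rel_of_res`: if `res S ξ ∈ Sol S`, `S` upper for an admissible `H`, then `ξ` satisfies the relations at all nodes of `S`: at `j ∈ S` the pieces `j - 1`, `j` are in `Pc S`, and `o j ∈ Pc S` if `c j ≠ 0`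
  (`over_mem`).
-/

namespace Pool.Agent.helper81.SBX

open Module Matrix

variable {D V : Type*} [DivisionRing D] [StarRing D] [AddCommGroup V] [Module D V]
variable {M : Marked} {Hm : Herm D V} {t : D} (C : Col M Hm t) (ht : Six D t)

theorem sslab_red (M : Marked) (u : E3) (j : ℤ) :
    ∃ i ∈ Finset.Ico (0 : ℤ) M.N, M.ht u j = M.ht u i := by
  have hN : (0 : ℤ) < M.N := by exact_mod_cast M.hN
  refine ⟨j % M.N, Finset.mem_Ico.2 ⟨Int.emod_nonneg _ hN.ne', Int.emod_lt_of_pos _ hN⟩, ?_⟩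
  have h := ht_per_mul M u (j % M.N) (j / M.N)
  rw [← h]
  congr 1
  have := Int.emod_add_mul_ediv j M.N
  rw [mul_comm] at this
  exact this.symm

theorem sslab_free (M : Marked) (u : E3) {a b : ℝ} (hab : a < b) :
    ∃ y, a < y ∧ y < b ∧ ∀ j, M.ht u j ≠ y := by
  obtain ⟨y, hy, hy'⟩ := (Set.Ioo_infinite hab).exists_notMem_finset
    ((Finset.Ico (0 : ℤ) M.N).image (M.ht u))
  refine ⟨y, hy.1, hy.2, fun j hj => hy' ?_⟩
  obtain ⟨i, hi, hij⟩ := sslab_red M u j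
  exact Finset.mem_image.2 ⟨i, hi, by rw [← hij]; exact hj⟩

theorem sslab_bdd (M : Marked) (u : E3) : ∃ B : ℝ, ∀ j, |M.ht u j| < B := by
  refine ⟨1 + ∑ j ∈ Finset.Ico (0 : ℤ) M.N, |M.ht u j|, fun j => ?_⟩
  obtain ⟨i, hi, hij⟩ := sslab_red M u j
  rw [hij]
  have h := Finset.single_le_sum (f := fun j => |M.ht u j|) (fun j _ => abs_nonneg _) hi
  have h' : |M.ht u i| ≤ ∑ j ∈ Finset.Ico (0 : ℤ) M.N, |M.ht u j| := h
  linarith

theorem slice_slab {G : Type*} [Group G] {u : E3} (hu : u ≠ 0) (he : u ⬝ᵥ M.e = 0)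
    (hG : Gen (M.ht u)) {h h' : ℝ} (hh : h ≤ h') (hn : ∀ j, M.ht u j ≠ h)
    (hn' : ∀ j, M.ht u j ≠ h') {ρ : ℤ → G} (hρ : ∀ j, ρ (j + M.N) = ρ j)
    (hr : ∀ j, h < M.ht u j → M.ht u j < h' → M.GRel ρ j) :
    M.slice u h ρ = M.slice u h' ρ := by
  set s : Set ℝ := {x | h ≤ x ∧ x ≤ h' ∧ ∀ y, h ≤ y → y ≤ x → (∀ j, M.ht u j ≠ y) →
    M.slice u y ρ = M.slice u h ρ} with hs
  have hhs : h ∈ s := by
    refine ⟨le_rfl, hh, fun y h1 h2 _ => ?_⟩
    rw [le_antisymm h2 h1]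
  have hbdd : BddAbove s := ⟨h', fun x hx => hx.2.1⟩
  set c := sSup s with hc
  have hc1 : h ≤ c := le_csSup hbdd hhs
  have hc2 : c ≤ h' := csSup_le ⟨h, hhs⟩ fun x hx => hx.2.1
  obtain ⟨ε, hε, hpass⟩ := slice_pass (G := G) hu he hG c
  have hrc : ∀ j, M.ht u j = c → M.GRel ρ j := by
    intro j hj
    refine hr j (lt_of_le_of_ne (hj ▸ hc1) (fun e => hn j e.symm)) (lt_of_le_of_ne (hj ▸ hc2) (hn' j))
  obtain ⟨x, hx, hxc⟩ := exists_lt_of_lt_csSup ⟨h, hhs⟩ (show c - ε < sSup s by rw [← hc]; linarith)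
  have hxc' : x ≤ c := le_csSup hbdd hx
  -- a level without nodes near c
  obtain ⟨y0, hy1, hy2, hy3, hy4⟩ : ∃ y0, h ≤ y0 ∧ y0 ≤ x ∧ |y0 - c| < ε ∧ ∀ j, M.ht u j ≠ y0 := by
    rcases lt_or_ge (c - ε) h with h1 | h1
    · refine ⟨h, le_rfl, hx.1, ?_, hn⟩
      rw [abs_lt]; constructor <;> linarith
    · obtain ⟨y, k1, k2, k3⟩ := sslab_free M u hxc
      refine ⟨y, by linarith, k2.le, ?_, k3⟩
      rw [abs_lt]; constructor <;> linarith
  have hy5 : M.slice u y0 ρ = M.slice u h ρ := hx.2.2 y0 hy1 hy2 hy4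
  have hmin : min h' (c + ε / 2) ∈ s := by
    refine ⟨le_min hh (by linarith), min_le_left _ _, fun y k1 k2 k3 => ?_⟩
    rcases le_or_gt y x with k4 | k4
    · exact hx.2.2 y k1 k4 k3
    · rw [← hy5]
      have k5 : y ≤ c + ε / 2 := k2.trans (min_le_right _ _)
      refine hpass ρ hρ hrc y y0 ?_ hy3 k3 hy4
      rw [abs_lt]; constructor <;> linarith
  have h1 : min h' (c + ε / 2) ≤ c := le_csSup hbdd hmin
  have h2 : min h' (c + ε / 2) = h' := by
    rcases min_choice h' (c + ε / 2) with h3 | h3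
    · exact h3
    · rw [h3] at h1; linarith
  rw [h2] at hmin
  exact (hmin.2.2 h' hh le_rfl hn').symm

theorem om_slab {u : E3} (hu : u ≠ 0) (he : u ⬝ᵥ M.e = 0)
    (hG : Gen (M.ht u)) {h h' : ℝ} (hh : h ≤ h') (hn : ∀ j, M.ht u j ≠ h)
    (hn' : ∀ j, M.ht u j ≠ h') {ξ η : ℤ → D} (hξ : QP (C.rs ht) ξ) (hη : QP (C.rs ht) η)
    (h1 : ∀ j, h < M.ht u j → M.ht u j < h' → (C.rs ht).Rel ξ j)
    (h2 : ∀ j, h < M.ht u j → M.ht u j < h' → (C.rs ht).Rel η j) :
    C.om ht u h ξ η = C.om ht u h' ξ η := by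
  unfold Col.om
  rw [slice_slab hu he hG hh hn hn' (rho_per C ht hξ hη)
    fun j k1 k2 => rho_grel C ht (h1 j k1 k2) (h2 j k1 k2)]

theorem om_zero_above {u : E3} (hu : u ≠ 0) (he : u ⬝ᵥ M.e = 0)
    (hG : Gen (M.ht u)) {h : ℝ} (hn : ∀ j, M.ht u j ≠ h)
    {ξ η : ℤ → D} (hξ : QP (C.rs ht) ξ) (hη : QP (C.rs ht) η)
    (h1 : ∀ j, h < M.ht u j → (C.rs ht).Rel ξ j)
    (h2 : ∀ j, h < M.ht u j → (C.rs ht).Rel η j) :
    C.om ht u h ξ η = 0 := by
  obtain ⟨B, hB⟩ := sslab_bdd M u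
  have hB' : ∀ j, M.ht u j < max B h := fun j =>
    lt_of_lt_of_le (lt_of_le_of_lt (le_abs_self _) (hB j)) (le_max_left _ _)
  rw [om_slab C ht hu he hG (le_max_right B h) hn (fun j => (hB' j).ne) hξ hη
    (fun j k _ => h1 j k) (fun j k _ => h2 j k)]
  unfold Col.om
  rw [slice_above hB']
  rfl

theorem om_zero_below {u : E3} (hu : u ≠ 0) (he : u ⬝ᵥ M.e = 0)
    (hG : Gen (M.ht u)) {h : ℝ} (hn : ∀ j, M.ht u j ≠ h)
    {ξ η : ℤ → D} (hξ : QP (C.rs ht) ξ) (hη : QP (C.rs ht) η)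
    (h1 : ∀ j, M.ht u j < h → (C.rs ht).Rel ξ j)
    (h2 : ∀ j, M.ht u j < h → (C.rs ht).Rel η j) :
    C.om ht u h ξ η = 0 := by
  obtain ⟨B, hB⟩ := sslab_bdd M u
  have hB' : ∀ j, min (-B) h < M.ht u j := fun j =>
    lt_of_le_of_lt (min_le_left _ _) (abs_lt.1 (hB j)).1
  rw [← om_slab C ht hu he hG (min_le_right (-B) h) (fun j => (hB' j).ne') hn hξ hη
    (fun j _ k => h1 j k) (fun j _ k => h2 j k)]
  unfold Col.om
  rw [slice_below hB']
  rfl

theorem rel_of_res {R : RS D} {H : ℤ → ℝ} {S : Set ℤ} (hA : R.Adm H) (hS : Upper H S)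
    {ξ : ℤ → D} (h : res S ξ ∈ R.Sol S) : ∀ j ∈ S, R.Rel ξ j := by
  intro j hj
  have h1 : res S ξ j = res S ξ (j - 1) + res S ξ (R.o j) * R.c j := h.2.2 j hj
  rw [res_apply_of_mem (mem_Pc_self hj), res_apply_of_mem (mem_Pc_pred hj)] at h1
  show ξ j = ξ (j - 1) + ξ (R.o j) * R.c j
  by_cases hc : R.c j = 0
  · rw [hc, mul_zero] at h1 ⊢
    exact h1
  · rw [res_apply_of_mem (over_mem hA hS hj hc)] at h1
    exact h1

end Pool.Agent.helper81.SBX
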