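import Pool.Agent.helper81.SBX.OProd
import Pool.Agent.helper81.SBX.GHt

set_option autoImplicit false

/-!
# SStrand: strands and positions; local constancy of slice products (S1)

Here `u ≠ 0` and `u ⬝ e = 0`, so `u`, `e`, `e × u` is an orthogonal basis.

PROOFS.
* `parallel`: if `u ⬝ w = 0` and `(e × u) ⬝ w = 0` then `w = a • e`, `a = (w ⬝ e) / (e ⬝ e)` (orthogonal
  expansion).
* `same_pos`: the point `pt u h j` of a piece `j` with `H j ≠ H (j + 1)` has height `h`. If two such points have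
  the same `ps`, their difference is a multiple of `e`.
* `ps_inj`: strands `i, j` with the same position: `pt j = pt i + a • e`. `a = 0`: `M.simple` gives
  `j = i + m * N`, so `i = j` in `[0, N)`. `a > 0`: `M.complete` gives that the parameter of the lower point is
  `0`, contradiction; `a < 0`: symmetric.
* `slice_loc`: no node has height `h0` for `u0`; by continuity (finitely many pieces) for `(u, h)` near
  `(u0, h0)` all signs of `H_u j - h` are the same as for `(u0, h0)`, so `strands` and `fac` on the strands agree,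
  and the positions depend continuously on `(u, h)`; their order does not change: `oprod_congr`.
-/

namespace Pool.Agent.helper81.SBX

open Module Matrix

variable {M : Marked} {G : Type*} [Group G]

private theorem ss_self_dot_pos {v : E3} (hv : v ≠ 0) : 0 < v ⬝ᵥ v := by
  have hnn : 0 ≤ v ⬝ᵥ v := Finset.sum_nonneg fun i _ => mul_self_nonneg _
  rcases lt_or_eq_of_le hnn with h | h
  · exact h
  · exact absurd (dotProduct_self_eq_zero.1 h.symm) hv

private theorem ss_mod (M : Marked) (u : E3) (j : ℤ) : M.ht u j = M.ht u (j % M.N) := by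
  have h := ht_per_mul M u (j % M.N) (j / M.N)
  rwa [Int.emod_add_ediv_mul] at h

private theorem ss_mod_mem (M : Marked) (j : ℤ) : j % M.N ∈ Finset.Ico (0 : ℤ) M.N := by
  have hN : (0 : ℤ) < M.N := by exact_mod_cast M.hN
  exact Finset.mem_Ico.2 ⟨Int.emod_nonneg _ hN.ne', Int.emod_lt_of_pos _ hN⟩

theorem parallel {e u w : E3} (he : e ≠ 0) (hu : u ≠ 0) (h : u ⬝ᵥ e = 0) (h1 : u ⬝ᵥ w = 0)
    (h2 : cross3 e u ⬝ᵥ w = 0) : ∃ a : ℝ, w = a • e := by
  have hee := ss_self_dot_pos he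
  have huu := ss_self_dot_pos hu
  refine ⟨(w ⬝ᵥ e) / (e ⬝ᵥ e), ?_⟩
  have key : ∀ i, (u ⬝ᵥ u) * ((e ⬝ᵥ e) * w i - (w ⬝ᵥ e) * e i) = 0 := by
    simp only [dotProduct, Fin.sum_univ_three, cross3, Matrix.cons_val_zero, Matrix.cons_val_one,
      Matrix.cons_val] at h h1 h2 ⊢
    intro i
    fin_cases i
    · simp only [Fin.zero_eta]
      linear_combination ((u 0 * e 0 + u 1 * e 1 + u 2 * e 2) * w 0
        - (w 0 * u 0 + w 1 * u 1 + w 2 * u 2) * e 0
        - (w 0 * e 0 + w 1 * e 1 + w 2 * e 2) * u 0) * h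
        + (e 0 * e 0 + e 1 * e 1 + e 2 * e 2) * u 0 * h1
        + (e 1 * u 2 - e 2 * u 1) * h2
    · simp only [Fin.mk_one]
      linear_combination ((u 0 * e 0 + u 1 * e 1 + u 2 * e 2) * w 1
        - (w 0 * u 0 + w 1 * u 1 + w 2 * u 2) * e 1
        - (w 0 * e 0 + w 1 * e 1 + w 2 * e 2) * u 1) * h
        + (e 0 * e 0 + e 1 * e 1 + e 2 * e 2) * u 1 * h1
        + (e 2 * u 0 - e 0 * u 2) * h2
    · simp only [Fin.reduceFinMk]
      linear_combination ((u 0 * e 0 + u 1 * e 1 + u 2 * e 2) * w 2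
        - (w 0 * u 0 + w 1 * u 1 + w 2 * u 2) * e 2
        - (w 0 * e 0 + w 1 * e 1 + w 2 * e 2) * u 2) * h
        + (e 0 * e 0 + e 1 * e 1 + e 2 * e 2) * u 2 * h1
        + (e 0 * u 1 - e 1 * u 0) * h2
  funext i
  have hk := (mul_eq_zero.1 (key i)).resolve_left huu.ne'
  rw [Pi.smul_apply, smul_eq_mul, div_mul_eq_mul_div, eq_div_iff hee.ne']
  linarith

theorem mem_strands {u : E3} {h : ℝ} {j : ℤ} : j ∈ M.strands u h ↔
    (0 ≤ j ∧ j < M.N) ∧ (M.ht u j - h) * (M.ht u (j + 1) - h) < 0 := by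
  classical
  simp only [Marked.strands, Finset.mem_filter, Finset.mem_Ico]

theorem pt_eq (u : E3) (h : ℝ) (j : ℤ) : M.pt u h j =
    (1 - (h - M.ht u j) / (M.ht u (j + 1) - M.ht u j)) • M.q j +
      ((h - M.ht u j) / (M.ht u (j + 1) - M.ht u j)) • M.q (j + 1) := by
  simp only [Marked.pt, Marked.d]
  module

theorem ht_pt {u : E3} {j : ℤ} (hj : M.ht u j ≠ M.ht u (j + 1)) (h : ℝ) :
    u ⬝ᵥ M.pt u h j = h := by
  have h1 : M.ht u (j + 1) - M.ht u j ≠ 0 := sub_ne_zero.2 (Ne.symm hj)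
  simp only [Marked.pt, dotProduct_add, dotProduct_smul, smul_eq_mul]
  rw [← ht_succ, div_mul_cancel₀ _ h1]
  simp only [Marked.ht]
  ring

private theorem ss_q_per (M : Marked) (j i : ℤ) : M.q (j + i * M.N) = M.q j := by
  induction i using Int.induction_on with
  | zero => simp
  | succ i ih =>
    rw [show j + ((i : ℤ) + 1) * (M.N : ℤ) = (j + i * M.N) + M.N by ring, M.q_per, ih]
  | pred i ih =>
    rw [← M.q_per (j + (-(i : ℤ) - 1) * M.N),
      show j + (-(i : ℤ) - 1) * (M.N : ℤ) + M.N = j + -(i : ℤ) * M.N by ring, ih]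

theorem pt_per (u : E3) (h : ℝ) (j i : ℤ) : M.pt u h (j + i * M.N) = M.pt u h j := by
  simp only [Marked.pt]
  rw [d_per, ht_per_mul, ss_q_per, show j + i * (M.N : ℤ) + 1 = (j + 1) + i * M.N by ring,
    ht_per_mul]

theorem ps_per (u : E3) (h : ℝ) (j i : ℤ) : M.ps u h (j + i * M.N) = M.ps u h j := by
  simp only [Marked.ps, pt_per]

/-- points of the same level with the same position are on a line parallel to `e` -/
theorem same_pos {u : E3} (hu : u ≠ 0) (he : u ⬝ᵥ M.e = 0) {h : ℝ} {i j : ℤ}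
    (hi : M.ht u i ≠ M.ht u (i + 1)) (hj : M.ht u j ≠ M.ht u (j + 1))
    (hp : M.ps u h i = M.ps u h j) : ∃ a : ℝ, M.pt u h j = M.pt u h i + a • M.e := by
  obtain ⟨a, ha⟩ := parallel (w := M.pt u h j - M.pt u h i) M.e_ne hu he
    (by rw [dotProduct_sub, ht_pt hi, ht_pt hj, sub_self])
    (by
      rw [dotProduct_sub]
      simp only [Marked.ps] at hp
      rw [hp, sub_self])
  refine ⟨a, ?_⟩
  rw [← ha]
  abel

/-- the parameter of a strand is strictly between `0` and `1` -/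
theorem strand_param {u : E3} {h : ℝ} {j : ℤ} (hj : j ∈ M.strands u h) :
    M.ht u j ≠ M.ht u (j + 1) ∧ 0 < (h - M.ht u j) / (M.ht u (j + 1) - M.ht u j) ∧
      (h - M.ht u j) / (M.ht u (j + 1) - M.ht u j) < 1 := by
  obtain ⟨-, hlt⟩ := mem_strands.1 hj
  rcases mul_neg_iff.1 hlt with ⟨h1, h2⟩ | ⟨h1, h2⟩
  · have h3 : M.ht u (j + 1) - M.ht u j < 0 := by linarith
    refine ⟨fun h0 => by rw [h0] at h1; linarith, div_pos_of_neg_of_neg (by linarith) h3, ?_⟩
    rw [div_lt_one_of_neg h3]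
    linarith
  · have h3 : 0 < M.ht u (j + 1) - M.ht u j := by linarith
    refine ⟨fun h0 => by rw [h0] at h1; linarith, div_pos (by linarith) h3, ?_⟩
    rw [div_lt_one h3]
    linarith

theorem ps_inj {u : E3} (hu : u ≠ 0) (he : u ⬝ᵥ M.e = 0) (h : ℝ) :
    Set.InjOn (M.ps u h) (M.strands u h) := by
  intro i hi j hj hp
  obtain ⟨hi0, hi1, hi2⟩ := strand_param hi
  obtain ⟨hj0, hj1, hj2⟩ := strand_param hj
  obtain ⟨⟨hia, hib⟩, -⟩ := mem_strands.1 hi
  obtain ⟨⟨hja, hjb⟩, -⟩ := mem_strands.1 hj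
  obtain ⟨a, ha⟩ := same_pos hu he hi0 hj0 hp
  have hN : (0 : ℤ) < M.N := by exact_mod_cast M.hN
  rcases lt_trichotomy a 0 with hneg | hzero | hpos
  · exfalso
    have hb : M.pt u h i = M.pt u h j + (-a) • M.e := by rw [ha]; module
    rw [pt_eq, pt_eq] at hb
    have := (M.complete j i _ _ (-a) hj1.le hj2 hi1.le hi2 (by linarith) hb).1
    exact hj1.ne' this
  · subst hzero
    rw [zero_smul, add_zero, pt_eq, pt_eq] at ha
    obtain ⟨⟨m, hm⟩, -⟩ := M.simple i j _ _ hi1.le hi2 hj1.le hj2 ha.symm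
    have hm0 : m = 0 := by
      by_contra hne
      rcases lt_or_gt_of_ne hne with hlt | hgt
      · have : m * (M.N : ℤ) ≤ -1 * M.N := mul_le_mul_of_nonneg_right (by omega) hN.le
        omega
      · have : 1 * (M.N : ℤ) ≤ m * M.N := mul_le_mul_of_nonneg_right (by omega) hN.le
        omega
    rw [hm, hm0]
    simp
  · exfalso
    rw [pt_eq, pt_eq] at ha
    have := (M.complete i j _ _ a hi1.le hi2 hj1.le hj2 hpos ha).1
    exact hi1.ne' this

private theorem ss_cont_ht (M : Marked) (j : ℤ) : Continuous fun p : E3 × ℝ => M.ht p.1 j := by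
  simp only [Marked.ht, dotProduct]
  fun_prop

private theorem ss_cont_cross (M : Marked) : Continuous fun p : E3 × ℝ => cross3 M.e p.1 := by
  refine continuous_pi fun i => ?_
  fin_cases i <;> simp only [cross3, Fin.zero_eta, Fin.mk_one, Fin.reduceFinMk,
    Matrix.cons_val_zero, Matrix.cons_val_one, Matrix.cons_val] <;> fun_prop

/-- continuity of the positions -/
theorem ps_contAt {u0 : E3} {h0 : ℝ} {j : ℤ} (hj : M.ht u0 j ≠ M.ht u0 (j + 1)) :
    ContinuousAt (fun p : E3 × ℝ => M.ps p.1 p.2 j) (u0, h0) := by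
  have hpt : ContinuousAt (fun p : E3 × ℝ => M.pt p.1 p.2 j) (u0, h0) := by
    simp only [Marked.pt]
    have hdiv : ContinuousAt (fun p : E3 × ℝ =>
        (p.2 - M.ht p.1 j) / (M.ht p.1 (j + 1) - M.ht p.1 j)) (u0, h0) := by
      refine ContinuousAt.div ?_ ?_ (sub_ne_zero.2 (Ne.symm hj))
      · exact (continuous_snd.sub (ss_cont_ht M j)).continuousAt
      · exact ((ss_cont_ht M (j + 1)).sub (ss_cont_ht M j)).continuousAt
    have hsm : ContinuousAt (fun p : E3 × ℝ =>
        ((p.2 - M.ht p.1 j) / (M.ht p.1 (j + 1) - M.ht p.1 j)) • M.d j) (u0, h0) :=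
      Filter.Tendsto.smul hdiv tendsto_const_nhds
    exact Filter.Tendsto.add tendsto_const_nhds hsm
  have hc := (ss_cont_cross M).continuousAt (x := (u0, h0))
  simp only [Marked.ps, dotProduct]
  exact tendsto_finsetSum _ fun i _ =>
    ((continuous_apply i).continuousAt.comp hc).mul ((continuous_apply i).continuousAt.comp hpt)

theorem slice_loc {u0 : E3} (hu : u0 ≠ 0) (he : u0 ⬝ᵥ M.e = 0) {h0 : ℝ}
    (hn : ∀ j, M.ht u0 j ≠ h0) : ∃ s > 0, ∀ (u : E3) (h : ℝ), ‖u - u0‖ < s → |h - h0| < s →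
      u ⬝ᵥ M.e = 0 → M.strands u h = M.strands u0 h0 ∧
      ∀ ρ : ℤ → G, M.slice u h ρ = M.slice u0 h0 ρ := by
  classical
  have hA : ∀ᶠ p in nhds (u0, h0), ∀ j ∈ Finset.Ico (0 : ℤ) M.N,
      (M.ht u0 j < h0 → M.ht p.1 j < p.2) ∧ (h0 < M.ht u0 j → p.2 < M.ht p.1 j) := by
    rw [Filter.eventually_all_finset]
    intro j _
    rcases lt_or_gt_of_ne (hn j) with hlt | hgt
    · have h1 : ∀ᶠ p in nhds (u0, h0), M.ht p.1 j < p.2 :=
        (ss_cont_ht M j).continuousAt.eventually_lt continuous_snd.continuousAt hlt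
      exact h1.mono fun p hp => ⟨fun _ => hp, fun h' => absurd h' (lt_asymm hlt)⟩
    · have h1 : ∀ᶠ p in nhds (u0, h0), p.2 < M.ht p.1 j :=
        continuous_snd.continuousAt.eventually_lt (ss_cont_ht M j).continuousAt hgt
      exact h1.mono fun p hp => ⟨fun h' => absurd h' (lt_asymm hgt), fun _ => hp⟩
  have hB : ∀ᶠ p in nhds (u0, h0), ∀ z ∈ (M.strands u0 h0) ×ˢ (M.strands u0 h0),
      M.ps u0 h0 z.1 < M.ps u0 h0 z.2 → M.ps p.1 p.2 z.1 < M.ps p.1 p.2 z.2 := by
    rw [Filter.eventually_all_finset]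
    intro z hz
    obtain ⟨hz1, hz2⟩ := Finset.mem_product.1 hz
    by_cases hlt : M.ps u0 h0 z.1 < M.ps u0 h0 z.2
    · have h1 : ∀ᶠ p in nhds (u0, h0), M.ps p.1 p.2 z.1 < M.ps p.1 p.2 z.2 :=
        (ps_contAt (strand_param hz1).1).eventually_lt (ps_contAt (strand_param hz2).1) hlt
      exact h1.mono fun p hp _ => hp
    · exact Filter.Eventually.of_forall fun p hp => absurd hp hlt
  obtain ⟨s, hs, H⟩ := Metric.eventually_nhds_iff.1 (hA.and hB)
  refine ⟨s, hs, fun u h hu1 hh1 _ => ?_⟩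
  obtain ⟨HA, HB⟩ := H (y := (u, h)) (by
    rw [Prod.dist_eq, dist_eq_norm, Real.dist_eq]
    exact max_lt hu1 hh1)
  have HA' : ∀ j, (M.ht u0 j < h0 → M.ht u j < h) ∧ (h0 < M.ht u0 j → h < M.ht u j) := by
    intro j
    rw [ss_mod M u0 j, ss_mod M u j]
    exact HA _ (ss_mod_mem M j)
  have sgn : ∀ j, (0 < M.ht u j - h ↔ 0 < M.ht u0 j - h0) ∧
      (M.ht u j - h < 0 ↔ M.ht u0 j - h0 < 0) := by
    intro j
    obtain ⟨h1, h2⟩ := HA' j
    rcases lt_or_gt_of_ne (hn j) with hlt | hgt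
    · have h3 := h1 hlt
      exact ⟨⟨fun h' => by linarith, fun h' => by linarith⟩, ⟨fun _ => by linarith, fun _ => by linarith⟩⟩
    · have h3 := h2 hgt
      exact ⟨⟨fun h' => by linarith, fun h' => by linarith⟩, ⟨fun _ => by linarith, fun _ => by linarith⟩⟩
  have hstr : M.strands u h = M.strands u0 h0 := by
    ext j
    rw [mem_strands, mem_strands, mul_neg_iff, mul_neg_iff, (sgn j).1, (sgn j).2,
      (sgn (j + 1)).1, (sgn (j + 1)).2]
  refine ⟨hstr, fun ρ => ?_⟩
  simp only [Marked.slice]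
  rw [hstr]
  symm
  refine oprod_congr (ps_inj hu he h0)
    (fun i hi j hj hij => HB (i, j) (Finset.mem_product.2 ⟨hi, hj⟩) hij) ?_
  intro j hj
  obtain ⟨-, hlt⟩ := mem_strands.1 hj
  have hiff : M.ht u0 j < M.ht u0 (j + 1) ↔ M.ht u j < M.ht u (j + 1) := by
    rcases mul_neg_iff.1 hlt with ⟨h1, h2⟩ | ⟨h1, h2⟩
    · have h3 := (sgn j).1.2 h1
      have h4 := (sgn (j + 1)).2.2 h2
      constructor
      · intro h5; linarith
      · intro h5; linarith
    · have h3 := (sgn j).2.2 h1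
      have h4 := (sgn (j + 1)).1.2 h2
      constructor
      · intro h5; linarith
      · intro h5; linarith
  simp only [Marked.fac]
  by_cases h5 : M.ht u0 j < M.ht u0 (j + 1)
  · rw [if_pos h5, if_pos (hiff.1 h5)]
  · rw [if_neg h5, if_neg (fun h6 => h5 (hiff.2 h6))]

theorem slice_above {u : E3} {h : ℝ} (hh : ∀ j, M.ht u j < h) (ρ : ℤ → G) :
    M.slice u h ρ = 1 := by
  have he : M.strands u h = ∅ := by
    rw [Finset.eq_empty_iff_forall_notMem]
    intro j hj
    obtain ⟨-, hlt⟩ := mem_strands.1 hj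
    have h1 := hh j
    have h2 := hh (j + 1)
    exact absurd hlt (not_lt.2 (mul_pos_of_neg_of_neg (by linarith) (by linarith)).le)
  simp only [Marked.slice]
  rw [he, oprod_empty]

theorem slice_below {u : E3} {h : ℝ} (hh : ∀ j, h < M.ht u j) (ρ : ℤ → G) :
    M.slice u h ρ = 1 := by
  have he : M.strands u h = ∅ := by
    rw [Finset.eq_empty_iff_forall_notMem]
    intro j hj
    obtain ⟨-, hlt⟩ := mem_strands.1 hj
    have h1 := hh j
    have h2 := hh (j + 1)
    exact absurd hlt (not_lt.2 (mul_pos (by linarith) (by linarith)).le)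
  simp only [Marked.slice]
  rw [he, oprod_empty]

end Pool.Agent.helper81.SBX
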