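import Pool.Agent.helper81.SBX.SStrand

set_option autoImplicit false

/-!
# SSwap: positions of pieces as functions of the level

PROOFS. `ps u h j = cross3 e u ⬝ᵥ q j + ((h - H j) / (u ⬝ᵥ d j)) * (cross3 e u ⬝ᵥ d j)` (`ht_succ`).
* `ps_straight`: at a straight node `d j = c • d (j - 1)`, `c > 0`, and `q j = q (j - 1) + d (j - 1)`: the two lines agree.
* `ps_node`: put `h = H j` (and for the piece `j - 1`: `h = H j` gives the point `q j`).
* `ps_swap`: `w` an under node, `o = M.o w`. At `h = H w` both positions agree: the point of the line of `o` at the level `H w` is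
  `(1 - lam) q o + lam q (o + 1) = q w + al • e` (its height is `H w` because `u ⬝ e = 0`; `cross3 e u ⬝ e = 0`). Both are affine in `h` with slopes `(e × u ⬝ d o) / (u ⬝ d o)`, `(e × u ⬝ d w) / (u ⬝ d w)`;
  `(e × u ⬝ a)(u ⬝ b) - (e × u ⬝ b)(u ⬝ a) = ((e × u) × u) ⬝ (a × b) = - (u ⬝ u) det3 e a b` for `u ⬝ e = 0` (identity with correction term
  `(u ⬝ e) * …`, by `ring` after unfolding: `= (u ⬝ e) * det3 u a b - (u ⬝ u) * det3 e a b`).
* `ps_cont`: for every `δ > 0` there is `ε > 0` with `|ps u h j - ps u h0 j| < δ` for all `j` and `|h - h0| < ε` (finitely many `j` mod `N`).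
* `no_level`: there is `ε > 0` such that no node has its height in `(h0 - ε, h0 + ε)` except the ones of height `h0`.
-/

namespace Pool.Agent.helper81.SBX

open Module Matrix

variable {M : Marked}

private theorem ht_add_one_sub (M : Marked) (u : E3) (j : ℤ) :
    M.ht u j - M.ht u (j - 1) = u ⬝ᵥ M.d (j - 1) := by
  have h := ht_succ M u (j - 1)
  rwa [sub_add_cancel] at h

private theorem d_dot_ne {u : E3} (hG : Gen (M.ht u)) (j : ℤ) : u ⬝ᵥ M.d j ≠ 0 := by
  rw [← ht_succ]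
  exact sub_ne_zero.2 (hG j).symm

private theorem ps_formula (M : Marked) (u : E3) (h : ℝ) (j : ℤ) :
    M.ps u h j = cross3 M.e u ⬝ᵥ M.q j +
      ((h - M.ht u j) / (u ⬝ᵥ M.d j)) * (cross3 M.e u ⬝ᵥ M.d j) := by
  simp only [Marked.ps, Marked.pt, dotProduct_add, dotProduct_smul, smul_eq_mul, ht_succ]

private theorem q_pred (M : Marked) (j : ℤ) : M.q j = M.q (j - 1) + M.d (j - 1) := by
  simp only [Marked.d]
  rw [sub_add_cancel]
  abel

theorem ps_straight {u : E3} (hG : Gen (M.ht u)) {j : ℤ} (hj : M.und j) (h : ℝ) :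
    M.ps u h (j - 1) = M.ps u h j := by
  obtain ⟨c, hc, hcd⟩ := M.straight j hj
  have hd : M.d j = c • M.d (j - 1) := by
    simp only [Marked.d]
    rw [sub_add_cancel, hcd]
  have h1 := d_dot_ne hG (j - 1)
  have h2 := ht_add_one_sub M u j
  rw [ps_formula, ps_formula, hd, q_pred M j]
  simp only [dotProduct_add, dotProduct_smul, smul_eq_mul]
  have h3 : M.ht u j = M.ht u (j - 1) + u ⬝ᵥ M.d (j - 1) := by linarith
  rw [h3]
  field_simp
  ring

theorem ps_node {u : E3} (hG : Gen (M.ht u)) (j : ℤ) :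
    M.ps u (M.ht u j) (j - 1) = M.ps u (M.ht u j) j := by
  have h1 := d_dot_ne hG (j - 1)
  rw [ps_formula, ps_formula, ht_add_one_sub, div_self h1, sub_self, zero_div, zero_mul, add_zero,
    one_mul, ← dotProduct_add, ← q_pred]

theorem ps_swap {u : E3} (hG : Gen (M.ht u)) (he : u ⬝ᵥ M.e = 0) {w : ℤ} (hw : M.und w)
    (h : ℝ) : M.ps u h (M.o w) - M.ps u h w =
      (h - M.ht u w) * (-(u ⬝ᵥ u) * det3 M.e (M.d (M.o w)) (M.d w) /
        ((u ⬝ᵥ M.d (M.o w)) * (u ⬝ᵥ M.d w))) := by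
  have h1 := d_dot_ne hG (M.o w)
  have h2 := d_dot_ne hG w
  have hov := M.over_eq w hw
  have hov' : M.q (M.o w) + M.lam w • M.d (M.o w) = M.q w + M.al w • M.e := by
    rw [← hov]
    simp only [Marked.d, sub_smul, one_smul, smul_sub]
    abel
  have hu : M.ht u (M.o w) + M.lam w * (u ⬝ᵥ M.d (M.o w)) = M.ht u w := by
    have := congrArg (fun v => u ⬝ᵥ v) hov'
    simp only [dotProduct_add, dotProduct_smul, smul_eq_mul, he, mul_zero, add_zero] at this
    exact this
  have hse : cross3 M.e u ⬝ᵥ M.e = 0 := by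
    simp only [dotProduct, Fin.sum_univ_three, cross3]
    simp
    ring
  have hs : cross3 M.e u ⬝ᵥ M.q (M.o w) + M.lam w * (cross3 M.e u ⬝ᵥ M.d (M.o w)) =
      cross3 M.e u ⬝ᵥ M.q w := by
    have := congrArg (fun v => cross3 M.e u ⬝ᵥ v) hov'
    simp only [dotProduct_add, dotProduct_smul, smul_eq_mul, hse, mul_zero, add_zero] at this
    exact this
  have key : (cross3 M.e u ⬝ᵥ M.d (M.o w)) * (u ⬝ᵥ M.d w) -
      (cross3 M.e u ⬝ᵥ M.d w) * (u ⬝ᵥ M.d (M.o w)) =
      -(u ⬝ᵥ u) * det3 M.e (M.d (M.o w)) (M.d w) := by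
    have he' := he
    simp only [dotProduct, Fin.sum_univ_three] at he'
    simp only [dotProduct, Fin.sum_univ_three, cross3, det3]
    simp only [Matrix.cons_val_zero, Matrix.cons_val_one, Matrix.cons_val]
    linear_combination (u 0 * (M.d (M.o w) 1 * M.d w 2 - M.d (M.o w) 2 * M.d w 1) +
      u 1 * (M.d (M.o w) 2 * M.d w 0 - M.d (M.o w) 0 * M.d w 2) +
      u 2 * (M.d (M.o w) 0 * M.d w 1 - M.d (M.o w) 1 * M.d w 0)) * he'
  rw [ps_formula, ps_formula, ← key]
  have hu' : M.ht u (M.o w) = M.ht u w - M.lam w * (u ⬝ᵥ M.d (M.o w)) := by linarith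
  have hs' : cross3 M.e u ⬝ᵥ M.q (M.o w) =
      cross3 M.e u ⬝ᵥ M.q w - M.lam w * (cross3 M.e u ⬝ᵥ M.d (M.o w)) := by linarith
  rw [hu', hs']
  field_simp
  ring

private theorem mod_mem' (M : Marked) (j : ℤ) : j % M.N ∈ Finset.Ico (0 : ℤ) M.N := by
  have hN : (0 : ℤ) < M.N := by exact_mod_cast M.hN
  exact Finset.mem_Ico.2 ⟨Int.emod_nonneg _ hN.ne', Int.emod_lt_of_pos _ hN⟩

private theorem ps_mod (M : Marked) (u : E3) (h : ℝ) (j : ℤ) : M.ps u h j = M.ps u h (j % M.N) := by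
  have h1 := ps_per (M := M) u h (j % M.N) (j / M.N)
  rwa [Int.emod_add_ediv_mul] at h1

private theorem ht_mod' (M : Marked) (u : E3) (j : ℤ) : M.ht u j = M.ht u (j % M.N) := by
  have h := ht_per_mul M u (j % M.N) (j / M.N)
  rwa [Int.emod_add_ediv_mul] at h

theorem ps_cont {u : E3} (hG : Gen (M.ht u)) (h0 δ : ℝ) (hδ : 0 < δ) :
    ∃ ε > 0, ∀ h, |h - h0| < ε → ∀ j, |M.ps u h j - M.ps u h0 j| < δ := by
  have h1 : ∀ᶠ h in nhds h0, ∀ j ∈ Finset.Ico (0 : ℤ) M.N, |M.ps u h j - M.ps u h0 j| < δ := by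
    rw [Filter.eventually_all_finset]
    intro j _
    have hc : Continuous fun h : ℝ => |M.ps u h j - M.ps u h0 j| := by
      simp only [ps_formula]
      fun_prop
    have := hc.continuousAt.eventually_lt (x₀ := h0) continuousAt_const (g := fun _ => δ)
      (by simpa using hδ)
    exact this
  obtain ⟨ε, hε, H⟩ := Metric.eventually_nhds_iff.1 h1
  refine ⟨ε, hε, fun h hh j => ?_⟩
  rw [ps_mod M u h, ps_mod M u h0]
  exact H (by rwa [Real.dist_eq]) _ (mod_mem' M j)

theorem no_level (M : Marked) (u : E3) (h0 : ℝ) :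
    ∃ ε > 0, ∀ j, |M.ht u j - h0| < ε → M.ht u j = h0 := by
  have h1 : ∀ᶠ ε in nhdsWithin (0 : ℝ) (Set.Ioi 0), ∀ j ∈ Finset.Ico (0 : ℤ) M.N,
      |M.ht u j - h0| < ε → M.ht u j = h0 := by
    rw [Filter.eventually_all_finset]
    intro j _
    by_cases hj : M.ht u j = h0
    · exact Filter.Eventually.of_forall fun _ _ => hj
    · have hp : 0 < |M.ht u j - h0| := abs_pos.2 (sub_ne_zero.2 hj)
      have h2 : ∀ᶠ ε in nhds (0 : ℝ), ε < |M.ht u j - h0| := Iio_mem_nhds hp
      exact nhdsWithin_le_nhds (h2.mono fun ε hε hlt => absurd hlt (not_lt.2 hε.le))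
  obtain ⟨ε, hε1, hε2⟩ := (h1.and self_mem_nhdsWithin).exists
  refine ⟨ε, hε2, fun j hj => ?_⟩
  rw [ht_mod'] at hj ⊢
  exact hε1 _ (mod_mem' M j) hj

/-- an under node is neither a cap nor a cup -/
theorem und_regular {u : E3} {w : ℤ} (hw : M.und w) :
    ¬ IsCap (M.ht u) w ∧ ¬ IsCup (M.ht u) w := by
  obtain ⟨c, hc, hcd⟩ := M.straight w hw
  have h1 : M.ht u (w + 1) - M.ht u w = c * (M.ht u w - M.ht u (w - 1)) := by
    have := congrArg (fun v => u ⬝ᵥ v) hcd
    simpa only [dotProduct_sub, dotProduct_smul, smul_eq_mul, Marked.ht] using this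
  constructor
  · rintro ⟨h2, h3⟩
    have := mul_pos hc (sub_pos.2 h2)
    linarith
  · rintro ⟨h2, h3⟩
    have := mul_pos hc (sub_pos.2 h2)
    linarith

/-- the over piece crosses the level of the under node strictly -/
theorem over_cross {u : E3} (hG : Gen (M.ht u)) (he : u ⬝ᵥ M.e = 0) {w : ℤ} (hw : M.und w) :
    (M.ht u (M.o w) - M.ht u w) * (M.ht u (M.o w + 1) - M.ht u w) < 0 := by
  have hov := M.over_eq w hw
  have hl := M.lam_pos w hw
  have hl' := M.lam_lt w hw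
  have h1 : (1 - M.lam w) * M.ht u (M.o w) + M.lam w * M.ht u (M.o w + 1) = M.ht u w := by
    have := congrArg (fun v => u ⬝ᵥ v) hov
    simpa only [dotProduct_add, dotProduct_smul, smul_eq_mul, he, mul_zero, add_zero,
      Marked.ht] using this
  have h2 := hG (M.o w)
  rcases lt_or_gt_of_ne h2 with h3 | h3
  · have ha : M.ht u (M.o w) - M.ht u w < 0 := by nlinarith
    have hb : 0 < M.ht u (M.o w + 1) - M.ht u w := by nlinarith
    exact mul_neg_of_neg_of_pos ha hb
  · have ha : 0 < M.ht u (M.o w) - M.ht u w := by nlinarith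
    have hb : M.ht u (M.o w + 1) - M.ht u w < 0 := by nlinarith
    exact mul_neg_of_pos_of_neg ha hb

end Pool.Agent.helper81.SBX
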