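import Pool.Agent.helper81.SBX.SGood
import Pool.Agent.helper81.SBX.GSix

set_option autoImplicit false

/-!
# STyp1: the pairing near a direction of type I (S9)

PROOFS. `hV`, `h4` are the standing hypotheses; for generic `u ⊥ e`, `PG C ht u` holds (`pg_of`: `hemi0_neg`, `good3`).
* `typ1_lev`: `Typ1 (ht b)`: an upper set `S` with `ζ ∈ Sol S`, `ζ ∉ res S V0`. `S` is nonempty (otherwise `ζ = 0 = res S 0`) and bounded below in height; the heights of the nodes take finitely many values, so there is a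
  level `h` without nodes, larger than all heights of nodes not in `S` and smaller than all heights of nodes in `S` (if `S` is everything, `h` below all heights; then `ζ ∈ V0`, contradiction, or just take this `h`). So `S = {j | h < ht b j}`.
* `lev_stable`: no node of `ht b` is at the level `h`; for `u` near `b` no node of `ht u` either, and `{j | h < ht u j} = {j | h < ht b j}` (finitely many nodes mod `N`, `ht_per_mul`). So `GoodLev b h ↔ GoodLev u h`.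
* `typ1_dual`: take a generic `u ⊥ e` near `b` (`gen_dense_perp`); `GoodLev u h`, so `GoodLev (- u) (- h)` by `good_neg`, and by `lev_stable` (for `- b`, `- h`) `GoodLev (- b) (- h)`.
* `typ1_neg_iff`: from `typ1_dual` and `typ1_lev` (`GoodLev` gives `Typ1`), applied to `b` and `- b`.
* `om_loc`: for `u ⊥ e` generic near `b` (`slice_loc` at (`b`, `h`) and `lev_stable`): the strands are the same as for `b`, `slice u h ρ = slice b h ρ`; and the values on strands at `h` of `ξ` and `res S ξ` agree (a strand touches `S`) as well as the ones of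
  `η` and `res S' η` (`S' = {j | - h < ht (- b) j} = {j | ht b j < h}`; a strand touches `S'`). So `om u h ξ η = om u h ζ η' = om b h ζ η'`.
* `om_loc_ne`: with a generic `u` near `b`: lifts `ξ ∈ T (ht u)` of `ζ` and `η ∈ T (ht (- u))` of `η'` exist (`typ1_main` (4)), they are not in `V0`, so `om_ne`.
-/

namespace Pool.Agent.helper81.SBX

open Module Matrix

variable {D V : Type*} [DivisionRing D] [StarRing D] [AddCommGroup V] [Module D V]
variable {M : Marked} {Hm : Herm D V} {t : D} (C : Col M Hm t) (ht : Six D t) (Δ : M.Dir)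

theorem styp1_cont (v : E3) : Continuous fun u : E3 => u ⬝ᵥ v := by
  have h : (fun u : E3 => u ⬝ᵥ v) = fun u => u 0 * v 0 + u 1 * v 1 + u 2 * v 2 := by
    funext u; exact dot3 u v
  rw [h]
  fun_prop

theorem styp1_level (M : Marked) (b : E3) {S : Set ℤ} (hS : Upper (M.ht b) S) :
    ∃ h, (∀ j, M.ht b j ≠ h) ∧ {j | h < M.ht b j} = S := by
  classical
  set F : Finset ℝ := (Finset.Ico (0 : ℤ) M.N).image (M.ht b) with hF
  have hFm : ∀ j, M.ht b j ∈ F := by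
    intro j
    obtain ⟨i, hi, hij⟩ := sslab_red M b j
    rw [hij]
    exact Finset.mem_image.2 ⟨i, hi, rfl⟩
  obtain ⟨h, h1, h2⟩ := Order.exists_between_finsets (F.filter fun x => ∃ j, j ∉ S ∧ M.ht b j = x)
    (F.filter fun x => ∃ j ∈ S, M.ht b j = x) (by
      intro x hx y hy
      obtain ⟨-, i, hi, rfl⟩ := Finset.mem_filter.1 hx
      obtain ⟨-, j, hj, rfl⟩ := Finset.mem_filter.1 hy
      by_contra hlt
      exact hi (hS j hj i (not_lt.1 hlt)))
  have k1 : ∀ j, j ∉ S → M.ht b j < h := fun j hj =>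
    h1 _ (Finset.mem_filter.2 ⟨hFm j, j, hj, rfl⟩)
  have k2 : ∀ j, j ∈ S → h < M.ht b j := fun j hj =>
    h2 _ (Finset.mem_filter.2 ⟨hFm j, j, hj, rfl⟩)
  refine ⟨h, fun j => ?_, ?_⟩
  · by_cases hj : j ∈ S
    · exact (k2 j hj).ne'
    · exact (k1 j hj).ne
  · ext j
    constructor
    · intro hj
      by_contra hj'
      exact absurd (k1 j hj') (not_lt.2 (le_of_lt hj))
    · intro hj; exact k2 j hj

include Δ in
theorem pg_of (hV : finrank D V = 3) (h4 : ∀ u ∈ M.hemi0, (C.rs ht).numCap (M.ht u) ≤ 4)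
    {u : E3} (hu : u ≠ 0) (he : u ⬝ᵥ M.e = 0) (hG : Gen (M.ht u)) : PG C ht u := by
  refine ⟨hu, he, hG, good3 C ht Δ hV h4 ⟨hu, he.ge, hG⟩, good3 C ht Δ hV h4 ⟨neg_ne_zero.2 hu, ?_,
    gen_neg.2 hG⟩⟩
  rw [neg_dotProduct, he, neg_zero]

theorem typ1_lev {b : E3} (hb : b ≠ 0) (he : b ⬝ᵥ M.e = 0) (h1 : (C.rs ht).Typ1 (M.ht b)) :
    ∃ h, GoodLev C ht b h := by
  obtain ⟨S, hS, ζ, hζ, hne⟩ := h1
  obtain ⟨h, k1, k2⟩ := styp1_level M b hS
  refine ⟨h, k1, ζ, ?_, ?_⟩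
  · rw [k2]; exact hζ
  · rw [k2]; exact hne

theorem lev_stable (b : E3) {h : ℝ} (hn : ∀ j, M.ht b j ≠ h) :
    ∃ s > 0, ∀ u : E3, ‖u - b‖ < s → (∀ j, M.ht u j ≠ h) ∧
      {j | h < M.ht u j} = {j | h < M.ht b j} ∧ (GoodLev C ht u h ↔ GoodLev C ht b h) := by
  have hev : ∀ᶠ u in nhds b, ∀ j ∈ Finset.Ico (0 : ℤ) M.N,
      M.ht u j ≠ h ∧ (h < M.ht u j ↔ h < M.ht b j) := by
    rw [Filter.eventually_all_finset]
    intro j _
    have hc : ContinuousAt (fun u : E3 => M.ht u j) b := (styp1_cont (M.q j)).continuousAt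
    rcases lt_or_gt_of_ne (hn j) with hj | hj
    · have h1 := hc.eventually_lt continuousAt_const (g := fun _ => h) hj
      exact h1.mono fun u hu => ⟨ne_of_lt hu, ⟨fun k => absurd hu (not_lt.2 k.le),
        fun k => absurd hj (not_lt.2 k.le)⟩⟩
    · have h1 := (continuousAt_const (y := h)).eventually_lt hc hj
      exact h1.mono fun u hu => ⟨ne_of_gt hu, ⟨fun _ => hj, fun _ => hu⟩⟩
  obtain ⟨s, hs, H⟩ := Metric.eventually_nhds_iff.1 hev
  refine ⟨s, hs, fun u hu => ?_⟩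
  have H' := H (y := u) (by rwa [dist_eq_norm])
  have hN : (0 : ℤ) < M.N := by exact_mod_cast M.hN
  have key : ∀ j, M.ht u j ≠ h ∧ (h < M.ht u j ↔ h < M.ht b j) := by
    intro j
    have e : j = j % M.N + (j / M.N) * M.N := by
      have := Int.emod_add_mul_ediv j M.N
      rw [mul_comm] at this
      exact this.symm
    rw [e, ht_per_mul, ht_per_mul]
    exact H' _ (Finset.mem_Ico.2 ⟨Int.emod_nonneg _ hN.ne', Int.emod_lt_of_pos _ hN⟩)
  have hset : {j | h < M.ht u j} = {j | h < M.ht b j} := Set.ext fun j => (key j).2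
  refine ⟨fun j => (key j).1, hset, ?_⟩
  unfold GoodLev
  rw [hset]
  exact ⟨fun k => ⟨hn, k.2⟩, fun k => ⟨fun j => (key j).1, k.2⟩⟩

include Δ in
theorem typ1_dual (hV : finrank D V = 3) (h4 : ∀ u ∈ M.hemi0, (C.rs ht).numCap (M.ht u) ≤ 4)
    {b : E3} (hb : b ≠ 0) (he : b ⬝ᵥ M.e = 0) {h : ℝ} (hh : GoodLev C ht b h) :
    GoodLev C ht (-b) (-h) := by
  obtain ⟨s1, hs1, k1⟩ := lev_stable C ht b hh.1
  obtain ⟨s2, hs2, k2⟩ := lev_stable C ht (-b) (h := -h) (fun j => by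
    rw [ht_neg]
    intro e
    exact hh.1 j (neg_injective e))
  obtain ⟨x, hx0, hxe, hxG, hxn⟩ := gen_dense_perp M hb he (min s1 s2) (lt_min hs1 hs2)
  have h1 : GoodLev C ht x h := (k1 x (lt_of_lt_of_le hxn (min_le_left _ _))).2.2.2 hh
  have h2 : GoodLev C ht (-x) (-h) := good_neg C ht (pg_of C ht Δ hV h4 hx0 hxe hxG) h1
  refine (k2 (-x) ?_).2.2.1 h2
  have e : -x - -b = -(x - b) := by abel
  rw [e, norm_neg]
  exact lt_of_lt_of_le hxn (min_le_right _ _)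

include Δ in
theorem typ1_neg_iff (hV : finrank D V = 3)
    (h4 : ∀ u ∈ M.hemi0, (C.rs ht).numCap (M.ht u) ≤ 4)
    {b : E3} (hb : b ≠ 0) (he : b ⬝ᵥ M.e = 0) :
    (C.rs ht).Typ1 (M.ht b) ↔ (C.rs ht).Typ1 (M.ht (-b)) := by
  have key : ∀ b : E3, b ≠ 0 → b ⬝ᵥ M.e = 0 → (C.rs ht).Typ1 (M.ht b) →
      (C.rs ht).Typ1 (M.ht (-b)) := by
    intro b hb he h1
    obtain ⟨h, hh⟩ := typ1_lev C ht hb he h1
    have h2 := typ1_dual C ht Δ hV h4 hb he hh
    exact ⟨_, upper_gt _ _, h2.2⟩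
  refine ⟨key b hb he, fun h1 => ?_⟩
  have h2 := key (-b) (neg_ne_zero.2 hb) (by rw [neg_dotProduct, he, neg_zero]) h1
  rwa [neg_neg] at h2

include Δ in
theorem om_loc (hV : finrank D V = 3) (h4 : ∀ u ∈ M.hemi0, (C.rs ht).numCap (M.ht u) ≤ 4)
    {b : E3} (hb : b ≠ 0) (he : b ⬝ᵥ M.e = 0) {h : ℝ} (hh : GoodLev C ht b h) :
    ∃ s > 0, ∀ u : E3, ‖u - b‖ < s → u ⬝ᵥ M.e = 0 → u ≠ 0 → Gen (M.ht u) →
      GoodLev C ht u h ∧ ∀ ζ η' ξ η : ℤ → D, res {j | h < M.ht b j} ξ = ζ →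
        res {j | -h < M.ht (-b) j} η = η' → C.om ht u h ξ η = C.om ht b h ζ η' := by
  have _ := Δ
  have _ := hV
  have _ := h4
  obtain ⟨s1, hs1, k1⟩ := lev_stable C ht b hh.1
  obtain ⟨s2, hs2, k2⟩ := slice_loc (G := Heis Hm) hb he hh.1
  refine ⟨min s1 s2, lt_min hs1 hs2, fun u hu hue _ _ =>
    ⟨(k1 u (lt_of_lt_of_le hu (min_le_left _ _))).2.2.2 hh, ?_⟩⟩
  rintro ζ η' ξ η rfl rfl
  have h1 := k2 u h (lt_of_lt_of_le hu (min_le_right _ _)) (by simpa using hs2) hue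
  have h2 : C.om ht u h ξ η = C.om ht b h ξ η := by
    unfold Col.om
    rw [h1.2]
  rw [h2]
  refine om_congr C ht b h ?_ ?_
  · intro j hj
    have h3 := (mem_strands.1 hj).2
    rw [res_apply_of_mem]
    show h < M.ht b j ∨ h < M.ht b (j + 1)
    by_contra hcon
    push Not at hcon
    nlinarith [hcon.1, hcon.2, mul_nonneg (sub_nonneg.2 hcon.1) (sub_nonneg.2 hcon.2)]
  · intro j hj
    have h3 := (mem_strands.1 hj).2
    rw [res_apply_of_mem]
    show -h < M.ht (-b) j ∨ -h < M.ht (-b) (j + 1)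
    rw [ht_neg]
    show -h < - M.ht b j ∨ -h < - M.ht b (j + 1)
    by_contra hcon
    push Not at hcon
    nlinarith [mul_nonneg (sub_nonneg.2 (neg_le_neg_iff.1 hcon.1)) (sub_nonneg.2 (neg_le_neg_iff.1 hcon.2))]

include Δ in
theorem om_loc_ne (hV : finrank D V = 3) (h4 : ∀ u ∈ M.hemi0, (C.rs ht).numCap (M.ht u) ≤ 4)
    {b : E3} (hb : b ≠ 0) (he : b ⬝ᵥ M.e = 0) {h : ℝ} (hh : GoodLev C ht b h) {ζ η' : ℤ → D}
    (hζ : ζ ∈ (C.rs ht).Sol {j | h < M.ht b j})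
    (hζ' : ∀ v ∈ (C.rs ht).V0, res {j | h < M.ht b j} v ≠ ζ)
    (hη : η' ∈ (C.rs ht).Sol {j | -h < M.ht (-b) j})
    (hη' : ∀ v ∈ (C.rs ht).V0, res {j | -h < M.ht (-b) j} v ≠ η') :
    C.om ht b h ζ η' ≠ 0 := by
  have hn' : ∀ j, M.ht (-b) j ≠ -h := fun j => by
    rw [ht_neg]
    intro e
    exact hh.1 j (neg_injective e)
  obtain ⟨s0, hs0, k0⟩ := om_loc C ht Δ hV h4 hb he hh
  obtain ⟨s1, hs1, k1⟩ := lev_stable C ht b hh.1
  obtain ⟨s2, hs2, k2⟩ := lev_stable C ht (-b) hn'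
  obtain ⟨x, hx0, hxe, hxG, hxn⟩ := gen_dense_perp M hb he (min s0 (min s1 s2))
    (lt_min hs0 (lt_min hs1 hs2))
  have hx1 : ‖x - b‖ < s0 := lt_of_lt_of_le hxn (min_le_left _ _)
  have hx2 : ‖x - b‖ < s1 := lt_of_lt_of_le hxn ((min_le_right _ _).trans (min_le_left _ _))
  have hx3 : ‖-x - -b‖ < s2 := by
    have e : -x - -b = -(x - b) := by abel
    rw [e, norm_neg]
    exact lt_of_lt_of_le hxn ((min_le_right _ _).trans (min_le_right _ _))
  have hpg := pg_of C ht Δ hV h4 hx0 hxe hxG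
  have hg := k0 x hx1 hxe hx0 hxG
  have e1 := (k1 x hx2).2.1
  have e2 := (k2 (-x) hx3).2.1
  rw [← e1] at hζ hζ'
  rw [← e2] at hη hη'
  obtain ⟨-, -, -, m1⟩ := typ1_main hpg.good.adm hpg.good (ref_refl _) (upper_gt _ _) hζ hζ'
  obtain ⟨-, -, -, m2⟩ := typ1_main hpg.good'.adm hpg.good' (ref_refl _) (upper_gt _ _) hη hη'
  obtain ⟨ξ, hξ, hξr, -⟩ := m1 ζ hζ
  obtain ⟨η, hη1, hηr, -⟩ := m2 η' hη
  have n1 : ξ ∉ (C.rs ht).V0 := fun h => hζ' ξ h hξr
  have n2 : η ∉ (C.rs ht).V0 := fun h => hη' η h hηr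
  have h1 := om_ne C ht hpg hg.1 hξ hη1 n1 n2
  rw [e1] at hξr
  rw [e2] at hηr
  rwa [hg.2 ζ η' ξ η hξr hηr] at h1

end Pool.Agent.helper81.SBX
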