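import Pool.Agent.helper81.SBX.VDefs

set_option autoImplicit false

/-!
# VCnt: crossings in a view

PROOFS.
* `edge_ne`: `PolyKnot.corner` (`SameRay` holds if a vector is zero). `edge_per`, periodicity of `xpos`, `alt`, `Under`, `cnt` in both indices: `K.per`.
* `e_ne`: if `e = 0` use `View.vert` with `i = j`, `x = 0`, `c = 1`. `edge_ne_smul`: if `edge i = c • e`: `K.P i + 1 • edge i = K.P i + c • e`, so `c = 0` by `View.vert`, contradiction to `edge_ne`.
* `cross_eq`: Cramer: if `det3 e E_i E_j ≠ 0` then `P i + xpos i j • E_i + alt i j • e = P j + xpos j i • E_j`. (Coordinates; `field_simp`, `ring`; `det3 E_i e E_j = - det3 e E_i E_j`; or: three vectors `e, E_i, E_j` form a basis, pair the difference with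
  `E_j × e`, `e × E_i`, `E_i × E_j`.) `xpos_unique`: if `P i + s • E_i + a • e = P j + r • E_j` and `det3 e E_i E_j ≠ 0` then `s = xpos i j`, `r = xpos j i`, `a = alt i j`.
* `alt_symm`: `alt j i = - alt i j`.
* `triple'`: three edges on one line parallel to `e`: if `Under i l`, `Under l m` and `xpos l i = xpos l m`, then the points of `i`, `l`, `m` are on one line parallel to `e`: `P i + xpos i l E_i + (alt i l + alt l m) e = P m + xpos m l E_m`. In a strongly generic view
  `det3 e E_i E_m ≠ 0` (otherwise `E_i = c E_m` by `SView.indep`, then `det3 e (P i - P m) E_m = 0`, so `P i - P m ∈ ℝ E_m` by `SView.line`, so `(alt i l + alt l m) e ∈ ℝ E_m`, and `alt > 0`, contradiction to `edge_ne_smul`), so `Under i m` with `xpos i m = xpos i l` (`xpos_unique`), and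
  `View.triple` gives `n ∣ l - m`; but `Under l m` with `m = l` mod `n` is impossible (`det3 e E_l E_l = 0`).
* `knot_simple`: `PolyKnot.disj` for edges at distance at least 2 (mod n), `PolyKnot.corner` for adjacent edges; the same edge: `edge_ne`.
* `edge_corner`: if the determinant vanishes, `edge i = c • edge (i + 1)` by `SView.indep`, `c ≠ 0`, and `c > 0` by `PolyKnot.corner` at `i + 1` (`- edge i` and `edge (i + 1)` are not on one ray).
-/

namespace Pool.Agent.helper81.SBX

open Module Matrix
open Pool.Agent.helper82.SB (PolyKnot edge)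
open Pool.Agent.helper43.SBI (xpos alt Under cnt View IsColoring Full)

variable {K : PolyKnot} {e : E3}

theorem P_per_mul (K : PolyKnot) (i m : ℤ) : K.P (i + m * K.n) = K.P i :=
  (Function.Periodic.int_mul (f := K.P) (c := (K.n : ℤ)) K.per m) i

theorem edge_ne (K : PolyKnot) (i : ℤ) : edge K.P i ≠ 0 := by
  intro h
  apply K.corner i
  have h1 : K.P (i + 1) - K.P i = 0 := h
  rw [h1]
  exact SameRay.zero_right _

theorem edge_per (K : PolyKnot) (i : ℤ) : edge K.P (i + K.n) = edge K.P i :=
  Pool.Agent.helper82.SB.edge_per K.per i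

theorem edge_per_mul (K : PolyKnot) (i m : ℤ) : edge K.P (i + m * K.n) = edge K.P i := by
  unfold edge
  rw [P_per_mul, show i + m * K.n + 1 = i + 1 + m * K.n by ring, P_per_mul]

theorem xpos_per (K : PolyKnot) (e : E3) (i j : ℤ) : xpos K e (i + K.n) j = xpos K e i j ∧
    xpos K e i (j + K.n) = xpos K e i j := by
  unfold xpos
  rw [edge_per, edge_per, K.per, K.per]
  exact ⟨rfl, rfl⟩

theorem alt_per (K : PolyKnot) (e : E3) (i j : ℤ) : alt K e (i + K.n) j = alt K e i j ∧
    alt K e i (j + K.n) = alt K e i j := by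
  unfold alt
  rw [edge_per, edge_per, K.per, K.per]
  exact ⟨rfl, rfl⟩

theorem under_per (K : PolyKnot) (e : E3) (i j : ℤ) :
    (Under K e (i + K.n) j ↔ Under K e i j) ∧ (Under K e i (j + K.n) ↔ Under K e i j) := by
  unfold Under
  rw [(xpos_per K e i j).1, (xpos_per K e j i).2, (alt_per K e i j).1, edge_per, edge_per,
    (xpos_per K e i j).2, (xpos_per K e j i).1, (alt_per K e i j).2]
  exact ⟨Iff.rfl, Iff.rfl⟩

theorem cnt_per (K : PolyKnot) (e : E3) (i : ℤ) (x : ℝ) :
    cnt K e (i + K.n) x = cnt K e i x := by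
  classical
  unfold cnt
  congr 1
  ext l
  rw [Finset.mem_filter, Finset.mem_filter, (under_per K e i l).1, (xpos_per K e i l).1]

theorem cnt_mono (K : PolyKnot) (e : E3) (i : ℤ) {x y : ℝ} (h : x ≤ y) :
    cnt K e i x ≤ cnt K e i y := by
  classical
  unfold cnt
  apply Finset.card_le_card
  intro l hl
  rw [Finset.mem_filter] at hl ⊢
  exact ⟨hl.1, hl.2.1, lt_of_lt_of_le hl.2.2 h⟩

theorem e_ne (h : View K e) : e ≠ 0 := by
  intro he
  have h1 := h.vert 0 0 0 1 le_rfl zero_le_one (by rw [he]; simp)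
  exact one_ne_zero h1

theorem edge_ne_smul (h : View K e) (i : ℤ) (c : ℝ) : edge K.P i ≠ c • e := by
  intro h1
  have h2 := h.vert i i 1 c zero_le_one le_rfl (by rw [h1, one_smul])
  rw [h2, zero_smul] at h1
  exact edge_ne K i h1

theorem cross_eq (i j : ℤ) (h : det3 e (edge K.P i) (edge K.P j) ≠ 0) :
    K.P i + xpos K e i j • edge K.P i + alt K e i j • e =
      K.P j + xpos K e j i • edge K.P j := by
  unfold xpos alt
  rw [det3_eq, det3_eq, det3_eq, det3_eq, det3_eq, det3_eq]
  have h1 : det3 (edge K.P i) e (edge K.P j) = - det3 e (edge K.P i) (edge K.P j) := by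
    unfold det3; ring
  have h2 : det3 (edge K.P j) e (edge K.P i) = det3 e (edge K.P i) (edge K.P j) := by
    unfold det3; ring
  rw [h1, h2]
  generalize hD : det3 e (edge K.P i) (edge K.P j) = D at h
  ext k
  have key : D * (K.P i k + det3 (K.P j - K.P i) e (edge K.P j) / -D * edge K.P i k +
      det3 (K.P j - K.P i) (edge K.P i) (edge K.P j) / D * e k) =
      D * (K.P j k + det3 (K.P i - K.P j) e (edge K.P i) / D * edge K.P j k) := by
    have e1 : D * (K.P i k + det3 (K.P j - K.P i) e (edge K.P j) / -D * edge K.P i k +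
      det3 (K.P j - K.P i) (edge K.P i) (edge K.P j) / D * e k) = D * K.P i k -
        det3 (K.P j - K.P i) e (edge K.P j) * edge K.P i k +
        det3 (K.P j - K.P i) (edge K.P i) (edge K.P j) * e k := by
      field_simp
      ring
    have e2 : D * (K.P j k + det3 (K.P i - K.P j) e (edge K.P i) / D * edge K.P j k) =
        D * K.P j k + det3 (K.P i - K.P j) e (edge K.P i) * edge K.P j k := by
      field_simp
    rw [e1, e2, ← hD]
    unfold det3
    simp only [Pi.sub_apply]
    fin_cases k <;> simp only [Fin.zero_eta, Fin.mk_one, Fin.reduceFinMk] <;> ring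
  exact mul_left_cancel₀ h key

theorem xpos_unique (i j : ℤ) (h : det3 e (edge K.P i) (edge K.P j) ≠ 0) {s r a : ℝ}
    (h' : K.P i + s • edge K.P i + a • e = K.P j + r • edge K.P j) :
    s = xpos K e i j ∧ r = xpos K e j i ∧ a = alt K e i j := by
  unfold xpos alt
  rw [det3_eq, det3_eq, det3_eq, det3_eq, det3_eq, det3_eq]
  have h1 : det3 (edge K.P i) e (edge K.P j) ≠ 0 := by
    intro h0
    apply h
    have : det3 e (edge K.P i) (edge K.P j) = - det3 (edge K.P i) e (edge K.P j) := by
      unfold det3; ring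
    rw [this, h0, neg_zero]
  have h2 : det3 (edge K.P j) e (edge K.P i) ≠ 0 := by
    intro h0
    apply h
    have : det3 e (edge K.P i) (edge K.P j) = det3 (edge K.P j) e (edge K.P i) := by
      unfold det3; ring
    rw [this, h0]
  have hw : K.P j - K.P i = s • edge K.P i + a • e - r • edge K.P j := by
    rw [sub_eq_sub_iff_add_eq_add, ← h']
    abel
  have hw' : K.P i - K.P j = -(s • edge K.P i + a • e - r • edge K.P j) := by
    rw [← hw]; abel
  rw [eq_div_iff h1, eq_div_iff h2, eq_div_iff h, hw, hw']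
  unfold det3
  simp only [Pi.add_apply, Pi.sub_apply, Pi.smul_apply, Pi.neg_apply, smul_eq_mul]
  refine ⟨?_, ?_, ?_⟩ <;> ring

theorem under_det {i j : ℤ} (h : Under K e i j) : det3 e (edge K.P i) (edge K.P j) ≠ 0 := by
  rw [← det3_eq]
  exact h.1

/-- two different points on a line parallel to `e` : the edges cross -/
theorem det_of_vertical (hs : SView K e) (i j : ℤ) {s r a : ℝ} (ha : a ≠ 0)
    (h' : K.P i + s • edge K.P i + a • e = K.P j + r • edge K.P j) :
    det3 e (edge K.P i) (edge K.P j) ≠ 0 := by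
  intro h0
  obtain ⟨c, hc⟩ := hs.indep i j h0
  have h1 : K.P i - K.P j = (r - s * c) • edge K.P j - a • e := by
    rw [hc, smul_smul] at h'
    rw [sub_smul]
    have h2 : K.P i = K.P j + r • edge K.P j - (s * c) • edge K.P j - a • e := by
      rw [← h']; abel
    rw [h2]; abel
  have h3 : det3 e (K.P i - K.P j) (edge K.P j) = 0 := by
    rw [h1]
    unfold det3
    simp only [Pi.sub_apply, Pi.smul_apply, smul_eq_mul]
    ring
  obtain ⟨c', hc'⟩ := hs.line i j h3
  have h4 : a • e = (r - s * c - c') • edge K.P j := by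
    rw [hc'] at h1
    rw [sub_smul (r - s * c) c', h1]
    abel
  by_cases hz : r - s * c - c' = 0
  · rw [hz, zero_smul] at h4
    rcases smul_eq_zero.1 h4 with h5 | h5
    · exact ha h5
    · exact e_ne hs.view h5
  · apply edge_ne_smul hs.view j ((r - s * c - c')⁻¹ * a)
    rw [← smul_smul, h4, smul_smul, inv_mul_cancel₀ hz, one_smul]

theorem triple' (hs : SView K e) {i l m : ℤ} (h1 : Under K e i l) (h2 : Under K e l m) :
    xpos K e l i ≠ xpos K e l m := by
  intro hx
  have c1 := cross_eq i l (under_det h1)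
  have c2 := cross_eq l m (under_det h2)
  have c3 : K.P i + xpos K e i l • edge K.P i + (alt K e i l + alt K e l m) • e =
      K.P m + xpos K e m l • edge K.P m := by
    rw [← c2, ← hx, ← c1, add_smul]
    abel
  have ha : 0 < alt K e i l + alt K e l m := add_pos h1.2.2.2 h2.2.2.2
  have hd := det_of_vertical hs i m ha.ne' c3
  obtain ⟨e1, e2, e3⟩ := xpos_unique i m hd c3
  have h3 : Under K e i m := by
    refine ⟨by rw [det3_eq]; exact hd, ?_, ?_, ?_⟩
    · rw [← e1]; exact h1.2.1
    · rw [← e2]; exact h2.2.2.1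
    · rw [← e3]; exact ha
  obtain ⟨q, hq⟩ := hs.view.triple i l m h1 h3 e1
  have hl : l = m + q * K.n := by linarith
  apply under_det h2
  rw [hl, edge_per_mul]
  unfold det3
  ring

/-- points of a polygonal knot are distinct -/
theorem knot_simple (K : PolyKnot) (i j : ℤ) {s r : ℝ} (hs : 0 ≤ s) (hs' : s < 1) (hr : 0 ≤ r)
    (hr' : r < 1) (h : K.P i + s • edge K.P i = K.P j + r • edge K.P j) :
    (∃ m : ℤ, j = i + m * K.n) ∧ s = r := by
  have hn : (0 : ℤ) < K.n := by have := K.three; omega
  obtain ⟨d, hd⟩ : ∃ d : ℤ, d = (j - i) % K.n := ⟨_, rfl⟩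
  obtain ⟨m, hm⟩ : ∃ m : ℤ, m = (j - i) / K.n := ⟨_, rfl⟩
  have hj : j = i + d + m * K.n := by
    have := Int.emod_add_mul_ediv (j - i) K.n
    rw [← hd, ← hm] at this
    linarith
  have hd0 : 0 ≤ d := by rw [hd]; exact Int.emod_nonneg _ hn.ne'
  have hdn : d < K.n := by rw [hd]; exact Int.emod_lt_of_pos _ hn
  rw [hj, P_per_mul, edge_per_mul] at h
  -- the corner argument
  have corner : ∀ (a : ℤ) (x y : ℝ), 0 < x → 0 ≤ y →
      x • (K.P (a - 1) - K.P a) = y • (K.P (a + 1) - K.P a) → False := by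
    intro a x y hx hy hxy
    apply K.corner a
    have h1 : K.P (a - 1) - K.P a = (x⁻¹ * y) • (K.P (a + 1) - K.P a) := by
      rw [← smul_smul, ← hxy, smul_smul, inv_mul_cancel₀ hx.ne', one_smul]
    rw [h1]
    exact SameRay.sameRay_nonneg_smul_left _ (mul_nonneg (inv_nonneg.2 hx.le) hy)
  rcases eq_or_lt_of_le hd0 with h0 | h0
  · rw [← h0, add_zero] at h
    refine ⟨⟨m, by rw [hj, ← h0, add_zero]⟩, ?_⟩
    have h1 : (s - r) • edge K.P i = 0 := by
      rw [sub_smul, sub_eq_zero]
      exact add_left_cancel h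
    rcases smul_eq_zero.1 h1 with h2 | h2
    · linarith
    · exact absurd h2 (edge_ne K i)
  exfalso
  by_cases h1 : d = 1
  · rw [h1] at h
    apply corner (i + 1) (1 - s) r (by linarith) hr
    rw [add_sub_cancel_right]
    unfold edge at h
    have h2 : K.P i = K.P (i + 1) + r • (K.P (i + 1 + 1) - K.P (i + 1)) -
      s • (K.P (i + 1) - K.P i) := by rw [← h]; abel
    rw [sub_smul, one_smul]
    nth_rewrite 1 [h2]
    rw [smul_sub s, smul_sub s]
    abel
  by_cases h2 : d = K.n - 1
  · have h3 : i + d = i - 1 + 1 * K.n := by rw [h2]; ring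
    rw [h3, P_per_mul, edge_per_mul] at h
    apply corner i (1 - r) s (by linarith) hs
    unfold edge at h
    rw [sub_add_cancel] at h
    have h4 : K.P (i - 1) = K.P i + s • (K.P (i + 1) - K.P i) -
      r • (K.P i - K.P (i - 1)) := by rw [h]; abel
    rw [sub_smul, one_smul]
    nth_rewrite 1 [h4]
    rw [smul_sub r, smul_sub r]
    abel
  · have h3 := K.disj i (i + d) (by omega) (by omega)
    rw [Set.disjoint_left] at h3
    have mem : ∀ (a : ℤ) (x : ℝ), 0 ≤ x → x < 1 →
        K.P a + x • edge K.P a ∈ segment ℝ (K.P a) (K.P (a + 1)) := by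
      intro a x hx hx'
      rw [segment_eq_image']
      exact ⟨x, ⟨hx, hx'.le⟩, rfl⟩
    refine h3 (mem i s hs hs') ?_
    rw [h]
    exact mem (i + d) r hr hr'

/-- consecutive edges are independent or positively parallel -/
theorem edge_corner (hs : SView K e) (i : ℤ) :
    (∃ c : ℝ, 0 < c ∧ edge K.P (i + 1) = c • edge K.P i) ∨
      det3 e (edge K.P i) (edge K.P (i + 1)) ≠ 0 := by
  by_cases h0 : det3 e (edge K.P i) (edge K.P (i + 1)) = 0
  · left
    obtain ⟨c, hc⟩ := hs.indep i (i + 1) h0
    rcases lt_trichotomy c 0 with h1 | h1 | h1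
    · exfalso
      apply K.corner (i + 1)
      have h2 : K.P (i + 1 - 1) - K.P (i + 1) = (-c) • (K.P (i + 1 + 1) - K.P (i + 1)) := by
        rw [add_sub_cancel_right, neg_smul]
        have h3 : K.P (i + 1) - K.P i = c • (K.P (i + 1 + 1) - K.P (i + 1)) := hc
        rw [← h3]
        abel
      rw [h2]
      exact SameRay.sameRay_nonneg_smul_left _ (by linarith)
    · exfalso
      rw [h1, zero_smul] at hc
      exact edge_ne K i hc
    · exact ⟨c⁻¹, inv_pos.2 h1, by rw [hc, smul_smul, inv_mul_cancel₀ h1.ne', one_smul]⟩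
  · exact Or.inr h0

end Pool.Agent.helper81.SBX
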