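import Pool.Agent.helper81.SBX.QDefs

set_option autoImplicit false

/-!
# VLift: lifting classes of roots to roots

PROOF of `exists_lift`. Choose a root `X0` with class `y 0` (`Quotient.exists_rep`). Define `X j` for `j ≥ 0` by `X (j + 1) = γ (j + 1) • X j` and for negative `j` by `X j = (γ (j + 1))⁻¹ • X (j + 1)` (recursion over `ℤ`, e.g. `X j = (product of the γ) • X0`; `Int.induction_on'`-style; or define `W : ℤ → isoG`
with `W 0 = 1`, `W j = γ j * W (j - 1)` and `X j = W j • X0` with `actRoot`). Then `class (X j) = y j` for all `j` by induction in both directions (the action on classes is the class of `actRoot`, by definition).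
`class (X N) = y N = tau (y 0) = class (g • X0)`: `X N = m • g • X0` with `m ∈ μ`. Put `g' = m * g`; `g' * star g' = m g g* m* = 1` (`m` central, `mu_mul_star`), `g' ∈ O` (`mu_mem`). `X (j + N) = g' • X j` for all `j` by induction in both directions: `γ (j + 1 + N) = γ (j + 1)` and isometries are `D`-linear.
-/

namespace Pool.Agent.helper81.SBX

open Module Matrix

variable {D V : Type} [DivisionRing D] [StarRing D] [AddCommGroup V] [Module D V]
variable {Hm : Herm D V} {t : D} (ht : Six D t) (Λ : Lat Hm t)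

/-- products in the positive direction -/
def vliftP {Gr : Type} [Group Gr] (γ : ℤ → Gr) : ℕ → Gr
  | 0 => 1
  | n + 1 => γ ((n : ℤ) + 1) * vliftP γ n

/-- products in the negative direction -/
def vliftN {Gr : Type} [Group Gr] (γ : ℤ → Gr) : ℕ → Gr
  | 0 => 1
  | n + 1 => (γ (-(n : ℤ)))⁻¹ * vliftN γ n

/-- two sided products -/
theorem vlift_exists {Gr : Type} [Group Gr] (γ : ℤ → Gr) :
    ∃ W : ℤ → Gr, W 0 = 1 ∧ ∀ j, W j = γ j * W (j - 1) := by
  refine ⟨fun j => if 0 ≤ j then vliftP γ j.toNat else vliftN γ (-j).toNat, ?_, ?_⟩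
  · simp [vliftP]
  · intro j
    rcases lt_or_ge 0 j with hj | hj
    · obtain ⟨n, rfl⟩ : ∃ n : ℕ, j = (n : ℤ) + 1 := ⟨(j - 1).toNat, by omega⟩
      have h1 : (0 : ℤ) ≤ (n : ℤ) + 1 := by omega
      have h2 : (0 : ℤ) ≤ (n : ℤ) + 1 - 1 := by omega
      have h3 : ((n : ℤ) + 1).toNat = n + 1 := by omega
      have h4 : ((n : ℤ) + 1 - 1).toNat = n := by omega
      simp only [h1, h2, if_true, h3, h4]
      rfl
    · obtain ⟨n, rfl⟩ : ∃ n : ℕ, j = -(n : ℤ) := ⟨(-j).toNat, by omega⟩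
      have h2 : ¬ (0 : ℤ) ≤ -(n : ℤ) - 1 := by omega
      have h4 : (-(-(n : ℤ) - 1)).toNat = n + 1 := by omega
      have h5 : (-(-(n : ℤ))).toNat = n := by omega
      simp only [h2, if_false, h4]
      rw [vliftN, mul_inv_cancel_left]
      rcases Nat.eq_zero_or_pos n with h0 | h0
      · subst h0
        simp [vliftP, vliftN]
      · have h1 : ¬ (0 : ℤ) ≤ -(n : ℤ) := by omega
        simp only [h1, if_false, h5]

theorem exists_lift (N : ℕ) (y : ℤ → RY ht Λ) (γ : ℤ → isoG Λ) (hγ : ∀ j, γ (j + N) = γ j)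
    (hy : ∀ j, y j = γ j • y (j - 1)) (hN : ∀ j, y (j + N) = (rootAQ ht Λ).tau (y j)) :
    ∃ (X : ℤ → Root Λ) (m : D), m ∈ Six.mu t ∧ (∀ j, y j = Quotient.mk (rootSetoid ht Λ) (X j)) ∧
      (∀ j, (X j).1 = (γ j).1 (X (j - 1)).1) ∧
      (∀ j, (X (j + N)).1 = (m * Λ.g) • (X j).1) ∧ (m * Λ.g) * star (m * Λ.g) = 1 ∧
      m * Λ.g ∈ Λ.O := by
  obtain ⟨W, hW0, hW⟩ := vlift_exists γ
  obtain ⟨X0, hX0⟩ := Quotient.exists_rep (y 0)
  have hact : ∀ (A : isoG Λ) (X : Root Λ) (q : RY ht Λ), q = Quotient.mk (rootSetoid ht Λ) X →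
      A • q = Quotient.mk (rootSetoid ht Λ) (actRoot Λ A X) := by
    rintro A X q rfl
    rfl
  have hcl : ∀ j, y j = W j • y 0 := by
    intro j
    induction j using Int.induction_on with
    | zero => rw [hW0, one_smul]
    | succ i ih =>
      rw [hy, hW, add_sub_cancel_right, ih, ← mul_smul]
    | pred i ih =>
      have h1 := hy (-(i : ℤ))
      have h2 := hW (-(i : ℤ))
      rw [ih, h2, mul_smul] at h1
      exact (smul_left_cancel _ h1).symm
  have hXc : ∀ j, y j = Quotient.mk (rootSetoid ht Λ) (actRoot Λ (W j) X0) := by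
    intro j
    rw [hcl j]
    exact hact (W j) X0 (y 0) hX0.symm
  have hXs : ∀ j, (actRoot Λ (W j) X0).1 = (γ j).1 (actRoot Λ (W (j - 1)) X0).1 := by
    intro j
    change (W j).1 X0.1 = (γ j).1 ((W (j - 1)).1 X0.1)
    rw [hW j]
    rfl
  -- the multiplier
  have h1 : Quotient.mk (rootSetoid ht Λ) (twist Λ X0) =
      Quotient.mk (rootSetoid ht Λ) (actRoot Λ (W N) X0) := by
    have h2 := hN 0
    rw [zero_add, hXc N, ← hX0] at h2
    exact h2.symm
  obtain ⟨m, hm, hm2⟩ := Quotient.exact h1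
  have hm3 : (actRoot Λ (W N) X0).1 = (m * Λ.g) • (actRoot Λ (W 0) X0).1 := by
    rw [hm2, hW0]
    change m • Λ.g • X0.1 = (m * Λ.g) • X0.1
    rw [smul_smul]
  have hper : ∀ j : ℤ, (actRoot Λ (W (j + N)) X0).1 = (m * Λ.g) • (actRoot Λ (W j) X0).1 := by
    intro j
    induction j using Int.induction_on with
    | zero => rw [zero_add]; exact hm3
    | succ i ih =>
      have h2 := hXs ((i : ℤ) + 1 + N)
      have h3 : (i : ℤ) + 1 + N - 1 = i + N := by ring
      rw [h3, hγ ((i : ℤ) + 1), ih, map_smul] at h2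
      rw [h2]
      have h4 := hXs ((i : ℤ) + 1)
      rw [add_sub_cancel_right] at h4
      rw [h4]
    | pred i ih =>
      have h2 := hXs (-(i : ℤ) + N)
      have h3 : -(i : ℤ) + N - 1 = -(i : ℤ) - 1 + N := by ring
      rw [h3, hγ (-(i : ℤ)), ih, hXs (-(i : ℤ)), ← map_smul] at h2
      exact ((γ (-(i : ℤ))).1.injective h2).symm
  refine ⟨fun j => actRoot Λ (W j) X0, m, hm, hXc, hXs, hper, ?_, ?_⟩
  · rw [star_mul, mul_assoc, ← mul_assoc Λ.g, Λ.g_unit, one_mul, mu_mul_star ht hm]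
  · exact Λ.O.mul_mem (mu_mem ht hm Λ.t_mem) Λ.g_mem

end Pool.Agent.helper81.SBX
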