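import Pool.Agent.helper81.SBX.VMark
import Pool.Agent.helper81.SBX.VLift

set_option autoImplicit false

/-!
# VCol: the coloured marked polygon of a full colouring

PROOF of `exists_col`. Let `M = mkM hs E S`, `y j = T (ix j) (of j)`; `γ j = (del (T l c)) ^ sgn K e (ix j) l` with `l = ovN j`, `c = cN j` if `0 < of j`, and `γ j = 1` otherwise.
* `y j = γ j • y (j - 1)`: `of j = 0`: `prev_out` and `IsColoring.vertex`. `of j = k ≥ 1`: `prev_in`; `IsColoring.cross` for `Under i l` (`underN`), `cnt K e i (xpos i l) + 1 = k` (`cnt_pos`, as `xpos i l = s i k`).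
* `y (j + N) = tau (y j)`: `IsColoring.per`, `ix_per`, `of_per`. `γ (j + N) = γ j`: `ovN`, `cN` are periodic (`ov_per`, `cnt_per`, `xpos_per`), `del (T (l + n) c) = del (tau (T l c)) = del (T l c)`; `sgn` is periodic.
* `exists_lift` gives `X`, `m`; `C.X j = (X j).1`, `C.g = m * Λ.g`.
* `under`: the class of `X (oN j)` is `y (oN j) = T (ovN j) (cN j)` (`ix_oN`), so `γ j = (reflG (X (oN j))) ^ (± 1)`. If `sgn = 1`, i.e. `0 < det3 e E_i E_l`: then `det3 e (d (o j)) (d j)`, a positive multiple of `det3 e E_l E_i = - det3 e E_i E_l`, is negative, `M.sgn t j = t`, and `γ j` acts as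
  `Hm.refl X_o t`. If `sgn = - 1`: `det3 e E_i E_l < 0` (`under_det`), `M.sgn t j = star t`, and `(reflG X_o)⁻¹` acts as `Hm.refl X_o (star t)` (by definition of `reflE.invFun`). `plain`: `γ j = 1`. (`det3_eq` relates the two `det3`.)
* `X_norm`: roots. `X_per`: `exists_lift`.
* `span`: suppose `H v (X j) = 0` for all `j` and `v ≠ 0`. `W = {x | H x v = 0}` is a proper submodule (`nondeg`, `herm`), all `X j ∈ W`. `Full` for the member of `rootFam` given by `W`: some `T i k`, `k ≤ cnt K e i 1`, is not in it; but `T i k = y (st i + k)` (`ix_st`, `of_st`) is the class of `X (st i + k)`.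
* `Over`: `c j` is `0` or `(star (sgn) - 1) * H X_o X_{j-1}` with `star (sgn) ∈ O` (`t ∈ O`, `star_mem`) and `herm_mem`; `τ = star (m g) ∈ O`; `τ⁻¹ = m g` because `star g' * g' = 1`.
-/

namespace Pool.Agent.helper81.SBX

open Module Matrix
open Pool.Agent.helper82.SB (PolyKnot edge)
open Pool.Agent.helper43.SBI (xpos alt Under cnt View IsColoring Full)

variable {D V : Type} [DivisionRing D] [StarRing D] [AddCommGroup V] [Module D V]
variable {Hm : Herm D V} {t : D} (ht : Six D t) (Λ : Lat Hm t) {K : PolyKnot} {e : E3}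

section

variable (E : Enum K.n fun i => cnt K e i 1) (S : Pos K e)

private theorem vc_ov (j : ℤ) : ovN E S (j + E.N) = ovN E S j + K.n := by
  unfold ovN
  rw [E.ix_per, E.of_per, S.ov_per]

private theorem vc_xpos (i l : ℤ) : xpos K e (i + K.n) (l + K.n) = xpos K e i l := by
  rw [(xpos_per K e i (l + K.n)).1, (xpos_per K e i l).2]

private theorem vc_cN (j : ℤ) : cN E S (j + E.N) = cN E S j := by
  unfold cN
  rw [vc_ov, E.ix_per, cnt_per, vc_xpos]

private theorem vc_sgn (i l : ℤ) : Pool.Agent.helper43.SBI.sgn K e (i + K.n) (l + K.n) =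
    Pool.Agent.helper43.SBI.sgn K e i l := by
  unfold Pool.Agent.helper43.SBI.sgn
  rw [edge_per, edge_per]

end

theorem exists_col (hs : SView K e) (E : Enum K.n fun i => cnt K e i 1) (S : Pos K e)
    {T : ℤ → ℕ → RY ht Λ} (hT : IsColoring (rootAQ ht Λ) K e T)
    (hF : Full (rootFam ht Λ) K e T) :
    ∃ (C : Col (mkM hs E S) Hm t) (m : D), m ∈ Six.mu t ∧ C.g = m * Λ.g ∧
      (C.rs ht).Over Λ.O := by
  classical
  set γ : ℤ → isoG Λ := fun j => if 0 < E.of j then
    ((rootAQ ht Λ).del (T (ovN E S j) (cN E S j))) ^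
      Pool.Agent.helper43.SBI.sgn K e (E.ix j) (ovN E S j) else 1 with hγdef
  obtain ⟨X, m, hm, hy, hX, hper, hunit, hO⟩ := exists_lift ht Λ E.N
    (fun j => T (E.ix j) (E.of j)) γ
    (by
      intro j
      simp only [hγdef]
      rw [E.of_per, vc_ov, vc_cN, E.ix_per, vc_sgn, hT.per, (rootAQ ht Λ).del_tau])
    (by
      intro j
      simp only [hγdef]
      rcases Nat.eq_zero_or_pos (E.of j) with hj | hj
      · obtain ⟨h1, h2⟩ := E.prev_out hj
        have h3 := hT.vertex (E.ix j - 1)
        rw [sub_add_cancel] at h3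
        rw [if_neg (by omega), one_smul, hj, h1, h2, h3]
      · obtain ⟨h1, h2⟩ := E.prev_in hj
        obtain ⟨hu, hx⟩ := underN E S hj
        have h3 := hT.cross (E.ix j) (ovN E S j) hu
        have h4 := S.cnt_pos (E.ix j) (E.of j) hj (E.of_le j)
        rw [← hx] at h4
        have h5 : cnt K e (E.ix j) (xpos K e (E.ix j) (ovN E S j)) = E.of (j - 1) := by omega
        rw [h4, h5] at h3
        rw [if_pos hj, h1]
        exact h3)
    (by
      intro j
      simp only [E.ix_per, E.of_per]
      exact hT.per _ _)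
  have hplain : ∀ j, ¬ 0 < E.of j → (X j).1 = (X (j - 1)).1 := by
    intro j hj
    rw [hX j]
    simp only [hγdef]
    rw [if_neg hj]
    rfl
  have hunder : ∀ j, 0 < E.of j → (X j).1 = Hm.refl (X (oN E S j)).1 ((mkM hs E S).sgn t j)
      (X (j - 1)).1 := by
    intro j hj
    obtain ⟨hu, hx⟩ := underN E S hj
    obtain ⟨e1, e2⟩ := ix_oN E S hs hj
    have h1 : T (ovN E S j) (cN E S j) = Quotient.mk (rootSetoid ht Λ) (X (oN E S j)) := by
      rw [← hy (oN E S j), e1, e2]
    have h2 : (rootAQ ht Λ).del (T (ovN E S j) (cN E S j)) = reflG ht Λ (X (oN E S j)) := by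
      rw [h1]
      rfl
    have hd : det3 (mkM hs E S).e ((mkM hs E S).d ((mkM hs E S).o j)) ((mkM hs E S).d j) =
        -((S.s (E.ix (oN E S j)) (E.of (oN E S j) + 1) - S.s (E.ix (oN E S j)) (E.of (oN E S j))) *
          (S.s (E.ix j) (E.of j + 1) - S.s (E.ix j) (E.of j)) *
          det3 e (edge K.P (E.ix j)) (edge K.P (ovN E S j))) := by
      have h3 : det3 e (qN E S (oN E S j + 1) - qN E S (oN E S j)) (qN E S (j + 1) - qN E S j) =
          -((S.s (E.ix (oN E S j)) (E.of (oN E S j) + 1) - S.s (E.ix (oN E S j)) (E.of (oN E S j))) *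
          (S.s (E.ix j) (E.of j + 1) - S.s (E.ix j) (E.of j)) *
          det3 e (edge K.P (E.ix j)) (edge K.P (ovN E S j))) := by
        rw [dN_eq, dN_eq, det3_smul_smul, e1]
        simp only [det3]
        ring
      exact h3
    have a1 := sN_lt E S j
    have a2 := sN_lt E S (oN E S j)
    have hne := under_det hu
    have hpos : 0 < (S.s (E.ix (oN E S j)) (E.of (oN E S j) + 1) -
        S.s (E.ix (oN E S j)) (E.of (oN E S j))) *
          (S.s (E.ix j) (E.of j + 1) - S.s (E.ix j) (E.of j)) :=
      mul_pos (by linarith) (by linarith)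
    rw [hX j]
    simp only [hγdef]
    rw [if_pos hj, h2]
    unfold Pool.Agent.helper43.SBI.sgn Marked.sgn
    rw [hd, det3_eq]
    rcases lt_or_gt_of_ne hne with h4 | h4
    · rw [if_neg (not_lt.2 h4.le), if_pos (by
        rw [neg_pos]
        exact mul_neg_of_pos_of_neg hpos h4), _root_.zpow_neg, zpow_one]
      rfl
    · rw [if_pos h4, if_neg (by
        rw [not_lt, neg_nonpos]
        exact (mul_pos hpos h4).le), zpow_one]
      rfl
  have hspan : ∀ v, (∀ j, Hm.H v (X j).1 = 0) → v = 0 := by
    intro v hv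
    by_contra hne
    let W : Submodule D V :=
      { carrier := {x | Hm.H x v = 0}
        add_mem' := by
          intro x y hx hy
          have hx' : Hm.H x v = 0 := hx
          have hy' : Hm.H y v = 0 := hy
          show Hm.H (x + y) v = 0
          rw [Hm.add_left, hx', hy', add_zero]
        zero_mem' := Hm.zero_left v
        smul_mem' := by
          intro a x hx
          have hx' : Hm.H x v = 0 := hx
          show Hm.H (a • x) v = 0
          rw [Hm.smul_left, hx', mul_zero] }
    have hW : W ≠ ⊤ := by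
      intro h
      apply hne
      apply Hm.nondeg
      intro x
      have h1 : x ∈ W := by
        rw [h]
        trivial
      have h2 : Hm.H x v = 0 := h1
      rw [← Hm.herm, h2, star_zero]
    obtain ⟨i, k, hk, hnot⟩ := hF _ ⟨W, hW, rfl⟩
    apply hnot
    refine ⟨X (E.st i + k), ?_, ?_⟩
    · show Hm.H (X (E.st i + k)).1 v = 0
      rw [← Hm.herm, hv, star_zero]
    · rw [← hy (E.st i + k), E.ix_st i k hk, E.of_st i k hk]
  have hg : star (m * Λ.g) * (m * Λ.g) = 1 := mul_eq_one_comm.mp hunit
  refine ⟨{ X := fun j => (X j).1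
            g := m * Λ.g
            g_unit := hunit
            X_per := hper
            X_norm := fun j => (X j).2.2
            plain := hplain
            under := hunder
            span := hspan }, m, hm, rfl, ?_, ?_, ?_⟩
  · intro j
    simp only [Col.rs]
    split_ifs with hj
    · refine Λ.O.mul_mem (Λ.O.sub_mem ?_ Λ.O.one_mem) (Λ.herm_mem _ (X _).2.1 _ (X _).2.1)
      unfold Marked.sgn
      split_ifs
      · rw [star_star]
        exact Λ.t_mem
      · exact Λ.star_mem _ Λ.t_mem
    · exact Λ.O.zero_mem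
  · exact Λ.star_mem _ hO
  · show (star (m * Λ.g))⁻¹ ∈ Λ.O
    rw [← eq_inv_of_mul_eq_one_right hg]
    exact hO

end Pool.Agent.helper81.SBX
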