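import Pool.Agent.helper81.SBX.QDefs

set_option autoImplicit false

/-!
# Block V: from a coloured diagram of a polygonal knot to a coloured marked polygon (definitions)

`Pool.Agent.helper82.SB.det3` and `Pool.Agent.helper81.SBX.det3` are the same function (`det3_eq`).
-/

namespace Pool.Agent.helper81.SBX

open Module Matrix
open Pool.Agent.helper82.SB (PolyKnot edge)
open Pool.Agent.helper43.SBI (xpos alt Under cnt View IsColoring Full)

theorem det3_eq (a b c : E3) : Pool.Agent.helper82.SB.det3 a b c = det3 a b c := by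
  simp only [Pool.Agent.helper82.SB.det3, det3]
  ring

/-- Strongly generic views. -/
structure SView (K : PolyKnot) (e : E3) : Prop where
  view : View K e
  indep : ∀ i j, det3 e (edge K.P i) (edge K.P j) = 0 →
    ∃ c : ℝ, edge K.P i = c • edge K.P j
  line : ∀ i j, det3 e (K.P i - K.P j) (edge K.P j) = 0 →
    ∃ c : ℝ, K.P i - K.P j = c • edge K.P j

/-- An enumeration of the pairs `(i, k)`, `i ∈ ℤ`, `k ≤ u i`, in lexicographic order. -/
structure Enum (n : ℕ) (u : ℤ → ℕ) where
  /-- number of pairs modulo `n` -/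
  N : ℕ
  /-- index of the pair `(i, 0)` -/
  st : ℤ → ℤ
  /-- first component -/
  ix : ℤ → ℤ
  /-- second component -/
  of : ℤ → ℕ
  N_pos : 0 < N
  st_succ : ∀ i, st (i + 1) = st i + u i + 1
  st_per : ∀ i, st (i + n) = st i + N
  ix_per : ∀ j, ix (j + N) = ix j + n
  of_per : ∀ j, of (j + N) = of j
  of_le : ∀ j, of j ≤ u (ix j)
  st_ix : ∀ j, st (ix j) + of j = j
  ix_st : ∀ i k, k ≤ u i → ix (st i + k) = i
  of_st : ∀ i k, k ≤ u i → of (st i + k) = k

/-- The positions of the undercrossings on the edges, in increasing order: the under-crossings of the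
edge `i` are at the positions `s i 1 < … < s i (u i)`, `u i = cnt K e i 1`, with the over edges
`ov i 1, …`; `s i 0 = 0` and `s i (u i + 1) = 1`. -/
structure Pos (K : PolyKnot) (e : E3) where
  /-- positions -/
  s : ℤ → ℕ → ℝ
  /-- over edges -/
  ov : ℤ → ℕ → ℤ
  s_zero : ∀ i, s i 0 = 0
  s_last : ∀ i, s i (cnt K e i 1 + 1) = 1
  s_lt : ∀ i k, k ≤ cnt K e i 1 → s i k < s i (k + 1)
  s_per : ∀ i k, s (i + K.n) k = s i k
  ov_per : ∀ i k, ov (i + K.n) k = ov i k + K.n
  ov_under : ∀ i k, 1 ≤ k → k ≤ cnt K e i 1 → Under K e i (ov i k)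
  ov_pos : ∀ i k, 1 ≤ k → k ≤ cnt K e i 1 → xpos K e i (ov i k) = s i k
  cnt_pos : ∀ i k, 1 ≤ k → k ≤ cnt K e i 1 → cnt K e i (s i k) + 1 = k
  s_under : ∀ i j, Under K e i j → s i (cnt K e i (xpos K e i j) + 1) = xpos K e i j
  ov_unique : ∀ i j, Under K e i j → (K.n : ℤ) ∣ ov i (cnt K e i (xpos K e i j) + 1) - j

section

variable {K : PolyKnot} {e : E3} (E : Enum K.n fun i => cnt K e i 1) (S : Pos K e)

/-- the node `j` -/
noncomputable def qN (j : ℤ) : E3 := K.P (E.ix j) + S.s (E.ix j) (E.of j) • edge K.P (E.ix j)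

/-- the over edge at the under node `j` -/
def ovN (j : ℤ) : ℤ := S.ov (E.ix j) (E.of j)

/-- number of undercrossings on the over edge before the crossing at the under node `j` -/
noncomputable def cN (j : ℤ) : ℕ := cnt K e (ovN E S j) (xpos K e (ovN E S j) (E.ix j))

/-- the over piece at the under node `j` -/
noncomputable def oN (j : ℤ) : ℤ := E.st (ovN E S j) + cN E S j

/-- position on the over piece -/
noncomputable def lamN (j : ℤ) : ℝ :=
  (xpos K e (ovN E S j) (E.ix j) - S.s (ovN E S j) (cN E S j)) /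
    (S.s (ovN E S j) (cN E S j + 1) - S.s (ovN E S j) (cN E S j))

/-- height difference -/
noncomputable def alN (j : ℤ) : ℝ := alt K e (E.ix j) (ovN E S j)

end

end Pool.Agent.helper81.SBX
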