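import Pool.Agent.helper81.SBX.VMark

set_option autoImplicit false

/-!
# VDir: the corner structure; number of caps

PROOFS. `M = mkM hs E S`; `M.d j = (s i (k + 1) - s i k) • E_i` with `i = ix j`, `k = of j` (`dN_eq`), a positive multiple of `E_i` (`sN_lt`).
* `exists_dir`: `Dir.k1 = E.st k1`, `Dir.k0 = E.st k0`. `lt`: `Enum.st_lt`; `lt'`: `st k0 < st (k1 + n) = st k1 + N`. For `st k1 ≤ j < st k0`: `k1 ≤ ix j < k0` (`st_ix`, `st_succ`, `st_lt`, `of_le`), so `E_{ix j}` is a positive multiple of `E_{k1}`, and `d (st k1)` is a positive multiple of `E_{k1}` (`ix_st` with `k = 0`).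
  `d (st k1 - 1)` is a positive multiple of `E_{k1-1}` (`prev_out`: `ix (st k1 - 1) = k1 - 1`), `d (st k0)` of `E_{k0}`. So `e = α' d (k1 - 1) + β' d k1 + γ' d k0` with `α' > 0 > γ'`, and the determinant is a positive multiple of the given one.
* `numCap_le`: let `u` be given, `H = M.ht u`. A node `j` with `0 < of j` is straight, so not a cap. For `of j = 0`, `i = ix j`, `j = st i`: `H (j - 1) < H j` iff `u ⬝ E_{i-1} > 0` (`d (j - 1)` is a positive multiple of `E_{i-1}`) iff `u ⬝ P (i - 1) < u ⬝ P i`; `H (j + 1) < H j` iff `u ⬝ P (i + 1) < u ⬝ P i`. So `j ↦ (ix j mod n)` is an injection from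
  the caps in `[0, N)` to the set of `i < n` counted by `maxima` (injective: `ix j = ix j' + m n` gives `j = st (ix j) = j' + m N`, so `m = 0`). Hence `numCap ≤ maxima ≤ 4` (`Set.ncard`, finite).
-/

namespace Pool.Agent.helper81.SBX

open Module Matrix
open Pool.Agent.helper82.SB (PolyKnot edge maxima)
open Pool.Agent.helper43.SBI (xpos alt Under cnt View IsColoring Full)

variable {K : PolyKnot} {e : E3}

/-- the pieces are positive multiples of the edges -/
theorem vdir_d_mk (hs : SView K e) (E : Enum K.n fun i => cnt K e i 1) (S : Pos K e) (j : ℤ) :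
    ∃ c : ℝ, 0 < c ∧ (mkM hs E S).d j = c • edge K.P (E.ix j) :=
  ⟨_, sub_pos.2 (sN_lt E S j), dN_eq E S j⟩

theorem vdir_ix_st0 {n : ℕ} {u : ℤ → ℕ} (E : Enum n u) (i : ℤ) : E.ix (E.st i) = i := by
  have := E.ix_st i 0 (Nat.zero_le _)
  simpa using this

theorem vdir_of_st0 {n : ℕ} {u : ℤ → ℕ} (E : Enum n u) (i : ℤ) : E.of (E.st i) = 0 := by
  have := E.of_st i 0 (Nat.zero_le _)
  simpa using this

theorem vdir_st_le {n : ℕ} {u : ℤ → ℕ} (E : Enum n u) {i j : ℤ} (h : i ≤ j) : E.st i ≤ E.st j := by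
  rcases eq_or_lt_of_le h with rfl | h
  · exact le_rfl
  · exact (E.st_lt h).le

theorem vdir_st_bounds {n : ℕ} {u : ℤ → ℕ} (E : Enum n u) (j : ℤ) :
    E.st (E.ix j) ≤ j ∧ j < E.st (E.ix j + 1) := by
  have h1 := E.st_ix j
  have h2 := E.of_le j
  have h3 := E.st_succ (E.ix j)
  constructor <;> omega

theorem vdir_det3_smul3 (a b c : E3) (x y z : ℝ) :
    det3 (x • a) (y • b) (z • c) = x * y * z * det3 a b c := by
  simp only [det3, Pi.smul_apply, smul_eq_mul]
  ring

theorem vdir_ht_sub (M : Marked) (u : E3) (j : ℤ) :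
    M.ht u (j + 1) - M.ht u j = u ⬝ᵥ M.d j := by
  simp only [Marked.ht, Marked.d, dotProduct_sub]

theorem vdir_edge_add_mul (K : PolyKnot) (i m : ℤ) : edge K.P (i + m * K.n) = edge K.P i :=
  (show Function.Periodic (edge K.P) (K.n : ℤ) from
    fun i => Pool.Agent.helper82.SB.edge_per K.per i).int_mul m i

theorem exists_dir (hs : SView K e) (E : Enum K.n fun i => cnt K e i 1) (S : Pos K e)
    {k1 k0 : ℤ} (h1 : k1 < k0) (h2 : k0 < k1 + K.n)
    (h3 : ∀ i, k1 ≤ i → i < k0 → ∃ c : ℝ, 0 < c ∧ edge K.P i = c • edge K.P k1)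
    (h4 : det3 (edge K.P (k1 - 1)) (edge K.P k1) (edge K.P k0) ≠ 0) {α β γ : ℝ}
    (he : e = α • edge K.P (k1 - 1) + β • edge K.P k1 + γ • edge K.P k0) (hα : 0 < α)
    (hγ : γ < 0) : Nonempty (mkM hs E S).Dir := by
  obtain ⟨cA, hA, eA⟩ := vdir_d_mk hs E S (E.st k1 - 1)
  obtain ⟨cB, hB, eB⟩ := vdir_d_mk hs E S (E.st k1)
  obtain ⟨cC, hC, eC⟩ := vdir_d_mk hs E S (E.st k0)
  rw [vdir_ix_st0] at eB eC
  rw [(E.prev_out (vdir_of_st0 E k1)).1, vdir_ix_st0] at eA
  refine ⟨⟨E.st k1, E.st k0, α / cA, β / cB, γ / cC, E.st_lt h1, ?_, ?_, ?_, div_pos hα hA,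
    div_neg_of_neg_of_pos hγ hC, ?_⟩⟩
  · have := E.st_lt h2
    rw [E.st_per] at this
    exact this
  · intro j hj1 hj2
    obtain ⟨b1, b2⟩ := vdir_st_bounds E j
    have i1 : k1 ≤ E.ix j := by
      by_contra hc
      have := vdir_st_le E (show E.ix j + 1 ≤ k1 by omega)
      omega
    have i2 : E.ix j < k0 := by
      by_contra hc
      have := vdir_st_le E (show k0 ≤ E.ix j by omega)
      omega
    obtain ⟨c, hc, hce⟩ := h3 _ i1 i2
    obtain ⟨c', hc', hce'⟩ := vdir_d_mk hs E S j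
    refine ⟨c' * c / cB, div_pos (mul_pos hc' hc) hB, ?_⟩
    rw [hce', hce, eB, smul_smul, smul_smul, div_mul_cancel₀ _ hB.ne']
  · change e = _
    rw [eA, eB, eC, smul_smul, smul_smul, smul_smul, div_mul_cancel₀ _ hA.ne',
      div_mul_cancel₀ _ hB.ne', div_mul_cancel₀ _ hC.ne', ← he]
  · rw [eA, eB, eC, vdir_det3_smul3]
    exact mul_ne_zero (mul_pos (mul_pos hA hB) hC).ne' h4

theorem numCap_le (hs : SView K e) (E : Enum K.n fun i => cnt K e i 1) (S : Pos K e)
    (h : ∀ v, maxima K.n K.P v ≤ 4) {D : Type*} [DivisionRing D] (R : RS D)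
    (hR : R.N = (mkM hs E S).N) (u : E3) :
    R.numCap ((mkM hs E S).ht u) ≤ 4 := by
  classical
  refine le_trans ?_ (h u)
  have hn0 : (0 : ℤ) < K.n := by
    have := K.three
    omega
  rw [Pool.Agent.helper82.SB.maxima_eq_ncard]
  have hcap : ∀ j, IsCap ((mkM hs E S).ht u) j → E.of j = 0 ∧
      0 < u ⬝ᵥ edge K.P (E.ix j - 1) ∧ u ⬝ᵥ edge K.P (E.ix j) < 0 := by
    intro j hj
    obtain ⟨c1, hc1, e1⟩ := vdir_d_mk hs E S (j - 1)
    obtain ⟨c2, hc2, e2⟩ := vdir_d_mk hs E S j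
    have s1 : 0 < u ⬝ᵥ (mkM hs E S).d (j - 1) := by
      have := vdir_ht_sub (mkM hs E S) u (j - 1)
      rw [sub_add_cancel] at this
      rw [← this]
      linarith [hj.1]
    have s2 : u ⬝ᵥ (mkM hs E S).d j < 0 := by
      rw [← vdir_ht_sub (mkM hs E S) u j]
      linarith [hj.2]
    rw [e1, dotProduct_smul, smul_eq_mul] at s1
    rw [e2, dotProduct_smul, smul_eq_mul] at s2
    have s1' : 0 < u ⬝ᵥ edge K.P (E.ix (j - 1)) := by
      by_contra hc
      exact absurd s1 (not_lt.2 (mul_nonpos_of_nonneg_of_nonpos hc1.le (not_lt.1 hc)))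
    have s2' : u ⬝ᵥ edge K.P (E.ix j) < 0 := by
      by_contra hc
      exact absurd s2 (not_lt.2 (mul_nonneg hc2.le (not_lt.1 hc)))
    rcases Nat.eq_zero_or_pos (E.of j) with h0 | h0
    · refine ⟨h0, ?_, s2'⟩
      rwa [(E.prev_out h0).1] at s1'
    · rw [(E.prev_in h0).1] at s1'
      exact absurd s1' (lt_asymm s2')
  unfold RS.numCap
  rw [← Set.ncard_coe_finset]
  refine Set.ncard_le_ncard_of_injOn (fun j => (E.ix j % K.n).toNat) ?_ ?_
    ((Set.finite_lt_nat K.n).subset fun i hi => hi.1)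
  · intro j hj
    obtain ⟨-, hj⟩ := Finset.mem_filter.1 (Finset.mem_coe.1 hj)
    obtain ⟨-, p1, p2⟩ := hcap j hj
    have q1 := Int.emod_nonneg (E.ix j) hn0.ne'
    have q2 := Int.emod_lt_of_pos (E.ix j) hn0
    have q3 : (((E.ix j % K.n).toNat : ℕ) : ℤ) = E.ix j + (-(E.ix j / K.n)) * K.n := by
      rw [Int.toNat_of_nonneg q1]
      have := Int.emod_add_mul_ediv (E.ix j) K.n
      linarith
    refine ⟨by omega, ?_, ?_⟩
    · rw [q3, show E.ix j + (-(E.ix j / K.n)) * K.n - 1 =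
        (E.ix j - 1) + (-(E.ix j / K.n)) * K.n by ring, vdir_edge_add_mul]
      exact p1
    · rw [q3, vdir_edge_add_mul]
      exact p2
  · intro j hj j' hj' hjj
    obtain ⟨r1, hj⟩ := Finset.mem_filter.1 (Finset.mem_coe.1 hj)
    obtain ⟨r1', hj'⟩ := Finset.mem_filter.1 (Finset.mem_coe.1 hj')
    rw [hR, Finset.mem_Ico] at r1 r1'
    obtain ⟨o1, -, -⟩ := hcap j hj
    obtain ⟨o2, -, -⟩ := hcap j' hj'
    have q1 := Int.emod_nonneg (E.ix j) hn0.ne'
    have q1' := Int.emod_nonneg (E.ix j') hn0.ne'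
    have q2 : E.ix j % K.n = E.ix j' % K.n := by
      have : (E.ix j % K.n).toNat = (E.ix j' % K.n).toNat := hjj
      omega
    have q3 : E.ix j = E.ix j' + (E.ix j / K.n - E.ix j' / K.n) * K.n := by
      have a1 := Int.emod_add_mul_ediv (E.ix j) K.n
      have a2 := Int.emod_add_mul_ediv (E.ix j') K.n
      linarith
    generalize E.ix j / K.n - E.ix j' / K.n = m at q3
    have t1 := E.st_ix j
    have t2 := E.st_ix j'
    rw [o1] at t1
    rw [o2] at t2
    have t3 := E.st_per_mul (E.ix j') m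
    rw [← q3] at t3
    have t4 : j = j' + m * E.N := by
      push_cast at t1 t2
      linarith
    have hNN : ((mkM hs E S).N : ℤ) = E.N := rfl
    rw [hNN] at r1 r1'
    have hN0 : (0 : ℤ) < E.N := by exact_mod_cast E.N_pos
    have m1 : m < 1 := by
      by_contra hm
      have : (1 : ℤ) * E.N ≤ m * E.N := mul_le_mul_of_nonneg_right (not_lt.1 hm) hN0.le
      omega
    have m2 : -1 < m := by
      by_contra hm
      have : m * (E.N : ℤ) ≤ (-1) * E.N := mul_le_mul_of_nonneg_right (not_lt.1 hm) hN0.le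
      omega
    have m0 : m = 0 := by omega
    rw [t4, m0]
    ring

end Pool.Agent.helper81.SBX
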