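import Pool.Agent.helper81.SBX.VDefs

set_option autoImplicit false

/-!
# VEnum: existence of the enumeration

PROOF. `N = ∑ i ∈ range n, (u i + 1)`, `st i = (i / n) * N + ∑ l ∈ range (i % n), (u l + 1)` (integer division; for `i = n * a + r`). `st (i + 1) = st i + u i + 1` (two cases: `r + 1 < n`, `r + 1 = n`), so `st` is strictly increasing, unbounded in both
directions. For `j` let `ix j` be the largest `i` with `st i ≤ j` (unique `i` with `st i ≤ j < st (i + 1)`), `of j = (j - st (ix j)).toNat`. The periodicity of `ix` follows from uniqueness.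
(Another way: induction; or `ix j` by `Int` choice: `Int.exists_greatest_of_bdd`.)
`next_in`, `next_out`: by `st_ix`, `ix_st`, `of_st`, `st_succ`.
-/

namespace Pool.Agent.helper81.SBX

/-- the partial sums of `u + 1` -/
noncomputable def enumSt (u : ℤ → ℕ) (i : ℤ) : ℤ :=
  ∑ l ∈ Finset.Ico 0 i, ((u l : ℤ) + 1) - ∑ l ∈ Finset.Ico i 0, ((u l : ℤ) + 1)

theorem enumSt_succ (u : ℤ → ℕ) (i : ℤ) : enumSt u (i + 1) = enumSt u i + u i + 1 := by
  unfold enumSt
  rcases le_or_gt 0 i with hi | hi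
  · have h1 : Finset.Ico 0 (i + 1) = insert i (Finset.Ico 0 i) := by
      ext x
      simp only [Finset.mem_Ico, Finset.mem_insert]
      omega
    have h2 : Finset.Ico (i + 1) 0 = ∅ := Finset.Ico_eq_empty (by omega)
    have h3 : Finset.Ico i 0 = ∅ := Finset.Ico_eq_empty (by omega)
    rw [h1, h2, h3, Finset.sum_insert (by simp), Finset.sum_empty]
    ring
  · have h1 : Finset.Ico i 0 = insert i (Finset.Ico (i + 1) 0) := by
      ext x
      simp only [Finset.mem_Ico, Finset.mem_insert]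
      omega
    have h2 : Finset.Ico 0 (i + 1) = ∅ := Finset.Ico_eq_empty (by omega)
    have h3 : Finset.Ico 0 i = ∅ := Finset.Ico_eq_empty (by omega)
    rw [h1, h2, h3, Finset.sum_insert (by simp), Finset.sum_empty]
    ring

theorem enumSt_zero (u : ℤ → ℕ) : enumSt u 0 = 0 := by
  unfold enumSt
  simp

theorem enumSt_mono (u : ℤ → ℕ) : StrictMono (enumSt u) := by
  apply strictMono_int_of_lt_succ
  intro i
  rw [enumSt_succ]
  have : (0 : ℤ) ≤ u i := Int.natCast_nonneg _
  linarith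

theorem enumSt_sub_mono (u : ℤ → ℕ) : Monotone fun i => enumSt u i - i := by
  apply monotone_int_of_le_succ
  intro i
  simp only [enumSt_succ]
  have : (0 : ℤ) ≤ u i := Int.natCast_nonneg _
  linarith

theorem enumSt_per {n : ℕ} {u : ℤ → ℕ} (hu : ∀ i, u (i + n) = u i) (i : ℤ) :
    enumSt u (i + n) = enumSt u i + enumSt u n := by
  induction i using Int.induction_on with
  | zero => rw [zero_add, enumSt_zero, zero_add]
  | succ i ih =>
    have e1 : (i : ℤ) + 1 + n = (i + n) + 1 := by ring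
    rw [e1, enumSt_succ, enumSt_succ, ih, hu]
    ring
  | pred i ih =>
    have h1 := enumSt_succ u (-(i : ℤ) - 1)
    have h2 := enumSt_succ u (-(i : ℤ) - 1 + n)
    have e1 : -(i : ℤ) - 1 + 1 = -i := by ring
    have e2 : -(i : ℤ) - 1 + n + 1 = -i + n := by ring
    rw [e1] at h1
    rw [e2, hu] at h2
    linarith

theorem enumSt_exists (u : ℤ → ℕ) (j : ℤ) : ∃ i, enumSt u i ≤ j ∧ j < enumSt u (i + 1) := by
  have h0 := enumSt_zero u
  obtain ⟨i, h1, h2⟩ := Int.exists_greatest_of_bdd (P := fun i => enumSt u i ≤ j) (by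
    refine ⟨max j 0, fun z hz => ?_⟩
    rcases le_total z 0 with h | h
    · exact h.trans (le_max_right _ _)
    · have := enumSt_sub_mono u h
      simp only [h0] at this
      exact le_trans (by linarith) (le_max_left _ _)) (by
    refine ⟨min j 0, ?_⟩
    have := enumSt_sub_mono u (min_le_right j 0)
    simp only [h0] at this
    have h3 := min_le_left j 0
    linarith)
  refine ⟨i, h1, ?_⟩
  by_contra hcon
  rw [not_lt] at hcon
  have := h2 (i + 1) hcon
  omega

theorem enumSt_unique (u : ℤ → ℕ) {i i' j : ℤ} (h1 : enumSt u i ≤ j) (h2 : j < enumSt u (i + 1))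
    (h3 : enumSt u i' ≤ j) (h4 : j < enumSt u (i' + 1)) : i = i' := by
  have h5 := (enumSt_mono u).lt_iff_lt.1 (h1.trans_lt h4)
  have h6 := (enumSt_mono u).lt_iff_lt.1 (h3.trans_lt h2)
  omega

theorem exists_enum {n : ℕ} (hn : 0 < n) (u : ℤ → ℕ) (hu : ∀ i, u (i + n) = u i) :
    Nonempty (Enum n u) := by
  have hpos : 0 < enumSt u n := by
    rw [← enumSt_zero u]
    apply enumSt_mono u
    exact_mod_cast hn
  have hN : ((enumSt u n).toNat : ℤ) = enumSt u n := Int.toNat_of_nonneg hpos.le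
  choose ix h1 h2 using enumSt_exists u
  have hk : ∀ i (k : ℕ), k ≤ u i → ix (enumSt u i + k) = i := by
    intro i k hk
    apply enumSt_unique u (h1 _) (h2 _)
    · have : (0 : ℤ) ≤ k := Int.natCast_nonneg _
      linarith
    · rw [enumSt_succ]
      have : (k : ℤ) ≤ u i := by exact_mod_cast hk
      linarith
  have hper : ∀ j, ix (j + (enumSt u n).toNat) = ix j + n := by
    intro j
    rw [hN]
    apply enumSt_unique u (h1 _) (h2 _)
    · rw [enumSt_per hu]
      linarith [h1 j]
    · have e1 : ix j + n + 1 = ix j + 1 + n := by ring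
      rw [e1, enumSt_per hu]
      linarith [h2 j]
  refine ⟨{
    N := (enumSt u n).toNat
    st := enumSt u
    ix := ix
    of := fun j => (j - enumSt u (ix j)).toNat
    N_pos := by omega
    st_succ := enumSt_succ u
    st_per := fun i => by rw [hN]; exact enumSt_per hu i
    ix_per := hper
    of_per := ?_
    of_le := ?_
    st_ix := ?_
    ix_st := hk
    of_st := ?_ }⟩
  · intro j
    rw [hper, enumSt_per hu, hN]
    congr 1
    ring
  · intro j
    have := h2 j
    rw [enumSt_succ] at this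
    omega
  · intro j
    have := h1 j
    rw [Int.toNat_of_nonneg (by linarith)]
    ring
  · intro i k hki
    rw [hk i k hki]
    omega

theorem Enum.next_in {n : ℕ} {u : ℤ → ℕ} (E : Enum n u) {j : ℤ} (h : E.of j < u (E.ix j)) :
    E.ix (j + 1) = E.ix j ∧ E.of (j + 1) = E.of j + 1 := by
  have h1 := E.st_ix j
  have e1 : j + 1 = E.st (E.ix j) + ((E.of j + 1 : ℕ) : ℤ) := by
    push_cast
    linarith
  refine ⟨?_, ?_⟩
  · conv_lhs => rw [e1]
    exact E.ix_st _ _ h
  · conv_lhs => rw [e1]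
    exact E.of_st _ _ h

theorem Enum.next_out {n : ℕ} {u : ℤ → ℕ} (E : Enum n u) {j : ℤ} (h : E.of j = u (E.ix j)) :
    E.ix (j + 1) = E.ix j + 1 ∧ E.of (j + 1) = 0 := by
  have h1 := E.st_ix j
  have h2 := E.st_succ (E.ix j)
  rw [← h] at h2
  have e1 : j + 1 = E.st (E.ix j + 1) + ((0 : ℕ) : ℤ) := by
    push_cast
    linarith
  refine ⟨?_, ?_⟩
  · conv_lhs => rw [e1]
    exact E.ix_st _ _ (Nat.zero_le _)
  · conv_lhs => rw [e1]
    exact E.of_st _ _ (Nat.zero_le _)

theorem Enum.prev_in {n : ℕ} {u : ℤ → ℕ} (E : Enum n u) {j : ℤ} (h : 0 < E.of j) :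
    E.ix (j - 1) = E.ix j ∧ E.of (j - 1) + 1 = E.of j := by
  have h1 := E.st_ix j
  have h3 := E.of_le j
  have e1 : j - 1 = E.st (E.ix j) + ((E.of j - 1 : ℕ) : ℤ) := by
    omega
  refine ⟨?_, ?_⟩
  · conv_lhs => rw [e1]
    exact E.ix_st _ _ (by omega)
  · have : E.of (j - 1) = E.of j - 1 := by
      conv_lhs => rw [e1]
      exact E.of_st _ _ (by omega)
    omega

theorem Enum.prev_out {n : ℕ} {u : ℤ → ℕ} (E : Enum n u) {j : ℤ} (h : E.of j = 0) :
    E.ix (j - 1) = E.ix j - 1 ∧ E.of (j - 1) = u (E.ix j - 1) := by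
  have h1 := E.st_ix j
  have h2 := E.st_succ (E.ix j - 1)
  rw [sub_add_cancel] at h2
  have e1 : j - 1 = E.st (E.ix j - 1) + ((u (E.ix j - 1) : ℕ) : ℤ) := by
    omega
  refine ⟨?_, ?_⟩
  · conv_lhs => rw [e1]
    exact E.ix_st _ _ le_rfl
  · conv_lhs => rw [e1]
    exact E.of_st _ _ le_rfl

theorem Enum.st_per_mul {n : ℕ} {u : ℤ → ℕ} (E : Enum n u) (i m : ℤ) :
    E.st (i + m * n) = E.st i + m * E.N := by
  induction m using Int.induction_on with
  | zero => simp
  | succ m ih =>
    have e1 : i + ((m : ℤ) + 1) * n = i + m * n + n := by ring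
    rw [e1, E.st_per, ih]
    ring
  | pred m ih =>
    have h1 := E.st_per (i + (-(m : ℤ) - 1) * n)
    have e1 : i + (-(m : ℤ) - 1) * n + n = i + -(m : ℤ) * n := by ring
    rw [e1, ih] at h1
    linarith

theorem Enum.per_mul {n : ℕ} {u : ℤ → ℕ} (E : Enum n u) (j m : ℤ) :
    E.ix (j + m * E.N) = E.ix j + m * n ∧ E.of (j + m * E.N) = E.of j := by
  induction m using Int.induction_on with
  | zero => simp
  | succ m ih =>
    have e1 : j + ((m : ℤ) + 1) * E.N = j + m * E.N + E.N := by ring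
    rw [e1, E.ix_per, E.of_per, ih.1, ih.2]
    refine ⟨by ring, rfl⟩
  | pred m ih =>
    have h1 := E.ix_per (j + (-(m : ℤ) - 1) * E.N)
    have h2 := E.of_per (j + (-(m : ℤ) - 1) * E.N)
    have e1 : j + (-(m : ℤ) - 1) * E.N + E.N = j + -(m : ℤ) * E.N := by ring
    rw [e1, ih.1] at h1
    rw [e1, ih.2] at h2
    refine ⟨by linarith, h2.symm⟩

theorem Enum.inj {n : ℕ} {u : ℤ → ℕ} (E : Enum n u) {i j : ℤ} (h : E.ix i = E.ix j)
    (h' : E.of i = E.of j) : i = j := by
  rw [← E.st_ix i, ← E.st_ix j, h, h']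

theorem Enum.st_lt {n : ℕ} {u : ℤ → ℕ} (E : Enum n u) {i j : ℤ} (h : i < j) :
    E.st i < E.st j := by
  have : StrictMono E.st := by
    apply strictMono_int_of_lt_succ
    intro i
    rw [E.st_succ]
    have : (0 : ℤ) ≤ u i := Int.natCast_nonneg _
    linarith
  exact this h

end Pool.Agent.helper81.SBX
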