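import Pool.Agent.helper81.SBX.VCnt

set_option autoImplicit false

/-!
# VPlane: a polygon with a full colouring is not planar; three consecutive independent edges

PROOFS.
* `nonplanar`: suppose `v ≠ 0` and `v ⬝ P i = v ⬝ P j` for all `i, j`. Then all `P j - P i` and `E_i` are orthogonal to `v`, `det3 (P j - P i) E_i E_j = 0`, `alt K e i j = 0`, so there is no `Under i j`; `cnt = 0`, `T (i + 1) 0 = T i 0` (`IsColoring.vertex`), so `T i 0 = T 0 0 =` class of a root `X` for all `i`.
  `W = span {X}` is proper (`finrank ≤ 1 < 3`); `Full` for `W` gives `i`, `k ≤ 0` with `T i k` not in the set; contradiction.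
* `exists_tri`: consecutive edges are linearly independent or positively parallel (`PolyKnot.corner`: `- E_i` and `E_{i+1}` are not on the same ray). There is `k` with `E_{k-1}`, `E_k` linearly independent; otherwise all edges are positive multiples of `E_0`, but their sum over a period is `0`.
  Let `v = E_{k-1} × E_k ≠ 0`. Not all edges are orthogonal to `v` (otherwise `v ⬝ P` is constant); by periodicity there is a least `m > k` with `v ⬝ E_m ≠ 0`; the edges `k - 1, …, m - 1` are orthogonal to `v`. Let `k1 ≥ k` be the least index such that `E_{k1}, …, E_{m-1}` are all positive multiples of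
  `E_{m-1}`. Then `E_{k1-1}`, `E_{k1}` are linearly independent: for `k1 = k` by the choice of `k`; for `k1 > k` because otherwise they are positively parallel and `k1 - 1` could be added. Both are orthogonal to `v`, so `E_{k1-1} × E_{k1}` is a nonzero multiple of `v` and `det3 E_{k1-1} E_{k1} E_m ≠ 0`. `k0 = m`.
  `m < k1 + n`: otherwise `k1 - 1 + n ∈ [k1, m - 1]` and `E_{k1-1} = E_{k1-1+n}` is a positive multiple of `E_{k1}`.
-/

namespace Pool.Agent.helper81.SBX

open Module Matrix
open Pool.Agent.helper82.SB (PolyKnot edge)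
open Pool.Agent.helper43.SBI (xpos alt Under cnt View IsColoring Full)

variable {D V : Type} [DivisionRing D] [StarRing D] [AddCommGroup V] [Module D V]
variable {Hm : Herm D V} {t : D} (ht : Six D t) (Λ : Lat Hm t) {K : PolyKnot} {e : E3}

/-- three vectors orthogonal to a nonzero vector are dependent -/
theorem vp_det_orth {v a b c : E3} (hv : v ≠ 0) (ha : v ⬝ᵥ a = 0) (hb : v ⬝ᵥ b = 0)
    (hc : v ⬝ᵥ c = 0) : det3 a b c = 0 := by
  obtain ⟨k, hk⟩ : ∃ k, v k ≠ 0 := by
    by_contra h
    push Not at h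
    exact hv (funext h)
  simp only [dotProduct, Fin.sum_univ_three] at ha hb hc
  have key : v k * det3 a b c = 0 := by
    unfold det3
    fin_cases k
    · simp only [Fin.zero_eta, Fin.isValue]
      linear_combination (b 1 * c 2 - b 2 * c 1) * ha + (c 1 * a 2 - c 2 * a 1) * hb +
        (a 1 * b 2 - a 2 * b 1) * hc
    · simp only [Fin.mk_one, Fin.isValue]
      linear_combination (b 2 * c 0 - b 0 * c 2) * ha + (c 2 * a 0 - c 0 * a 2) * hb +
        (a 2 * b 0 - a 0 * b 2) * hc
    · simp only [Fin.reduceFinMk, Fin.isValue]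
      linear_combination (b 0 * c 1 - b 1 * c 0) * ha + (c 0 * a 1 - c 1 * a 0) * hb +
        (a 0 * b 1 - a 1 * b 0) * hc
  exact (mul_eq_zero.mp key).resolve_left hk

/-- vanishing vector product -/
theorem vp_smul_of_cross {a b : E3} (ha : a ≠ 0) (h : cross3 a b = 0) : ∃ c : ℝ, b = c • a := by
  have h0 : 0 < a ⬝ᵥ a := by
    have hnn : 0 ≤ a ⬝ᵥ a := Finset.sum_nonneg fun i _ => mul_self_nonneg (a i)
    rcases lt_or_eq_of_le hnn with h | h
    · exact h
    · exact absurd (dotProduct_self_eq_zero.mp h.symm) ha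
  have e0 := congrFun h 0
  have e1 := congrFun h 1
  have e2 := congrFun h 2
  simp only [cross3, Fin.isValue, Matrix.cons_val_zero, Matrix.cons_val_one, Matrix.cons_val,
    Pi.zero_apply] at e0 e1 e2
  refine ⟨(a ⬝ᵥ b) / (a ⬝ᵥ a), ?_⟩
  have hne := h0.ne'
  simp only [dotProduct, Fin.sum_univ_three] at hne ⊢
  funext k
  simp only [Pi.smul_apply, smul_eq_mul]
  rw [div_mul_eq_mul_div, eq_div_iff hne]
  fin_cases k
  · simp only [Fin.zero_eta, Fin.isValue]
    linear_combination a 2 * e1 - a 1 * e2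
  · simp only [Fin.mk_one, Fin.isValue]
    linear_combination a 0 * e2 - a 2 * e0
  · simp only [Fin.reduceFinMk, Fin.isValue]
    linear_combination a 1 * e0 - a 0 * e1

theorem vp_cross_smul (a : E3) (c : ℝ) : cross3 a (c • a) = 0 := by
  funext k
  fin_cases k <;> simp [cross3] <;> ring

theorem vp_cross_smul' (a : E3) (c : ℝ) : cross3 (c • a) a = 0 := by
  funext k
  fin_cases k <;> simp [cross3] <;> ring

theorem nonplanar (hV : finrank D V = 3) {T : ℤ → ℕ → RY ht Λ}
    (hT : IsColoring (rootAQ ht Λ) K e T) (hF : Full (rootFam ht Λ) K e T) (v : E3) (hv : v ≠ 0) :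
    ∃ i j, v ⬝ᵥ K.P i ≠ v ⬝ᵥ K.P j := by
  classical
  by_contra hcon
  push Not at hcon
  have hedge : ∀ i, v ⬝ᵥ edge K.P i = 0 := by
    intro i
    unfold edge
    rw [dotProduct_sub, hcon (i + 1) i, sub_self]
  have hdiff : ∀ i j, v ⬝ᵥ (K.P j - K.P i) = 0 := by
    intro i j
    rw [dotProduct_sub, hcon j i, sub_self]
  have halt : ∀ i j, alt K e i j = 0 := by
    intro i j
    unfold Pool.Agent.helper43.SBI.alt
    rw [det3_eq, vp_det_orth hv (hdiff i j) (hedge i) (hedge j), zero_div]
  have hund : ∀ i j, ¬ Under K e i j := by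
    rintro i j ⟨_, _, _, h⟩
    rw [halt] at h
    exact lt_irrefl _ h
  have hcnt : ∀ i x, cnt K e i x = 0 := by
    intro i x
    unfold Pool.Agent.helper43.SBI.cnt
    rw [Finset.card_eq_zero, Finset.filter_eq_empty_iff]
    intro l _ h
    exact hund _ _ h.1
  have hstep : ∀ i, T (i + 1) 0 = T i 0 := by
    intro i
    rw [hT.vertex i, hcnt]
  have hall : ∀ i : ℤ, T i 0 = T 0 0 := by
    intro i
    induction i using Int.induction_on with
    | zero => rfl
    | succ i ih => rw [hstep, ih]
    | pred i ih =>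
      rw [← ih, ← hstep (-(i : ℤ) - 1)]
      congr 1
      ring
  obtain ⟨X, hX⟩ : ∃ X : Root Λ, Quotient.mk (rootSetoid ht Λ) X = T 0 0 :=
    Quotient.exists_rep (s := rootSetoid ht Λ) (T 0 0)
  have hX0 : X.1 ≠ 0 := by
    intro h0
    have h1 := X.2.2
    rw [h0, Hm.zero_left] at h1
    exact zero_ne_one h1
  have hW : Submodule.span D {X.1} ≠ ⊤ := by
    intro htop
    have h1 := finrank_span_singleton (K := D) hX0
    rw [htop, finrank_top, hV] at h1
    omega
  obtain ⟨i, k, hk, hn⟩ := hF _ ⟨Submodule.span D {X.1}, hW, rfl⟩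
  rw [hcnt] at hk
  obtain rfl : k = 0 := by omega
  apply hn
  exact ⟨X, Submodule.mem_span_singleton_self _, by rw [hall i, hX]⟩

/-- consecutive edges are independent or positively parallel -/
theorem vp_corner (K : PolyKnot) (i : ℤ) :
    cross3 (edge K.P i) (edge K.P (i + 1)) ≠ 0 ∨
      ∃ c : ℝ, 0 < c ∧ edge K.P (i + 1) = c • edge K.P i := by
  by_cases h : cross3 (edge K.P i) (edge K.P (i + 1)) = 0
  · right
    obtain ⟨c, hc⟩ := vp_smul_of_cross (Pool.Agent.helper82.SB.edge_ne_zero K i) h
    refine ⟨c, ?_, hc⟩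
    by_contra hneg
    push Not at hneg
    have hcor := K.corner (i + 1)
    rw [show i + 1 - 1 = i by ring] at hcor
    apply hcor
    have e1 : K.P i - K.P (i + 1) = - edge K.P i := by unfold edge; abel
    have e2 : K.P (i + 1 + 1) - K.P (i + 1) = (-c) • (- edge K.P i) := by
      change edge K.P (i + 1) = _
      rw [hc, smul_neg, neg_smul, neg_neg]
    rw [e1, e2]
    exact SameRay.sameRay_nonneg_smul_right _ (by linarith)
  · left
    exact h

/-- some corner is not straight -/
theorem vp_exists_corner (K : PolyKnot) :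
    ∃ k : ℤ, cross3 (edge K.P (k - 1)) (edge K.P k) ≠ 0 := by
  by_contra hcon
  push Not at hcon
  have hpos : ∀ i : ℤ, ∃ c : ℝ, 0 < c ∧ edge K.P (i + 1) = c • edge K.P i := by
    intro i
    rcases vp_corner K i with h | h
    · have := hcon (i + 1)
      rw [show i + 1 - 1 = i by ring] at this
      exact absurd this h
    · exact h
  have hm : ∀ m : ℕ, ∃ c : ℝ, 0 < c ∧ edge K.P (m : ℤ) = c • edge K.P 0 := by
    intro m
    induction m with
    | zero => exact ⟨1, one_pos, by simp⟩
    | succ m ih =>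
      obtain ⟨c, hc, h1⟩ := ih
      obtain ⟨c', hc', h2⟩ := hpos m
      refine ⟨c' * c, mul_pos hc' hc, ?_⟩
      push_cast
      rw [h2, h1, smul_smul]
  choose c hc he using hm
  have hsum : ∑ m ∈ Finset.range K.n, edge K.P (m : ℤ) = 0 := by
    have : ∀ N : ℕ, ∑ m ∈ Finset.range N, edge K.P (m : ℤ) = K.P (N : ℤ) - K.P 0 := by
      intro N
      induction N with
      | zero => simp
      | succ N ih =>
        rw [Finset.sum_range_succ, ih]
        unfold edge
        push_cast
        abel
    rw [this]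
    have := K.per 0
    rw [zero_add] at this
    rw [this, sub_self]
  have h1 : (∑ m ∈ Finset.range K.n, c m) • edge K.P 0 = 0 := by
    rw [Finset.sum_smul, ← hsum]
    exact Finset.sum_congr rfl fun m _ => (he m).symm
  rcases smul_eq_zero.mp h1 with h2 | h2
  · have h3 : 0 < ∑ m ∈ Finset.range K.n, c m :=
      Finset.sum_pos (fun m _ => hc m) ⟨0, Finset.mem_range.mpr (by have := K.three; omega)⟩
    exact h3.ne' h2
  · exact Pool.Agent.helper82.SB.edge_ne_zero K 0 h2

theorem vp_cross_dot_left (a b : E3) : cross3 a b ⬝ᵥ a = 0 := by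
  simp only [cross3, dotProduct, Fin.sum_univ_three, Fin.isValue, Matrix.cons_val_zero,
    Matrix.cons_val_one, Matrix.cons_val]
  ring

theorem vp_cross_dot_right (a b : E3) : cross3 a b ⬝ᵥ b = 0 := by
  simp only [cross3, dotProduct, Fin.sum_univ_three, Fin.isValue, Matrix.cons_val_zero,
    Matrix.cons_val_one, Matrix.cons_val]
  ring

theorem vp_det_cross (a b c : E3) : det3 a b c = cross3 a b ⬝ᵥ c := by
  simp only [det3, cross3, dotProduct, Fin.sum_univ_three, Fin.isValue, Matrix.cons_val_zero,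
    Matrix.cons_val_one, Matrix.cons_val]
  ring

theorem vp_triple_cross {v b c : E3} (hb : v ⬝ᵥ b = 0) (hc : v ⬝ᵥ c = 0) :
    cross3 v (cross3 b c) = 0 := by
  simp only [dotProduct, Fin.sum_univ_three] at hb hc
  funext k
  fin_cases k
  · simp only [cross3, Fin.zero_eta, Fin.isValue, Matrix.cons_val_zero, Matrix.cons_val_one,
      Matrix.cons_val, Pi.zero_apply]
    linear_combination b 0 * hc - c 0 * hb
  · simp only [cross3, Fin.mk_one, Fin.isValue, Matrix.cons_val_zero, Matrix.cons_val_one,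
      Matrix.cons_val, Pi.zero_apply]
    linear_combination b 1 * hc - c 1 * hb
  · simp only [cross3, Fin.reduceFinMk, Fin.isValue, Matrix.cons_val_zero, Matrix.cons_val_one,
      Matrix.cons_val, Pi.zero_apply]
    linear_combination b 2 * hc - c 2 * hb

/-- three consecutive straight segments spanning the space -/
theorem exists_tri (K : PolyKnot) (h : ∀ v : E3, v ≠ 0 → ∃ i j, v ⬝ᵥ K.P i ≠ v ⬝ᵥ K.P j) :
    ∃ k1 k0 : ℤ, k1 < k0 ∧ k0 < k1 + K.n ∧
      (∀ i, k1 ≤ i → i < k0 → ∃ c : ℝ, 0 < c ∧ edge K.P i = c • edge K.P k1) ∧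
      det3 (edge K.P (k1 - 1)) (edge K.P k1) (edge K.P k0) ≠ 0 := by
  classical
  have hn3 := K.three
  obtain ⟨k, hk⟩ := vp_exists_corner K
  set v : E3 := cross3 (edge K.P (k - 1)) (edge K.P k) with hvdef
  -- some later edge is not orthogonal to `v`
  have hper : ∀ (t : ℕ) (i : ℤ), edge K.P (i + t * K.n) = edge K.P i := by
    intro t
    induction t with
    | zero => intro i; simp
    | succ t ih =>
      intro i
      rw [show i + ((t + 1 : ℕ) : ℤ) * K.n = (i + t * K.n) + K.n by push_cast; ring,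
        Pool.Agent.helper82.SB.edge_per K.per, ih]
  have hex : ∃ m : ℕ, v ⬝ᵥ edge K.P (k + m) ≠ 0 := by
    by_contra hcon
    push Not at hcon
    have hall : ∀ i : ℤ, v ⬝ᵥ edge K.P i = 0 := by
      intro i
      -- shift `i` beyond `k`
      have h1 : k ≤ i + ((k - i).toNat : ℕ) * (K.n : ℤ) := by
        have h2 : k - i ≤ ((k - i).toNat : ℤ) := Int.self_le_toNat _
        have h3 : ((k - i).toNat : ℤ) ≤ ((k - i).toNat : ℤ) * K.n := by
          have : (1 : ℤ) ≤ K.n := by omega
          nlinarith [Int.natCast_nonneg (k - i).toNat]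
        linarith
      rw [← hper (k - i).toNat i]
      obtain ⟨m, hm⟩ := Int.eq_ofNat_of_zero_le (sub_nonneg.mpr h1)
      rw [show i + ((k - i).toNat : ℤ) * (K.n : ℤ) = k + m by linarith]
      exact hcon m
    obtain ⟨i, j, hij⟩ := h v hk
    apply hij
    have hstep : ∀ i : ℤ, v ⬝ᵥ K.P (i + 1) = v ⬝ᵥ K.P i := by
      intro i
      have := hall i
      unfold edge at this
      rw [dotProduct_sub] at this
      linarith
    have hconst : ∀ i : ℤ, v ⬝ᵥ K.P i = v ⬝ᵥ K.P 0 := by
      intro i
      induction i using Int.induction_on with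
      | zero => rfl
      | succ i ih => rw [hstep, ih]
      | pred i ih =>
        rw [← ih, ← hstep (-(i : ℤ) - 1)]
        congr 2
        ring
    rw [hconst i, hconst j]
  set m := Nat.find hex with hmdef
  have hm1 : v ⬝ᵥ edge K.P (k + m) ≠ 0 := Nat.find_spec hex
  have hm2 : ∀ l : ℕ, l < m → v ⬝ᵥ edge K.P (k + l) = 0 := by
    intro l hl
    have := Nat.find_min hex hl
    push Not at this
    exact this
  have hm0 : 0 < m := by
    rcases Nat.eq_zero_or_pos m with h0 | h0
    · exfalso
      rw [h0] at hm1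
      apply hm1
      simp only [Nat.cast_zero, add_zero]
      exact vp_cross_dot_right _ _
    · exact h0
  -- orthogonality for the indices in `[k - 1, k + m)`
  have horth : ∀ i : ℤ, k - 1 ≤ i → i < k + m → v ⬝ᵥ edge K.P i = 0 := by
    intro i h1 h2
    rcases lt_or_ge i k with h3 | h3
    · obtain rfl : i = k - 1 := by omega
      exact vp_cross_dot_left _ _
    · obtain ⟨l, hl⟩ := Int.eq_ofNat_of_zero_le (sub_nonneg.mpr h3)
      rw [show i = k + l by linarith]
      exact hm2 l (by omega)
  set a : ℤ := k + m with hadef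
  have hex2 : ∃ t : ℕ, ∀ i, k + t ≤ i → i < a → ∃ c : ℝ, 0 < c ∧
      edge K.P i = c • edge K.P (a - 1) := by
    refine ⟨m - 1, fun i h1 h2 => ⟨1, one_pos, ?_⟩⟩
    rw [one_smul]
    congr 1
    omega
  set t := Nat.find hex2 with htdef
  have ht1 : ∀ i, k + t ≤ i → i < a → ∃ c : ℝ, 0 < c ∧
      edge K.P i = c • edge K.P (a - 1) := Nat.find_spec hex2
  have ht2 : t ≤ m - 1 := by
    apply Nat.find_min' hex2
    intro i h1 h2
    refine ⟨1, one_pos, ?_⟩
    rw [one_smul]
    congr 1
    omega
  set k1 : ℤ := k + t with hk1def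
  have hk1a : k1 < a := by omega
  have hcross : cross3 (edge K.P (k1 - 1)) (edge K.P k1) ≠ 0 := by
    rcases Nat.eq_zero_or_pos t with h0 | h0
    · rw [hk1def, h0]
      simpa using hk
    · rcases vp_corner K (k1 - 1) with h1 | ⟨c, hc, h1⟩
      · rw [show k1 - 1 + 1 = k1 by ring] at h1
        exact h1
      · exfalso
        rw [show k1 - 1 + 1 = k1 by ring] at h1
        have hmin := Nat.find_min hex2 (show t - 1 < t by omega)
        apply hmin
        intro i h2 h3
        rcases lt_or_ge i k1 with h4 | h4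
        · obtain rfl : i = k1 - 1 := by omega
          obtain ⟨c', hc', h5⟩ := ht1 k1 le_rfl hk1a
          refine ⟨c⁻¹ * c', by positivity, ?_⟩
          rw [mul_smul, ← h5, h1, smul_smul, inv_mul_cancel₀ hc.ne', one_smul]
        · exact ht1 i h4 h3
  refine ⟨k1, a, hk1a, ?_, ?_, ?_⟩
  · by_contra hcon
    push Not at hcon
    have hi1 : k1 ≤ k1 - 1 + K.n := by omega
    have hi2 : k1 - 1 + K.n < a := by omega
    obtain ⟨c, hc, h1⟩ := ht1 (k1 - 1 + K.n) hi1 hi2
    obtain ⟨c', hc', h2⟩ := ht1 k1 le_rfl hk1a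
    rw [Pool.Agent.helper82.SB.edge_per K.per] at h1
    apply hcross
    have h3 : edge K.P (k1 - 1) = (c * c'⁻¹) • edge K.P k1 := by
      rw [h2, smul_smul, mul_assoc, inv_mul_cancel₀ hc'.ne', mul_one, h1]
    rw [h3]
    exact vp_cross_smul' _ _
  · intro i h1 h2
    obtain ⟨c, hc, h3⟩ := ht1 i h1 h2
    obtain ⟨c', hc', h4⟩ := ht1 k1 le_rfl hk1a
    refine ⟨c * c'⁻¹, by positivity, ?_⟩
    rw [h4, smul_smul, mul_assoc, inv_mul_cancel₀ hc'.ne', mul_one, h3]
  · have hb : v ⬝ᵥ edge K.P (k1 - 1) = 0 := horth _ (by omega) (by omega)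
    have hc : v ⬝ᵥ edge K.P k1 = 0 := horth _ (by omega) (by omega)
    obtain ⟨l, hl⟩ := vp_smul_of_cross hk (vp_triple_cross hb hc)
    rw [vp_det_cross, hl, smul_dotProduct, smul_eq_mul]
    refine mul_ne_zero ?_ hm1
    rintro rfl
    rw [zero_smul] at hl
    exact hcross hl

end Pool.Agent.helper81.SBX
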