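import Pool.Agent.helper81.SBX.VCnt

set_option autoImplicit false

/-!
# VView: strongly generic views are dense

`hopen` and `hdense` are theorems of block I (`View` is an open and dense condition).
PROOFS.
* `exists_sview`: choose a view `e1` near `b` (`hdense`), `s` with all `f`, `‖f - e1‖ < s`, views (`hopen`). The conditions `indep` and `line` fail only on countably many planes: for `i, j` with `edge i` not a multiple of `edge j`, the plane `det3 f (edge i) (edge j) = 0` (the linear form is not zero: `edge i × edge j ≠ 0`); for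
  `P i - P j` not a multiple of `edge j` the plane `det3 f (P i - P j) (edge j) = 0`. The complement of a countable union of planes is dense (Baire).
* `exists_good_view`: let `A, B, C` be independent. For `f` near `b = A - C` write `f = α A + β B + γ C` (Cramer), `α` near `1` and `γ` near `- 1`.
-/

namespace Pool.Agent.helper81.SBX

open Module Matrix
open Pool.Agent.helper82.SB (PolyKnot edge)
open Pool.Agent.helper43.SBI (xpos alt Under cnt View IsColoring Full)

theorem vview_det3_add (x y u w : E3) : det3 (x + y) u w = det3 x u w + det3 y u w := by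
  simp only [det3, Pi.add_apply]
  ring

theorem vview_det3_smul (t : ℝ) (x u w : E3) : det3 (t • x) u w = t * det3 x u w := by
  simp only [det3, Pi.smul_apply, smul_eq_mul]
  ring

theorem vview_cont (u w : E3) : Continuous fun f : E3 => det3 f u w := by
  unfold det3
  fun_prop

/-- A nonzero linear form of the shape `det3 · u w`. -/
theorem vview_exists (u w : E3) (hw : w ≠ 0) (h : ¬ ∃ c : ℝ, u = c • w) :
    ∃ f : E3, det3 f u w ≠ 0 := by
  by_contra hcon
  push Not at hcon
  apply h
  have h0 := hcon ![1, 0, 0]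
  have h1 := hcon ![0, 1, 0]
  have h2 := hcon ![0, 0, 1]
  simp [det3] at h0 h1 h2
  have hne : ∃ a, w a ≠ 0 := by
    by_contra hall
    push Not at hall
    exact hw (funext hall)
  obtain ⟨a, ha⟩ := hne
  refine ⟨u a / w a, ?_⟩
  funext b
  rw [Pi.smul_apply, smul_eq_mul, div_mul_eq_mul_div, eq_div_iff ha]
  fin_cases a <;> fin_cases b <;> simp at * <;> linarith

theorem vview_dense (u w : E3) (f0 : E3) (h0 : det3 f0 u w ≠ 0) :
    Dense {f : E3 | det3 f u w ≠ 0} := by
  rw [Metric.dense_iff]
  intro x r hr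
  by_cases hx : det3 x u w = 0
  · have hn : 0 ≤ ‖f0‖ := norm_nonneg _
    have ht : 0 < r / (2 * (‖f0‖ + 1)) := by positivity
    refine ⟨x + (r / (2 * (‖f0‖ + 1))) • f0, ?_, ?_⟩
    · rw [Metric.mem_ball, dist_eq_norm, add_sub_cancel_left, norm_smul, Real.norm_eq_abs,
        abs_of_pos ht]
      rw [div_mul_eq_mul_div, div_lt_iff₀ (by positivity)]
      nlinarith
    · show det3 _ u w ≠ 0
      rw [vview_det3_add, hx, zero_add, vview_det3_smul]
      exact mul_ne_zero ht.ne' h0
  · exact ⟨x, Metric.mem_ball_self hr, hx⟩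

theorem vview_edge_ne (K : PolyKnot) (j : ℤ) : edge K.P j ≠ 0 := by
  intro h
  apply K.corner j
  have : K.P (j + 1) - K.P j = 0 := h
  rw [this]
  exact SameRay.zero_right _

theorem vview_open (u w : E3) : IsOpen {f : E3 | det3 f u w ≠ 0} :=
  isOpen_ne_fun (vview_cont u w) continuous_const

theorem exists_sview (K : PolyKnot)
    (hopen : ∀ e, View K e → ∃ s > 0, ∀ f : E3, ‖f - e‖ < s → View K f)
    (hdense : ∀ (b : E3) (ε : ℝ), 0 < ε → ∃ e, View K e ∧ ‖e - b‖ < ε) :
    ∀ (b : E3) (ε : ℝ), 0 < ε → ∃ e, SView K e ∧ ‖e - b‖ < ε := by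
  classical
  intro b ε hε
  obtain ⟨e1, he1, hb1⟩ := hdense b (ε / 2) (by linarith)
  obtain ⟨s, hs, hs'⟩ := hopen e1 he1
  -- all pairs of vectors
  let uu : (ℤ × ℤ) × Bool → E3 := fun p =>
    if p.2 then edge K.P p.1.1 else K.P p.1.1 - K.P p.1.2
  let U : (ℤ × ℤ) × Bool → Set E3 := fun p =>
    if ∃ c : ℝ, uu p = c • edge K.P p.1.2 then Set.univ
    else {f : E3 | det3 f (uu p) (edge K.P p.1.2) ≠ 0}
  have hUo : ∀ p, IsOpen (U p) := by
    intro p
    by_cases h : ∃ c : ℝ, uu p = c • edge K.P p.1.2
    · simp only [U, if_pos h]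
      exact isOpen_univ
    · simp only [U, if_neg h]
      exact vview_open _ _
  have hUd : ∀ p, Dense (U p) := by
    intro p
    by_cases h : ∃ c : ℝ, uu p = c • edge K.P p.1.2
    · simp only [U, if_pos h]
      exact dense_univ
    · simp only [U, if_neg h]
      obtain ⟨f0, hf0⟩ := vview_exists _ _ (vview_edge_ne K p.1.2) h
      exact vview_dense _ _ f0 hf0
  have hd := dense_iInter_of_isOpen hUo hUd
  rw [Metric.dense_iff] at hd
  obtain ⟨f, hf1, hf2⟩ := hd e1 (min s (ε / 2)) (lt_min hs (by linarith))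
  rw [Metric.mem_ball, dist_eq_norm] at hf1
  rw [Set.mem_iInter] at hf2
  refine ⟨f, ⟨hs' f (hf1.trans_le (min_le_left _ _)), ?_, ?_⟩, ?_⟩
  · intro i j hdet
    by_contra hcon
    have h1 := hf2 ((i, j), true)
    have h2 : ¬ ∃ c : ℝ, uu ((i, j), true) = c • edge K.P j := hcon
    simp only [U, if_neg h2] at h1
    exact h1 hdet
  · intro i j hdet
    by_contra hcon
    have h1 := hf2 ((i, j), false)
    have h2 : ¬ ∃ c : ℝ, uu ((i, j), false) = c • edge K.P j := hcon
    simp only [U, if_neg h2] at h1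
    exact h1 hdet
  · calc ‖f - b‖ = ‖(f - e1) + (e1 - b)‖ := by rw [sub_add_sub_cancel]
      _ ≤ ‖f - e1‖ + ‖e1 - b‖ := norm_add_le _ _
      _ < ε / 2 + ε / 2 := add_lt_add (hf1.trans_le (min_le_right _ _)) hb1
      _ = ε := by ring

theorem exists_good_view (K : PolyKnot)
    (h : ∀ (b : E3) (ε : ℝ), 0 < ε → ∃ e, SView K e ∧ ‖e - b‖ < ε) {A B C : E3}
    (hd : det3 A B C ≠ 0) :
    ∃ (e : E3) (α β γ : ℝ), SView K e ∧ e = α • A + β • B + γ • C ∧ 0 < α ∧ γ < 0 := by
  have c1 : Continuous fun f : E3 => det3 f B C / det3 A B C := (vview_cont B C).div_const _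
  have c2 : Continuous fun f : E3 => det3 A B f / det3 A B C := by
    apply Continuous.div_const
    unfold det3
    fun_prop
  have v1 : det3 (A - C) B C / det3 A B C = 1 := by
    have : det3 (A - C) B C = det3 A B C := by
      simp only [det3, Pi.sub_apply]
      ring
    rw [this, div_self hd]
  have v2 : det3 A B (A - C) / det3 A B C = -1 := by
    have : det3 A B (A - C) = - det3 A B C := by
      simp only [det3, Pi.sub_apply]
      ring
    rw [this, neg_div, div_self hd]
  have e1 : ∀ᶠ f in nhds (A - C), 0 < det3 f B C / det3 A B C := by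
    apply c1.continuousAt.eventually_const_lt
    show 0 < det3 (A - C) B C / det3 A B C
    rw [v1]
    exact one_pos
  have e2 : ∀ᶠ f in nhds (A - C), det3 A B f / det3 A B C < 0 := by
    apply c2.continuousAt.eventually_lt_const
    show det3 A B (A - C) / det3 A B C < 0
    rw [v2]
    norm_num
  obtain ⟨ε, hε, hball⟩ := Metric.eventually_nhds_iff.1 (e1.and e2)
  obtain ⟨e, he, hb⟩ := h (A - C) ε hε
  have hb' : dist e (A - C) < ε := by rwa [dist_eq_norm]
  obtain ⟨p1, p2⟩ := hball hb'
  refine ⟨e, det3 e B C / det3 A B C, det3 A e C / det3 A B C, det3 A B e / det3 A B C, he, ?_,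
    p1, p2⟩
  have key : ∀ a, det3 A B C * e a = det3 e B C * A a + det3 A e C * B a + det3 A B e * C a := by
    intro a
    fin_cases a <;> simp [det3] <;> ring
  funext a
  simp only [Pi.add_apply, Pi.smul_apply, smul_eq_mul]
  rw [div_mul_eq_mul_div, div_mul_eq_mul_div, div_mul_eq_mul_div, ← add_div, ← add_div,
    eq_div_iff hd, ← key a]
  ring

end Pool.Agent.helper81.SBX
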