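import Pool.Agent.helper81.SBX.VCol
import Pool.Agent.helper81.SBX.VPlane
import Pool.Agent.helper81.SBX.VView
import Pool.Agent.helper81.SBX.VDir
import Pool.Agent.helper81.SBX.SCore

set_option autoImplicit false

/-!
# VMain: a polygon with full colourings in all views and at most four maxima in every direction

PROOF: take any view (`hdense`), a full colouring there; `nonplanar`, `exists_tri`, `exists_sview`, `exists_good_view` give a strongly generic view `e` and the corner structure; a full colouring in the view `e` gives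
`C : Col (mkM hs E S) Hm t` (`exists_enum` with `K.three`, `cnt_per`; `exists_pos`; `exists_col`); `exists_dir`, `numCap_le`, and `core`: `star U = m * U * star C.g`, `C.g = m' * g`, `star C.g = star g * star m'`, and
`star m' ∈ μ` is central.
-/

namespace Pool.Agent.helper81.SBX

open Module Matrix
open Pool.Agent.helper82.SB (PolyKnot edge maxima)
open Pool.Agent.helper43.SBI (xpos alt Under cnt View IsColoring Full)

variable {D V : Type} [DivisionRing D] [StarRing D] [AddCommGroup V] [Module D V]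
variable {Hm : Herm D V} {t : D} (ht : Six D t) (Λ : Lat Hm t)

theorem unit_of_coloring (hV : finrank D V = 3) (K : PolyKnot)
    (h4 : ∀ v, maxima K.n K.P v ≤ 4)
    (hopen : ∀ e, View K e → ∃ s > 0, ∀ f : E3, ‖f - e‖ < s → View K f)
    (hdense : ∀ (b : E3) (ε : ℝ), 0 < ε → ∃ e, View K e ∧ ‖e - b‖ < ε)
    (hcol : ∀ e, View K e → ∃ T, IsColoring (rootAQ ht Λ) K e T ∧ Full (rootFam ht Λ) K e T) :
    ∃ U : Dˣ, (U : D) ∈ Λ.O ∧ ((U⁻¹ : Dˣ) : D) ∈ Λ.O ∧
      ∃ m ∈ Six.mu t, star (U : D) = m * U * star Λ.g := by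
  obtain ⟨e0, he0, -⟩ := hdense 0 1 one_pos
  obtain ⟨T0, hT0, hF0⟩ := hcol e0 he0
  obtain ⟨k1, k0, h1, h2, h3, hdet⟩ := exists_tri K (nonplanar ht Λ hV hT0 hF0)
  obtain ⟨e, α, β, γ, hs, he, hα, hγ⟩ :=
    exists_good_view K (exists_sview K hopen hdense) hdet
  obtain ⟨T, hT, hF⟩ := hcol e hs.view
  obtain ⟨E⟩ := exists_enum (n := K.n) (by have := K.three; omega) (fun i => cnt K e i 1)
    (fun i => cnt_per K e i 1)
  obtain ⟨S⟩ := exists_pos hs.view
  obtain ⟨C, m', hm', hg, hO⟩ := exists_col ht Λ hs E S hT hF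
  obtain ⟨Δ⟩ := exists_dir hs E S h1 h2 h3 hdet he hα hγ
  obtain ⟨U, hU, hU', m, hm, hrel⟩ := core C ht Δ hV
    (fun u _ => numCap_le hs E S h4 (C.rs ht) rfl u) Λ.O hO Λ.t_mem
  refine ⟨U, hU, hU', m * star m', mu_mul hm (mu_star ht hm'), ?_⟩
  rw [hrel, hg, star_mul]
  have hc := mu_central ht (mu_star ht hm')
  calc m * (U : D) * (star Λ.g * star m') = m * ((U : D) * star Λ.g * star m') := by
        simp only [mul_assoc]
    _ = m * (star m' * ((U : D) * star Λ.g)) := by rw [hc]
    _ = m * star m' * (U : D) * star Λ.g := by simp only [mul_assoc]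

end Pool.Agent.helper81.SBX
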