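import Pool.Agent.helper81.SBX.VMarkB

set_option autoImplicit false

/-!
# VMark: the marked polygon of a polygonal knot with a strongly generic view
-/

namespace Pool.Agent.helper81.SBX

open Module Matrix
open Pool.Agent.helper82.SB (PolyKnot edge)
open Pool.Agent.helper43.SBI (xpos alt Under cnt View IsColoring Full)

/-- The marked polygon. -/
noncomputable def mkM {K : PolyKnot} {e : E3} (hs : SView K e)
    (E : Enum K.n fun i => cnt K e i 1) (S : Pos K e) : Marked where
  N := E.N
  q := qN E S
  e := e
  und j := 0 < E.of j
  o := oN E S
  lam := lamN E S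
  al := alN E S
  hN := E.N_pos
  q_per := qN_per E S
  und_per j := by rw [E.of_per]
  o_per := oN_per E S
  lam_pos _ hj := (lamN_pos E S hs hj).1
  lam_lt _ hj := (lamN_pos E S hs hj).2
  al_pos _ hj := alN_pos E S hj
  over_eq _ hj := over_eqN E S hs hj
  straight _ hj := straightN E S hj
  transv _ hj := transvN E S hs hj
  nodir := nodirN E S hs
  e_ne := e_ne hs.view
  corner := cornerN E S hs
  simple := simpleN E S
  complete := completeN E S hs

end Pool.Agent.helper81.SBX
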