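import Pool.Agent.helper81.SBX.VPos
import Pool.Agent.helper81.SBX.VEnum

set_option autoImplicit false

/-!
# VMarkA: local properties of the nodes of a coloured polygon

Write `i = ix j`, `k = of j`, `s = S.s`, `u = cnt K e i 1`, `E_i = edge K.P i`.
PROOFS.
* `qN_succ`: `qN (j + 1) = K.P i + s i (k + 1) • E_i`: if `k < u` by `next_in`; if `k = u` by `next_out`: `qN (j + 1) = K.P (i + 1) + s (i + 1) 0 • … = K.P (i + 1) = K.P i + 1 • E_i` and `s i (u + 1) = 1`.
* `dN_eq`, `pt_qN`: from `qN_succ`. The factor `s i (k + 1) - s i k` is positive (`s_lt`, `of_le`).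
* `qN_per`, `oN_per`: `Enum.ix_per`, `of_per`, `Pos.s_per`, `ov_per`, `st_per`, `xpos_per`, `cnt_per` (use both index periodicities).
* for an under node (`0 < of j`), `l = ovN j`, `Under i l`, `xpos i l = s i k` (`ov_under`, `ov_pos`), `c = cN j`: `ix (oN j) = l`, `of (oN j) = c` (`ix_st`, `of_st`, `c ≤ u_l` by `between`), so `qN (oN j) = K.P l + s l c • E_l`, `qN (oN j + 1) = K.P l + s l (c + 1) • E_l`,
  `0 < lam < 1` by `between`, `(1 - lam) qN (oN j) + lam qN (oN j + 1) = K.P l + xpos l i • E_l`, and `cross_eq` gives `over_eq`.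
* `straightN`: `j = (i, k)`, `k ≥ 1`, `j - 1 = (i, k - 1)` (`prev_in`): both differences are positive multiples of `E_i`.
* `transvN`: `det3 e (a • E_l) (b • E_i)`, `a, b > 0`; `under_det` and antisymmetry.
* `nodirN`: `edge_ne_smul`.
* `cornerN`: if `0 < of j`: `straightN`. Otherwise (`prev_out`) the differences are positive multiples of `E_{i-1}`, `E_i`: `edge_corner`.
-/

namespace Pool.Agent.helper81.SBX

open Module Matrix
open Pool.Agent.helper82.SB (PolyKnot edge)
open Pool.Agent.helper43.SBI (xpos alt Under cnt View IsColoring Full)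

variable {K : PolyKnot} {e : E3} (E : Enum K.n fun i => cnt K e i 1) (S : Pos K e)

theorem det3_smul_smul (e a b : E3) (x y : ℝ) : det3 e (x • a) (y • b) = x * y * det3 e a b := by
  simp only [det3, Pi.smul_apply, smul_eq_mul]
  ring

private theorem vma_anti (e a b : E3) : det3 e a b = -det3 e b a := by
  simp only [det3]
  ring

private theorem vma_alt_per (i l : ℤ) : alt K e (i + K.n) (l + K.n) = alt K e i l := by
  unfold alt
  rw [K.per, K.per, edge_per, edge_per]

private theorem vma_xpos_per (i l : ℤ) : xpos K e (i + K.n) (l + K.n) = xpos K e i l := by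
  rw [(xpos_per K e i (l + K.n)).1, (xpos_per K e i l).2]

theorem qN_succ (j : ℤ) : qN E S (j + 1) =
    K.P (E.ix j) + S.s (E.ix j) (E.of j + 1) • edge K.P (E.ix j) := by
  have h : E.of j ≤ cnt K e (E.ix j) 1 := E.of_le j
  rcases h.lt_or_eq with h | h
  · obtain ⟨h1, h2⟩ := E.next_in h
    unfold qN
    rw [h1, h2]
  · obtain ⟨h1, h2⟩ := E.next_out h
    unfold qN
    rw [h1, h2, S.s_zero, zero_smul, add_zero, h, S.s_last, one_smul]
    unfold edge
    rw [add_sub_cancel]

theorem sN_lt (j : ℤ) : S.s (E.ix j) (E.of j) < S.s (E.ix j) (E.of j + 1) :=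
  S.s_lt _ _ (E.of_le j)

theorem dN_eq (j : ℤ) : qN E S (j + 1) - qN E S j =
    (S.s (E.ix j) (E.of j + 1) - S.s (E.ix j) (E.of j)) • edge K.P (E.ix j) := by
  rw [qN_succ]
  unfold qN
  module

theorem pt_qN (j : ℤ) (x : ℝ) : (1 - x) • qN E S j + x • qN E S (j + 1) =
    K.P (E.ix j) + (S.s (E.ix j) (E.of j) + x * (S.s (E.ix j) (E.of j + 1) -
      S.s (E.ix j) (E.of j))) • edge K.P (E.ix j) := by
  rw [qN_succ]
  unfold qN
  module

theorem qN_per (j : ℤ) : qN E S (j + E.N) = qN E S j := by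
  unfold qN
  rw [E.ix_per, E.of_per, S.s_per, K.per, edge_per]

private theorem vma_ov (j : ℤ) : ovN E S (j + E.N) = ovN E S j + K.n := by
  unfold ovN
  rw [E.ix_per, E.of_per, S.ov_per]

private theorem vma_cN (j : ℤ) : cN E S (j + E.N) = cN E S j := by
  unfold cN
  rw [vma_ov, E.ix_per, cnt_per, vma_xpos_per]

theorem oN_per (j : ℤ) : oN E S (j + E.N) = oN E S j + E.N := by
  unfold oN
  rw [vma_ov, vma_cN, E.st_per]
  ring

theorem lamN_per (j : ℤ) : lamN E S (j + E.N) = lamN E S j ∧ alN E S (j + E.N) = alN E S j := by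
  constructor
  · unfold lamN
    rw [vma_ov, vma_cN, E.ix_per, vma_xpos_per, S.s_per, S.s_per]
  · unfold alN
    rw [vma_ov, E.ix_per, vma_alt_per]

theorem underN {j : ℤ} (hj : 0 < E.of j) : Under K e (E.ix j) (ovN E S j) ∧
    xpos K e (E.ix j) (ovN E S j) = S.s (E.ix j) (E.of j) :=
  ⟨S.ov_under _ _ hj (E.of_le j), S.ov_pos _ _ hj (E.of_le j)⟩

theorem ix_oN (hs : SView K e) {j : ℤ} (hj : 0 < E.of j) :
    E.ix (oN E S j) = ovN E S j ∧ E.of (oN E S j) = cN E S j := by
  have h := (between hs S (underN E S hj).1).1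
  exact ⟨E.ix_st _ _ h, E.of_st _ _ h⟩

theorem lamN_pos (hs : SView K e) {j : ℤ} (hj : 0 < E.of j) :
    0 < lamN E S j ∧ lamN E S j < 1 := by
  obtain ⟨-, h1, h2⟩ := between hs S (underN E S hj).1
  have h1' : S.s (ovN E S j) (cN E S j) < xpos K e (ovN E S j) (E.ix j) := h1
  have h2' : xpos K e (ovN E S j) (E.ix j) < S.s (ovN E S j) (cN E S j + 1) := h2
  unfold lamN
  constructor
  · exact div_pos (by linarith) (by linarith)
  · rw [div_lt_one (by linarith)]
    linarith

theorem alN_pos {j : ℤ} (hj : 0 < E.of j) : 0 < alN E S j :=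
  (underN E S hj).1.2.2.2

theorem over_eqN (hs : SView K e) {j : ℤ} (hj : 0 < E.of j) :
    (1 - lamN E S j) • qN E S (oN E S j) + lamN E S j • qN E S (oN E S j + 1) =
      qN E S j + alN E S j • e := by
  obtain ⟨hu, hx⟩ := underN E S hj
  obtain ⟨e1, e2⟩ := ix_oN E S hs hj
  obtain ⟨-, h1, h2⟩ := between hs S hu
  have h1' : S.s (ovN E S j) (cN E S j) < xpos K e (ovN E S j) (E.ix j) := h1
  have h2' : xpos K e (ovN E S j) (E.ix j) < S.s (ovN E S j) (cN E S j + 1) := h2
  have h3 : S.s (ovN E S j) (cN E S j + 1) - S.s (ovN E S j) (cN E S j) ≠ 0 := by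
    have : 0 < S.s (ovN E S j) (cN E S j + 1) - S.s (ovN E S j) (cN E S j) := by linarith
    exact this.ne'
  have h4 : lamN E S j * (S.s (ovN E S j) (cN E S j + 1) - S.s (ovN E S j) (cN E S j)) =
      xpos K e (ovN E S j) (E.ix j) - S.s (ovN E S j) (cN E S j) := by
    unfold lamN
    exact div_mul_cancel₀ _ h3
  rw [pt_qN, e1, e2, h4, add_sub_cancel]
  unfold qN alN
  rw [← hx]
  exact (cross_eq _ _ (under_det hu)).symm

theorem straightN {j : ℤ} (hj : 0 < E.of j) :
    ∃ c : ℝ, 0 < c ∧ qN E S (j + 1) - qN E S j = c • (qN E S j - qN E S (j - 1)) := by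
  obtain ⟨h1, -⟩ := E.prev_in hj
  have a := sN_lt E S j
  have b := sN_lt E S (j - 1)
  have d := dN_eq E S (j - 1)
  rw [sub_add_cancel] at d
  rw [dN_eq, d, h1]
  rw [h1] at b
  have b' : 0 < S.s (E.ix j) (E.of (j - 1) + 1) - S.s (E.ix j) (E.of (j - 1)) := by linarith
  refine ⟨(S.s (E.ix j) (E.of j + 1) - S.s (E.ix j) (E.of j)) /
    (S.s (E.ix j) (E.of (j - 1) + 1) - S.s (E.ix j) (E.of (j - 1))), div_pos (by linarith) b', ?_⟩
  rw [smul_smul, div_mul_cancel₀ _ b'.ne']

theorem transvN (hs : SView K e) {j : ℤ} (hj : 0 < E.of j) :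
    det3 e (qN E S (oN E S j + 1) - qN E S (oN E S j)) (qN E S (j + 1) - qN E S j) ≠ 0 := by
  have a := sN_lt E S j
  have b := sN_lt E S (oN E S j)
  rw [dN_eq, dN_eq, det3_smul_smul]
  refine mul_ne_zero (mul_ne_zero (by linarith) (by linarith)) ?_
  rw [(ix_oN E S hs hj).1, vma_anti]
  exact neg_ne_zero.2 (under_det (underN E S hj).1)

theorem nodirN (hs : SView K e) (j : ℤ) (c : ℝ) : qN E S (j + 1) - qN E S j ≠ c • e := by
  have a := sN_lt E S j
  have a' : S.s (E.ix j) (E.of j + 1) - S.s (E.ix j) (E.of j) ≠ 0 := by linarith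
  rw [dN_eq]
  intro h
  apply edge_ne_smul hs.view (E.ix j) ((S.s (E.ix j) (E.of j + 1) - S.s (E.ix j) (E.of j))⁻¹ * c)
  rw [mul_smul, ← h, smul_smul, inv_mul_cancel₀ a', one_smul]

theorem cornerN (hs : SView K e) (j : ℤ) :
    (∃ c : ℝ, 0 < c ∧ qN E S (j + 1) - qN E S j = c • (qN E S j - qN E S (j - 1))) ∨
      det3 e (qN E S j - qN E S (j - 1)) (qN E S (j + 1) - qN E S j) ≠ 0 := by
  rcases Nat.eq_zero_or_pos (E.of j) with hj | hj
  · obtain ⟨h1, -⟩ := E.prev_out hj
    have a := sN_lt E S j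
    have b := sN_lt E S (j - 1)
    have d := dN_eq E S (j - 1)
    rw [sub_add_cancel] at d
    rw [dN_eq, d, h1]
    rw [h1] at b
    have c := edge_corner hs (E.ix j - 1)
    rw [sub_add_cancel] at c
    have b' : 0 < S.s (E.ix j - 1) (E.of (j - 1) + 1) - S.s (E.ix j - 1) (E.of (j - 1)) := by
      linarith
    have a' : 0 < S.s (E.ix j) (E.of j + 1) - S.s (E.ix j) (E.of j) := by linarith
    rcases c with ⟨c, hc, h2⟩ | h2
    · left
      refine ⟨(S.s (E.ix j) (E.of j + 1) - S.s (E.ix j) (E.of j)) * c /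
        (S.s (E.ix j - 1) (E.of (j - 1) + 1) - S.s (E.ix j - 1) (E.of (j - 1))),
        div_pos (mul_pos a' hc) b', ?_⟩
      rw [smul_smul, div_mul_cancel₀ _ b'.ne', h2, smul_smul]
    · right
      rw [det3_smul_smul]
      exact mul_ne_zero (mul_ne_zero b'.ne' a'.ne') h2
  · left
    exact straightN E S hj

end Pool.Agent.helper81.SBX
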