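import Pool.Agent.helper81.SBX.VMarkA

set_option autoImplicit false

/-!
# VMarkB: simplicity and completeness of the marked polygon

A point of the polygon with index `j` and parameter `x ∈ [0, 1)` is, by `pt_qN`, the point of the edge `i = ix j` of `K` with parameter `y = s i k + x (s i (k + 1) - s i k) ∈ [s i k, s i (k + 1)) ⊆ [0, 1)` (`k = of j`; `s_mono`, `s_zero`, `s_last`).
`param_inj`: `y` and `i` determine `k` and `x` (the intervals `[s i k, s i (k + 1))` are disjoint, `s_mono`; `s_lt`).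
PROOFS.
* `simpleN`: `knot_simple` gives `i' = i + m * n` and `y = y'`; by periodicity of `s` (`Pos.s_per`) `k = k'` and `x = x'`, and `j' = j + m * N` by `Enum.inj` (`Enum.per_mul`).
* `completeN`: let `P = K.P i + y • E_i` (lower, index `j1 = (i, k)`, parameter `x`) and `K.P l + r • E_l = P + a • e`, `a > 0` (upper, index `j2 = (l, k')`, parameter `x'`). By `det_of_vertical` the edges cross, `xpos_unique`: `y = xpos i l`, `r = xpos l i`, `a = alt i l`. `y ≠ 0` and `r ≠ 0` by `View.vert` (a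
  vertex on a vertical line with another point). So `Under i l`. By `s_under`, with `k0 = cnt K e i (xpos i l) + 1`, `s i k0 = xpos i l = y` (`1 ≤ k0 ≤ cnt K e i 1`: the crossing itself is not counted in `cnt K e i (xpos i l)`), so `k = k0` and `x = 0` by `param_inj`: `0 < of j1`. The over edge `ovN j1 = ov i k0`
  is `l` modulo `n` (`ov_unique`): `ovN j1 = l + m * n`. `r = xpos l i ∈ (s l c, s l (c + 1))` with `c = cnt K e l (xpos l i)` (`between`), so `k' = c` and `x' > 0` (`param_inj`), and `oN j1 = st (l + m * n) + c = j2 + m * N` (`cN` is periodic: `cnt_per`, `xpos_per`).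
-/

namespace Pool.Agent.helper81.SBX

open Module Matrix
open Pool.Agent.helper82.SB (PolyKnot edge)
open Pool.Agent.helper43.SBI (xpos alt Under cnt View IsColoring Full)

variable {K : PolyKnot} {e : E3} (E : Enum K.n fun i => cnt K e i 1) (S : Pos K e)

theorem vmb_s_per (S : Pos K e) (i m : ℤ) (k : ℕ) : S.s (i + m * K.n) k = S.s i k := by
  have h : Function.Periodic (fun i => S.s i k) (K.n : ℤ) := fun i => S.s_per i k
  exact h.int_mul m i

theorem vmb_cnt_per (K : PolyKnot) (e : E3) (i m : ℤ) (x : ℝ) :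
    cnt K e (i + m * K.n) x = cnt K e i x := by
  have h : Function.Periodic (fun i => cnt K e i x) (K.n : ℤ) := fun i => cnt_per K e i x
  exact h.int_mul m i

theorem vmb_xpos_per (K : PolyKnot) (e : E3) (i j m : ℤ) :
    xpos K e (i + m * K.n) j = xpos K e i j := by
  have h : Function.Periodic (fun i => xpos K e i j) (K.n : ℤ) := fun i => (xpos_per K e i j).1
  exact h.int_mul m i

theorem vmb_s_le (S : Pos K e) {i : ℤ} {k l : ℕ} (h : k ≤ l) (hl : l ≤ cnt K e i 1 + 1) :
    S.s i k ≤ S.s i l := by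
  rcases h.lt_or_eq with h | h
  · exact (s_mono S h hl).le
  · rw [h]

theorem vmb_param_lt {i : ℤ} {k : ℕ} (hk : k ≤ cnt K e i 1) {x : ℝ} (hx1 : x < 1) :
    S.s i k + x * (S.s i (k + 1) - S.s i k) < S.s i (k + 1) := by
  have h := sub_pos.2 (S.s_lt i k hk)
  nlinarith

theorem vmb_param_ge {i : ℤ} {k : ℕ} (hk : k ≤ cnt K e i 1) {x : ℝ} (hx : 0 ≤ x) :
    S.s i k ≤ S.s i k + x * (S.s i (k + 1) - S.s i k) := by
  have h := sub_pos.2 (S.s_lt i k hk)
  nlinarith [mul_nonneg hx h.le]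

/-- the parameter on the edge determines the piece and the position on the piece -/
theorem param_inj {i : ℤ} {k k' : ℕ} (hk : k ≤ cnt K e i 1) (hk' : k' ≤ cnt K e i 1) {x x' : ℝ}
    (hx : 0 ≤ x) (hx1 : x < 1) (hx' : 0 ≤ x') (hx1' : x' < 1)
    (h : S.s i k + x * (S.s i (k + 1) - S.s i k) =
      S.s i k' + x' * (S.s i (k' + 1) - S.s i k')) : k = k' ∧ x = x' := by
  rcases lt_trichotomy k k' with hlt | heq | hlt
  · exfalso
    have h1 := vmb_param_lt S hk hx1
    have h2 := vmb_param_ge S hk' hx'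
    have h3 := vmb_s_le S (i := i) (show k + 1 ≤ k' from hlt) (by omega)
    linarith
  · subst heq
    refine ⟨rfl, ?_⟩
    have h1 := sub_pos.2 (S.s_lt i k hk)
    have h2 : x * (S.s i (k + 1) - S.s i k) = x' * (S.s i (k + 1) - S.s i k) := by linarith
    exact mul_right_cancel₀ h1.ne' h2
  · exfalso
    have h1 := vmb_param_lt S hk' hx1'
    have h2 := vmb_param_ge S hk hx
    have h3 := vmb_s_le S (i := i) (show k' + 1 ≤ k from hlt) (by omega)
    linarith

/-- the parameter is in `[0, 1)` -/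
theorem param_mem {i : ℤ} {k : ℕ} (hk : k ≤ cnt K e i 1) {x : ℝ} (hx : 0 ≤ x) (hx1 : x < 1) :
    0 ≤ S.s i k + x * (S.s i (k + 1) - S.s i k) ∧
      S.s i k + x * (S.s i (k + 1) - S.s i k) < 1 := by
  have h1 := vmb_param_lt S hk hx1
  have h2 := vmb_param_ge S hk hx
  have h3 := vmb_s_le S (i := i) (show k + 1 ≤ cnt K e i 1 + 1 by omega) le_rfl
  have h4 := vmb_s_le S (i := i) (Nat.zero_le k) (by omega)
  rw [S.s_last] at h3
  rw [S.s_zero] at h4
  exact ⟨by linarith, by linarith⟩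

theorem simpleN (i j : ℤ) (x y : ℝ) (hx : 0 ≤ x) (hx1 : x < 1) (hy : 0 ≤ y) (hy1 : y < 1)
    (h : (1 - x) • qN E S i + x • qN E S (i + 1) = (1 - y) • qN E S j + y • qN E S (j + 1)) :
    (∃ m : ℤ, j = i + m * E.N) ∧ x = y := by
  rw [pt_qN, pt_qN] at h
  obtain ⟨a1, a2⟩ := param_mem S (E.of_le i) hx hx1
  obtain ⟨b1, b2⟩ := param_mem S (E.of_le j) hy hy1
  obtain ⟨⟨m, hm⟩, hp⟩ := knot_simple K _ _ a1 a2 b1 b2 h
  have hof : E.of j ≤ cnt K e (E.ix i) 1 := by
    have h1 := E.of_le j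
    have h2 := vmb_cnt_per K e (E.ix i) m 1
    rw [← hm] at h2
    exact h1.trans h2.le
  rw [hm, vmb_s_per, vmb_s_per] at hp
  obtain ⟨hk, hxy⟩ := param_inj S (E.of_le i) hof hx hx1 hy hy1 hp
  refine ⟨⟨m, ?_⟩, hxy⟩
  obtain ⟨g1, g2⟩ := E.per_mul i m
  exact (E.inj (by rw [g1, hm]) (by rw [g2, hk])).symm

theorem completeN (hs : SView K e) (i j : ℤ) (x y a : ℝ) (hx : 0 ≤ x) (hx1 : x < 1) (hy : 0 ≤ y)
    (hy1 : y < 1) (ha : 0 < a)
    (h : (1 - y) • qN E S j + y • qN E S (j + 1) =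
      ((1 - x) • qN E S i + x • qN E S (i + 1)) + a • e) :
    x = 0 ∧ 0 < E.of i ∧ 0 < y ∧ ∃ m : ℤ, j = oN E S i + m * E.N := by
  rw [pt_qN, pt_qN] at h
  obtain ⟨a1, a2⟩ := param_mem S (E.of_le i) hx hx1
  obtain ⟨b1, b2⟩ := param_mem S (E.of_le j) hy hy1
  set I := E.ix i with hI
  set J := E.ix j with hJ
  set Y := S.s I (E.of i) + x * (S.s I (E.of i + 1) - S.s I (E.of i)) with hY
  set R := S.s J (E.of j) + y * (S.s J (E.of j + 1) - S.s J (E.of j)) with hR
  have hdet := det_of_vertical hs I J ha.ne' h.symm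
  obtain ⟨u1, u2, u3⟩ := xpos_unique I J hdet h.symm
  have hY0 : Y ≠ 0 := by
    intro h0
    rw [h0, zero_smul, add_zero] at h
    exact ha.ne' (hs.view.vert I J R a b1 b2.le h)
  have hR0 : R ≠ 0 := by
    intro h0
    rw [h0, zero_smul, add_zero] at h
    have h1 : K.P I + Y • edge K.P I = K.P J + (-a) • e := by
      rw [h, neg_smul]; abel
    have h2 := hs.view.vert J I Y (-a) a1 a2.le h1
    linarith
  have hYp : 0 < Y := lt_of_le_of_ne a1 (Ne.symm hY0)
  have hRp : 0 < R := lt_of_le_of_ne b1 (Ne.symm hR0)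
  have hU : Under K e I J := by
    refine ⟨by rw [det3_eq]; exact hdet, ⟨?_, ?_⟩, ⟨?_, ?_⟩, ?_⟩
    · rw [← u1]; exact hYp
    · rw [← u1]; exact a2
    · rw [← u2]; exact hRp
    · rw [← u2]; exact b2
    · rw [← u3]; exact ha
  -- the lower point
  have hs1 := S.s_under I J hU
  have hk0 : cnt K e I (xpos K e I J) + 1 ≤ cnt K e I 1 := by
    have h1 : cnt K e I (xpos K e I J) ≤ cnt K e I 1 := cnt_mono K e I hU.2.1.2.le
    by_contra hcon
    have h2 : cnt K e I (xpos K e I J) = cnt K e I 1 := by omega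
    rw [h2, S.s_last] at hs1
    have := hU.2.1.2
    linarith
  obtain ⟨hk, hx0⟩ := param_inj S (E.of_le i) hk0 hx hx1 le_rfl one_pos (by
    rw [zero_mul, add_zero, hs1, ← u1])
  have hofpos : 0 < E.of i := by rw [hk]; omega
  -- the upper point
  obtain ⟨c1, c2, c3⟩ := between hs S hU
  set c := cnt K e J (xpos K e J I) with hc
  have hgap : 0 < S.s J (c + 1) - S.s J c := by linarith
  have hx2 : 0 < (R - S.s J c) / (S.s J (c + 1) - S.s J c) := by
    apply div_pos _ hgap
    rw [u2]; linarith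
  have hx3 : (R - S.s J c) / (S.s J (c + 1) - S.s J c) < 1 := by
    rw [div_lt_one hgap, u2]; linarith
  obtain ⟨hk', hy'⟩ := param_inj S (E.of_le j) c1 hy hy1 hx2.le hx3 (by
    rw [div_mul_cancel₀ _ hgap.ne']
    rw [← hJ, ← hR]; ring)
  refine ⟨hx0, hofpos, by rw [hy']; exact hx2, ?_⟩
  obtain ⟨m, hm⟩ := S.ov_unique I J hU
  have hov : ovN E S i = J + m * K.n := by
    unfold ovN
    rw [← hI, hk]
    linear_combination hm
  refine ⟨-m, ?_⟩
  have hcN : cN E S i = c := by
    unfold cN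
    rw [hov, ← hI, vmb_cnt_per, vmb_xpos_per]
  have hst := E.st_ix j
  rw [← hJ, hk'] at hst
  unfold oN
  rw [hov, E.st_per_mul, hcN]
  linear_combination -hst

end Pool.Agent.helper81.SBX
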