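import Pool.Agent.helper81.SBX.VCnt

set_option autoImplicit false

/-!
# VPos: existence of the position data

PROOFS.
* `exists_pos`: fix `i`; the set `{l ∈ [0, n) | Under i l}` has `cnt K e i 1` elements (`0 < xpos < 1`),
  their positions are distinct (`View.triple`); sort them (`Finset.orderEmbOfFin` of the image in `ℝ`):
  `s i 1 < … < s i (u i)`, `cnt K e i (s i k) = k - 1`. `ov i k` = the `l` with this position, shifted by
  `i - i % n`.
* `between`: if `Under i l` (so `l` is over `i`), `c = cnt K e l (xpos l i)`: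
  `S.s l c < xpos l i < S.s l (c + 1)`, `c ≤ u l`: for `1 ≤ c`, `s l c < xpos l i` by monotonicity of `cnt`;
  not `s l (c + 1) < xpos l i` by strict monotonicity; equality `s l (c + 1) = xpos l i` is excluded by
  `triple'`.
* `s_mono`: induction from `s_lt`.
-/

namespace Pool.Agent.helper81.SBX

open Module Matrix
open Pool.Agent.helper82.SB (PolyKnot edge)
open Pool.Agent.helper43.SBI (xpos alt Under cnt View IsColoring Full)

variable {K : PolyKnot} {e : E3}

/-- the `k`-th element of a finite set of reals (starting with `k = 0`) -/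
private noncomputable def sfun (A : Finset ℝ) (k : ℕ) : ℝ :=
  if h : k < A.card then A.orderEmbOfFin rfl ⟨k, h⟩ else 0

private theorem sfun_mem {A : Finset ℝ} {k : ℕ} (h : k < A.card) : sfun A k ∈ A := by
  simp only [sfun, dif_pos h]
  exact A.orderEmbOfFin_mem rfl _

private theorem sfun_lt {A : Finset ℝ} {k l : ℕ} (h : k < l) (hl : l < A.card) :
    sfun A k < sfun A l := by
  simp only [sfun, dif_pos hl, dif_pos (h.trans hl)]
  exact (A.orderEmbOfFin rfl).strictMono (by simpa using h)

private theorem sfun_surj {A : Finset ℝ} {a : ℝ} (ha : a ∈ A) : ∃ k, k < A.card ∧ sfun A k = a := by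
  have h : a ∈ Set.range (A.orderEmbOfFin rfl) := by
    rw [Finset.range_orderEmbOfFin]
    exact ha
  obtain ⟨⟨k, hk⟩, h2⟩ := h
  exact ⟨k, hk, by simp only [sfun, dif_pos hk, h2]⟩

private theorem sfun_card {A : Finset ℝ} {k : ℕ} (h : k < A.card) :
    (A.filter fun a => a < sfun A k).card = k := by
  have h1 : (A.filter fun a => a < sfun A k) =
      (Finset.range k).image (sfun A) := by
    ext a
    simp only [Finset.mem_filter, Finset.mem_image, Finset.mem_range]
    constructor
    · rintro ⟨ha, hlt⟩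
      obtain ⟨l, hl, rfl⟩ := sfun_surj ha
      refine ⟨l, ?_, rfl⟩
      by_contra hcon
      rcases (not_lt.1 hcon).eq_or_lt with h2 | h2
      · rw [h2] at hlt
        exact lt_irrefl _ hlt
      · exact lt_asymm hlt (sfun_lt h2 hl)
    · rintro ⟨l, hl, rfl⟩
      exact ⟨sfun_mem (hl.trans h), sfun_lt hl h⟩
  rw [h1, Finset.card_image_of_injOn, Finset.card_range]
  intro a ha b hb hab
  have ha' : a < k := by simpa using ha
  have hb' : b < k := by simpa using hb
  rcases lt_trichotomy a b with h2 | h2 | h2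
  · exact absurd hab (sfun_lt h2 (hb'.trans h)).ne
  · exact h2
  · exact absurd hab (sfun_lt h2 (ha'.trans h)).ne'

open Classical in
/-- the positions of the undercrossings of the edge `i` -/
private noncomputable def posSet (K : PolyKnot) (e : E3) (i : ℤ) : Finset ℝ :=
  ((Finset.range K.n).filter fun l : ℕ => Under K e i l).image fun l : ℕ => xpos K e i l

private theorem mem_posSet {i : ℤ} {a : ℝ} :
    a ∈ posSet K e i ↔ ∃ l : ℕ, l < K.n ∧ Under K e i l ∧ xpos K e i l = a := by
  classical
  simp only [posSet, Finset.mem_image, Finset.mem_filter, Finset.mem_range]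
  constructor
  · rintro ⟨l, ⟨h1, h2⟩, h3⟩
    exact ⟨l, h1, h2, h3⟩
  · rintro ⟨l, h1, h2, h3⟩
    exact ⟨l, ⟨h1, h2⟩, h3⟩

private theorem cnt_eq (hv : View K e) (i : ℤ) (x : ℝ) :
    cnt K e i x = ((posSet K e i).filter fun a => a < x).card := by
  classical
  have h1 : ((posSet K e i).filter fun a => a < x) =
      ((Finset.range K.n).filter fun l : ℕ => Under K e i l ∧ xpos K e i l < x).image
        fun l : ℕ => xpos K e i l := by
    ext a
    simp only [Finset.mem_filter, Finset.mem_image, Finset.mem_range, mem_posSet]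
    constructor
    · rintro ⟨⟨l, h1, h2, rfl⟩, h4⟩
      exact ⟨l, ⟨h1, h2, h4⟩, rfl⟩
    · rintro ⟨l, ⟨h1, h2, h4⟩, rfl⟩
      exact ⟨⟨l, h1, h2, rfl⟩, h4⟩
  rw [h1, Finset.card_image_of_injOn]
  · simp only [cnt]
  · intro a ha b hb hab
    obtain ⟨ha1, ha2, -⟩ := Finset.mem_filter.1 (Finset.mem_coe.1 ha)
    obtain ⟨hb1, hb2, -⟩ := Finset.mem_filter.1 (Finset.mem_coe.1 hb)
    have hd := hv.triple i a b ha2 hb2 hab
    have ha3 := Finset.mem_range.1 ha1
    have hb3 := Finset.mem_range.1 hb1
    have h0 := Int.eq_zero_of_abs_lt_dvd hd (by rw [abs_lt]; constructor <;> omega)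
    omega

private theorem card_posSet (hv : View K e) (i : ℤ) : (posSet K e i).card = cnt K e i 1 := by
  rw [cnt_eq hv, Finset.filter_true_of_mem]
  intro a ha
  obtain ⟨l, -, h2, rfl⟩ := mem_posSet.1 ha
  exact h2.2.1.2

private theorem under_mul (K : PolyKnot) (e : E3) (i j m : ℤ) :
    Under K e i (j + m * K.n) ↔ Under K e i j := by
  induction m using Int.induction_on with
  | zero => simp
  | succ m ih =>
    rw [show j + ((m : ℤ) + 1) * (K.n : ℤ) = (j + m * K.n) + K.n by ring, (under_per K e i _).2, ih]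
  | pred m ih =>
    rw [← (under_per K e i _).2,
      show j + (-(m : ℤ) - 1) * (K.n : ℤ) + K.n = j + -(m : ℤ) * K.n by ring, ih]

private theorem xpos_mul (K : PolyKnot) (e : E3) (i j m : ℤ) :
    xpos K e i (j + m * K.n) = xpos K e i j := by
  induction m using Int.induction_on with
  | zero => simp
  | succ m ih =>
    rw [show j + ((m : ℤ) + 1) * (K.n : ℤ) = (j + m * K.n) + K.n by ring, (xpos_per K e i _).2, ih]
  | pred m ih =>
    rw [← (xpos_per K e i _).2,
      show j + (-(m : ℤ) - 1) * (K.n : ℤ) + K.n = j + -(m : ℤ) * K.n by ring, ih]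

private theorem n_pos (K : PolyKnot) : (0 : ℤ) < K.n := by
  have := K.three
  omega

private theorem red (K : PolyKnot) (j : ℤ) : ∃ l : ℕ, l < K.n ∧ ∃ m : ℤ, j = l + m * K.n := by
  have hn := n_pos K
  have h1 := Int.emod_nonneg j hn.ne'
  have h2 := Int.emod_lt_of_pos j hn
  refine ⟨(j % K.n).toNat, by omega, j / K.n, ?_⟩
  rw [Int.toNat_of_nonneg h1]
  have := Int.emod_add_ediv_mul j K.n
  exact this.symm

private theorem xpos_mem {i j : ℤ} (h : Under K e i j) : xpos K e i j ∈ posSet K e i := by
  obtain ⟨l, hl, m, rfl⟩ := red K j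
  rw [mem_posSet]
  exact ⟨l, hl, (under_mul K e i l m).1 h, (xpos_mul K e i l m).symm⟩

private theorem posSet_per (K : PolyKnot) (e : E3) (i : ℤ) :
    posSet K e (i + K.n) = posSet K e i := by
  ext a
  rw [mem_posSet, mem_posSet]
  constructor
  · rintro ⟨l, h1, h2, h3⟩
    exact ⟨l, h1, (under_per K e i l).1.1 h2, by rw [← h3, (xpos_per K e i l).1]⟩
  · rintro ⟨l, h1, h2, h3⟩
    exact ⟨l, h1, (under_per K e i l).1.2 h2, by rw [← h3, (xpos_per K e i l).1]⟩

/-- positions -/
private noncomputable def sP (K : PolyKnot) (e : E3) (i : ℤ) (k : ℕ) : ℝ :=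
  if k = 0 then 0 else if k = cnt K e i 1 + 1 then 1 else sfun (posSet K e i) (k - 1)

private theorem sP_mid {i : ℤ} {k : ℕ} (h1 : 1 ≤ k) (h2 : k ≤ cnt K e i 1) :
    sP K e i k = sfun (posSet K e i) (k - 1) := by
  simp only [sP]
  rw [if_neg (by omega), if_neg (by omega)]

/-- over edges modulo `n` -/
private noncomputable def bP (K : PolyKnot) (e : E3) (i : ℤ) (k : ℕ) : ℕ :=
  Classical.epsilon fun l : ℕ => Under K e i l ∧ xpos K e i l = sP K e i k

private theorem sP_per (K : PolyKnot) (e : E3) (i : ℤ) (k : ℕ) :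
    sP K e (i + K.n) k = sP K e i k := by
  simp only [sP, cnt_per, posSet_per]

private theorem bP_per (K : PolyKnot) (e : E3) (i : ℤ) (k : ℕ) :
    bP K e (i + K.n) k = bP K e i k := by
  simp only [bP]
  congr 1
  funext l
  rw [(under_per K e i l).1, (xpos_per K e i l).1, sP_per]

private theorem bP_spec (hv : View K e) {i : ℤ} {k : ℕ} (h1 : 1 ≤ k) (h2 : k ≤ cnt K e i 1) :
    Under K e i (bP K e i k) ∧ xpos K e i (bP K e i k) = sP K e i k := by
  have h3 : sP K e i k ∈ posSet K e i := by
    rw [sP_mid h1 h2]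
    exact sfun_mem (by rw [card_posSet hv]; omega)
  obtain ⟨l, -, h4, h5⟩ := mem_posSet.1 h3
  exact Classical.epsilon_spec (p := fun l : ℕ => Under K e i l ∧ xpos K e i l = sP K e i k)
    ⟨l, h4, h5⟩

private theorem shift_eq (K : PolyKnot) (i : ℤ) : i - i % K.n = i / K.n * K.n := by
  have := Int.emod_add_ediv_mul i K.n
  omega

/-- the position of an undercrossing -/
private theorem sP_under (hv : View K e) {i j : ℤ} (h : Under K e i j) :
    cnt K e i (xpos K e i j) + 1 ≤ cnt K e i 1 ∧
      sP K e i (cnt K e i (xpos K e i j) + 1) = xpos K e i j := by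
  obtain ⟨k, hk, h1⟩ := sfun_surj (xpos_mem h)
  have h2 : cnt K e i (xpos K e i j) = k := by
    rw [cnt_eq hv, ← h1, sfun_card hk]
  rw [card_posSet hv] at hk
  rw [h2]
  refine ⟨hk, ?_⟩
  rw [sP_mid (by omega) hk]
  simpa using h1

theorem exists_pos (hv : View K e) : Nonempty (Pos K e) := by
  have hlast : ∀ i, sP K e i (cnt K e i 1 + 1) = 1 := by
    intro i
    simp only [sP]
    rw [if_neg (by omega), if_pos trivial]
  have hov : ∀ i k, 1 ≤ k → k ≤ cnt K e i 1 →
      Under K e i ((bP K e i k : ℤ) + (i - i % K.n)) ∧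
        xpos K e i ((bP K e i k : ℤ) + (i - i % K.n)) = sP K e i k := by
    intro i k h1 h2
    obtain ⟨h3, h4⟩ := bP_spec hv h1 h2
    rw [shift_eq, under_mul, xpos_mul]
    exact ⟨h3, h4⟩
  refine ⟨{
    s := sP K e
    ov := fun i k => (bP K e i k : ℤ) + (i - i % K.n)
    s_zero := fun i => by simp [sP]
    s_last := hlast
    s_lt := ?_
    s_per := sP_per K e
    ov_per := ?_
    ov_under := fun i k h1 h2 => (hov i k h1 h2).1
    ov_pos := fun i k h1 h2 => (hov i k h1 h2).2
    cnt_pos := ?_
    s_under := fun i j h => (sP_under hv h).2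
    ov_unique := ?_ }⟩
  · intro i k hk
    have hmem : ∀ k, 1 ≤ k → k ≤ cnt K e i 1 → 0 < sP K e i k ∧ sP K e i k < 1 := by
      intro k h1 h2
      obtain ⟨h3, h4⟩ := bP_spec hv h1 h2
      rw [← h4]
      exact h3.2.1
    rcases Nat.eq_zero_or_pos k with h0 | hpos
    · subst h0
      have hz : sP K e i 0 = 0 := by simp [sP]
      rw [hz]
      rcases Nat.eq_zero_or_pos (cnt K e i 1) with h1 | h1
      · have := hlast i
        rw [h1] at this
        rw [this]
        exact one_pos
      · exact (hmem (0 + 1) (by omega) (by omega)).1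
    · rcases hk.eq_or_lt with h1 | h1
      · rw [h1, hlast]
        exact (hmem _ (by omega) le_rfl).2
      · rw [sP_mid hpos hk, sP_mid (by omega) (by omega)]
        exact sfun_lt (by omega) (by rw [card_posSet hv]; omega)
  · intro i k
    rw [bP_per, Int.add_emod_right]
    ring
  · intro i k h1 h2
    change cnt K e i (sP K e i k) + 1 = k
    rw [sP_mid h1 h2, cnt_eq hv, sfun_card (by rw [card_posSet hv]; omega)]
    omega
  · intro i j h
    obtain ⟨h1, h2⟩ := sP_under hv h
    obtain ⟨h3, h4⟩ := hov i _ (by omega) h1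
    exact hv.triple i _ j h3 h (h4.trans h2)

/-- strict monotonicity at an undercrossing -/
theorem cnt_lt {l m : ℤ} {y : ℝ} (h : Under K e l m) (hy : xpos K e l m < y) :
    cnt K e l (xpos K e l m) < cnt K e l y := by
  classical
  obtain ⟨a, ha, b, rfl⟩ := red K m
  have h1 : Under K e l a := (under_mul K e l a b).1 h
  rw [xpos_mul] at hy ⊢
  simp only [cnt]
  apply Finset.card_lt_card
  rw [Finset.ssubset_iff_of_subset]
  · refine ⟨a, ?_, ?_⟩
    · simp only [Finset.mem_filter, Finset.mem_range]
      exact ⟨ha, h1, hy⟩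
    · simp only [Finset.mem_filter, Finset.mem_range]
      rintro ⟨-, -, h2⟩
      exact lt_irrefl _ h2
  · intro c hc
    simp only [Finset.mem_filter, Finset.mem_range] at hc ⊢
    exact ⟨hc.1, hc.2.1, hc.2.2.trans hy⟩

theorem between (hs : SView K e) (S : Pos K e) {i l : ℤ} (h : Under K e i l) :
    cnt K e l (xpos K e l i) ≤ cnt K e l 1 ∧ S.s l (cnt K e l (xpos K e l i)) < xpos K e l i ∧
      xpos K e l i < S.s l (cnt K e l (xpos K e l i) + 1) := by
  have hx := h.2.2.1
  have hle : cnt K e l (xpos K e l i) ≤ cnt K e l 1 := cnt_mono K e l hx.2.le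
  refine ⟨hle, ?_, ?_⟩
  · rcases Nat.eq_zero_or_pos (cnt K e l (xpos K e l i)) with h0 | hpos
    · rw [h0, S.s_zero]
      exact hx.1
    · by_contra hcon
      have h1 := cnt_mono K e l (not_lt.1 hcon)
      have h2 := S.cnt_pos l _ hpos hle
      omega
  · rcases hle.eq_or_lt with h0 | hlt
    · have := S.s_last l
      rw [← h0] at this
      rw [this]
      exact hx.2
    · by_contra hcon
      have h1 := S.ov_under l (cnt K e l (xpos K e l i) + 1) (by omega) (by omega)
      have h2 := S.ov_pos l (cnt K e l (xpos K e l i) + 1) (by omega) (by omega)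
      rcases (not_lt.1 hcon).eq_or_lt with h3 | h3
      · exact triple' hs h h1 (h3.symm.trans h2.symm)
      · rw [← h2] at h3
        have h4 := cnt_lt h1 h3
        have h5 := S.cnt_pos l (cnt K e l (xpos K e l i) + 1) (by omega) (by omega)
        rw [← h2] at h5
        omega

/-- the positions are increasing -/
theorem s_mono (S : Pos K e) {i : ℤ} {k l : ℕ} (h : k < l) (hl : l ≤ cnt K e i 1 + 1) :
    S.s i k < S.s i l := by
  induction l with
  | zero => omega
  | succ l ih =>
    have h1 := S.s_lt i l (by omega)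
    rcases (Nat.lt_succ_iff.1 h).eq_or_lt with h2 | h2
    · rw [h2]
      exact h1
    · exact (ih h2 (by omega)).trans h1

end Pool.Agent.helper81.SBX
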